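import Pool.Agent.P.MP_8598be_al.E.Defs

namespace Pool.Agent.P.MP_8598be_al.E

open Finset

section Abstract

variable {α : Type} [Fintype α] [PartialOrder α] [OrderTop α] {cd : α → ℕ}

/-- Chains above `K` of total codimension `n`. -/
def chainCh (cd : α → ℕ) (K : α) (n : ℕ) (J : ℕ → α) : Prop :=
  Monotone J ∧ K ≤ J 0 ∧ ∃ m, (∀ j, m ≤ j → J j = ⊤) ∧ ∑ j ∈ range m, cd (J j) = n

/-- Saturated flags above `K` starting in codimension `c`. -/
def chainFl (cd : α → ℕ) (K : α) (c : ℕ) (J : Fin (c + 1) → α) : Prop :=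
  Monotone J ∧ K ≤ J 0 ∧ ∀ j, cd (J j) + j = c

omit [Fintype α] in
theorem chain_eq_top (hcd : StrictAnti cd) {K : α} (h : cd K = 0) : K = ⊤ := by
  by_contra hc
  have := hcd (lt_top_iff_ne_top.2 hc)
  omega

omit [Fintype α] in
theorem chainCh_iff (hcd : StrictAnti cd) (h0 : cd ⊤ = 0) {K : α} {n : ℕ} {J : ℕ → α} :
    chainCh cd K n J ↔ Monotone J ∧ K ≤ J 0 ∧ (∀ j, n ≤ j → J j = ⊤) ∧
      ∑ j ∈ range n, cd (J j) = n := by
  refine and_congr_right fun hm => and_congr_right fun _ => ⟨?_, fun h => ⟨n, h⟩⟩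
  rintro ⟨m, h1, h2⟩
  have h3 : ∀ j, n ≤ j → J j = ⊤ := by
    intro j hj
    by_contra hc
    have h4 : j < m := by
      by_contra h
      exact hc (h1 j (not_lt.1 h))
    have h5 : ∑ _i ∈ range (j + 1), 1 ≤ ∑ i ∈ range (j + 1), cd (J i) := by
      refine sum_le_sum fun i hi => Nat.pos_of_ne_zero fun h => hc ?_
      exact top_le_iff.1 (chain_eq_top hcd h ▸ hm (Nat.lt_succ_iff.1 (mem_range.1 hi)))
    have h6 : ∑ i ∈ range (j + 1), cd (J i) ≤ ∑ i ∈ range m, cd (J i) :=
      sum_le_sum_of_subset (range_subset_range.2 h4)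
    simp only [sum_const, card_range, smul_eq_mul, mul_one] at h5
    omega
  refine ⟨h3, ?_⟩
  have key : ∀ a, (∀ j, a ≤ j → J j = ⊤) → a ≤ max m n →
      ∑ j ∈ range a, cd (J j) = ∑ j ∈ range (max m n), cd (J j) := fun a ha hl =>
    sum_subset (range_subset_range.2 hl) fun j _ hj => by
      rw [ha j (not_lt.1 fun h => hj (mem_range.2 h)), h0]
  rw [key n h3 (le_max_right _ _), ← key m h1 (le_max_left _ _), h2]

theorem chainCh_finite (hcd : StrictAnti cd) (h0 : cd ⊤ = 0) (K : α) (n : ℕ) :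
    Finite {J // chainCh cd K n J} := by
  refine Finite.of_injective (fun J (i : Fin n) => J.1 i) fun J J' h => Subtype.ext (funext fun j => ?_)
  by_cases hj : j < n
  · exact congrFun h ⟨j, hj⟩
  · rw [((chainCh_iff hcd h0).1 J.2).2.2.1 j (not_lt.1 hj),
      ((chainCh_iff hcd h0).1 J'.2).2.2.1 j (not_lt.1 hj)]

omit [PartialOrder α] [OrderTop α] in
theorem chain_card_fib {β : Type} (p : β → Prop) [Finite {x // p x}] (f : β → α) :
    Nat.card {x // p x} = ∑ a, Nat.card {x // p x ∧ f x = a} := by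
  have : ∀ a, Finite {x // p x ∧ f x = a} := fun a =>
    Finite.of_injective (fun x => (⟨x.1, x.2.1⟩ : {x // p x})) fun x y h =>
      Subtype.ext (Subtype.mk.inj h)
  rw [← Nat.card_sigma]
  exact Nat.card_congr
    { toFun := fun x => ⟨f x.1, x.1, x.2, rfl⟩
      invFun := fun x => ⟨x.2.1, x.2.2.1⟩
      left_inv := fun _ => rfl
      right_inv := by rintro ⟨a, x, h, rfl⟩; rfl }

omit [Fintype α] in
theorem chain_shift (h0 : cd ⊤ = 0) {K K' : α} (h : K ≤ K') (n : ℕ) :
    Nat.card {J // chainCh cd K n J ∧ J 0 = K'} =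
      if cd K' ≤ n then Nat.card {J // chainCh cd K' (n - cd K') J} else 0 := by
  have key : ∀ J, chainCh cd K n J → J 0 = K' → cd K' ≤ n ∧
      chainCh cd K' (n - cd K') fun j => J (j + 1) := by
    rintro J ⟨h1, -, m, h2, h3⟩ rfl
    have h4 : ∑ j ∈ range m, cd (J (j + 1)) + cd (J 0) = n := by
      rw [← sum_range_succ' (fun j => cd (J j)), sum_range_succ, h2 m le_rfl, h0, add_zero, h3]
    exact ⟨by omega, fun a b hab => h1 (Nat.succ_le_succ hab), h1 (Nat.zero_le 1), m,
      fun j hj => h2 _ (by omega), Nat.eq_sub_of_add_eq h4⟩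
  split_ifs with hn
  · refine Nat.card_congr
      { toFun := fun J => ⟨fun j => J.1 (j + 1), (key _ J.2.1 J.2.2).2⟩
        invFun := fun J => ⟨fun j => Nat.casesOn j K' J.1, ⟨monotone_nat_of_le_succ ?_, h, ?_⟩, rfl⟩
        left_inv := fun J => Subtype.ext (funext fun j => ?_)
        right_inv := fun J => rfl }
    · rintro (_ | j)
      · exact J.2.2.1
      · exact J.2.1 (Nat.le_succ j)
    · obtain ⟨m, h2, h3⟩ := J.2.2.2
      refine ⟨m + 1, ?_, ?_⟩
      · rintro (_ | j) hj
        · omega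
        · exact h2 j (by omega)
      · rw [sum_range_succ']
        change ∑ j ∈ range m, cd (J.1 j) + cd K' = n
        omega
    · cases j with
      | zero => exact J.2.2.symm
      | succ j => rfl
  · have : IsEmpty {J // chainCh cd K n J ∧ J 0 = K'} := ⟨fun J => hn (key _ J.2.1 J.2.2).1⟩
    exact Nat.card_of_isEmpty

/-- The generating series of the chains above `K`. -/
noncomputable def chainH (cd : α → ℕ) (K : α) : PowerSeries ℤ :=
  PowerSeries.mk fun n => (Nat.card {J // chainCh cd K n J} : ℤ)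

open Classical in
theorem chainH_rec (hcd : StrictAnti cd) (h0 : cd ⊤ = 0) (K : α) :
    chainH cd K = PowerSeries.X ^ cd K * chainH cd K +
      ∑ K' with K < K', PowerSeries.X ^ cd K' * chainH cd K' := by
  have e : chainH cd K = ∑ K' with K ≤ K', PowerSeries.X ^ cd K' * chainH cd K' := by
    ext n
    have := chainCh_finite hcd h0 K n
    rw [map_sum, sum_filter, chainH, PowerSeries.coeff_mk, chain_card_fib _ fun J => J 0,
      Nat.cast_sum]
    refine sum_congr rfl fun K' _ => ?_
    split_ifs with h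
    · rw [chain_shift h0 h, PowerSeries.coeff_X_pow_mul', chainH, PowerSeries.coeff_mk]
      split_ifs <;> simp
    · have : IsEmpty {J // chainCh cd K n J ∧ J 0 = K'} := ⟨fun J => h (J.2.2 ▸ J.2.1.2.1)⟩
      simp
  have e2 : (univ.filter fun K' => K ≤ K') = insert K (univ.filter fun K' => K < K') := by
    ext K'
    simp [le_iff_eq_or_lt, eq_comm]
  conv_lhs => rw [e, e2, sum_insert (by simp)]

omit [Fintype α] in
theorem chainH_top (hcd : StrictAnti cd) (h0 : cd ⊤ = 0) : chainH cd ⊤ = 1 := by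
  ext n
  rw [chainH, PowerSeries.coeff_mk, PowerSeries.coeff_one]
  have key : ∀ J, chainCh cd ⊤ n J → J = fun _ => ⊤ := fun J h =>
    funext fun j => top_le_iff.1 (h.2.1.trans (h.1 (Nat.zero_le j)))
  split_ifs with hn
  · subst hn
    have : Unique {J // chainCh cd ⊤ 0 J} :=
      ⟨⟨⟨fun _ => ⊤, monotone_const, le_rfl, 0, fun _ _ => rfl, rfl⟩⟩,
        fun J => Subtype.ext (key _ J.2)⟩
    simp
  · have : IsEmpty {J // chainCh cd ⊤ n J} := ⟨fun J => hn (by
      have h := ((chainCh_iff hcd h0).1 J.2).2.2.2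
      rw [key _ J.2] at h
      simpa [h0] using h.symm)⟩
    simp

open Classical in
omit [OrderTop α] in
theorem chainFl_rec (hcd : StrictAnti cd) {K : α} {c : ℕ} (hK : cd K = c + 1) :
    Nat.card {J // chainFl cd K (c + 1) J} =
      ∑ K' with K < K', if cd K' = c then Nat.card {J // chainFl cd K' c J} else 0 := by
  have start : ∀ {K : α} {c : ℕ} {J}, cd K = c → chainFl cd K c J → J 0 = K := by
    intro K c J hK h
    by_contra hc
    have h1 := hcd (lt_of_le_of_ne h.2.1 (Ne.symm hc))
    have h2 := h.2.2 0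
    simp only [Fin.val_zero] at h2
    omega
  have e : Nat.card {J // chainFl cd K (c + 1) J} = Nat.card {J // chainFl cd K c J} := by
    refine Nat.card_congr
      { toFun := fun J => ⟨Fin.tail J.1, fun a b hab => J.2.1 (Fin.succ_le_succ_iff.2 hab),
          J.2.2.1.trans (J.2.1 (Fin.zero_le _)), fun j => ?_⟩
        invFun := fun J => ⟨Fin.cons K J.1, Fin.monotone_iff_le_succ.2 fun j => ?_, le_rfl,
          fun j => ?_⟩
        left_inv := fun J => Subtype.ext ?_
        right_inv := fun J => Subtype.ext rfl }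
    · have := J.2.2.2 j.succ
      rw [Fin.val_succ] at this
      change cd (J.1 j.succ) + j = c
      omega
    · refine Fin.cases J.2.2.1 (fun j => ?_) j
      rw [← Fin.succ_castSucc, Fin.cons_succ, Fin.cons_succ]
      exact J.2.1 (Fin.castSucc_lt_succ).le
    · refine Fin.cases hK (fun j => ?_) j
      have := J.2.2.2 j
      rw [Fin.cons_succ, Fin.val_succ]
      omega
    · have := Fin.cons_self_tail J.1
      rwa [start hK J.2] at this
  rw [e, chain_card_fib _ fun J => J 0, sum_filter]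
  refine sum_congr rfl fun K' _ => ?_
  rw [← ite_and]
  split_ifs with h
  · exact Nat.card_congr (Equiv.subtypeEquivRight fun J =>
      ⟨fun h' => ⟨h'.1.1, h'.2.ge, h'.1.2.2⟩,
        fun h' => ⟨⟨h'.1, h.1.le.trans h'.2.1, h'.2.2⟩, start h.2 h'⟩⟩)
  · have : IsEmpty {J // chainFl cd K c J ∧ J 0 = K'} := ⟨fun J => h (by
      obtain ⟨J, ⟨-, h1, h2⟩, rfl⟩ := J
      have h3 := h2 0
      simp only [Fin.val_zero, add_zero] at h3
      exact ⟨lt_of_le_of_ne h1 fun h4 => by rw [h4] at hK; omega, h3⟩)⟩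
    exact Nat.card_of_isEmpty

theorem chain_main (hcd : StrictAnti cd) (h0 : cd ⊤ = 0) (c : ℕ) : ∀ K, cd K = c →
    ∃ R : Polynomial ℤ, R.natDegree ≤ c * c ∧ R.eval 1 = Nat.card {J // chainFl cd K c J} ∧
      (cyc ℤ c : PowerSeries ℤ) * chainH cd K = R := by
  classical
  induction c using Nat.strong_induction_on with
  | _ c ih =>
  intro K hK
  cases c with
  | zero =>
    obtain rfl := chain_eq_top hcd hK
    have : Unique {J // chainFl cd ⊤ 0 J} :=
      ⟨⟨⟨fun _ => ⊤, monotone_const, le_rfl, fun j => by simp [h0]⟩⟩,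
        fun J => Subtype.ext (funext fun j => top_le_iff.1 (J.2.2.1.trans (J.2.1 (Fin.zero_le _))))⟩
    exact ⟨1, by simp, by simp, by simp [cyc, chainH_top hcd h0]⟩
  | succ c =>
    have hlt : ∀ K', K < K' → cd K' ≤ c := fun K' h => by have := hcd h; omega
    have : ∀ K', ∃ R : Polynomial ℤ, K < K' → R.natDegree ≤ cd K' * cd K' ∧
        R.eval 1 = Nat.card {J // chainFl cd K' (cd K') J} ∧
        (cyc ℤ (cd K') : PowerSeries ℤ) * chainH cd K' = R := by
      intro K'
      by_cases h : K < K'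
      · obtain ⟨R, hR⟩ := ih _ (Nat.lt_succ_of_le (hlt K' h)) K' rfl
        exact ⟨R, fun _ => hR⟩
      · exact ⟨0, fun h' => absurd h' h⟩
    choose R hR using this
    refine ⟨∑ K' with K < K', Polynomial.X ^ cd K' * R K' *
      ∏ i ∈ Ico (cd K') c, (1 - Polynomial.X ^ (i + 1)), ?_, ?_, ?_⟩
    · refine Polynomial.natDegree_sum_le_of_forall_le _ _ fun K' hK' => ?_
      have h := (mem_filter.1 hK').2
      have h1 : (∏ i ∈ Ico (cd K') c, (1 - Polynomial.X ^ (i + 1) : Polynomial ℤ)).natDegree ≤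
          (c - cd K') * c := by
        refine (Polynomial.natDegree_prod_le _ _).trans ?_
        rw [← Nat.card_Ico, ← smul_eq_mul]
        refine sum_le_card_nsmul _ _ _ fun i hi => (Polynomial.natDegree_sub_le _ _).trans ?_
        simpa using (mem_Ico.1 hi).2
      have h2 := (hR K' h).1
      have h3 : (Polynomial.X ^ cd K' * R K').natDegree ≤ cd K' + cd K' * cd K' :=
        Polynomial.natDegree_mul_le.trans (add_le_add (Polynomial.natDegree_X_pow_le _) h2)
      refine Polynomial.natDegree_mul_le.trans ((add_le_add h3 h1).trans ?_)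
      obtain ⟨d, rfl⟩ := Nat.exists_eq_add_of_le (hlt K' h)
      rw [Nat.add_sub_cancel_left]
      nlinarith
    · rw [chainFl_rec hcd hK, Polynomial.eval_finsetSum, Nat.cast_sum]
      refine sum_congr rfl fun K' hK' => ?_
      have h := (mem_filter.1 hK').2
      rw [Polynomial.eval_mul, Polynomial.eval_mul, (hR K' h).2.1, Polynomial.eval_prod]
      split_ifs with h1
      · subst h1
        simp
      · rw [prod_eq_zero (mem_Ico.2 ⟨le_rfl, lt_of_le_of_ne (hlt K' h) h1⟩) (by simp)]
        simp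
    · have e : (1 - PowerSeries.X ^ (c + 1)) * chainH cd K =
          ∑ K' with K < K', PowerSeries.X ^ cd K' * chainH cd K' := by
        rw [sub_mul, one_mul, ← hK, sub_eq_iff_eq_add']
        exact chainH_rec hcd h0 K
      have e2 : cyc ℤ (c + 1) = cyc ℤ c * (1 - Polynomial.X ^ (c + 1)) := prod_range_succ _ _
      rw [e2, Polynomial.coe_mul, Polynomial.coe_sub, Polynomial.coe_one, Polynomial.coe_pow,
        Polynomial.coe_X, mul_assoc, e, mul_sum, ← Polynomial.coeToPowerSeries.ringHom_apply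
          (φ := ∑ _ ∈ _, _), map_sum]
      refine sum_congr rfl fun K' hK' => ?_
      have h := (mem_filter.1 hK').2
      have e3 : cyc ℤ c = cyc ℤ (cd K') * ∏ i ∈ Ico (cd K') c, (1 - Polynomial.X ^ (i + 1)) :=
        (prod_range_mul_prod_Ico _ (hlt K' h)).symm
      rw [Polynomial.coeToPowerSeries.ringHom_apply, Polynomial.coe_mul, Polynomial.coe_mul,
        ← (hR K' h).2.2, e3, Polynomial.coe_mul, Polynomial.coe_pow, Polynomial.coe_X]
      ring

end Abstract

theorem chain_series {I ι : Type} [Fintype I] (F : Type) [Field F] [Finite F]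
    (A : ι → Matrix I I ℤ) : ∃ P : Polynomial ℤ,
      P.natDegree ≤ Fintype.card I * Fintype.card I ∧ P.eval 1 = flagCount F A ∧
      (cyc ℤ (Fintype.card I) : PowerSeries ℤ) *
        PowerSeries.mk (fun n => (chainCount F A n : ℤ)) = P := by
  have : Finite (Submodule F (I → F)) := Finite.of_injective _ SetLike.coe_injective
  let _ : Fintype {Λ // Inv F A Λ} := Fintype.ofFinite _
  let _ : OrderTop {Λ // Inv F A Λ} := Subtype.orderTop fun _ _ _ => Submodule.mem_top
  let cd : {Λ // Inv F A Λ} → ℕ := fun Λ => Fintype.card I - Module.finrank F Λ.1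
  have hle : ∀ Λ : Submodule F (I → F), Module.finrank F Λ ≤ Fintype.card I := fun Λ =>
    (Submodule.finrank_le Λ).trans (Module.finrank_fintype_fun_eq_card F).le
  have hcd : StrictAnti cd := fun Λ Λ' h => by
    have h1 : Module.finrank F Λ.1 < Module.finrank F Λ'.1 := Submodule.finrank_lt_finrank_of_lt h
    have h2 := hle Λ'.1
    simp only [cd]
    omega
  have h0 : cd ⊤ = 0 := by
    change Fintype.card I - Module.finrank F (⊤ : Submodule F (I → F)) = 0
    rw [finrank_top, Module.finrank_fintype_fun_eq_card, Nat.sub_self]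
  let B : {Λ // Inv F A Λ} := ⟨⊥, fun k v hv => by
    rw [(Submodule.mem_bot F).1 hv, Matrix.mulVec_zero]; exact zero_mem _⟩
  obtain ⟨R, h1, h2, h3⟩ := chain_main hcd h0 (Fintype.card I) B (by simp [cd, B])
  refine ⟨R, h1, h2.trans (congrArg _ (Nat.card_congr ?_)), Eq.trans ?_ h3⟩
  · exact
      { toFun := fun J => ⟨fun j => (J.1 j).1, J.2.1, fun j => ⟨(J.1 j).2, by
          have h4 := J.2.2.2 j
          have h5 := hle (J.1 j).1
          simp only [cd] at h4 ⊢
          omega⟩⟩
        invFun := fun J => ⟨fun j => ⟨J.1 j, (J.2.2 j).1⟩, J.2.1, bot_le (α := Submodule _ _),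
          fun j => by
            have h4 := (J.2.2 j).2
            have h5 := hle (J.1 j)
            simp only [cd]
            omega⟩
        left_inv := fun _ => rfl
        right_inv := fun _ => rfl }
  · congr 1
    ext n
    rw [PowerSeries.coeff_mk, chainH, PowerSeries.coeff_mk]
    refine congrArg _ (Nat.card_congr
      { toFun := fun J => ⟨fun j => ⟨J.1 j, J.2.2.1 j⟩, (chainCh_iff hcd h0).2
          ⟨J.2.1, bot_le (α := Submodule _ _), fun j hj => Subtype.ext (J.2.2.2.1 j hj),
            J.2.2.2.2⟩⟩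
        invFun := fun J => ⟨fun j => (J.1 j).1, J.2.1, fun j => (J.1 j).2,
          fun j hj => congrArg Subtype.val (((chainCh_iff hcd h0).1 J.2).2.2.1 j hj),
          ((chainCh_iff hcd h0).1 J.2).2.2.2⟩
        left_inv := fun _ => rfl
        right_inv := fun _ => rfl })

end Pool.Agent.P.MP_8598be_al.E
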