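import Pool.Agent.P.MP_8598be_al.Defs

/-!
Invariant lattices, chains and flags of a finite family of integral matrices.
-/

namespace Pool.Agent.P.MP_8598be_al.E

open Matrix

variable {I ι : Type} [Fintype I]

/-- The submodule `Λ` is invariant under all matrices `A k`. -/
def Inv (R : Type) [CommRing R] (A : ι → Matrix I I ℤ) (Λ : Submodule R (I → R)) : Prop :=
  ∀ k, ∀ v ∈ Λ, (A k).map (Int.cast : ℤ → R) *ᵥ v ∈ Λ

/-- The number of invariant submodules of index `m`. -/
noncomputable def subCount (R : Type) [CommRing R] (A : ι → Matrix I I ℤ) (m : ℕ) : ℕ :=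
  Nat.card {Λ : Submodule R (I → R) // Inv R A Λ ∧ Λ.toAddSubgroup.index = m}

/-- The number of ascending chains of invariant subspaces with total codimension `n`. -/
noncomputable def chainCount (F : Type) [Field F] (A : ι → Matrix I I ℤ) (n : ℕ) : ℕ :=
  Nat.card {J : ℕ → Submodule F (I → F) // Monotone J ∧ (∀ j, Inv F A (J j)) ∧
    (∀ j, n ≤ j → J j = ⊤) ∧
    ∑ j ∈ Finset.range n, (Fintype.card I - Module.finrank F (J j)) = n}

/-- The number of complete flags of invariant subspaces. -/
noncomputable def flagCount (F : Type) [Field F] (A : ι → Matrix I I ℤ) : ℕ :=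
  Nat.card {J : Fin (Fintype.card I + 1) → Submodule F (I → F) // Monotone J ∧
    ∀ j, Inv F A (J j) ∧ Module.finrank F (J j) = j}

/-- The product of `1 - Y ^ i` for `1 ≤ i ≤ r`. -/
noncomputable def cyc (R : Type) [CommRing R] (r : ℕ) : Polynomial R :=
  ∏ i ∈ Finset.range r, (1 - Polynomial.X ^ (i + 1))

/-- The product of the factors `X ^ a - X ^ a' Y ^ b`. -/
noncomputable def den (l : Multiset (ℕ × ℕ × ℕ)) : MvPolynomial (Fin 2) ℚ :=
  (l.map fun t => MvPolynomial.X 0 ^ t.1 - MvPolynomial.X 0 ^ t.2.1 * MvPolynomial.X 1 ^ t.2.2).prod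

/-- The value of `W` at `X = x` is the power series with coefficients `a`. -/
def Ser (W : RatXY) (x : ℚ) (a : ℕ → ℚ) : Prop :=
  EvalAt W (algebraMap ℚ (LaurentSeries ℚ) x) ((PowerSeries.X : PowerSeries ℚ) : LaurentSeries ℚ)
    ((PowerSeries.mk a : PowerSeries ℚ) : LaurentSeries ℚ)

/-- The Lie monomial of a bracketing. -/
noncomputable def lieT (R : Type) [CommRing R] {d : ℕ} :
    FreeMagma (Fin d) → FreeLieAlgebra R (Fin d)
  | .of k => FreeLieAlgebra.of R k
  | .mul a b => ⁅lieT R a, lieT R b⁆

/-- The image of a Lie monomial in the free associative algebra. -/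
noncomputable def ascT (R : Type) [CommRing R] {d : ℕ} :
    FreeMagma (Fin d) → FreeAlgebra R (Fin d)
  | .of k => FreeAlgebra.ι R k
  | .mul a b => ascT R a * ascT R b - ascT R b * ascT R a

/-- The multidegree of a bracketing. -/
def wtT {d : ℕ} : FreeMagma (Fin d) → Fin d → ℕ
  | .of k => Pi.single k 1
  | .mul a b => wtT a + wtT b

/-- The family `τ` gives bases of the homogeneous parts of degree at most `c`, linearly independent
in the free associative algebra. -/
def IsBasis (c d : ℕ) (τ : I → FreeMagma (Fin d)) : Prop :=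
  (∀ u, (τ u).length ≤ c) ∧ ∀ (R : Type) [CommRing R],
    (∀ i, i < c → piece R d i =
      Submodule.span R ((fun u => lieT R (τ u)) '' {u | (τ u).length = i + 1})) ∧
    LinearIndependent R fun u => ascT R (τ u)

/-- The matrices `A (inr k)` describe the bracket with the generators modulo degree `c + 1`, the
matrices `A (inl i)` are the projections to the homogeneous parts. -/
def IsModel [DecidableEq I] (c d : ℕ) (τ : I → FreeMagma (Fin d))
    (A : Fin c ⊕ Fin d → Matrix I I ℤ) : Prop :=
  (∀ i, A (.inl i) = diagonal fun u => if (τ u).length = i + 1 then 1 else 0) ∧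
  (∀ k w u, A (.inr k) w u ≠ 0 → wtT (τ w) = wtT (τ u) + Pi.single k 1) ∧
  ∀ (R : Type) [CommRing R] k u, (τ u).length < c →
    ⁅lieT R (τ u), FreeLieAlgebra.of R k⁆ = ∑ w, (A (.inr k) w u : R) • lieT R (τ w)

end Pool.Agent.P.MP_8598be_al.E
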