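import Pool.Agent.P.MP_8598be_al.E.Defs
import Pool.Agent.P.MP_8598be_al.Values
import Pool.Agent.Lib.PadicQE.Defs

namespace Pool.Agent.P.MP_8598be_al.E

open Polynomial Pool.Agent.Lib.PadicQE

lemma dena_dvd {o k : ℕ} (ho : 0 < o) (h : o.totient ≤ k) : o ∣ (k + 1).factorial ^ (k + 1) := by
  rw [Nat.dvd_iff_prime_pow_dvd_dvd]
  intro q j hq hj
  cases j with
  | zero => simp
  | succ j =>
    have h1 := (Nat.le_of_dvd (Nat.totient_pos.2 ho) (Nat.totient_dvd_of_dvd hj)).trans h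
    rw [Nat.totient_prime_pow_succ hq] at h1
    have h2 := hq.two_le
    have h3 : j < q ^ j := Nat.lt_pow_self h2
    have h4 : q ^ j ≤ q ^ j * (q - 1) := Nat.le_mul_of_pos_right _ (by omega)
    have h5 : q - 1 ≤ q ^ j * (q - 1) := Nat.le_mul_of_pos_left _ (by omega)
    exact (pow_dvd_pow_of_dvd (Nat.dvd_factorial hq.pos (show q ≤ k + 1 by omega)) _).trans
      (pow_dvd_pow _ (by omega))

lemma dena_field {K : Type} [Field K] [CharZero K] [FiniteDimensional ℚ K] {k : ℕ}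
    (hk : Module.finrank ℚ K ≤ k) {p : ℕ} (hp : p.Prime) (y : K) (a : ℤ) (b : ℕ) (hb : 1 ≤ b)
    (h : (p : K) ^ a * y ^ b = 1) :
    ∃ a' : ℤ, (p : K) ^ a' * y ^ (k.factorial * (k + 1).factorial ^ (k + 1)) = 1 := by
  have := Fact.mk hp
  set e := Module.finrank ℚ K with he
  have he0 : 0 < e := Module.finrank_pos
  have hp0 : (p : ℚ) ≠ 0 := Nat.cast_ne_zero.2 hp.ne_zero
  have hpK : (p : K) ≠ 0 := Nat.cast_ne_zero.2 hp.ne_zero
  have h1 : ((p : ℚ) ^ a) ^ e * Algebra.norm ℚ y ^ b = 1 := by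
    have h2 : (p : K) ^ a = algebraMap ℚ K ((p : ℚ) ^ a) := by simp
    have := congrArg (Algebra.norm ℚ) h
    rwa [map_mul, map_pow, map_one, h2, Algebra.norm_algebraMap] at this
  have hN : Algebra.norm ℚ y ≠ 0 := by
    intro h0
    rw [h0, zero_pow (by omega), mul_zero] at h1
    exact zero_ne_one h1
  set v := padicValRat p (Algebra.norm ℚ y) with hv
  have h2 : e * a + b * v = 0 := by
    have := congrArg (padicValRat p) h1
    rwa [padicValRat.mul (pow_ne_zero _ (zpow_ne_zero _ hp0)) (pow_ne_zero _ hN),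
      padicValRat.pow, padicValRat.pow, padicValRat.zpow, padicValRat.self hp.one_lt,
      padicValRat.one, mul_one] at this
  set u : K := (p : K) ^ (-v) * y ^ e with hu
  have h3 : u ^ b = 1 := by
    have h4 : -v * b = a * e := by linarith
    rw [hu, mul_pow, ← zpow_natCast, ← zpow_mul, h4, zpow_mul, zpow_natCast, ← pow_mul,
      mul_comm e b, pow_mul, ← mul_pow, h, one_pow]
  have h4 : 0 < orderOf u := (isOfFinOrder_iff_pow_eq_one.2 ⟨b, hb, h3⟩).orderOf_pos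
  have h5 : (orderOf u).totient ≤ k := by
    rw [← natDegree_cyclotomic (orderOf u) ℚ,
      cyclotomic_eq_minpoly_rat (IsPrimitiveRoot.orderOf u) h4]
    exact (minpoly.natDegree_le u).trans hk
  have h6 := orderOf_dvd_iff_pow_eq_one.1 (dena_dvd h4 h5)
  obtain ⟨c, hc⟩ := Nat.dvd_factorial he0 hk
  set T := (k + 1).factorial ^ (k + 1)
  refine ⟨-v * (T * c : ℕ), ?_⟩
  rw [zpow_mul, zpow_natCast, hc, mul_assoc, mul_comm c T, pow_mul y e, ← mul_pow, ← hu, pow_mul,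
    h6, one_pow]

theorem root_bound (k : ℕ) : ∃ M : ℕ, 1 ≤ M ∧ ∀ p : ℕ, p.Prime → ∀ (y : ℂ) (f : ℚ[X]), f ≠ 0 →
    f.natDegree ≤ k → aeval y f = 0 → ∀ (a : ℤ) (b : ℕ), 1 ≤ b → (p : ℂ) ^ a * y ^ b = 1 →
    ∃ a' : ℤ, (p : ℂ) ^ a' * y ^ M = 1 := by
  refine ⟨k.factorial * (k + 1).factorial ^ (k + 1), Nat.succ_le_of_lt (by positivity),
    fun p hp y f hf hk hy a b hb h => ?_⟩
  have hi : IsIntegral ℚ y := IsAlgebraic.isIntegral ⟨f, hf, hy⟩
  have := IntermediateField.adjoin.finiteDimensional hi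
  have h1 : Module.finrank ℚ (IntermediateField.adjoin ℚ {y}) ≤ k := by
    rw [IntermediateField.adjoin.finrank hi]
    exact (natDegree_le_of_dvd (minpoly.dvd ℚ y hy) hf).trans hk
  have key : ∀ (c : ℤ) (n : ℕ), ((p : IntermediateField.adjoin ℚ {y}) ^ c *
      IntermediateField.AdjoinSimple.gen ℚ y ^ n = 1) ↔ (p : ℂ) ^ c * y ^ n = 1 := fun c n => by
    rw [← (algebraMap (IntermediateField.adjoin ℚ {y}) ℂ).injective.eq_iff, map_mul, map_zpow₀,
      map_pow, map_natCast, map_one, IntermediateField.AdjoinSimple.algebraMap_gen]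
  obtain ⟨a', ha'⟩ := dena_field h1 hp _ a b hb ((key a b).2 h)
  exact ⟨a', (key _ _).1 ha'⟩

/-- Evaluation of the first variable. -/
noncomputable def denaEv (p : ℕ) : ℚ[X] →+* ℂ := (algebraMap ℚ ℂ).comp (evalRingHom (p : ℚ))

lemma dena_ev_apply (p : ℕ) (r : ℚ[X]) : denaEv p r = ((r.eval (p : ℚ) : ℚ) : ℂ) := rfl

lemma dena_ne {r : ℚ[X]} (hr : r ≠ 0) : ∀ᶠ p : ℕ in Filter.atTop, denaEv p r ≠ 0 := by
  filter_upwards [tendsto_natCast_atTop_atTop.eventually (eventually_atTop_not_isRoot r hr)]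
    with p hp
  rw [dena_ev_apply]
  exact_mod_cast hp

lemma dena_cauchy {B : ℚ[X][X]} (hB : B ≠ 0) : ∃ K : ℕ, ∀ᶠ p : ℕ in Filter.atTop, ∀ y : ℂ,
    eval₂ (denaEv p) y B = 0 → ‖y‖ ≤ (p : ℝ) ^ K := by
  have hl : B.leadingCoeff ≠ 0 := leadingCoeff_ne_zero.2 hB
  set K := (Finset.range B.natDegree).sup (fun j => (B.coeff j).natDegree) + 1 with hK
  have h1 : ∀ j ∈ Finset.range B.natDegree, ∀ᶠ p : ℕ in Filter.atTop,
      |(B.coeff j).eval (p : ℚ) / (X ^ K * B.leadingCoeff).eval (p : ℚ)| ≤ 1 := by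
    intro j hj
    have h2 : (B.coeff j).degree < (X ^ K * B.leadingCoeff).degree := by
      refine degree_lt_degree ?_
      rw [natDegree_mul (pow_ne_zero _ X_ne_zero) hl, natDegree_X_pow]
      have := Finset.le_sup (f := fun j => (B.coeff j).natDegree) hj
      omega
    have h3 := ((div_tendsto_atTop_zero_of_degree_lt _ _ h2).comp
      tendsto_natCast_atTop_atTop).abs
    rw [abs_zero] at h3
    exact h3.eventually (ge_mem_nhds one_pos)
  refine ⟨K + 1, ?_⟩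
  filter_upwards [(Filter.eventually_all_finset _).2 h1, dena_ne hl, Filter.eventually_ge_atTop 2]
    with p h2 h3 h4 y hy
  have hp : (2 : ℝ) ≤ p := by exact_mod_cast h4
  have hd : (B.map (denaEv p)).natDegree = B.natDegree := natDegree_map_of_leadingCoeff_ne_zero _ h3
  have hc : (B.map (denaEv p)).leadingCoeff = denaEv p B.leadingCoeff :=
    leadingCoeff_map_of_leadingCoeff_ne_zero _ h3
  have h0 : B.map (denaEv p) ≠ 0 := leadingCoeff_ne_zero.1 (hc ▸ h3)
  have h5 := IsRoot.norm_lt_cauchyBound h0 (a := y) (by rwa [IsRoot.def, eval_map])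
  have h6 : cauchyBound (B.map (denaEv p)) ≤ (p : NNReal) ^ K + 1 := by
    rw [cauchyBound, hd, hc]
    refine add_le_add_left ?_ _
    rw [div_le_iff₀ (nnnorm_pos.2 h3)]
    refine Finset.sup_le fun j hj => ?_
    have h7 := h2 j hj
    have h8 : B.leadingCoeff.eval (p : ℚ) ≠ 0 := by
      rw [dena_ev_apply] at h3
      exact_mod_cast h3
    have h9 : (0 : ℚ) < (p : ℚ) ^ K := by positivity
    rw [eval_mul, eval_pow, eval_X, abs_div, abs_mul, abs_of_pos h9,
      div_le_one (mul_pos h9 (abs_pos.2 h8))] at h7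
    rw [← NNReal.coe_le_coe, coeff_map, dena_ev_apply, dena_ev_apply]
    push_cast
    rw [Complex.norm_ratCast, Complex.norm_ratCast]
    exact_mod_cast h7
  have h7 : ‖y‖ ≤ (p : ℝ) ^ K + 1 := by exact_mod_cast h5.le.trans h6
  have h8 : (1 : ℝ) ≤ (p : ℝ) ^ K := one_le_pow₀ (by linarith)
  rw [pow_succ]
  nlinarith

lemma dena_clear (P : (RatFunc ℚ)[X]) : ∃ (c : ℚ[X]) (Q : ℚ[X][X]), c ≠ 0 ∧
    Q.map (algebraMap ℚ[X] (RatFunc ℚ)) = C (algebraMap ℚ[X] (RatFunc ℚ) c) * P := by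
  obtain ⟨c, hc, h⟩ := IsLocalization.integerNormalization_spec (nonZeroDivisors ℚ[X]) P
  exact ⟨c, _, nonZeroDivisors.ne_zero hc, by rw [h, ← smul_eq_C_mul, algebraMap_smul]⟩

lemma dena_inj : Function.Injective
    (Polynomial.map (algebraMap ℚ[X] (RatFunc ℚ)) : ℚ[X][X] → (RatFunc ℚ)[X]) :=
  map_injective _ (IsFractionRing.injective _ _)

lemma dena_coprime (A₀ B₀ : ℚ[X][X]) (hB : B₀ ≠ 0) : ∃ (A B u v : ℚ[X][X]) (ρ : ℚ[X]),
    B ≠ 0 ∧ ρ ≠ 0 ∧ A₀ * B = A * B₀ ∧ u * A + v * B = C ρ := by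
  classical
  set A' := A₀.map (algebraMap ℚ[X] (RatFunc ℚ)) with hA'
  set B' := B₀.map (algebraMap ℚ[X] (RatFunc ℚ)) with hB'
  have hB0 : B' ≠ 0 := fun h => hB (dena_inj (h.trans (Polynomial.map_zero _).symm))
  obtain ⟨A'', hA''⟩ := EuclideanDomain.gcd_dvd_left A' B'
  obtain ⟨B'', hB''⟩ := EuclideanDomain.gcd_dvd_right A' B'
  have hg := EuclideanDomain.gcd_eq_gcd_ab A' B'
  set g := EuclideanDomain.gcd A' B'
  set u' := EuclideanDomain.gcdA A' B'
  set v' := EuclideanDomain.gcdB A' B'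
  have hg0 : g ≠ 0 := fun h => hB0 (by rw [hB'', h, zero_mul])
  have h1 : A'' * u' + B'' * v' = 1 := by
    apply mul_left_cancel₀ hg0
    rw [mul_add, ← mul_assoc, ← mul_assoc, ← hA'', ← hB'', ← hg, mul_one]
  obtain ⟨c1, Q1, n1, e1⟩ := dena_clear A''
  obtain ⟨c2, Q2, n2, e2⟩ := dena_clear B''
  obtain ⟨c3, Q3, n3, e3⟩ := dena_clear u'
  obtain ⟨c4, Q4, n4, e4⟩ := dena_clear v'
  refine ⟨C c2 * Q1, C c1 * Q2, C c4 * Q3, C c3 * Q4, c1 * c2 * c3 * c4,
    mul_ne_zero (C_ne_zero.2 n1) fun h => hB0 ?_, by simp [n1, n2, n3, n4], dena_inj ?_,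
    dena_inj ?_⟩
  · rw [h, Polynomial.map_zero, eq_comm, mul_eq_zero] at e2
    rw [hB'', e2.resolve_left (C_ne_zero.2 (RatFunc.algebraMap_ne_zero n2)), mul_zero]
  · simp only [Polynomial.map_mul, map_C, e1, e2, ← hA', ← hB']
    rw [hA'', hB'']
    ring
  · simp only [Polynomial.map_mul, Polynomial.map_add, map_C, e1, e2, e3, e4, map_mul]
    linear_combination (C (algebraMap ℚ[X] (RatFunc ℚ) c1) * C (algebraMap ℚ[X] (RatFunc ℚ) c2) *
      C (algebraMap ℚ[X] (RatFunc ℚ) c3) * C (algebraMap ℚ[X] (RatFunc ℚ) c4)) * h1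

lemma dena_div (D B : ℚ[X][X]) (hB : B ≠ 0) : ∃ (b : ℚ[X]) (Q R : ℚ[X][X]), b ≠ 0 ∧
    C b * D = B * Q + R ∧ R.degree < B.degree := by
  set D' := D.map (algebraMap ℚ[X] (RatFunc ℚ)) with hD'
  set B' := B.map (algebraMap ℚ[X] (RatFunc ℚ)) with hB'
  have hB0 : B' ≠ 0 := fun h => hB (dena_inj (h.trans (Polynomial.map_zero _).symm))
  obtain ⟨c1, Q1, n1, e1⟩ := dena_clear (D' / B')
  obtain ⟨c2, Q2, n2, e2⟩ := dena_clear (D' % B')
  refine ⟨c1 * c2, C c2 * Q1, C c1 * Q2, mul_ne_zero n1 n2, dena_inj ?_, ?_⟩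
  · simp only [Polynomial.map_mul, Polynomial.map_add, map_C, e1, e2, map_mul, ← hD', ← hB']
    linear_combination (-C (algebraMap ℚ[X] (RatFunc ℚ) c1) * C (algebraMap ℚ[X] (RatFunc ℚ) c2)) *
      EuclideanDomain.div_add_mod D' B'
  · rw [degree_C_mul n1, ← degree_map_eq_of_injective (IsFractionRing.injective ℚ[X] (RatFunc ℚ)),
      ← degree_map_eq_of_injective (IsFractionRing.injective ℚ[X] (RatFunc ℚ)) B, e2,
      degree_C_mul (RatFunc.algebraMap_ne_zero n2)]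
    exact degree_mod_lt _ hB0

lemma dena_dvd_pow {f g : ℂ[X]} (hf : f ≠ 0) (h : ∀ y, f.eval y = 0 → g.eval y = 0) :
    f ∣ g ^ f.natDegree := by
  have h1 := (IsAlgClosed.splits f).eq_prod_roots
  have h2 : (f.roots.map fun r => X - C r).prod ∣ (f.roots.map fun _ => g).prod :=
    Multiset.prod_dvd_prod_of_dvd _ _ fun r hr =>
      dvd_iff_isRoot.2 (h r ((mem_roots hf).1 hr))
  rw [Multiset.map_const', Multiset.prod_replicate,
    ← (IsAlgClosed.splits f).natDegree_eq_card_roots] at h2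
  conv_lhs => rw [h1]
  exact (isUnit_C.2 (leadingCoeff_ne_zero.2 hf).isUnit).mul_left_dvd.2 h2

lemma dena_aeval (p : ℕ) (P : ℚ[X][X]) :
    MvPolynomial.aeval ![algebraMap ℚ (LaurentSeries ℚ) (p : ℚ),
      ((PowerSeries.X : PowerSeries ℚ) : LaurentSeries ℚ)] (Bivariate.equivMvPolynomial ℚ P) =
      (((P.map (evalRingHom (p : ℚ)) : ℚ[X]) : PowerSeries ℚ) : LaurentSeries ℚ) := by
  have h : ((MvPolynomial.aeval (R := ℚ) ![algebraMap ℚ (LaurentSeries ℚ) (p : ℚ),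
      ((PowerSeries.X : PowerSeries ℚ) : LaurentSeries ℚ)]).toRingHom.comp
        (Bivariate.equivMvPolynomial ℚ).toRingEquiv.toRingHom) =
      (HahnSeries.ofPowerSeries ℤ ℚ).comp ((coeToPowerSeries.ringHom (R := ℚ)).comp
        (mapRingHom (evalRingHom (p : ℚ)))) := by
    refine ringHom_ext' (ringHom_ext' (RingHom.ext_rat _ _) ?_) ?_
    · simp
    · simp
  exact RingHom.congr_fun h P

lemma dena_roots {W : RatXY} {A B u v : ℚ[X][X]} {ρ : ℚ[X]} (hB : B ≠ 0)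
    (hW : W = algebraMap _ RatXY (Bivariate.equivMvPolynomial ℚ A) /
      algebraMap _ RatXY (Bivariate.equivMvPolynomial ℚ B))
    (huv : u * A + v * B = C ρ) {p : ℕ} {a : ℕ → ℚ} (h1 : Ser W p a)
    (h2 : Rat p (PowerSeries.mk a)) (hρ : denaEv p ρ ≠ 0) (y : ℂ)
    (hy : eval₂ (denaEv p) y B = 0) :
    ∃ (a : ℤ) (b : ℕ), 1 ≤ b ∧ (p : ℂ) ^ a * y ^ b = 1 := by
  obtain ⟨A₁, B₁, e1, n1, e2⟩ := h1
  obtain ⟨l, P, hl, e3⟩ := h2
  have n2 : algebraMap _ RatXY (Bivariate.equivMvPolynomial ℚ B) ≠ 0 := fun h => hB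
    ((Bivariate.equivMvPolynomial ℚ).injective
      (IsFractionRing.injective _ RatXY (by simpa using h)))
  rw [hW, div_eq_div_iff n2 (ev_ne n1), ← map_mul, ← map_mul] at e1
  have e4 := congrArg (MvPolynomial.aeval ![algebraMap ℚ (LaurentSeries ℚ) (p : ℚ),
      ((PowerSeries.X : PowerSeries ℚ) : LaurentSeries ℚ)]) (IsFractionRing.injective _ RatXY e1)
  rw [map_mul, map_mul, dena_aeval, dena_aeval, (div_eq_iff n1).1 e2.symm, mul_right_comm] at e4
  have e5 := mul_right_cancel₀ n1 e4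
  rw [← map_mul] at e5
  have e6 := HahnSeries.ofPowerSeries_injective e5
  set D : ℚ[X] := (l.map fun ab => 1 - C ((p : ℚ) ^ ab.1) * X ^ ab.2).prod with hD
  have e7 : (D : PowerSeries ℚ) =
      (l.map fun ab => 1 - PowerSeries.C ((p : ℚ) ^ ab.1) * PowerSeries.X ^ ab.2).prod := by
    rw [← coeToPowerSeries.ringHom_apply, hD, map_multiset_prod, Multiset.map_map]
    congr 1
    refine Multiset.map_congr rfl fun ab _ => ?_
    simp
  have e8 : D * A.map (evalRingHom (p : ℚ)) = P * B.map (evalRingHom (p : ℚ)) := by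
    apply Polynomial.coe_injective
    rw [coe_mul, coe_mul, e6, ← mul_assoc, e7, e3]
  have ev : ∀ Q : ℚ[X][X], eval₂ (algebraMap ℚ ℂ) y (Q.map (evalRingHom (p : ℚ))) =
      eval₂ (denaEv p) y Q := fun Q => eval₂_map _ _ _
  have e9 := congrArg (eval₂ (algebraMap ℚ ℂ) y) e8
  rw [eval₂_mul, eval₂_mul, ev, ev, hy, mul_zero, mul_eq_zero] at e9
  have e10 := congrArg (eval₂ (denaEv p) y) huv
  rw [eval₂_add, eval₂_mul, eval₂_mul, hy, mul_zero, add_zero, eval₂_C] at e10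
  have e11 := e9.resolve_right fun h => hρ (by rw [← e10, h, mul_zero])
  rw [← coe_eval₂RingHom, hD, map_multiset_prod, Multiset.map_map, Multiset.prod_eq_zero_iff,
    Multiset.mem_map] at e11
  obtain ⟨ab, hab, e12⟩ := e11
  refine ⟨ab.1, ab.2, hl ab hab, ?_⟩
  simp only [Function.comp, map_sub, map_one, map_mul, map_pow, coe_eval₂RingHom, eval₂_C, eval₂_X,
    map_zpow₀, map_natCast] at e12
  exact (sub_eq_zero.1 e12).symm

theorem denom_shape (W : RatXY) (S : Finset ℕ) (a : ℕ → ℕ → ℚ)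
    (h : ∀ p : ℕ, p.Prime → p ∉ S → Ser W p (a p) ∧ Rat p (PowerSeries.mk (a p))) :
    ∃ (A : MvPolynomial (Fin 2) ℚ) (b : ℚ[X]) (l : Multiset (ℕ × ℕ × ℕ)), b ≠ 0 ∧
      (∀ t ∈ l, 1 ≤ t.2.2) ∧ W = algebraMap _ RatXY A /
        algebraMap _ RatXY (aeval (MvPolynomial.X 0 : MvPolynomial (Fin 2) ℚ) b * den l) := by
  set ψ := Bivariate.equivMvPolynomial ℚ with hψ
  have hne : ∀ Q : ℚ[X][X], Q ≠ 0 → algebraMap _ RatXY (ψ Q) ≠ 0 := fun Q hQ h => hQ
    (ψ.injective (IsFractionRing.injective _ RatXY (by simpa using h)))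
  obtain ⟨A₀, B₀, hB₀, e0⟩ := IsFractionRing.div_surjective (A := MvPolynomial (Fin 2) ℚ) W
  obtain ⟨A₀, rfl⟩ := ψ.surjective A₀
  obtain ⟨B₀, rfl⟩ := ψ.surjective B₀
  have hB₀' : B₀ ≠ 0 := fun h => nonZeroDivisors.ne_zero hB₀ (by rw [h, map_zero])
  obtain ⟨A, B, u, v, ρ, hB, hρ, e1, huv⟩ := dena_coprime A₀ B₀ hB₀'
  have hW : W = algebraMap _ RatXY (ψ A) / algebraMap _ RatXY (ψ B) := by
    rw [← e0, div_eq_div_iff (hne _ hB₀') (hne _ hB), ← map_mul, ← map_mul, ← map_mul, ← map_mul,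
      e1]
  obtain ⟨M, hM, hroot⟩ := root_bound B.natDegree
  obtain ⟨K₁, hK₁⟩ := dena_cauchy hB
  obtain ⟨K₂, hK₂⟩ := dena_cauchy (B := reflect B.natDegree B) (by simpa using hB)
  set N := (K₁ + K₂) * M with hN
  set D : ℚ[X][X] := ∏ j ∈ Finset.range (2 * N + 1), (C X ^ N - C X ^ j * X ^ M) with hD
  have hD0 : D ≠ 0 := by
    refine Finset.prod_ne_zero_iff.2 fun j _ h0 => ?_
    have := congrArg (eval 0) h0
    simp [show M ≠ 0 by omega] at this
  obtain ⟨b, Q, R, hb, e2, hR⟩ := dena_div (D ^ B.natDegree) B hB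
  have hR0 : R = 0 := by
    by_contra hR0
    obtain ⟨n, hn⟩ := Filter.eventually_atTop.1 (hK₁.and (hK₂.and ((dena_ne hρ).and
      ((dena_ne (leadingCoeff_ne_zero.2 hB)).and ((dena_ne (leadingCoeff_ne_zero.2 hR0)).and
        (Filter.eventually_gt_atTop (S.sup id)))))))
    obtain ⟨p, hpn, hp⟩ := Nat.exists_infinite_primes n
    obtain ⟨k1, k2, k3, k4, k5, k6⟩ := hn p hpn
    obtain ⟨s1, s2⟩ := h p hp fun hS => absurd (Finset.le_sup (f := id) hS) (not_le.2 k6)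
    have hp1 : (1 : ℝ) < p := by exact_mod_cast hp.one_lt
    have hp0 : (p : ℂ) ≠ 0 := Nat.cast_ne_zero.2 hp.ne_zero
    have d1 : (B.map (denaEv p)).degree = B.degree := degree_map_eq_of_leadingCoeff_ne_zero _ k4
    have d2 : (R.map (denaEv p)).degree = R.degree := degree_map_eq_of_leadingCoeff_ne_zero _ k5
    have n1 : B.map (denaEv p) ≠ 0 := fun h0 => hB (by rwa [h0, degree_zero, eq_comm,
      degree_eq_bot] at d1)
    have d3 : B.map (denaEv p) ∣ (D.map (denaEv p)) ^ B.natDegree := by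
      rw [← natDegree_map_of_leadingCoeff_ne_zero _ k4]
      refine dena_dvd_pow n1 fun y hy => ?_
      rw [eval_map] at hy
      obtain ⟨a₁, b₁, hb₁, r1⟩ := dena_roots hB hW huv s1 s2 k3 y hy
      have hy0 : y ≠ 0 := by
        rintro rfl
        rw [zero_pow (by omega), mul_zero] at r1
        exact zero_ne_one r1
      obtain ⟨a', r2⟩ := hroot p hp y (B.map (evalRingHom (p : ℚ)))
        (fun h0 => n1 (by rw [denaEv, ← Polynomial.map_map, h0, Polynomial.map_zero]))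
        natDegree_map_le (by rw [aeval_def, eval₂_map]; exact hy) a₁ b₁ hb₁ r1
      have b1 := k1 y hy
      have b2 := k2 y⁻¹ (by
        let _ := invertibleOfNonzero hy0
        exact (eval₂_reflect_eq_zero_iff (denaEv p) y _ B le_rfl).2 hy)
      have r3 : (p : ℝ) ^ a' * ‖y‖ ^ M = 1 := by
        have := congrArg norm r2
        rwa [norm_mul, norm_zpow, norm_pow, Complex.norm_natCast, norm_one] at this
      have b3 : -a' ≤ (K₁ * M : ℕ) := by
        rw [← zpow_le_zpow_iff_right₀ hp1, zpow_neg, ← eq_inv_of_mul_eq_one_right r3,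
          zpow_natCast, pow_mul]
        exact pow_le_pow_left₀ (norm_nonneg _) b1 _
      have b4 : a' ≤ (K₂ * M : ℕ) := by
        rw [← zpow_le_zpow_iff_right₀ hp1, eq_inv_of_mul_eq_one_left r3, zpow_natCast, pow_mul,
          ← inv_pow, ← norm_inv]
        exact pow_le_pow_left₀ (norm_nonneg _) b2 _
      have hN' : N = K₁ * M + K₂ * M := by rw [hN, add_mul]
      obtain ⟨j, hj⟩ := Int.eq_ofNat_of_zero_le (show 0 ≤ (N : ℤ) + a' by omega)
      rw [hD, Polynomial.map_prod, eval_prod]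
      refine Finset.prod_eq_zero (Finset.mem_range.2 (show j < 2 * N + 1 by omega)) ?_
      have r4 : (p : ℂ) ^ j = (p : ℂ) ^ N * (p : ℂ) ^ a' := by
        rw [← zpow_natCast, ← hj, zpow_add₀ hp0, zpow_natCast]
      simp [dena_ev_apply, r4, mul_assoc, r2]
    have e3 := congrArg (Polynomial.map (denaEv p)) e2
    rw [Polynomial.map_mul, Polynomial.map_pow, Polynomial.map_add, Polynomial.map_mul] at e3
    have d4 : B.map (denaEv p) ∣ R.map (denaEv p) :=
      (dvd_add_right (dvd_mul_right _ _)).1 (e3 ▸ d3.mul_left _)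
    have := eq_zero_of_dvd_of_degree_lt d4 (by rwa [d1, d2])
    rw [this, degree_zero, eq_comm, degree_eq_bot] at d2
    exact hR0 d2
  rw [hR0, add_zero] at e2
  refine ⟨ψ (A * Q), b, B.natDegree • (Finset.range (2 * N + 1)).val.map fun j => (N, j, M), hb,
    fun t ht => ?_, ?_⟩
  · obtain ⟨j, -, rfl⟩ := Multiset.mem_map.1 (Multiset.mem_of_mem_nsmul ht)
    exact hM
  · have e3 : aeval (MvPolynomial.X 0 : MvPolynomial (Fin 2) ℚ) b *
        den (B.natDegree • (Finset.range (2 * N + 1)).val.map fun j => (N, j, M)) =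
        ψ (C b * D ^ B.natDegree) := by
      rw [map_mul, map_pow, den, Multiset.map_nsmul, Multiset.prod_nsmul, Multiset.map_map, hD,
        map_prod]
      congr 1
      · simp [hψ, Bivariate.equivMvPolynomial, eval_map, aeval_def]
      · simp [hψ, Finset.prod]
    rw [e3, hW, div_eq_div_iff (hne _ hB)
      (hne _ (mul_ne_zero (C_ne_zero.2 hb) (pow_ne_zero _ hD0))), ← map_mul, ← map_mul, ← map_mul, ← map_mul, e2]
    congr 2
    ring

end Pool.Agent.P.MP_8598be_al.E
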