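import Pool.Agent.P.MP_8598be_al.E.Defs
import Pool.Agent.P.MP_8598be_al.Values

namespace Pool.Agent.P.MP_8598be_al.E

open Polynomial

/-- A common denominator of the coefficients. -/
theorem denb_den (q : ℚ[X]) : ∃ d : ℕ, 0 < d ∧ ∃ Q : ℤ[X], ∀ x : ℤ,
    ((Q.eval x : ℤ) : ℚ) = d * q.eval (x : ℚ) := by
  induction q using Polynomial.induction_on' with
  | add f g hf hg =>
    obtain ⟨d, hd, F, hF⟩ := hf
    obtain ⟨e, he, G, hG⟩ := hg
    refine ⟨d * e, Nat.mul_pos hd he, C (e : ℤ) * F + C (d : ℤ) * G, fun x => ?_⟩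
    simp only [eval_add, eval_mul, eval_C]
    push_cast
    rw [hF, hG]
    ring
  | monomial n c =>
    refine ⟨c.den, c.den_pos, monomial n c.num, fun x => ?_⟩
    simp only [eval_monomial]
    push_cast
    rw [← mul_assoc, Rat.den_mul_eq_num]

theorem denb_primes (S : Finset ℕ) : {p : ℕ | p.Prime ∧ p ∉ S}.Infinite :=
  (Nat.infinite_setOfPred_prime.sdiff S.finite_toSet).mono fun _ hp => hp

theorem denb_ext {T : Set ℕ} (hT : T.Infinite) {f g : ℚ[X]}
    (h : ∀ p ∈ T, f.eval (p : ℚ) = g.eval (p : ℚ)) : f = g :=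
  eq_of_infinite_eval_eq f g ((hT.image (Nat.cast_injective (R := ℚ)).injOn).mono (by
    rintro _ ⟨p, hp, rfl⟩
    exact h p hp))

/-- A quotient of polynomials with integral values at infinitely many integers is a polynomial. -/
theorem denb_dvd {T : Set ℕ} (hT : T.Infinite) {β γ : ℚ[X]}
    (h : ∀ p ∈ T, γ.eval (p : ℚ) ≠ 0 ∧ ∃ m : ℤ, β.eval (p : ℚ) = γ.eval (p : ℚ) * m) : γ ∣ β := by
  have hγ : γ ≠ 0 := by
    obtain ⟨p, hp⟩ := hT.nonempty
    rintro rfl
    exact (h p hp).1 eval_zero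
  obtain ⟨d, hd, Q, hQ⟩ := denb_den (β / γ)
  have hd' : (0 : ℚ) < d := by exact_mod_cast hd
  have lim := (div_tendsto_atTop_zero_of_degree_lt (β % γ) γ (degree_mod_lt β hγ)).comp
    (tendsto_natCast_atTop_atTop (R := ℚ))
  have ev := lim.eventually (Ioo_mem_nhds (show -(1 / d : ℚ) < 0 by
    have := one_div_pos.2 hd'
    linarith) (one_div_pos.2 hd'))
  obtain ⟨N, hN⟩ := Filter.eventually_atTop.1 ev
  rw [← EuclideanDomain.mod_eq_zero]
  refine denb_ext (hT.sdiff (Set.finite_lt_nat N)) fun p hp => ?_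
  obtain ⟨h0, m, hm⟩ := h p hp.1
  have h1 := hN p (not_lt.1 hp.2)
  have h2 := congrArg (eval (p : ℚ)) (EuclideanDomain.div_add_mod β γ)
  rw [eval_add, eval_mul, hm] at h2
  have h3 := hQ p
  rw [Int.cast_natCast] at h3
  have h4 : (β % γ).eval (p : ℚ) / γ.eval (p : ℚ) * d = ((d * m - Q.eval (p : ℤ) : ℤ) : ℚ) := by
    push_cast
    rw [h3]
    field_simp
    linear_combination h2
  simp only [Function.comp] at h1
  have h5 : d * m - Q.eval (p : ℤ) = 0 := by
    have c1 := (lt_div_iff₀ hd').1 h1.2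
    have c2 : -1 < (β % γ).eval (p : ℚ) / γ.eval (p : ℚ) * d := by
      have := mul_lt_mul_of_pos_right h1.1 hd'
      rwa [neg_mul, one_div_mul_cancel hd'.ne'] at this
    rw [h4] at c1 c2
    have c3 : d * m - Q.eval (p : ℤ) < 1 := by exact_mod_cast c1
    have c4 : -1 < d * m - Q.eval (p : ℤ) := by exact_mod_cast c2
    omega
  rw [h5, Int.cast_zero, mul_eq_zero, div_eq_zero_iff] at h4
  rw [eval_zero]
  exact (h4.resolve_right hd'.ne').resolve_right h0

/-- Polynomials in two variables as polynomials in the second variable. -/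
noncomputable def denbPsi : MvPolynomial (Fin 2) ℚ →ₐ[ℚ] ℚ[X][X] := MvPolynomial.aeval ![C X, X]

/-- The inverse of `denbPsi`. -/
noncomputable def denbTheta : ℚ[X][X] →+* MvPolynomial (Fin 2) ℚ :=
  eval₂RingHom (aeval (MvPolynomial.X 0 : MvPolynomial (Fin 2) ℚ)).toRingHom (MvPolynomial.X 1)

theorem denb_theta_C (b : ℚ[X]) :
    denbTheta (C b) = aeval (MvPolynomial.X 0 : MvPolynomial (Fin 2) ℚ) b := by
  simp [denbTheta]

theorem denb_theta_psi (A : MvPolynomial (Fin 2) ℚ) : denbTheta (denbPsi A) = A := by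
  have : denbTheta.comp denbPsi.toRingHom = RingHom.id _ := by
    refine MvPolynomial.ringHom_ext' (RingHom.ext_rat _ _) fun i => ?_
    fin_cases i <;> simp [denbTheta, denbPsi]
  exact RingHom.congr_fun this A

theorem denb_psi_theta (A : ℚ[X][X]) : denbPsi (denbTheta A) = A := by
  have : denbPsi.toRingHom.comp denbTheta = RingHom.id _ := by
    refine Polynomial.ringHom_ext' (Polynomial.ringHom_ext' (RingHom.ext_rat _ _) ?_) ?_ <;>
      simp [denbTheta, denbPsi]
  exact RingHom.congr_fun this A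

theorem denb_coeff_zero (l : Multiset (ℕ × ℕ × ℕ)) (hl : ∀ t ∈ l, 1 ≤ t.2.2) :
    ∃ N : ℕ, (denbPsi (den l)).coeff 0 = X ^ N := by
  induction l using Multiset.induction with
  | empty => exact ⟨0, by simp [den]⟩
  | cons t l ih =>
    obtain ⟨N, hN⟩ := ih fun s hs => hl s (Multiset.mem_cons_of_mem hs)
    have ht : t.2.2 ≠ 0 := Nat.one_le_iff_ne_zero.1 (hl t (Multiset.mem_cons_self _ _))
    refine ⟨t.1 + N, ?_⟩
    unfold den at hN ⊢
    rw [Multiset.map_cons, Multiset.prod_cons, map_mul, mul_coeff_zero, hN, pow_add]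
    congr 1
    rw [coeff_zero_eq_eval_zero]
    simp [denbPsi, ht]

theorem denb_aeval (x : ℚ) (B : MvPolynomial (Fin 2) ℚ) :
    MvPolynomial.aeval ![algebraMap ℚ (LaurentSeries ℚ) x,
      ((PowerSeries.X : PowerSeries ℚ) : LaurentSeries ℚ)] B =
      ((PowerSeries.map (evalRingHom x) (denbPsi B : PowerSeries ℚ[X]) : PowerSeries ℚ) :
        LaurentSeries ℚ) := by
  have : (MvPolynomial.aeval (R := ℚ) ![algebraMap ℚ (LaurentSeries ℚ) x,
      ((PowerSeries.X : PowerSeries ℚ) : LaurentSeries ℚ)]).toRingHom =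
      (HahnSeries.ofPowerSeries ℤ ℚ).comp ((PowerSeries.map (evalRingHom x)).comp
        ((Polynomial.coeToPowerSeries.ringHom).comp denbPsi.toRingHom)) := by
    refine MvPolynomial.ringHom_ext' (RingHom.ext_rat _ _) fun i => ?_
    fin_cases i
    · simp [denbPsi]
    · simp [denbPsi]
  exact RingHom.congr_fun this B

theorem denom_clear (W : RatXY) (S : Finset ℕ) (a : ℕ → ℕ → ℕ)
    (h : ∀ p : ℕ, p.Prime → p ∉ S → Ser W p fun n => a p n)
    (A : MvPolynomial (Fin 2) ℚ) (b : ℚ[X]) (l : Multiset (ℕ × ℕ × ℕ)) (hb : b ≠ 0)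
    (hl : ∀ t ∈ l, 1 ≤ t.2.2) (hW : W = algebraMap _ RatXY A /
      algebraMap _ RatXY (aeval (MvPolynomial.X 0 : MvPolynomial (Fin 2) ℚ) b * den l)) :
    ∃ (A' : MvPolynomial (Fin 2) ℚ) (α : ℕ → ℚ[X]) (S' : Finset ℕ),
      W = algebraMap _ RatXY A' / algebraMap _ RatXY (den l) ∧
      (∀ p : ℕ, p.Prime → p ∉ S' → ∀ n, (α n).eval (p : ℚ) = a p n) ∧
      Ser W 1 fun n => (α n).eval 1 := by
  classical
  obtain ⟨N, hN⟩ := denb_coeff_zero l hl
  have hD : den l ≠ 0 := fun e => by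
    rw [e, map_zero, coeff_zero] at hN
    exact pow_ne_zero N X_ne_zero hN.symm
  have hpb : denbPsi (aeval (MvPolynomial.X 0 : MvPolynomial (Fin 2) ℚ) b) = C b := by
    rw [← denb_theta_C, denb_psi_theta]
  have hb0 : aeval (MvPolynomial.X 0 : MvPolynomial (Fin 2) ℚ) b ≠ 0 := fun e => by
    rw [e, map_zero] at hpb
    exact C_ne_zero.2 hb hpb.symm
  have inj := IsFractionRing.injective (MvPolynomial (Fin 2) ℚ) RatXY
  have hne : ∀ B : MvPolynomial (Fin 2) ℚ, B ≠ 0 → algebraMap _ RatXY B ≠ 0 := fun B hB e =>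
    hB (inj (e.trans (map_zero _).symm))
  have key : ∀ p : ℕ, p.Prime → p ∉ S → ∀ n, ((denbPsi A).coeff n).eval (p : ℚ) =
      b.eval (p : ℚ) * ∑ ij ∈ Finset.HasAntidiagonal.antidiagonal n,
        ((denbPsi (den l)).coeff ij.1).eval (p : ℚ) * (a p ij.2 : ℚ) := by
    intro p hp hS n
    obtain ⟨A₁, B₁, e1, e2, e3⟩ := h p hp hS
    rw [hW, div_eq_div_iff (hne _ (mul_ne_zero hb0 hD)) (ev_ne e2), ← map_mul, ← map_mul] at e1
    have e4 := congrArg (MvPolynomial.aeval ![algebraMap ℚ (LaurentSeries ℚ) (p : ℚ),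
      ((PowerSeries.X : PowerSeries ℚ) : LaurentSeries ℚ)]) (inj e1)
    rw [map_mul, map_mul, ← (eq_div_iff e2).1 e3, mul_right_comm] at e4
    have e5 := mul_right_cancel₀ e2 e4
    rw [denb_aeval, denb_aeval, ← map_mul] at e5
    have e6 := HahnSeries.ofPowerSeries_injective e5
    rw [map_mul denbPsi, hpb, Polynomial.coe_mul, map_mul (PowerSeries.map _), Polynomial.coe_C,
      PowerSeries.map_C, mul_left_comm, mul_comm (PowerSeries.mk _)] at e6
    have e7 := congrArg (PowerSeries.coeff n) e6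
    rw [PowerSeries.coeff_C_mul, PowerSeries.coeff_mul] at e7
    simpa using e7
  obtain ⟨S', hS'⟩ : ∃ S' : Finset ℕ, ∀ p : ℕ, p ∉ S' → p ∉ S ∧ b.eval (p : ℚ) ≠ 0 := by
    have fin : {p : ℕ | b.IsRoot (p : ℚ)}.Finite :=
      (finite_setOfPred_isRoot hb).preimage (Nat.cast_injective (R := ℚ)).injOn
    refine ⟨S ∪ fin.toFinset, fun p hp => ?_⟩
    simp only [Finset.mem_union, Set.Finite.mem_toFinset, not_or] at hp
    exact hp
  have hT := denb_primes S'
  have ex : ∀ n, ∃ α : ℚ[X], ∀ p : ℕ, p.Prime → p ∉ S' → α.eval (p : ℚ) = a p n := by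
    intro n
    induction n using Nat.strong_induction_on with
    | _ n ih =>
      choose! α hα using ih
      have hv : ∀ p : ℕ, p.Prime → p ∉ S' → (b * X ^ N).eval (p : ℚ) ≠ 0 ∧
          ((denbPsi A).coeff n - b * ∑ ij ∈ (Finset.HasAntidiagonal.antidiagonal n).erase (0, n),
            (denbPsi (den l)).coeff ij.1 * α ij.2).eval (p : ℚ) =
          (b * X ^ N).eval (p : ℚ) * ((a p n : ℤ) : ℚ) := by
        intro p hp hp'
        have hp0 : (p : ℚ) ≠ 0 := by exact_mod_cast hp.ne_zero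
        refine ⟨by simp [(hS' p hp').2, hp0], ?_⟩
        have hs : ∑ ij ∈ (Finset.HasAntidiagonal.antidiagonal n).erase (0, n),
            ((denbPsi (den l)).coeff ij.1 * α ij.2).eval (p : ℚ) =
            ∑ ij ∈ (Finset.HasAntidiagonal.antidiagonal n).erase (0, n),
              ((denbPsi (den l)).coeff ij.1).eval (p : ℚ) * (a p ij.2 : ℚ) := by
          refine Finset.sum_congr rfl ?_
          rintro ⟨i, j⟩ hij
          rw [Finset.mem_erase, Finset.HasAntidiagonal.mem_antidiagonal] at hij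
          have : j < n := by
            rcases Nat.eq_zero_or_pos i with rfl | hi
            · exact absurd (by simpa using hij.2) hij.1
            · have := hij.2
              simp only at this
              omega
          rw [eval_mul, hα j this p hp hp']
        rw [eval_sub, key p hp (hS' p hp').1, ← Finset.add_sum_erase _ _
          (show (0, n) ∈ Finset.HasAntidiagonal.antidiagonal n by simp), hN, eval_mul, eval_mul,
          eval_finsetSum, hs]
        push_cast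
        ring
      obtain ⟨q, hq⟩ := denb_dvd hT fun p hp => ⟨(hv p hp.1 hp.2).1, _, (hv p hp.1 hp.2).2⟩
      refine ⟨q, fun p hp hp' => ?_⟩
      have := (hv p hp hp').2
      rw [hq, eval_mul] at this
      simpa using mul_left_cancel₀ (hv p hp hp').1 this
  choose α hα using ex
  have co : ∀ n, (denbPsi A).coeff n =
      b * ∑ ij ∈ Finset.HasAntidiagonal.antidiagonal n, (denbPsi (den l)).coeff ij.1 * α ij.2 := fun n =>
    denb_ext hT fun p hp => by
      rw [key p hp.1 (hS' p hp.2).1, eval_mul, eval_finsetSum]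
      simp only [eval_mul, hα _ p hp.1 hp.2]
  obtain ⟨A₁, hA₁⟩ := (C_dvd_iff_dvd_coeff b (denbPsi A)).2 fun n => ⟨_, co n⟩
  have hA : A = aeval (MvPolynomial.X 0 : MvPolynomial (Fin 2) ℚ) b * denbTheta A₁ := by
    rw [← denb_theta_psi A, hA₁, map_mul, denb_theta_C]
  have hser : (A₁ : PowerSeries ℚ[X]) = (denbPsi (den l) : PowerSeries ℚ[X]) * PowerSeries.mk α := by
    ext1 n
    have := co n
    rw [hA₁, coeff_C_mul] at this
    rw [PowerSeries.coeff_mul, Polynomial.coeff_coe, mul_left_cancel₀ hb this]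
    simp
  have hW' : W = algebraMap _ RatXY (denbTheta A₁) / algebraMap _ RatXY (den l) := by
    rw [hW, hA, map_mul, map_mul, mul_div_mul_left _ _ (hne _ hb0)]
  have hD1 : MvPolynomial.aeval ![algebraMap ℚ (LaurentSeries ℚ) 1,
      ((PowerSeries.X : PowerSeries ℚ) : LaurentSeries ℚ)] (den l) ≠ 0 := fun e => by
    rw [denb_aeval] at e
    have := congrArg (PowerSeries.coeff 0)
      (HahnSeries.ofPowerSeries_injective (e.trans (map_zero _).symm))
    rw [PowerSeries.coeff_map, Polynomial.coeff_coe, hN] at this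
    simp at this
  refine ⟨denbTheta A₁, α, S', hW', fun p hp hp' n => hα n p hp hp', denbTheta A₁, den l, hW', hD1,
    (eq_div_iff hD1).2 ?_⟩
  rw [denb_aeval, denb_aeval, denb_psi_theta, hser, map_mul, map_mul, mul_comm]
  congr 2

theorem reduced (r : ℕ) (S : Finset ℕ) (α : ℕ → ℚ[X]) (a c : ℕ → ℕ → ℕ) (P : ℕ → ℤ[X])
    (h1 : ∀ p : ℕ, p.Prime → p ∉ S → ∀ n, (α n).eval (p : ℚ) = a p n)
    (h2 : ∀ p : ℕ, p.Prime → p ∉ S → (P p).natDegree ≤ r * r ∧
      (cyc ℤ r : PowerSeries ℤ) * PowerSeries.mk (fun n => (c p n : ℤ)) = P p)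
    (h3 : ∀ p l : ℕ, p.Prime → p ∉ S → l.Prime → l ∣ p - 1 → ∀ n, n < l → a p n ≡ c p n [MOD l]) :
    ∃ (E : ℤ[X]) (L : ℕ), (cyc ℚ r : PowerSeries ℚ) * PowerSeries.mk (fun n => (α n).eval 1) =
        (E.map (Int.castRingHom ℚ) : ℚ[X]) ∧
      ∀ p l : ℕ, p.Prime → p ∉ S → l.Prime → l ∣ p - 1 → L ≤ l →
        E.eval 1 ≡ (P p).eval 1 [ZMOD l] := by
  choose d hd Q hQ using fun n => denb_den (α n)
  have prm : ∀ k : ℕ, k ≠ 0 → ∃ p : ℕ, p.Prime ∧ p ∉ S ∧ k ∣ p - 1 := fun k hk => by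
    obtain ⟨p, c1, c2, c3⟩ := Nat.exists_prime_gt_modEq_one (S.sup id) hk
    exact ⟨p, c1, fun c => not_le.2 c2 (Finset.le_sup (f := id) c),
      (Nat.modEq_iff_dvd' c1.one_le).1 c3.symm⟩
  have con : ∀ p k : ℕ, p.Prime → p ∉ S → k ∣ p - 1 → ∀ n,
      (k : ℤ) ∣ d n * a p n - (Q n).eval 1 := fun p k hp hS hk n => by
    have e : (Q n).eval (p : ℤ) = d n * a p n := by
      have := hQ n p
      rw [Int.cast_natCast, h1 p hp hS] at this
      exact_mod_cast this
    rw [← e]
    refine dvd_trans ?_ (sub_dvd_eval_sub (p : ℤ) 1 (Q n))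
    have := Int.natCast_dvd_natCast.2 hk
    rwa [Nat.cast_sub hp.one_le, Nat.cast_one] at this
  have ex : ∀ n, ∃ u : ℤ, (Q n).eval 1 = d n * u := fun n => by
    obtain ⟨p, c1, c2, c3⟩ := prm (d n) (hd n).ne'
    exact (dvd_sub_right (dvd_mul_right _ _)).1 (con p _ c1 c2 c3 n)
  choose u hu using ex
  have hu' : ∀ n, (α n).eval 1 = u n := fun n => by
    have := hQ n 1
    rw [hu, Int.cast_one] at this
    push_cast at this
    have h0 : (d n : ℚ) ≠ 0 := by exact_mod_cast (hd n).ne'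
    exact (mul_left_cancel₀ h0 this).symm
  have cg : ∀ p l : ℕ, p.Prime → p ∉ S → l.Prime → l ∣ p - 1 → ∀ n,
      n + (Finset.range (n + 1)).sup d < l →
      PowerSeries.coeff n ((cyc ℤ r : PowerSeries ℤ) * PowerSeries.mk u) ≡ (P p).coeff n
        [ZMOD l] := by
    intro p l hp hS hl hlp n hn
    rw [← Polynomial.coeff_coe, ← (h2 p hp hS).2, PowerSeries.coeff_mul, PowerSeries.coeff_mul]
    refine Int.ModEq.sum fun ij hij => Int.ModEq.mul_left _ ?_
    have hj : ij.2 ≤ n := by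
      have := Finset.HasAntidiagonal.mem_antidiagonal.1 hij
      omega
    have hdj : d ij.2 ≤ (Finset.range (n + 1)).sup d :=
      Finset.le_sup (Finset.mem_range.2 (Nat.lt_succ_of_le hj))
    rw [PowerSeries.coeff_mk, PowerSeries.coeff_mk]
    refine Int.ModEq.trans ?_ (Int.natCast_modEq_iff.2 (h3 p l hp hS hl hlp ij.2 (by omega)))
    have t := con p l hp hS hlp ij.2
    rw [hu, ← mul_sub] at t
    refine Int.modEq_iff_dvd.2 (((Nat.prime_iff_prime_int.1 hl).dvd_or_dvd t).resolve_left ?_)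
    intro c
    have := Nat.le_of_dvd (hd _) (Int.natCast_dvd_natCast.1 c)
    omega
  have van : ∀ n, r * r < n →
      PowerSeries.coeff n ((cyc ℤ r : PowerSeries ℤ) * PowerSeries.mk u) = 0 := by
    intro n hn
    obtain ⟨l, c1, c2⟩ := Nat.exists_infinite_primes (n + (Finset.range (n + 1)).sup d + 1 +
      (PowerSeries.coeff n ((cyc ℤ r : PowerSeries ℤ) * PowerSeries.mk u)).natAbs)
    obtain ⟨p, p1, p2, p3⟩ := prm l c2.ne_zero
    have t := cg p l p1 p2 c2 p3 n (by omega)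
    rw [coeff_eq_zero_of_natDegree_lt ((h2 p p1 p2).1.trans_lt hn)] at t
    exact Int.eq_zero_of_dvd_of_natAbs_lt_natAbs (Int.modEq_zero_iff_dvd.1 t) (by
      rw [Int.natAbs_natCast]; omega)
  refine ⟨PowerSeries.trunc (r * r + 1) ((cyc ℤ r : PowerSeries ℤ) * PowerSeries.mk u),
    r * r + (Finset.range (r * r + 1)).sup d + 1, ?_, fun p l hp hS hl hlp hL => ?_⟩
  · have e : ((PowerSeries.trunc (r * r + 1) ((cyc ℤ r : PowerSeries ℤ) * PowerSeries.mk u) :
        ℤ[X]) : PowerSeries ℤ) = (cyc ℤ r : PowerSeries ℤ) * PowerSeries.mk u := by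
      ext n
      rw [Polynomial.coeff_coe, PowerSeries.coeff_trunc]
      split_ifs with c
      · rfl
      · exact (van n (by omega)).symm
    rw [polynomial_map_coe, e, map_mul, ← polynomial_map_coe]
    congr 1
    · simp [cyc, Polynomial.map_prod]
    · ext n
      simp [hu']
  · rw [eval_eq_sum_range' (PowerSeries.natDegree_trunc_lt _ _),
      eval_eq_sum_range' (Nat.lt_succ_of_le (h2 p hp hS).1)]
    refine Int.ModEq.sum fun n hn => Int.ModEq.mul_right _ ?_
    have hn' := Finset.mem_range.1 hn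
    rw [PowerSeries.coeff_trunc, if_pos hn']
    refine cg p l hp hS hl hlp n ?_
    have : (Finset.range (n + 1)).sup d ≤ (Finset.range (r * r + 1)).sup d :=
      Finset.sup_mono (Finset.range_mono (by omega))
    omega

end Pool.Agent.P.MP_8598be_al.E
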