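import Pool.Agent.P.MP_8598be_al.E.Mat
import Pool.Agent.Lib.PadicQE.Count

namespace Pool.Agent.P.MP_8598be_al.E

open Pool.Agent.Lib.PadicQE Matrix

section

variable {I ι : Type} [Fintype I] [DecidableEq I] (p : ℕ) [Fact p.Prime]

/-- The matrix of coordinate functions. -/
noncomputable def denefGen (I : Type) : Matrix I I (PF p (I × I)) :=
  of fun i j => ⟨fun x => x (i, j), coord_mem_PF (i, j)⟩

omit [Fintype I] [DecidableEq I] in
theorem denef_map_gen (x : I × I → ℚ_[p]) :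
    (denefGen p I).map (ev p (PF p (I × I)) x) = of fun i j => x (i, j) := rfl

theorem denef_det_mem :
    (fun x : I × I → ℚ_[p] => (of fun i j => x (i, j)).det) ∈ PF p (I × I) := by
  convert (denefGen p I).det.2 using 1
  funext x
  rw [← denef_map_gen]
  exact ((ev p (PF p (I × I)) x).map_det _).symm

theorem denef_entry_mem (A : Matrix I I ℤ) (i j : I) :
    (fun x : I × I → ℚ_[p] => ((of fun i j => x (i, j)).adjugate * A.map (Int.cast : ℤ → ℚ_[p]) *
      (of fun i j => x (i, j))) i j) ∈ PF p (I × I) := by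
  convert (((denefGen p I).adjugate * A.map (Int.cast : ℤ → PF p (I × I)) * denefGen p I) i j).2
    using 1
  funext x
  have h1 : A.map (Int.cast : ℤ → ℚ_[p]) =
      (A.map (Int.cast : ℤ → PF p (I × I))).map (ev p (PF p (I × I)) x) := by
    ext i j
    simp
  have h2 : (of fun i j => x (i, j)).adjugate =
      (denefGen p I).adjugate.map (ev p (PF p (I × I)) x) := by
    rw [← denef_map_gen]
    exact ((ev p (PF p (I × I)) x).map_adjugate _).symm
  rw [h1, h2, ← denef_map_gen, ← Matrix.map_mul, ← Matrix.map_mul]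
  rfl

theorem denef_def [Finite ι] (A : ι → Matrix I I ℤ) :
    Def p (PF p (I × I) : Set ((I × I → ℚ_[p]) → ℚ_[p]))
      {x : (I × I → ℚ_[p]) × ℤ × ℤ | 0 ≤ x.2.1 ∧ x.2.2 = x.2.1 + 1 ∧ x.1 ∈ matSet p A x.2.1} := by
  have hd := DefFun.of_mem DefSet.univ (denef_det_mem (I := I) p)
  have h1 := DefFun.const (p := p) (F := (PF p (I × I) : Set ((I × I → ℚ_[p]) → ℚ_[p])))
    DefSet.univ 1
  refine ((Def.nonneg (AddMonoidHom.fst ℤ ℤ) 0).and
    (((Def.nonneg (AddMonoidHom.fst ℤ ℤ - AddMonoidHom.snd ℤ ℤ) 1).and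
      (Def.nonneg (AddMonoidHom.snd ℤ ℤ - AddMonoidHom.fst ℤ ℤ) (-1))).and
    (((hd.norm_le h1 (AddMonoidHom.fst ℤ ℤ) 0).and (h1.norm_le hd (-AddMonoidHom.fst ℤ ℤ) 0)).and
      (Def.forall fun k => Def.forall fun i => Def.forall fun j =>
        (DefFun.of_mem DefSet.univ (denef_entry_mem p (A k) i j)).norm_le' hd 0)))).congr
    fun b n => ?_
  simp only [Set.mem_ofPred_eq, matSet, AddMonoidHom.coe_fst, add_zero, AddMonoidHom.sub_apply,
    AddMonoidHom.coe_snd, Set.mem_univ, true_and, norm_one, mul_one, AddMonoidHom.neg_apply,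
    neg_neg, zpow_zero, one_mul]
  refine and_congr Iff.rfl (and_congr (by omega) (and_congr ?_ Iff.rfl))
  have h2 : (0 : ℝ) < (p : ℝ) ^ n.1 := zpow_pos p_pos _
  rw [le_antisymm_iff, _root_.zpow_neg, inv_le_iff_one_le_mul₀' h2]

end

theorem denef {I ι : Type} [Fintype I] [DecidableEq I] [Finite ι] (p : ℕ) [Fact p.Prime]
    (A : ι → Matrix I I ℤ) :
    Rat p (PowerSeries.mk fun n => (subCount ℤ_[p] A (p ^ n) : ℚ)) := by
  obtain ⟨γ, hγ, hc⟩ := cnt_matSet p A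
  have h := count_rat (denef_def p A) (AddMonoidHom.snd ℤ ℤ) (AddMonoidHom.fst ℤ ℤ)
    (((Fintype.card I : ℤ) - Fintype.card I * Fintype.card I) • AddMonoidHom.fst ℤ ℤ)
    (fun x hx => ⟨by have h1 := hx.1; have h2 := hx.2.1; change 0 ≤ x.2.2; omega, hx.1⟩)
    (fun j => (Set.finite_singleton (j, j + 1)).subset (by
      rintro ⟨n, L⟩ ⟨rfl : n = j, x, -, h2, -⟩
      exact Prod.ext rfl h2))
    (fun n x y hx hy h => ⟨h.1, h.2.1, matSet_inv p A n.1 x y hx (h.2.1 ▸ hy) h.1 h.2.2⟩)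
  convert h.smul p (γ : ℚ)⁻¹ using 1
  ext j
  have hp : (p : ℚ) ≠ 0 := Nat.cast_ne_zero.2 (Fact.out : p.Prime).ne_zero
  have hγ' : (γ : ℚ) ≠ 0 := Nat.cast_ne_zero.2 hγ.ne'
  rw [PowerSeries.coeff_smul, PowerSeries.coeff_mk, PowerSeries.coeff_mk,
    finsum_eq_single _ ((j : ℤ), (j : ℤ) + 1)]
  · rw [finsum_eq_if, if_pos (by simp)]
    have h1 : {x : I × I → ℚ_[p] | (x, ((j : ℤ), (j : ℤ) + 1)) ∈
        {x : (I × I → ℚ_[p]) × ℤ × ℤ | 0 ≤ x.2.1 ∧ x.2.2 = x.2.1 + 1 ∧ x.1 ∈ matSet p A x.2.1}} =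
        matSet p A j := by
      ext x
      simp
    have h2 : (AddMonoidHom.snd ℤ ℤ ((j : ℤ), (j : ℤ) + 1)).toNat = j + 1 := by simp
    have h3 : (((Fintype.card I : ℤ) - Fintype.card I * Fintype.card I) • AddMonoidHom.fst ℤ ℤ)
        ((j : ℤ), (j : ℤ) + 1) = (j * Fintype.card I : ℕ) -
          (j * Fintype.card I * Fintype.card I : ℕ) := by
      simp only [AddMonoidHom.smul_apply, AddMonoidHom.coe_fst, smul_eq_mul]
      push_cast
      ring
    have h4 : ((cnt p (j + 1) (matSet p A j) : ℚ)) * (p : ℚ) ^ (j * Fintype.card I) =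
        γ * (p : ℚ) ^ (j * Fintype.card I * Fintype.card I) * subCount ℤ_[p] A (p ^ j) := by
      exact_mod_cast hc j
    rw [h1, h2, h3, zpow_sub₀ hp, zpow_natCast, zpow_natCast, smul_eq_mul]
    field_simp
    linear_combination -h4
  · rintro ⟨n, L⟩ hne
    rw [finsum_eq_if]
    split_ifs with hn
    swap
    · rfl
    obtain rfl : n = j := hn
    have h1 : {x : I × I → ℚ_[p] | (x, ((j : ℤ), L)) ∈
        {x : (I × I → ℚ_[p]) × ℤ × ℤ | 0 ≤ x.2.1 ∧ x.2.2 = x.2.1 + 1 ∧ x.1 ∈ matSet p A x.2.1}} =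
        ∅ := Set.eq_empty_of_forall_notMem fun x hx => hne (Prod.ext rfl hx.2.1)
    rw [h1]
    simp [cnt]

end Pool.Agent.P.MP_8598be_al.E
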