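import Pool.Agent.P.MP_8598be_al.E.Defs

namespace Pool.Agent.P.MP_8598be_al.E

open Matrix

variable {I : Type} [Fintype I] [DecidableEq I] {c d : ℕ} {τ : I → FreeMagma (Fin d)}

theorem sum_wtT (t : FreeMagma (Fin d)) : ∑ k, wtT t k = t.length := by
  induction t using FreeMagma.rec with
  | of k => simp [wtT, FreeMagma.length]
  | mul a b ha hb => simp [wtT, FreeMagma.length, Finset.sum_add_distrib, ha, hb]

attribute [local instance 100] LieRing.ofAssociativeRing in
theorem model_psi (R : Type) [CommRing R] : ∃ ψ : FreeLieAlgebra R (Fin d) →ₗ[R] FreeAlgebra R (Fin d),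
    ∀ t, ψ (lieT R t) = ascT R t := by
  refine ⟨(FreeLieAlgebra.lift R (FreeAlgebra.ι R)).toLinearMap, fun t => ?_⟩
  induction t using FreeMagma.rec with
  | of k => exact FreeLieAlgebra.lift_of_apply _ _
  | mul a b ha hb =>
    rw [lieT, ascT, ← ha, ← hb]
    exact LieHom.map_lie _ _ _

omit [Fintype I] [DecidableEq I] in
theorem model_indep (h : IsBasis c d τ) (R : Type) [CommRing R] :
    LinearIndependent R fun u => lieT R (τ u) := by
  obtain ⟨ψ, hψ⟩ := model_psi (d := d) R
  refine LinearIndependent.of_comp ψ ?_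
  have h1 : (ψ ∘ fun u => lieT R (τ u)) = fun u => ascT R (τ u) := funext fun u => hψ _
  rw [h1]
  exact (h.2 R).2

theorem model_transfer (R : Type) [CommRing R] :
    ∃ φ : FreeLieAlgebra ℤ (Fin d) →+ FreeLieAlgebra R (Fin d), ∀ t, φ (lieT ℤ t) = lieT R t := by
  set φ := FreeLieAlgebra.lift ℤ (FreeLieAlgebra.of R (X := Fin d)) with hφ
  refine ⟨φ.toLinearMap.toAddMonoidHom, fun t => ?_⟩
  show φ (lieT ℤ t) = _
  induction t using FreeMagma.rec with
  | of k => exact FreeLieAlgebra.lift_of_apply _ _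
  | mul a b ha hb => rw [lieT, lieT, LieHom.map_lie, ha, hb]

theorem model_scale (j : Fin d) : ∃ D : FreeLieAlgebra ℚ (Fin d) →ₗ[ℚ] FreeLieAlgebra ℚ (Fin d),
    ∀ t, D (lieT ℚ t) = (2 : ℚ) ^ wtT t j • lieT ℚ t := by
  set D := FreeLieAlgebra.lift ℚ fun k : Fin d =>
    (2 : ℚ) ^ (Pi.single k 1 : Fin d → ℕ) j • FreeLieAlgebra.of ℚ k with hD
  refine ⟨D.toLinearMap, fun t => ?_⟩
  show D (lieT ℚ t) = _
  induction t using FreeMagma.rec with
  | of k => exact FreeLieAlgebra.lift_of_apply _ _
  | mul a b ha hb =>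
    rw [lieT, LieHom.map_lie, ha, hb, smul_lie, lie_smul, smul_smul, wtT, Pi.add_apply, pow_add]

omit [Fintype I] [DecidableEq I] in
theorem model_mem (h : IsBasis c d τ) (R : Type) [CommRing R] (k : Fin d) {u : I}
    (hu : (τ u).length < c) : ⁅lieT R (τ u), FreeLieAlgebra.of R k⁆ ∈
      Submodule.span R (Set.range fun w => lieT R (τ w)) := by
  obtain ⟨i, hi⟩ : ∃ i, (τ u).length = i + 1 := ⟨(τ u).length - 1, by
    have := FreeMagma.length_pos (τ u); omega⟩
  have h1 : lieT R (τ u) ∈ piece R d i := by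
    rw [(h.2 R).1 i (by omega)]
    exact Submodule.subset_span ⟨u, hi, rfl⟩
  have h2 : ⁅lieT R (τ u), FreeLieAlgebra.of R k⁆ ∈ piece R d (i + 1) :=
    Submodule.subset_span ⟨_, h1, _, Submodule.subset_span ⟨k, rfl⟩, rfl⟩
  rw [(h.2 R).1 (i + 1) (by omega)] at h2
  exact Submodule.span_mono (Set.image_subset_range _ _) h2

theorem exists_model (h : IsBasis c d τ) : ∃ A, IsModel c d τ A := by
  have h1 : ∀ k u, ∃ a : I → ℤ, (¬ (τ u).length < c → a = 0) ∧ ((τ u).length < c →
      ∀ (R : Type) [CommRing R],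
        ⁅lieT R (τ u), FreeLieAlgebra.of R k⁆ = ∑ w, (a w : R) • lieT R (τ w)) := by
    intro k u
    by_cases hu : (τ u).length < c
    · obtain ⟨a, ha⟩ := (Submodule.mem_span_range_iff_exists_fun ℤ).1 (model_mem h ℤ k hu)
      refine ⟨a, fun h' => absurd hu h', fun _ R _ => ?_⟩
      obtain ⟨φ, hφ⟩ := model_transfer (d := d) R
      have h2 := hφ (.mul (τ u) (.of k))
      rw [lieT, lieT, lieT, lieT, ← ha, map_sum] at h2
      rw [← h2]
      refine Finset.sum_congr rfl fun w _ => ?_
      rw [Int.cast_smul_eq_zsmul, ← hφ, ← map_zsmul]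
      rfl
    · exact ⟨0, fun _ => rfl, fun h' => absurd h' hu⟩
  choose a ha0 ha using h1
  refine ⟨Sum.elim (fun i => diagonal fun u => if (τ u).length = i + 1 then 1 else 0)
    (fun k => Matrix.of fun w u => a k u w), fun _ => rfl, fun k w u hw => ?_,
    fun R _ k u hu => ha k u hu R⟩
  have hw' : a k u w ≠ 0 := hw
  have hu : (τ u).length < c := by
    by_contra hu
    exact hw' (by rw [ha0 k u hu]; rfl)
  funext j
  obtain ⟨D, hD⟩ := model_scale j
  have h2 := hD (.mul (τ u) (.of k))
  rw [lieT, lieT, ha k u hu ℚ, map_sum, Finset.smul_sum] at h2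
  simp only [map_smul, hD, smul_smul] at h2
  have h3 := Fintype.linearIndependent_iffₛ.1 (model_indep h ℚ) _ _ h2 w
  rw [mul_comm] at h3
  have h4 := mul_right_cancel₀ (Int.cast_ne_zero.2 hw') h3
  exact pow_right_injective₀ (by norm_num) (by norm_num) h4

/-- projection to the coordinates of length `i + 1` -/
def modelPr (τ : I → FreeMagma (Fin d)) (R : Type) [CommRing R] (i : ℕ) : (I → R) →ₗ[R] (I → R) :=
  LinearMap.pi fun u => if (τ u).length = i + 1 then LinearMap.proj u else 0

omit [Fintype I] [DecidableEq I] in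
theorem modelPr_apply (R : Type) [CommRing R] (i : ℕ) (v : I → R) (u : I) :
    modelPr τ R i v u = if (τ u).length = i + 1 then v u else 0 := by
  simp only [modelPr, LinearMap.pi_apply]
  split_ifs <;> rfl

/-- the homogeneous part of degree `i + 1` of the element with coordinates `v` -/
noncomputable def modelT (τ : I → FreeMagma (Fin d)) (R : Type) [CommRing R] (i : ℕ) :
    (I → R) →ₗ[R] FreeLieAlgebra R (Fin d) :=
  Fintype.linearCombination R (fun u => lieT R (τ u)) ∘ₗ modelPr τ R i

omit [DecidableEq I] in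
theorem modelT_apply (R : Type) [CommRing R] (i : ℕ) (v : I → R) :
    modelT τ R i v = ∑ u, (if (τ u).length = i + 1 then v u else 0) • lieT R (τ u) := by
  simp only [modelT, LinearMap.comp_apply, Fintype.linearCombination_apply, modelPr_apply]

omit [DecidableEq I] in
theorem modelT_pr (R : Type) [CommRing R] (i j : ℕ) (v : I → R) :
    modelT τ R j (modelPr τ R i v) = if j = i then modelT τ R j v else 0 := by
  split_ifs with hij
  · subst hij
    simp only [modelT_apply, modelPr_apply]
    refine Finset.sum_congr rfl fun u _ => ?_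
    split_ifs <;> rfl
  · simp only [modelT_apply, modelPr_apply]
    refine Finset.sum_eq_zero fun u _ => ?_
    split_ifs with h1 h2
    · omega
    · simp
    · simp

omit [Fintype I] [DecidableEq I] in
theorem model_sum_pr (h : IsBasis c d τ) (R : Type) [CommRing R] (v : I → R) :
    ∑ i : Fin c, modelPr τ R i v = v := by
  funext u
  have h1 := FreeMagma.length_pos (τ u)
  have h2 := h.1 u
  rw [Finset.sum_apply, Finset.sum_eq_single (⟨(τ u).length - 1, by omega⟩ : Fin c)]
  · rw [modelPr_apply, if_pos (by simp only; omega)]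
  · intro i _ hi
    rw [modelPr_apply, if_neg]
    intro h3
    exact hi (Fin.ext (by simp only; omega))
  · simp

theorem modelT_single (R : Type) [CommRing R] (i : ℕ) (u : I) :
    modelT τ R i (Pi.single u 1) = if (τ u).length = i + 1 then lieT R (τ u) else 0 := by
  rw [modelT_apply, Finset.sum_eq_single u]
  · split_ifs <;> simp
  · intro w _ hw
    simp [Pi.single_eq_of_ne hw]
  · simp

theorem model_range (h : IsBasis c d τ) (R : Type) [CommRing R] {i : ℕ} (hi : i < c) :
    LinearMap.range (modelT τ R i) = piece R d i := by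
  rw [(h.2 R).1 i hi]
  refine le_antisymm ?_ (Submodule.span_le.2 ?_)
  · rintro _ ⟨v, rfl⟩
    rw [modelT_apply]
    refine Submodule.sum_mem _ fun u _ => ?_
    split_ifs with hu
    · exact Submodule.smul_mem _ _ (Submodule.subset_span ⟨u, hu, rfl⟩)
    · simp
  · rintro _ ⟨u, hu, rfl⟩
    exact ⟨Pi.single u 1, by rw [modelT_single]; exact if_pos hu⟩

omit [Fintype I] in
theorem model_len [Fintype I] {A : Fin c ⊕ Fin d → Matrix I I ℤ} (hA : IsModel c d τ A) {k : Fin d}
    {w u : I} (hw : A (.inr k) w u ≠ 0) : (τ w).length = (τ u).length + 1 := by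
  rw [← sum_wtT, ← sum_wtT, hA.2.1 k w u hw]
  simp [Finset.sum_add_distrib]

theorem model_col {A : Fin c ⊕ Fin d → Matrix I I ℤ} (hA : IsModel c d τ A) (R : Type) [CommRing R]
    (k : Fin d) (j : ℕ) (u : I) :
    modelT τ R j ((A (.inr k)).map (Int.cast : ℤ → R) *ᵥ Pi.single u 1) =
      if (τ u).length = j then ∑ w, (A (.inr k) w u : R) • lieT R (τ w) else 0 := by
  rw [modelT_apply]
  simp only [mulVec_single_one, col_apply, map_apply]
  split_ifs with hu
  · refine Finset.sum_congr rfl fun w _ => ?_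
    by_cases hw : A (.inr k) w u = 0
    · simp [hw]
    · rw [if_pos (by rw [model_len hA hw, hu])]
  · refine Finset.sum_eq_zero fun w _ => ?_
    by_cases hw : A (.inr k) w u = 0
    · simp [hw]
    · rw [if_neg (by rw [model_len hA hw]; omega), zero_smul]

theorem model_lie {A : Fin c ⊕ Fin d → Matrix I I ℤ} (hA : IsModel c d τ A) (R : Type) [CommRing R]
    (k : Fin d) {i : ℕ} (hi : i + 1 < c) (v : I → R) :
    modelT τ R (i + 1) ((A (.inr k)).map (Int.cast : ℤ → R) *ᵥ v) =
      ⁅modelT τ R i v, FreeLieAlgebra.of R k⁆ := by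
  rw [pi_eq_sum_univ' v]
  simp only [mulVec_sum, mulVec_smul, map_sum, map_smul, sum_lie, smul_lie]
  refine Finset.sum_congr rfl fun u _ => ?_
  rw [model_col hA, modelT_single]
  split_ifs with hu
  · rw [hA.2.2 R k u (by omega)]
  · simp

theorem model_lie_zero {A : Fin c ⊕ Fin d → Matrix I I ℤ} (hA : IsModel c d τ A) (R : Type)
    [CommRing R] (k : Fin d) (v : I → R) :
    modelT τ R 0 ((A (.inr k)).map (Int.cast : ℤ → R) *ᵥ v) = 0 := by
  rw [pi_eq_sum_univ' v]
  simp only [mulVec_sum, mulVec_smul, map_sum, map_smul]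
  refine Finset.sum_eq_zero fun u _ => ?_
  rw [model_col hA, if_neg (FreeMagma.length_pos _).ne', smul_zero]

theorem model_inl {A : Fin c ⊕ Fin d → Matrix I I ℤ} (hA : IsModel c d τ A) (R : Type) [CommRing R]
    (i : Fin c) (v : I → R) : (A (.inl i)).map (Int.cast : ℤ → R) *ᵥ v = modelPr τ R i v := by
  funext u
  rw [hA.1 i, diagonal_map (by simp), mulVec_diagonal, modelPr_apply]
  split_ifs <;> simp

theorem model_index_pi {ι : Type} [Fintype ι] {G : ι → Type} [∀ i, AddGroup (G i)]
    (H : ∀ i, AddSubgroup (G i)) : (AddSubgroup.pi Set.univ H).index = ∏ i, (H i).index := by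
  simp_rw [AddSubgroup.index, ← Nat.card_pi]
  refine Nat.card_congr
    ((Quotient.congrRight (fun x y ↦ ?_)).trans (Setoid.piQuotientEquiv _).symm)
  rw [QuotientAddGroup.leftRel_pi]

theorem model_index (h : IsBasis c d τ) (R : Type) [CommRing R]
    (Λ : Fin c → Submodule R (FreeLieAlgebra R (Fin d))) :
    (⨅ i : Fin c, (Λ i).comap (modelT τ R i)).toAddSubgroup.index =
      ∏ i, (Λ i).toAddSubgroup.relIndex (piece R d i).toAddSubgroup := by
  have hm : ∀ (i : Fin c) v, modelT τ R i v ∈ (piece R d i).toAddSubgroup := fun i v => by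
    rw [Submodule.mem_toAddSubgroup, ← model_range h R i.2]
    exact ⟨v, rfl⟩
  let e : (I → R) →+ ∀ i : Fin c, (piece R d i).toAddSubgroup :=
    AddMonoidHom.pi fun i => (modelT τ R i).toAddMonoidHom.codRestrict _ (hm i)
  have he : Function.Surjective e := by
    intro x
    have h1 : ∀ i : Fin c, ∃ v, modelT τ R i v = x i := fun i => by
      exact (model_range h R i.2).ge (x i).2
    choose v hv using h1
    refine ⟨∑ i : Fin c, modelPr τ R i (v i), funext fun j => Subtype.ext ?_⟩
    show modelT τ R j (∑ i : Fin c, modelPr τ R i (v i)) = x j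
    rw [map_sum, Finset.sum_eq_single j, modelT_pr, if_pos rfl, hv]
    · intro i _ hi
      rw [modelT_pr, if_neg fun h' => hi (Fin.ext h').symm]
    · simp
  have h1 : (⨅ i : Fin c, (Λ i).comap (modelT τ R i)).toAddSubgroup =
      (AddSubgroup.pi Set.univ fun i =>
        (Λ i).toAddSubgroup.addSubgroupOf (piece R d i).toAddSubgroup).comap e := by
    ext v
    simp only [Submodule.mem_toAddSubgroup, Submodule.mem_iInf, Submodule.mem_comap,
      AddSubgroup.mem_comap, AddSubgroup.mem_pi, Set.mem_univ, true_imp_iff,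
      AddSubgroup.mem_addSubgroupOf]
    rfl
  rw [h1, AddSubgroup.index_comap_of_surjective _ he, model_index_pi]
  rfl

theorem model_left (h : IsBasis c d τ) {A : Fin c ⊕ Fin d → Matrix I I ℤ} (hA : IsModel c d τ A)
    (R : Type) [CommRing R] {Λ : Submodule R (I → R)} (hΛ : Inv R A Λ) :
    (⨅ i : Fin c, (Λ.map (modelT τ R i)).comap (modelT τ R i)) = Λ := by
  refine le_antisymm (fun v hv => ?_) (le_iInf fun i => Submodule.le_comap_map _ _)
  rw [← model_sum_pr h R v]
  refine Submodule.sum_mem _ fun i _ => ?_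
  obtain ⟨w, hw, hwv⟩ := (Submodule.mem_iInf _).1 hv i
  have h1 : modelPr τ R i w = modelPr τ R i v :=
    (model_indep h R).fintypeLinearCombination_injective hwv
  rw [← h1, ← model_inl hA]
  exact hΛ _ w hw

theorem idealCount_eq (h : IsBasis c d τ) {A : Fin c ⊕ Fin d → Matrix I I ℤ}
    (hA : IsModel c d τ A) (R : Type) [CommRing R] (m : ℕ) :
    idealCount R c d m = subCount R A m := by
  refine Nat.card_congr ⟨fun Λ => ⟨⨅ i : Fin c, (Λ.1 i).comap (modelT τ R i), ?_, ?_⟩,
    fun Λ => ⟨fun i => Λ.1.map (modelT τ R i), fun i => ?_, fun i j hij x hx y hy => ?_, ?_⟩,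
    fun Λ => Subtype.ext (funext fun i => ?_), fun Λ => Subtype.ext (model_left h hA R Λ.2.1)⟩
  · intro k v hv
    rw [Submodule.mem_iInf] at hv ⊢
    intro j
    rw [Submodule.mem_comap]
    rcases k with i | k
    · rw [model_inl hA, modelT_pr]
      split_ifs
      · exact hv j
      · exact zero_mem _
    · obtain ⟨j, hj⟩ := j
      rcases j with _ | i
      · rw [model_lie_zero hA]
        exact zero_mem _
      · rw [model_lie hA R k hj]
        exact Λ.2.2.1 ⟨i, by omega⟩ ⟨i + 1, hj⟩ rfl _ (hv ⟨i, by omega⟩) _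
          (Submodule.subset_span ⟨k, rfl⟩)
  · rw [model_index h]
    exact Λ.2.2.2
  · rw [← model_range h R i.2]
    exact LinearMap.map_le_range
  · obtain ⟨v, hv, rfl⟩ := hx
    induction hy using Submodule.span_induction with
    | mem y hy =>
      obtain ⟨k, rfl⟩ := hy
      rw [← model_lie hA R k (hij ▸ j.2), ← hij]
      exact ⟨_, Λ.2.1 _ v hv, rfl⟩
    | zero => rw [lie_zero]; exact zero_mem _
    | add y z _ _ h1 h2 => rw [lie_add]; exact add_mem h1 h2
    | smul a y _ h1 => rw [lie_smul]; exact Submodule.smul_mem _ _ h1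
  · rw [← model_index h, model_left h hA R Λ.2.1]
    exact Λ.2.2
  · refine le_antisymm ?_ fun x hx => ?_
    · rintro _ ⟨v, hv, rfl⟩
      exact (Submodule.mem_iInf _).1 hv i
    · have h1 := Λ.2.1 i hx
      rw [← model_range h R i.2] at h1
      obtain ⟨v, rfl⟩ := h1
      refine ⟨modelPr τ R i v, (Submodule.mem_iInf _).2 fun j => ?_, by
        rw [modelT_pr, if_pos rfl]⟩
      rw [Submodule.mem_comap, modelT_pr]
      split_ifs with hij
      · rwa [Fin.ext hij]
      · exact zero_mem _

end Pool.Agent.P.MP_8598be_al.E
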