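import Pool.Agent.P.MP_8598be_al.FlagDef
import Pool.Agent.P.MP_8598be_al.E.Model

/-!
Flags of graded ideals are flags of invariant subspaces.
-/

namespace Pool.Agent.P.MP_8598be_al.E

open Matrix

variable {I : Type} [Fintype I] [DecidableEq I] {c d : ℕ} {τ : I → FreeMagma (Fin d)}
  {A : Fin c ⊕ Fin d → Matrix I I ℤ}

theorem flags_inv (hA : IsModel c d τ A) (R : Type) [CommRing R]
    {Λ : Fin c → Submodule R (FreeLieAlgebra R (Fin d))}
    (hΛ : ∀ i j : Fin c, j.val = i.val + 1 → ∀ x ∈ Λ i, ∀ y ∈ piece R d 0, ⁅x, y⁆ ∈ Λ j) :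
    Inv R A (⨅ i : Fin c, (Λ i).comap (modelT τ R i)) := by
  intro k v hv
  rw [Submodule.mem_iInf] at hv ⊢
  intro j
  rw [Submodule.mem_comap]
  rcases k with i | k
  · rw [model_inl hA, modelT_pr]
    split_ifs
    · exact hv j
    · exact zero_mem _
  · obtain ⟨j, hj⟩ := j
    rcases j with _ | i
    · rw [model_lie_zero hA]
      exact zero_mem _
    · rw [model_lie hA R k hj]
      exact hΛ ⟨i, by omega⟩ ⟨i + 1, hj⟩ rfl _ (hv ⟨i, by omega⟩) _
        (Submodule.subset_span ⟨k, rfl⟩)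

theorem flags_lie (hA : IsModel c d τ A) (R : Type) [CommRing R] {Λ : Submodule R (I → R)}
    (hΛ : Inv R A Λ) (i j : Fin c) (hij : j.val = i.val + 1) :
    ∀ x ∈ Λ.map (modelT τ R i), ∀ y ∈ piece R d 0, ⁅x, y⁆ ∈ Λ.map (modelT τ R j) := by
  rintro _ ⟨v, hv, rfl⟩ y hy
  induction hy using Submodule.span_induction with
  | mem y hy =>
    obtain ⟨k, rfl⟩ := hy
    rw [← model_lie hA R k (hij ▸ j.2), ← hij]
    exact ⟨_, hΛ _ v hv, rfl⟩
  | zero => rw [lie_zero]; exact zero_mem _
  | add y z _ _ h1 h2 => rw [lie_add]; exact add_mem h1 h2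
  | smul a y _ h1 => rw [lie_smul]; exact Submodule.smul_mem _ _ h1

theorem flags_right (h : IsBasis c d τ) (R : Type) [CommRing R]
    {Λ : Fin c → Submodule R (FreeLieAlgebra R (Fin d))} (hΛ : ∀ i, Λ i ≤ piece R d i)
    (i : Fin c) : (⨅ i : Fin c, (Λ i).comap (modelT τ R i)).map (modelT τ R i) = Λ i := by
  refine le_antisymm ?_ fun x hx => ?_
  · rintro _ ⟨v, hv, rfl⟩
    exact (Submodule.mem_iInf _).1 hv i
  · have h1 := hΛ i hx
    rw [← model_range h R i.2] at h1
    obtain ⟨v, rfl⟩ := h1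
    refine ⟨modelPr τ R i v, (Submodule.mem_iInf _).2 fun j => ?_, by
      rw [modelT_pr, if_pos rfl]⟩
    rw [Submodule.mem_comap, modelT_pr]
    split_ifs with hij
    · rwa [Fin.ext hij]
    · exact zero_mem _

theorem flags_rank (h : IsBasis c d τ) (hA : IsModel c d τ A) (F : Type) [Field F]
    {Λ : Submodule F (I → F)} (hΛ : Inv F A Λ) :
    ∑ i : Fin c, Module.finrank F (Λ.map (modelT τ F i)) = Module.finrank F Λ := by
  let e : Λ →ₗ[F] ∀ i : Fin c, Λ.map (modelT τ F i) :=
    LinearMap.pi fun i => (modelT τ F i).submoduleMap Λ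
  have he : Function.Bijective e := by
    refine ⟨(injective_iff_map_eq_zero e).2 fun v hv => Subtype.ext ?_, fun x => ?_⟩
    · rw [← model_sum_pr h F v.1]
      refine Finset.sum_eq_zero fun i _ => (model_indep h F).fintypeLinearCombination_injective ?_
      rw [map_zero]
      exact congrArg Subtype.val (congrFun hv i)
    · choose v hv hv' using fun i => (x i).2
      refine ⟨⟨∑ i : Fin c, modelPr τ F i (v i), Submodule.sum_mem _ fun i _ => ?_⟩,
        funext fun j => Subtype.ext ?_⟩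
      · rw [← model_inl hA]
        exact hΛ _ _ (hv i)
      · show modelT τ F j (∑ i : Fin c, modelPr τ F i (v i)) = x j
        rw [map_sum, Finset.sum_eq_single j, modelT_pr, if_pos rfl, hv']
        · intro i _ hi
          rw [modelT_pr, if_neg fun h' => hi (Fin.ext h').symm]
        · simp
  rw [(LinearEquiv.ofBijective e he).finrank_eq, Module.finrank_pi_fintype]

theorem idealFlags_eq {τ : Fin (rk c d) → FreeMagma (Fin d)} (h : IsBasis c d τ)
    {A : Fin c ⊕ Fin d → Matrix (Fin (rk c d)) (Fin (rk c d)) ℤ} (hA : IsModel c d τ A)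
    (F : Type) [Field F] : idealFlags F c d = flagCount F A := by
  have h1 : flagCount F A = Nat.card {J : Fin (rk c d + 1) → Submodule F (Fin (rk c d) → F) //
      Monotone J ∧ ∀ j, Inv F A (J j) ∧ Module.finrank F (J j) = j} := by
    rw [flagCount]
    generalize_proofs
    generalize hn : Fintype.card (Fin (rk c d)) = n
    rw [Fintype.card_fin] at hn
    subst hn
    rfl
  rw [h1]
  have h2 : ∀ (Λ : Submodule F (Fin (rk c d) → F)) (i : Fin c),
      Λ.map (modelT τ F i) ≤ piece F d i := fun Λ i => by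
    rw [← model_range h F i.2]
    exact LinearMap.map_le_range
  have h3 : ∀ Λ : Fin c → Submodule F (FreeLieAlgebra F (Fin d)), (∀ i, Λ i ≤ piece F d i) →
      (∀ i j : Fin c, j.val = i.val + 1 → ∀ x ∈ Λ i, ∀ y ∈ piece F d 0, ⁅x, y⁆ ∈ Λ j) →
      Module.finrank F (⨅ i : Fin c, (Λ i).comap (modelT τ F i) :) =
        ∑ i, Module.finrank F (Λ i) := fun Λ a b => by
    rw [← flags_rank h hA F (flags_inv hA F b)]
    exact Finset.sum_congr rfl fun i _ => by rw [flags_right h F a]
  exact (Nat.card_congr ⟨fun J => ⟨fun j i => (J.1 j).map (modelT τ F i),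
    fun j j' hj i => Submodule.map_mono (J.2.1 hj), fun j => ⟨h2 _,
      flags_lie hA F (J.2.2 j).1, (flags_rank h hA F (J.2.2 j).1).trans (J.2.2 j).2⟩⟩,
    fun Λ => ⟨fun j => ⨅ i : Fin c, (Λ.1 j i).comap (modelT τ F i),
      fun j j' hj => iInf_mono fun i => Submodule.comap_mono (Λ.2.1 hj i),
      fun j => ⟨flags_inv hA F (Λ.2.2 j).2.1,
        (h3 _ (Λ.2.2 j).1 (Λ.2.2 j).2.1).trans (Λ.2.2 j).2.2⟩⟩,
    fun J => Subtype.ext (funext fun j => model_left h hA F (J.2.2 j).1),
    fun Λ => Subtype.ext (funext fun j => funext (flags_right h F (Λ.2.2 j).1))⟩).symm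

end Pool.Agent.P.MP_8598be_al.E
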