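import Pool.Agent.P.MP_8598be_al.E.Defs

namespace Pool.Agent.P.MP_8598be_al.E

open Polynomial

/-- The ordered product of powers of the members of `H` in the free associative algebra. -/
noncomputable def ordP (R : Type) [CommRing R] {d : ℕ} (H : List (FreeMagma (Fin d)))
    (e : Fin H.length → ℕ) : FreeAlgebra R (Fin d) :=
  (List.ofFn fun i => ascT R (H.get i) ^ e i).prod

variable {d : ℕ}

theorem laza_map_mem {R A B : Type} [CommRing R] [AddCommGroup A] [AddCommGroup B] [Module R A]
    [Module R B] (φ : A →ₗ[R] B) {s : Set A} {N : Submodule R B} (h : ∀ g ∈ s, φ g ∈ N) {v : A}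
    (hv : v ∈ Submodule.span R s) : φ v ∈ N :=
  (Submodule.span_le.2 h : Submodule.span R s ≤ N.comap φ) hv

theorem laza_len (a b : FreeMagma (Fin d)) : (FreeMagma.mul a b).length = a.length + b.length := rfl

/-- The bracketings built from the members of `S`. -/
inductive LazGen (S : List (FreeMagma (Fin d))) : FreeMagma (Fin d) → Prop
  | base {t : FreeMagma (Fin d)} : t ∈ S → LazGen S t
  | mul {s t : FreeMagma (Fin d)} : LazGen S s → LazGen S t → LazGen S (.mul s t)

/-- The iterated bracket with `a` on the right. -/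
def lazAd (a s : FreeMagma (Fin d)) : ℕ → FreeMagma (Fin d)
  | 0 => s
  | j + 1 => .mul (lazAd a s j) a

/-- The new generators after the elimination of `a`. -/
def lazNew (c : ℕ) (a : FreeMagma (Fin d)) (S : List (FreeMagma (Fin d))) :
    List (FreeMagma (Fin d)) :=
  S.flatMap fun s => (List.range c).map fun j => lazAd a s (j + 1)

theorem laza_len_ad (a s : FreeMagma (Fin d)) (j : ℕ) :
    (lazAd a s j).length = s.length + j * a.length := by
  induction j with
  | zero => simp [lazAd]
  | succ j ih => rw [lazAd, laza_len, ih]; ring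

theorem laza_mem_new {c : ℕ} {a x : FreeMagma (Fin d)} {S : List (FreeMagma (Fin d))} :
    x ∈ lazNew c a S ↔ ∃ s ∈ S, ∃ j < c, lazAd a s (j + 1) = x := by
  simp [lazNew]

theorem laza_closed {c : ℕ} {a x : FreeMagma (Fin d)} {S : List (FreeMagma (Fin d))}
    (hx : x ∈ S ++ lazNew c a S) (h : x.length + a.length ≤ c) :
    FreeMagma.mul x a ∈ S ++ lazNew c a S := by
  have ha := FreeMagma.length_pos a
  rw [List.mem_append] at hx ⊢
  refine Or.inr (laza_mem_new.2 ?_)
  rcases hx with hx | hx
  · exact ⟨x, hx, 0, by omega, rfl⟩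
  · obtain ⟨s, hs, j, -, rfl⟩ := laza_mem_new.1 hx
    rw [laza_len_ad] at h
    have := Nat.le_mul_of_pos_right (j + 1) ha
    exact ⟨s, hs, j + 1, by omega, rfl⟩

/-- The generating polynomial of the lengths. -/
noncomputable def lazG (S : List (FreeMagma (Fin d))) : ℤ[X] := (S.map fun s => X ^ s.length).sum

theorem laza_geom (a s : FreeMagma (Fin d)) (k : ℕ) :
    (1 - X ^ a.length) * (X ^ s.length + lazG ((List.range k).map fun j => lazAd a s (j + 1))) =
      X ^ s.length - X ^ (s.length + (k + 1) * a.length) := by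
  induction k with
  | zero => simp [lazG, pow_add]; ring
  | succ k ih =>
    simp only [lazG, List.range_succ, List.map_append, List.sum_append, List.map_cons, List.map_nil,
      List.sum_cons, List.sum_nil, laza_len_ad] at ih ⊢
    rw [← add_assoc, mul_add, ih]
    ring

theorem laza_poly (c : ℕ) (a : FreeMagma (Fin d)) (S : List (FreeMagma (Fin d))) :
    (X ^ (c + 1) : ℤ[X]) ∣ (1 - X ^ a.length) * lazG (S ++ lazNew c a S) - lazG S := by
  induction S with
  | nil => simp [lazG, lazNew]
  | cons s S ih =>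
    have h := laza_geom a s c
    have h2 : (X ^ (c + 1) : ℤ[X]) ∣ X ^ (s.length + (c + 1) * a.length) :=
      pow_dvd_pow _ (by have := Nat.le_mul_of_pos_right (c + 1) (FreeMagma.length_pos a); omega)
    convert dvd_sub ih h2 using 1
    simp only [lazG, lazNew, List.flatMap_cons, List.map_append, List.sum_append, List.map_cons,
      List.sum_cons] at h ⊢
    linear_combination h

section Lie

variable (R : Type) [CommRing R]

/-- The span of the Lie monomials of length `m` built from `S`. -/
noncomputable def lazL (S : List (FreeMagma (Fin d))) (m : ℕ) :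
    Submodule R (FreeLieAlgebra R (Fin d)) :=
  Submodule.span R (lieT R '' {t | LazGen S t ∧ t.length = m})

variable {R}

theorem laza_lie_left {L : Type} [LieRing L] [LieAlgebra R L] {s : Set L} {N : Submodule R L}
    {x y : L} (h : ∀ g ∈ s, ⁅g, y⁆ ∈ N) (hx : x ∈ Submodule.span R s) : ⁅x, y⁆ ∈ N := by
  rw [← lie_skew]
  refine neg_mem (laza_map_mem (LieAlgebra.ad R L y) (fun g hg => ?_) hx)
  rw [LieAlgebra.ad_apply, ← lie_skew]
  exact neg_mem (h g hg)

theorem laza_lie_right {L : Type} [LieRing L] [LieAlgebra R L] {s : Set L} {N : Submodule R L}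
    {x y : L} (h : ∀ g ∈ s, ⁅x, g⁆ ∈ N) (hy : y ∈ Submodule.span R s) : ⁅x, y⁆ ∈ N :=
  laza_map_mem (LieAlgebra.ad R L x) h hy

theorem laza_lieT (s t : FreeMagma (Fin d)) : lieT R (.mul s t) = ⁅lieT R s, lieT R t⁆ := rfl

theorem laza_L_mem {S : List (FreeMagma (Fin d))} {t : FreeMagma (Fin d)} (h : LazGen S t) :
    lieT R t ∈ lazL R S t.length := Submodule.subset_span ⟨t, ⟨h, rfl⟩, rfl⟩

theorem laza_L_lie {S : List (FreeMagma (Fin d))} {m n : ℕ} {x y : FreeLieAlgebra R (Fin d)}
    (hx : x ∈ lazL R S m) (hy : y ∈ lazL R S n) : ⁅x, y⁆ ∈ lazL R S (m + n) := by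
  refine laza_lie_right ?_ hy
  rintro _ ⟨t, ⟨ht, rfl⟩, rfl⟩
  refine laza_lie_left ?_ hx
  rintro _ ⟨s, ⟨hs, rfl⟩, rfl⟩
  rw [← laza_lieT, ← laza_len]
  exact laza_L_mem (hs.mul ht)

theorem laza_L_ad {c : ℕ} {a : FreeMagma (Fin d)} {S : List (FreeMagma (Fin d))}
    (hS : ∀ x ∈ S, x.length + a.length ≤ c → FreeMagma.mul x a ∈ S) {m : ℕ}
    (hm : m + a.length ≤ c) {x : FreeLieAlgebra R (Fin d)} (hx : x ∈ lazL R S m) :
    ⁅x, lieT R a⁆ ∈ lazL R S (m + a.length) := by
  refine laza_lie_left ?_ hx
  rintro _ ⟨t, ⟨ht, rfl⟩, rfl⟩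
  clear hx
  induction ht with
  | base h =>
    rw [← laza_lieT, ← laza_len]
    exact laza_L_mem (.base (hS _ h hm))
  | @mul s t hs ht ihs iht =>
    rw [laza_len] at hm ⊢
    have e : ⁅⁅lieT R s, lieT R t⁆, lieT R a⁆ =
        ⁅⁅lieT R s, lieT R a⁆, lieT R t⁆ + ⁅lieT R s, ⁅lieT R t, lieT R a⁆⁆ := by
      rw [lie_lie, lie_lie, ← lie_skew (lieT R a) (lieT R t), lie_neg,
        ← lie_skew (lieT R t) ⁅lieT R s, lieT R a⁆, lie_lie, ← lie_skew (lieT R a) (lieT R t),
        lie_neg]
      abel
    rw [lieT, e]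
    refine add_mem ?_ ?_
    · rw [add_right_comm]
      exact laza_L_lie (ihs (by omega)) (laza_L_mem ht)
    · rw [add_assoc]
      exact laza_L_lie (laza_L_mem hs) (iht (by omega))

theorem laza_lie_step {c : ℕ} {a : FreeMagma (Fin d)} {S S' : List (FreeMagma (Fin d))}
    (h0 : ∀ x ∈ S, x ∈ S') (hS : ∀ x ∈ S', x.length + a.length ≤ c → FreeMagma.mul x a ∈ S')
    {t : FreeMagma (Fin d)} (ht : LazGen (a :: S) t) (hc : t.length ≤ c) :
    t = a ∨ lieT R t ∈ lazL R S' t.length := by
  induction ht with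
  | base h => exact (List.mem_cons.1 h).imp id fun h => laza_L_mem (.base (h0 _ h))
  | @mul s t hs ht ihs iht =>
    rw [laza_len] at hc ⊢
    right
    rw [lieT]
    rcases ihs (by omega) with e1 | e1 <;> rcases iht (by omega) with e2 | e2
    · rw [e1, e2, lie_self]; exact zero_mem _
    · rw [e1] at hc ⊢
      rw [← lie_skew, add_comm]
      exact neg_mem (laza_L_ad hS (by omega) e2)
    · rw [e2] at hc ⊢
      exact laza_L_ad hS hc e1
    · exact laza_L_lie e1 e2

theorem laza_piece_lie (j : ℕ) : ∀ (i : ℕ) (x y : FreeLieAlgebra R (Fin d)), x ∈ piece R d i →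
    y ∈ piece R d j → ⁅x, y⁆ ∈ piece R d (i + j + 1) := by
  have h0 : ∀ (i : ℕ) (x y : FreeLieAlgebra R (Fin d)), x ∈ piece R d i →
      y ∈ piece R d 0 → ⁅x, y⁆ ∈ piece R d (i + 1) := fun i x y hx hy =>
    Submodule.subset_span ⟨x, hx, y, hy, rfl⟩
  induction j with
  | zero => exact h0
  | succ j ih =>
    intro i x y hx hy
    refine laza_lie_right ?_ hy
    rintro _ ⟨u, hu, z, hz, rfl⟩
    rw [leibniz_lie, ← lie_skew u ⁅x, z⁆]
    refine add_mem (h0 _ _ _ (ih i x u hx hu) hz) (neg_mem ?_)
    rw [show i + (j + 1) + 1 = i + 1 + j + 1 by ring]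
    exact ih _ _ _ (h0 _ _ _ hx hz) hu

theorem laza_mem_piece (t : FreeMagma (Fin d)) : lieT R t ∈ piece R d (t.length - 1) := by
  induction t using FreeMagma.rec with
  | of k => exact Submodule.subset_span ⟨k, rfl⟩
  | mul s t ihs iht =>
    have := FreeMagma.length_pos s
    have := FreeMagma.length_pos t
    rw [laza_len, show s.length + t.length - 1 = s.length - 1 + (t.length - 1) + 1 by omega]
    exact laza_piece_lie _ _ _ _ ihs iht

theorem laza_piece_le {S : List (FreeMagma (Fin d))} (hS : ∀ k, FreeMagma.of k ∈ S) (i : ℕ) :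
    piece R d i ≤ lazL R S (i + 1) := by
  have h0 : piece R d 0 ≤ lazL R S 1 := Submodule.span_le.2 (by
    rintro _ ⟨k, rfl⟩
    exact laza_L_mem (t := .of k) (.base (hS k)))
  induction i with
  | zero => exact h0
  | succ i ih =>
    refine Submodule.span_le.2 ?_
    rintro _ ⟨x, hx, y, hy, rfl⟩
    exact laza_L_lie (ih hx) (h0 hy)

end Lie

section Asc

variable (R : Type) [CommRing R]

/-- The span of the products `a ^ j * s₁ * ⋯ * sₖ` of total length at most `m`. -/
noncomputable def lazW (a : FreeMagma (Fin d)) (S : List (FreeMagma (Fin d))) (m : ℕ) :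
    Submodule R (FreeAlgebra R (Fin d)) :=
  Submodule.span R {u | ∃ (j : ℕ) (l : List (FreeMagma (Fin d))), (∀ x ∈ l, x ∈ S) ∧
    j * a.length + (l.map FreeMagma.length).sum ≤ m ∧ ascT R a ^ j * (l.map (ascT R)).prod = u}

/-- The span of the ordered products of weight at most `m`. -/
noncomputable def lazO (H : List (FreeMagma (Fin d))) (m : ℕ) :
    Submodule R (FreeAlgebra R (Fin d)) :=
  Submodule.span R (ordP R H '' {e | ∑ i, e i * (H.get i).length ≤ m})

variable {R}

theorem laza_W_comm {c : ℕ} {a : FreeMagma (Fin d)} {S : List (FreeMagma (Fin d))}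
    (hS : ∀ x ∈ S, x.length + a.length ≤ c → FreeMagma.mul x a ∈ S) {m : ℕ} (hm : m ≤ c) (j : ℕ)
    (l : List (FreeMagma (Fin d))) : ∀ l0 : List (FreeMagma (Fin d)), (∀ x ∈ l0, x ∈ S) →
      (∀ x ∈ l, x ∈ S) → j * a.length + (l0.map FreeMagma.length).sum +
        (l.map FreeMagma.length).sum + a.length ≤ m →
      ascT R a ^ j * (l0.map (ascT R)).prod *
        ((l.map (ascT R)).prod * ascT R a - ascT R a * (l.map (ascT R)).prod) ∈ lazW R a S m := by
  induction l with
  | nil => intro l0 _ _ _; simp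
  | cons x l ih =>
    intro l0 h0 hl hs
    simp only [List.map_cons, List.sum_cons, List.prod_cons, List.mem_cons, forall_eq_or_imp]
      at hl hs ⊢
    have h1 := ih (l0 ++ [x]) (by simpa [or_imp, forall_and] using ⟨h0, hl.1⟩) hl.2
      (by simp only [List.map_append, List.sum_append]; simp; omega)
    have h2 : ascT R a ^ j * ((l0 ++ FreeMagma.mul x a :: l).map (ascT R)).prod ∈ lazW R a S m :=
      Submodule.subset_span ⟨j, _, by
        simpa [or_imp, forall_and] using ⟨h0, hS x hl.1 (by omega), hl.2⟩, by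
        simp only [List.map_append, List.sum_append, List.map_cons, List.sum_cons, laza_len]
        omega, rfl⟩
    convert add_mem h1 h2 using 1
    simp only [List.map_append, List.prod_append, List.map_cons, List.prod_cons, List.map_nil,
      List.prod_nil, ascT]
    noncomm_ring

theorem laza_W_mem {c : ℕ} {a : FreeMagma (Fin d)} {S S' : List (FreeMagma (Fin d))}
    (h0 : ∀ x ∈ S, x ∈ S') (hS : ∀ x ∈ S', x.length + a.length ≤ c → FreeMagma.mul x a ∈ S')
    (l : List (FreeMagma (Fin d))) : (∀ x ∈ l, x ∈ a :: S) → ∀ m ≤ c,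
      (l.map FreeMagma.length).sum ≤ m → (l.map (ascT R)).prod ∈ lazW R a S' m := by
  induction l using List.reverseRecOn with
  | nil => exact fun _ m _ _ => Submodule.subset_span ⟨0, [], by simp, by simp, by simp⟩
  | append_singleton l x ih =>
    intro hl m hm hs
    simp only [List.map_append, List.sum_append, List.prod_append, List.map_cons, List.map_nil,
      List.sum_cons, List.sum_nil, List.prod_cons, List.prod_nil, mul_one, add_zero] at hs ⊢
    refine laza_map_mem (LinearMap.mulRight R (ascT R x)) ?_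
      (ih (fun y hy => hl y (List.mem_append_left _ hy)) (m - x.length) (by omega) (by omega))
    rintro _ ⟨j, l', h1, h2, rfl⟩
    rw [LinearMap.mulRight_apply]
    rcases List.mem_cons.1 (hl x (by simp)) with rfl | hx
    · have h3 := laza_W_comm (R := R) hS hm j l' [] (by simp) h1 (by simp; omega)
      have h4 : ascT R x ^ (j + 1) * (l'.map (ascT R)).prod ∈ lazW R x S' m :=
        Submodule.subset_span ⟨j + 1, l', h1, by rw [add_mul]; omega, rfl⟩
      convert add_mem h3 h4 using 1
      rw [pow_succ]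
      simp only [List.map_nil, List.prod_nil]
      noncomm_ring
    · exact Submodule.subset_span ⟨j, l' ++ [x], by
        simpa [or_imp, forall_and] using ⟨h1, h0 x hx⟩, by
        simp only [List.map_append, List.sum_append]; simp; omega, by simp [mul_assoc]⟩

theorem laza_O_cons {a : FreeMagma (Fin d)} {H : List (FreeMagma (Fin d))} {j k m : ℕ}
    (h : j * a.length + k ≤ m) {u : FreeAlgebra R (Fin d)} (hu : u ∈ lazO R H k) :
    ascT R a ^ j * u ∈ lazO R (a :: H) m := by
  refine laza_map_mem (LinearMap.mulLeft R (ascT R a ^ j)) ?_ hu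
  rintro _ ⟨e, he, rfl⟩
  refine Submodule.subset_span ⟨(Fin.cons j e : Fin (H.length + 1) → ℕ), ?_, ?_⟩
  · change ∑ i : Fin (H.length + 1), (Fin.cons j e : Fin (H.length + 1) → ℕ) i *
      ((a :: H).get i).length ≤ m
    rw [Fin.sum_univ_succ]
    exact le_trans (Nat.add_le_add_left he _) h
  · change (List.ofFn fun i : Fin (H.length + 1) => ascT R ((a :: H).get i) ^
      (Fin.cons j e : Fin (H.length + 1) → ℕ) i).prod = _
    rw [List.ofFn_succ, List.prod_cons]
    rfl

end Asc

/-- The conclusion of Lazard elimination for the generating list `S`. -/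
def LazGood (c : ℕ) (S : List (FreeMagma (Fin d))) : Prop :=
  ∃ H : List (FreeMagma (Fin d)), (∀ τ ∈ H, τ.length ≤ c) ∧
    (X ^ (c + 1) : ℤ[X]) ∣ (H.map fun τ => 1 - X ^ τ.length).prod - (1 - lazG S) ∧
    ∀ (R : Type) [CommRing R],
      (∀ t, LazGen S t → t.length ≤ c →
        lieT R t ∈ Submodule.span R (lieT R '' {τ | τ ∈ H ∧ τ.length = t.length})) ∧
      ∀ l : List (FreeMagma (Fin d)), (∀ x ∈ l, x ∈ S) → ∀ m ≤ c,
        (l.map FreeMagma.length).sum ≤ m → (l.map (ascT R)).prod ∈ lazO R H m

theorem laza_nil (c : ℕ) : LazGood (d := d) c [] := by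
  refine ⟨[], by simp, by simp [lazG], fun R _ => ⟨fun t ht => ?_, fun l hl m _ _ => ?_⟩⟩
  · exfalso
    induction ht with
    | base h => simp at h
    | mul _ _ ih _ => exact ih
  · obtain rfl : l = [] := List.eq_nil_iff_forall_not_mem.2 fun x hx => by simpa using hl x hx
    exact Submodule.subset_span ⟨fun i => 0, by simp, by simp [ordP]⟩

theorem laza_long {c : ℕ} {a : FreeMagma (Fin d)} {S : List (FreeMagma (Fin d))}
    (ha : c < a.length) (h : LazGood c S) : LazGood c (a :: S) := by
  obtain ⟨H, h1, h2, h3⟩ := h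
  refine ⟨H, h1, ?_, fun R _ => ⟨fun t ht hc => (h3 R).1 t ?_ hc,
    fun l hl m hm hs => (h3 R).2 l (fun x hx => ?_) m hm hs⟩⟩
  · convert dvd_add h2 (pow_dvd_pow (X : ℤ[X]) (show c + 1 ≤ a.length from ha)) using 1
    simp only [lazG, List.map_cons, List.sum_cons]
    ring
  · induction ht with
    | base h =>
      rcases List.mem_cons.1 h with rfl | h
      · omega
      · exact .base h
    | mul _ _ ihs iht =>
      rw [laza_len] at hc
      exact (ihs (by omega)).mul (iht (by omega))
  · rcases List.mem_cons.1 (hl x hx) with rfl | h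
    · have := List.le_sum_of_mem (List.mem_map_of_mem (f := FreeMagma.length) hx)
      omega
    · exact h

theorem laza_step {c : ℕ} {a : FreeMagma (Fin d)} {S : List (FreeMagma (Fin d))}
    (ha : a.length ≤ c) (h : LazGood c (S ++ lazNew c a S)) : LazGood c (a :: S) := by
  obtain ⟨H, h1, h2, h3⟩ := h
  have h0 : ∀ x ∈ S, x ∈ S ++ lazNew c a S := fun x hx => List.mem_append_left _ hx
  refine ⟨a :: H, by simpa using ⟨ha, h1⟩, ?_, fun R _ => ⟨fun t ht hc => ?_,
    fun l hl m hm hs => ?_⟩⟩
  · convert dvd_sub (h2.mul_left (1 - X ^ a.length)) (laza_poly c a S) using 1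
    simp only [lazG, List.map_cons, List.sum_cons, List.prod_cons]
    ring
  · rcases laza_lie_step (R := R) h0 (fun _ => laza_closed) ht hc with rfl | h
    · exact Submodule.subset_span ⟨t, ⟨by simp, rfl⟩, rfl⟩
    · refine Submodule.span_le.2 ?_ h
      rintro _ ⟨s, ⟨hs, e⟩, rfl⟩
      refine Submodule.span_mono (Set.image_mono ?_) ((h3 R).1 s hs (e ▸ hc))
      exact fun τ hτ => ⟨List.mem_cons_of_mem _ hτ.1, hτ.2.trans e⟩
  · refine Submodule.span_le.2 ?_ (laza_W_mem (R := R) h0 (fun _ => laza_closed) l hl m hm hs)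
    rintro _ ⟨j, l', e1, e2, rfl⟩
    exact laza_O_cons e2 ((h3 R).2 l' e1 _ (by omega) le_rfl)

theorem laza_good (c k : ℕ) : ∀ S : List (FreeMagma (Fin d)), (∀ s ∈ S, c < s.length + k) →
    LazGood c S := by
  induction k with
  | zero =>
    intro S hS
    induction S with
    | nil => exact laza_nil c
    | cons a S ih =>
      exact laza_long (hS a (by simp)) (ih fun s hs => hS s (List.mem_cons_of_mem _ hs))
  | succ k ih =>
    have key : ∀ T U : List (FreeMagma (Fin d)), (∀ s ∈ T, c < s.length + (k + 1)) →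
        (∀ s ∈ U, c < s.length + k) → LazGood c (T ++ U) := by
      intro T
      induction T with
      | nil => exact fun U _ hU => ih U hU
      | cons a T ihT =>
        intro U hT hU
        have hT' : ∀ s ∈ T, c < s.length + (k + 1) := fun s hs => hT s (List.mem_cons_of_mem _ hs)
        rcases lt_or_ge c a.length with ha | ha
        · exact laza_long ha (ihT U hT' hU)
        refine laza_step (S := T ++ U) ha ?_
        rw [List.append_assoc]
        refine ihT _ hT' fun s hs => ?_
        rcases List.mem_append.1 hs with hs | hs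
        · exact hU s hs
        obtain ⟨s', hs', j, -, rfl⟩ := laza_mem_new.1 hs
        have := Nat.le_mul_of_pos_right (j + 1) (FreeMagma.length_pos a)
        rw [laza_len_ad]
        rcases List.mem_append.1 hs' with h | h
        · have := hT' s' h
          omega
        · have := hU s' h
          omega
    intro S hS
    simpa using key S [] hS (by simp)

theorem lazard (c d : ℕ) : ∃ H : List (FreeMagma (Fin d)), (∀ τ ∈ H, τ.length ≤ c) ∧
    (X ^ (c + 1) : ℤ[X]) ∣ (H.map fun τ => 1 - X ^ τ.length).prod - (1 - (d : ℤ[X]) * X) ∧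
    ∀ (R : Type) [CommRing R],
      (∀ i, i < c → piece R d i =
        Submodule.span R (lieT R '' {τ | τ ∈ H ∧ τ.length = i + 1})) ∧
      ∀ w : List (Fin d), w.length ≤ c → (w.map (FreeAlgebra.ι R)).prod ∈
        Submodule.span R (ordP R H '' {e | ∑ i, e i * (H.get i).length ≤ c}) := by
  obtain ⟨H, h1, h2, h3⟩ := laza_good c (c + 1) ((List.finRange d).map FreeMagma.of)
    fun s _ => by omega
  have hS : ∀ k : Fin d, FreeMagma.of k ∈ (List.finRange d).map FreeMagma.of :=
    fun k => List.mem_map_of_mem (List.mem_finRange k)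
  refine ⟨H, h1, ?_, fun R _ => ⟨fun i hi => le_antisymm ?_ ?_, fun w hw => ?_⟩⟩
  · convert h2 using 3
    simp [lazG, Function.comp_def, FreeMagma.length]
  · refine (laza_piece_le hS i).trans (Submodule.span_le.2 ?_)
    rintro _ ⟨t, ⟨ht, e⟩, rfl⟩
    rw [← e]
    exact (h3 R).1 t ht (by omega)
  · refine Submodule.span_le.2 ?_
    rintro _ ⟨t, ⟨-, e⟩, rfl⟩
    have := laza_mem_piece (R := R) t
    rwa [e] at this
  · have := (h3 R).2 (w.map FreeMagma.of) (by simp) c le_rfl
      (by simpa [Function.comp_def, FreeMagma.length] using hw)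
    rwa [List.map_map] at this

end Pool.Agent.P.MP_8598be_al.E
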