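import Pool.Agent.P.MP_8598be_al.E.LazA

namespace Pool.Agent.P.MP_8598be_al.E

open Polynomial

/-- The geometric series in `X ^ l`. -/
noncomputable def lazbGeo (l : ℕ) : PowerSeries ℤ :=
  PowerSeries.mk fun n => if l ∣ n then 1 else 0

theorem lazb_geo {l : ℕ} (hl : 0 < l) : (1 - PowerSeries.X ^ l) * lazbGeo l = 1 := by
  ext n
  rw [sub_mul, one_mul, map_sub, PowerSeries.coeff_X_pow_mul', PowerSeries.coeff_one]
  simp only [lazbGeo, PowerSeries.coeff_mk]
  by_cases h : l ≤ n
  · have hn : n ≠ 0 := by omega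
    have : l ∣ n - l ↔ l ∣ n := by
      constructor
      · intro h'
        have := dvd_add h' (dvd_refl l)
        rwa [Nat.sub_add_cancel h] at this
      · intro h'
        exact Nat.dvd_sub h' (dvd_refl l)
    simp [h, hn, this]
  · by_cases hn : n = 0
    · subst hn
      simp [h]
    · have : ¬ l ∣ n := fun h' => h (Nat.le_of_dvd (by omega) h')
      simp [h, hn, this]

theorem lazb_prod {c d : ℕ} (H : List (FreeMagma (Fin d)))
    (h2 : (X ^ (c + 1) : ℤ[X]) ∣ (H.map fun τ => 1 - X ^ τ.length).prod - (1 - (d : ℤ[X]) * X)) :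
    ∃ Q : PowerSeries ℤ, ∏ i : Fin H.length, (1 - PowerSeries.X ^ (H.get i).length) =
      1 - (d : PowerSeries ℤ) * PowerSeries.X + PowerSeries.X ^ (c + 1) * Q := by
  obtain ⟨Q, hQ⟩ := h2
  refine ⟨Q, ?_⟩
  have h3 : (H.map fun τ => (1 - X ^ τ.length : ℤ[X])).prod =
      ∏ i : Fin H.length, (1 - X ^ (H.get i).length) := by
    rw [← List.prod_ofFn]
    congr 1
    conv_lhs => rw [← List.ofFn_get H]
    rw [List.map_ofFn]
    rfl
  rw [h3, sub_eq_iff_eq_add'] at hQ
  have := congrArg (Polynomial.coeToPowerSeries.ringHom (R := ℤ)) hQ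
  simp only [map_prod, map_sub, map_add, map_mul, map_pow, map_one, map_natCast] at this
  simpa [Polynomial.coeToPowerSeries.ringHom_apply] using this

theorem lazb_rec {c d : ℕ} (G A Q : PowerSeries ℤ) (a : ℕ) (ha : ∀ m, a < m → A.coeff m = 0)
    (h0 : G.coeff a = (d : ℤ) ^ a)
    (h : (1 - (d : PowerSeries ℤ) * PowerSeries.X) * G = A + PowerSeries.X ^ (c + 1) * Q)
    (m : ℕ) (hm : a ≤ m) (hc : m ≤ c) : G.coeff m = (d : ℤ) ^ m := by
  induction m, hm using Nat.le_induction with
  | base => exact h0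
  | succ m hm ih =>
    have h1 := congrArg (PowerSeries.coeff (m + 1)) h
    rw [map_add, PowerSeries.coeff_X_pow_mul', if_neg (by omega), ha _ (by omega), sub_mul,
      one_mul, map_sub, mul_assoc, ← nsmul_eq_mul, map_nsmul, PowerSeries.coeff_succ_X_mul,
      ih (by omega)] at h1
    rw [pow_succ]
    simp only [nsmul_eq_mul] at h1
    linarith

theorem lazb_coeff {c d : ℕ} (H : List (FreeMagma (Fin d)))
    (h2 : (X ^ (c + 1) : ℤ[X]) ∣ (H.map fun τ => 1 - X ^ τ.length).prod - (1 - (d : ℤ[X]) * X))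
    (m : ℕ) (hm : m ≤ c) :
    (∏ i : Fin H.length, lazbGeo (H.get i).length).coeff m = (d : ℤ) ^ m := by
  obtain ⟨Q, hQ⟩ := lazb_prod H h2
  have h1 : (∏ i : Fin H.length, (1 - PowerSeries.X ^ (H.get i).length)) *
      ∏ i : Fin H.length, lazbGeo (H.get i).length = 1 := by
    rw [← Finset.prod_mul_distrib]
    exact Finset.prod_eq_one fun i _ => lazb_geo (FreeMagma.length_pos _)
  rw [hQ] at h1
  refine lazb_rec (c := c) _ 1 (-(Q * ∏ i : Fin H.length, lazbGeo (H.get i).length)) 0 ?_ ?_ ?_ m
    (Nat.zero_le _) hm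
  · intro m hm
    rw [PowerSeries.coeff_one, if_neg (by omega)]
  · have := congrArg PowerSeries.constantCoeff h1
    simpa using this
  · linear_combination h1

theorem lazb_card {ι : Type} [Fintype ι] [DecidableEq ι] (l : ι → ℕ) (hl : ∀ i, 0 < l i) (m : ℕ)
    (E : Finset (ι → ℕ)) (hE : ∀ e ∈ E, ∑ i, e i * l i = m) :
    (E.card : ℤ) ≤ (∏ i, lazbGeo (l i)).coeff m := by
  rw [PowerSeries.coeff_prod]
  let f : (ι → ℕ) → ι →₀ ℕ := fun e => Finsupp.equivFunOnFinite.symm fun i => e i * l i
  have hf : Function.Injective f := by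
    intro a b hab
    funext i
    have := congrArg (fun z : ι →₀ ℕ => z i) hab
    simp only [f, Finsupp.equivFunOnFinite_symm_apply_apply] at this
    exact Nat.eq_of_mul_eq_mul_right (hl i) this
  have h1 : (E.card : ℤ) = ∑ x ∈ E.image f, ∏ i, (lazbGeo (l i)).coeff (x i) := by
    rw [Finset.sum_image fun a _ b _ h => hf h, Finset.card_eq_sum_ones, Nat.cast_sum]
    refine Finset.sum_congr rfl fun e _ => ?_
    simp [f, lazbGeo]
  rw [h1]
  refine Finset.sum_le_sum_of_subset_of_nonneg ?_ ?_
  · intro x hx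
    obtain ⟨e, he, rfl⟩ := Finset.mem_image.1 hx
    rw [Finset.mem_finsuppAntidiag]
    refine ⟨?_, Finset.subset_univ _⟩
    simpa [f] using hE e he
  · intro x _ _
    refine Finset.prod_nonneg fun i _ => ?_
    simp only [lazbGeo, PowerSeries.coeff_mk]
    split_ifs <;> simp

theorem lazb_word (R : Type) [CommRing R] {d : ℕ} (w : List (Fin d)) :
    FreeAlgebra.basisFreeMonoid R (Fin d) (FreeMonoid.ofList w) =
      (w.map (FreeAlgebra.ι R)).prod := by
  have h : ∀ u : FreeMonoid (Fin d), FreeAlgebra.basisFreeMonoid R (Fin d) u =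
      FreeAlgebra.equivMonoidAlgebraFreeMonoid.symm (MonoidAlgebra.of R _ u) := by
    intro u
    simp [FreeAlgebra.basisFreeMonoid]
  rw [h]
  induction w with
  | nil => simp [← MonoidAlgebra.one_def]
  | cons a w ih =>
    rw [FreeMonoid.ofList_cons, map_mul, map_mul, ih, List.map_cons, List.prod_cons]
    congr 1
    rw [AlgEquiv.symm_apply_eq]
    simp [FreeAlgebra.equivMonoidAlgebraFreeMonoid]

theorem lazb_single (R : Type) [CommRing R] {d : ℕ} (H : List (FreeMagma (Fin d)))
    (i : Fin H.length) : ordP R H (Pi.single i 1) = ascT R (H.get i) := by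
  have key : ∀ (n : ℕ) (f : Fin n → FreeAlgebra R (Fin d)) (i : Fin n),
      (List.ofFn fun j => f j ^ (Pi.single i 1 : Fin n → ℕ) j).prod = f i := by
    intro n
    induction n with
    | zero => intro f i; exact i.elim0
    | succ n ih =>
      intro f i
      rw [List.ofFn_succ, List.prod_cons]
      refine Fin.cases ?_ (fun i => ?_) i
      · have : (List.ofFn fun j : Fin n => f j.succ ^ (Pi.single 0 1 : Fin (n + 1) → ℕ) j.succ).prod
            = 1 := by
          refine List.prod_eq_one fun x hx => ?_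
          obtain ⟨j, rfl⟩ := List.mem_ofFn.1 hx
          simp
        rw [this]
        simp
      · have := ih (fun j => f j.succ) i
        rw [← this]
        simp [Pi.single_apply]
  exact key _ _ i

theorem laz_indep {c d : ℕ} (H : List (FreeMagma (Fin d))) (h1 : ∀ τ ∈ H, τ.length ≤ c)
    (h2 : (X ^ (c + 1) : ℤ[X]) ∣ (H.map fun τ => 1 - X ^ τ.length).prod - (1 - (d : ℤ[X]) * X))
    (R : Type) [CommRing R]
    (h3 : ∀ w : List (Fin d), w.length ≤ c → (w.map (FreeAlgebra.ι R)).prod ∈
      Submodule.span R (ordP R H '' {e | ∑ i, e i * (H.get i).length ≤ c})) :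
    LinearIndependent R fun i : Fin H.length => ascT R (H.get i) := by
  classical
  nontriviality R
  let E : Finset (Fin H.length → ℕ) :=
    (Fintype.piFinset fun _ => Finset.range (c + 1)).filter
      fun e => ∑ i, e i * (H.get i).length ≤ c
  have hE : ∀ e, e ∈ E ↔ ∑ i, e i * (H.get i).length ≤ c := by
    intro e
    simp only [E, Finset.mem_filter, Fintype.mem_piFinset, Finset.mem_range]
    refine ⟨fun h => h.2, fun h => ⟨fun i => ?_, h⟩⟩
    have h4 : e i * (H.get i).length ≤ ∑ i, e i * (H.get i).length :=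
      Finset.single_le_sum (f := fun i => e i * (H.get i).length) (fun _ _ => Nat.zero_le _)
        (Finset.mem_univ i)
    have h5 := FreeMagma.length_pos (H.get i)
    nlinarith
  have hcard : E.card ≤ ∑ m : Fin (c + 1), d ^ (m : ℕ) := by
    rw [Finset.card_eq_sum_card_fiberwise (f := fun e => ∑ i, e i * (H.get i).length)
      (t := Finset.range (c + 1)) (fun e he => by
        have := (hE e).1 he
        simp only [Finset.coe_range, Set.mem_Iio]
        omega), Fin.sum_univ_eq_sum_range (fun m => d ^ m)]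
    refine Finset.sum_le_sum fun m hm => ?_
    have h4 := lazb_card (fun i => (H.get i).length) (fun i => FreeMagma.length_pos _) m
      (E.filter fun e => ∑ i, e i * (H.get i).length = m) (fun e he => (Finset.mem_filter.1 he).2)
    rw [lazb_coeff H h2 m (by have := Finset.mem_range.1 hm; omega)] at h4
    exact_mod_cast h4
  have hrange : Set.range (fun e : E => ordP R H e) =
      ordP R H '' {e | ∑ i, e i * (H.get i).length ≤ c} := by
    ext x
    constructor
    · rintro ⟨e, rfl⟩
      exact ⟨e, (hE e).1 e.2, rfl⟩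
    · rintro ⟨e, he, rfl⟩
      exact ⟨⟨e, (hE e).2 he⟩, rfl⟩
  have hli : LinearIndependent R fun e : E => ordP R H e := by
    rw [linearIndependent_iff_card_le_finrank_span, Fintype.card_coe]
    refine hcard.trans ?_
    let W := Σ m : Fin (c + 1), (Fin m → Fin d)
    let g : W → FreeMonoid (Fin d) := fun x => FreeMonoid.ofList (List.ofFn x.2)
    have hg : Function.Injective g := by
      rintro ⟨m, a⟩ ⟨n, b⟩ hab
      have h4 : List.ofFn a = List.ofFn b := FreeMonoid.ofList.injective hab
      have h5 : m = n := by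
        have := congrArg List.length h4
        simp only [List.length_ofFn] at this
        exact Fin.ext this
      subst h5
      rw [List.ofFn_injective h4]
    have h4 := (FreeAlgebra.basisFreeMonoid R (Fin d)).linearIndependent.comp g hg
    let S := Submodule.span R (Set.range fun e : E => ordP R H e)
    have hmem : ∀ x : W, (FreeAlgebra.basisFreeMonoid R (Fin d) ∘ g) x ∈ S := by
      intro x
      simp only [Function.comp, g, S]
      rw [lazb_word, hrange]
      refine h3 _ ?_
      have := x.1.2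
      simp only [List.length_ofFn]
      omega
    have h5 : LinearIndependent R fun x : W => (⟨_, hmem x⟩ : S) :=
      LinearIndependent.of_comp S.subtype h4
    have : Module.Finite R S := Module.Finite.span_of_finite R (Set.finite_range _)
    have h6 := h5.fintype_card_le_finrank
    have h7 : Fintype.card W = ∑ m : Fin (c + 1), d ^ (m : ℕ) := by
      simp [W, Fintype.card_sigma]
    rw [← h7]
    exact h6
  let k : Fin H.length → E := fun i => ⟨Pi.single i 1, (hE _).2 (by
    rw [Finset.sum_eq_single i (fun j _ hj => by simp [hj]) (by simp)]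
    simpa using h1 _ (List.get_mem H i))⟩
  have hk : Function.Injective k := by
    intro i j hij
    have := congrFun (congrArg Subtype.val hij) i
    by_contra hne
    simp [k, hne] at this
  have := hli.comp k hk
  convert this using 2 with i
  simp only [Function.comp, k]
  exact (lazb_single R H i).symm

theorem lazb_log {ι : Type} (s : Finset ι) (l : ι → ℕ) (hl : ∀ i, 0 < l i) :
    PowerSeries.X * PowerSeries.derivative ℤ (∏ i ∈ s, (1 - PowerSeries.X ^ l i)) =
      -((∏ i ∈ s, (1 - PowerSeries.X ^ l i)) *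
        ∑ i ∈ s, (l i : PowerSeries ℤ) * (PowerSeries.X ^ l i * lazbGeo (l i))) := by
  classical
  induction s using Finset.induction_on with
  | empty => simp
  | insert a s ha ih =>
    rw [Finset.prod_insert ha, Finset.sum_insert ha, Derivation.leibniz]
    have h1 := lazb_geo (hl a)
    have h2 : PowerSeries.X * PowerSeries.derivative ℤ (1 - PowerSeries.X ^ l a) =
        -((l a : PowerSeries ℤ) * PowerSeries.X ^ l a) := by
      obtain ⟨n, hn⟩ := Nat.exists_eq_succ_of_ne_zero (hl a).ne'
      rw [hn, map_sub, Derivation.leibniz_pow]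
      simp only [Derivation.map_one_eq_zero, PowerSeries.derivative_X, smul_eq_mul, mul_one,
        nsmul_eq_mul, Nat.succ_sub_one, Nat.succ_eq_add_one]
      ring
    simp only [smul_eq_mul]
    linear_combination (1 - PowerSeries.X ^ l a) * ih +
      (∏ i ∈ s, (1 - PowerSeries.X ^ l i)) * h2 +
      (∏ i ∈ s, (1 - PowerSeries.X ^ l i)) * (l a : PowerSeries ℤ) * PowerSeries.X ^ l a * h1

theorem lazb_div {c d : ℕ} (H : List (FreeMagma (Fin d)))
    (h2 : (X ^ (c + 1) : ℤ[X]) ∣ (H.map fun τ => 1 - X ^ τ.length).prod - (1 - (d : ℤ[X]) * X))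
    (m : ℕ) (hm1 : 1 ≤ m) (hm : m ≤ c) :
    ∑ i : Fin H.length, (if (H.get i).length ∣ m then ((H.get i).length : ℤ) else 0) =
      (d : ℤ) ^ m := by
  obtain ⟨Q, hQ⟩ := lazb_prod H h2
  have h1 := lazb_log Finset.univ (fun i : Fin H.length => (H.get i).length)
    fun i => FreeMagma.length_pos _
  rw [hQ] at h1
  set S := ∑ i : Fin H.length, ((H.get i).length : PowerSeries ℤ) *
    (PowerSeries.X ^ (H.get i).length * lazbGeo (H.get i).length) with hS
  have h3 : PowerSeries.derivative ℤ
      (1 - (d : PowerSeries ℤ) * PowerSeries.X + PowerSeries.X ^ (c + 1) * Q) =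
      -(d : PowerSeries ℤ) + PowerSeries.X ^ c * (((c + 1 : ℕ) : PowerSeries ℤ) * Q +
        PowerSeries.X * PowerSeries.derivative ℤ Q) := by
    rw [map_add, map_sub, Derivation.leibniz, Derivation.leibniz, Derivation.leibniz_pow]
    simp only [Derivation.map_one_eq_zero, PowerSeries.derivative_X, smul_eq_mul, mul_one,
      nsmul_eq_mul, Nat.add_sub_cancel, Derivation.map_natCast]
    ring
  rw [h3] at h1
  have h4 : (1 - (d : PowerSeries ℤ) * PowerSeries.X) * S = (d : PowerSeries ℤ) * PowerSeries.X +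
      PowerSeries.X ^ (c + 1) * (-(Q * S) - (((c + 1 : ℕ) : PowerSeries ℤ) * Q +
        PowerSeries.X * PowerSeries.derivative ℤ Q)) := by
    linear_combination h1
  have h5 : ∀ n, 1 ≤ n → S.coeff n =
      ∑ i : Fin H.length, (if (H.get i).length ∣ n then ((H.get i).length : ℤ) else 0) := by
    intro n hn
    rw [hS, map_sum]
    refine Finset.sum_congr rfl fun i _ => ?_
    have h6 : PowerSeries.X ^ (H.get i).length * lazbGeo (H.get i).length =
        lazbGeo (H.get i).length - 1 := by
      linear_combination -lazb_geo (FreeMagma.length_pos (H.get i))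
    rw [h6, ← nsmul_eq_mul, map_nsmul, map_sub, PowerSeries.coeff_one, if_neg (by omega)]
    simp only [lazbGeo, PowerSeries.coeff_mk]
    split_ifs <;> simp
  have h6 : S.coeff 0 = 0 := by
    have := congrArg PowerSeries.constantCoeff h4
    simpa using this
  rw [← h5 m hm1]
  refine lazb_rec (c := c) S _ _ 1 ?_ ?_ h4 m hm1 hm
  · intro n hn
    rw [← nsmul_eq_mul, map_nsmul, PowerSeries.coeff_X, if_neg (by omega)]
    simp
  · have h7 := congrArg (PowerSeries.coeff (0 + 1)) h4
    rw [map_add, PowerSeries.coeff_X_pow_mul', if_neg (by omega), sub_mul,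
      one_mul, map_sub, mul_assoc, ← nsmul_eq_mul, map_nsmul, PowerSeries.coeff_succ_X_mul,
      h6, ← nsmul_eq_mul, map_nsmul, PowerSeries.coeff_X] at h7
    simpa using h7

theorem laz_witt {c d : ℕ} (H : List (FreeMagma (Fin d))) (h1 : ∀ τ ∈ H, τ.length ≤ c)
    (h2 : (X ^ (c + 1) : ℤ[X]) ∣ (H.map fun τ => 1 - X ^ τ.length).prod - (1 - (d : ℤ[X]) * X)) :
    H.length = rk c d := by
  classical
  let N : ℕ → ℕ := fun k => (Finset.univ.filter fun i : Fin H.length => (H.get i).length = k).card
  have h3 : ∀ n > 0, n ∈ {n | 0 < n ∧ n ≤ c} →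
      ∑ k ∈ n.divisors, ((k : ℤ) * N k) = (d : ℤ) ^ n := by
    intro n hn hc
    have hc' : n ≤ c := hc.2
    rw [← lazb_div H h2 n hn hc']
    simp only [N, Finset.card_filter, Nat.cast_sum, Finset.mul_sum]
    rw [Finset.sum_comm]
    refine Finset.sum_congr rfl fun i _ => ?_
    simp only [Nat.cast_ite, Nat.cast_one, Nat.cast_zero, mul_ite, mul_one, mul_zero]
    rw [Finset.sum_ite_eq]
    simp [Nat.mem_divisors, hn.ne']
  have h4 := (ArithmeticFunction.sum_eq_iff_sum_mul_moebius_eq_on (R := ℤ)
    (f := fun k => (k : ℤ) * N k) (g := fun n => (d : ℤ) ^ n) {n | 0 < n ∧ n ≤ c}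
    (fun m n hmn hn => ⟨Nat.pos_of_dvd_of_pos hmn hn.1, (Nat.le_of_dvd hn.1 hmn).trans hn.2⟩)).1 h3
  have h5 : H.length = ∑ m ∈ Finset.Icc 1 c, N m := by
    rw [← Finset.card_eq_sum_card_fiberwise (f := fun i : Fin H.length => (H.get i).length)
      (s := Finset.univ) (t := Finset.Icc 1 c) (fun i _ => by
        simp only [Finset.coe_Icc, Set.mem_Icc]
        exact ⟨FreeMagma.length_pos _, h1 _ (List.get_mem _ _)⟩)]
    simp
  rw [h5, rk]
  refine Finset.sum_congr rfl fun m hm => ?_
  obtain ⟨hm1, hm2⟩ := Finset.mem_Icc.1 hm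
  have h6 := h4 m hm1 ⟨hm1, hm2⟩
  simp only [Int.cast_id] at h6
  rw [Nat.sum_divisorsAntidiagonal
    (fun a b => ArithmeticFunction.moebius a * (d : ℤ) ^ b)] at h6
  rw [h6, Int.mul_ediv_cancel_left _ (by exact_mod_cast (by omega : m ≠ 0))]
  simp

theorem exists_basis (c d : ℕ) : ∃ τ : Fin (rk c d) → FreeMagma (Fin d), IsBasis c d τ := by
  obtain ⟨H, h1, h2, h3⟩ := lazard c d
  have h4 := laz_witt H h1 h2
  refine ⟨fun i => H.get (i.cast h4.symm), fun u => h1 _ (List.get_mem _ _), fun R _ => ⟨?_, ?_⟩⟩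
  · intro i hi
    rw [(h3 R).1 i hi]
    congr 1
    ext x
    constructor
    · rintro ⟨τ, ⟨hτ, hl⟩, rfl⟩
      obtain ⟨j, rfl⟩ := List.mem_iff_get.1 hτ
      exact ⟨j.cast h4, hl, rfl⟩
    · rintro ⟨u, hu, rfl⟩
      exact ⟨_, ⟨List.get_mem _ _, hu⟩, rfl⟩
  · exact (laz_indep H h1 h2 R (h3 R).2).comp (fun i : Fin (rk c d) => i.cast h4.symm)
      (Fin.cast_injective _)

end Pool.Agent.P.MP_8598be_al.E
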