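import Pool.Agent.P.MP_8598be_al.E.Defs
import Pool.Agent.P.MP_8598be_al.Values

namespace Pool.Agent.P.MP_8598be_al.E

open PowerSeries Finset

lemma limit_map {R S : Type} [CommRing R] [CommRing S] [Algebra ℚ R] [Algebra ℚ S] (f : R →+* S)
    (x y : R) (B : MvPolynomial (Fin 2) ℚ) :
    f (MvPolynomial.aeval ![x, y] B) = MvPolynomial.aeval ![f x, f y] B := by
  have : f.comp (MvPolynomial.aeval (R := ℚ) ![x, y]).toRingHom =
      (MvPolynomial.aeval (R := ℚ) ![f x, f y]).toRingHom := by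
    refine MvPolynomial.ringHom_ext' (RingHom.ext_rat _ _) fun i => ?_
    fin_cases i <;> simp
  exact RingHom.congr_fun this B

lemma limit_den {R : Type} [CommRing R] [Algebra ℚ R] {x y : R⟦X⟧} (hx : constantCoeff x = 1)
    (hy : constantCoeff y = 1) (l : Multiset (ℕ × ℕ × ℕ)) :
    ∃ U : R⟦X⟧, MvPolynomial.aeval ![x, y] (den l) = X ^ l.card * U ∧ constantCoeff U =
      (l.map fun t => ((t.1 : R) - t.2.1) * coeff 1 x - t.2.2 * coeff 1 y).prod := by
  induction l using Multiset.induction with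
  | empty => exact ⟨1, by simp [den]⟩
  | cons t l ih =>
    obtain ⟨U, h1, h2⟩ := ih
    set u := x ^ t.1 - x ^ t.2.1 * y ^ t.2.2 with hu
    have h3 := eq_X_mul_shift_add_const u
    rw [show constantCoeff u = 0 by simp [hu, hx, hy], map_zero, add_zero] at h3
    refine ⟨(mk fun n => coeff (n + 1) u) * U, ?_, ?_⟩
    · rw [Multiset.card_cons, pow_succ', mul_mul_mul_comm, ← h3, ← h1]
      simp [den, hu]
    · rw [map_mul, h2, Multiset.map_cons, Multiset.prod_cons]
      congr 1
      simp [hu, coeff_one_mul, coeff_one_pow, hx, hy]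
      ring

lemma limit_div (F U : (Polynomial ℚ)⟦X⟧) (hU : (constantCoeff U).eval 0 ≠ 0) :
    ∃ (G : (RatFunc ℚ)⟦X⟧) (g : ℚ⟦X⟧), U.map (algebraMap _ _) * G = F.map (algebraMap _ _) ∧
      U.map (Polynomial.evalRingHom 0) * g = F.map (Polynomial.evalRingHom 0) ∧
      ∀ n, ValueAt (coeff n G) 0 (coeff n g) := by
  set D := constantCoeff U with hD
  have h1 : IsUnit (algebraMap _ (RatFunc ℚ) D) := (val_ne hU).isUnit
  have h2 : IsUnit (Polynomial.evalRingHom 0 D) := hU.isUnit
  obtain ⟨V, hV⟩ : IsUnit (U.map (algebraMap _ (Localization.Away D))) :=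
    isUnit_iff_constantCoeff.2 (IsLocalization.Away.algebraMap_isUnit D)
  have key : ∀ {S : Type} [CommRing S] {f : Polynomial ℚ →+* S} (h : IsUnit (f D)),
      U.map f * (↑V⁻¹ * F.map (algebraMap _ (Localization.Away D))).map
        (IsLocalization.Away.lift D h) = F.map f := fun {S} _ f h => by
    have e : ∀ H : (Polynomial ℚ)⟦X⟧, H.map f = (H.map (algebraMap _ (Localization.Away D))).map
        (IsLocalization.Away.lift D h) := fun H => by
      ext n
      simp
    rw [e U, e F, ← map_mul, ← hV, Units.mul_inv_cancel_left]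
  refine ⟨_, _, key h1, key h2, fun n => ?_⟩
  rw [coeff_map, coeff_map]
  generalize coeff (R := Localization.Away D) n _ = o
  obtain ⟨m, N, e⟩ := IsLocalization.Away.surj D o
  have e1 := congrArg (IsLocalization.Away.lift D h1) e
  have e2 := congrArg (IsLocalization.Away.lift D h2) e
  simp only [map_mul, map_pow, IsLocalization.Away.lift_eq] at e1 e2
  refine ⟨N, D ^ m, ?_, by simp [hU], ?_⟩
  · rw [map_pow, eq_div_iff (pow_ne_zero _ h1.ne_zero), e1]
  · rw [Polynomial.eval_pow, eq_div_iff (pow_ne_zero _ hU)]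
    exact e2

lemma limit_choose (n : ℕ) :
    RatFunc.X ^ n * rho ℚ (Ring.choose (-RatFunc.X) n) = algebraMap (Polynomial ℚ) (RatFunc ℚ)
      (Polynomial.C (n.factorial : ℚ)⁻¹ * ∏ i ∈ range n, (-1 - (i : Polynomial ℚ) * Polynomial.X)) := by
  have hX : (RatFunc.X : RatFunc ℚ) ≠ 0 := RatFunc.X_ne_zero
  have h : ∀ {K : Type} [Field K] [CharZero K] (s z : K), s ^ n * Ring.choose z n =
      (n.factorial : K)⁻¹ * ∏ i ∈ range n, (s * (z - i)) := fun s z => by
    rw [Ring.choose_eq_smul, ← Polynomial.aeval_eq_smeval, Polynomial.aeval_def,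
      ← Polynomial.eval_map, descPochhammer_map, descPochhammer_eval_eq_prod_range, smul_eq_mul,
      prod_mul_distrib, prod_const, card_range, mul_left_comm]
  rw [Ring.map_choose, h, map_neg, rho_X, map_mul, map_prod]
  congr 1
  · simp
  · refine prod_congr rfl fun i _ => ?_
    simp only [map_sub, map_neg, map_one, map_mul, map_natCast, RatFunc.algebraMap_X]
    field_simp

lemma limit_cyc {R : Type} [CommRing R] [Algebra ℚ R] (r : ℕ) (x y : R) :
    Polynomial.aeval y (cyc ℚ r) =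
      MvPolynomial.aeval ![x, y] (den ((range r).val.map fun i => (0, 0, i + 1))) := by
  simp [cyc, den, Multiset.map_map, map_multiset_prod, Finset.prod_eq_multiset_prod]

lemma limit_poly {r : ℕ} {W : RatXY} {A B : MvPolynomial (Fin 2) ℚ} (hB : algebraMap _ RatXY B ≠ 0)
    (hW : W = algebraMap _ RatXY A / algebraMap _ RatXY B) {a : ℕ → ℚ} (ha : Ser W 1 a)
    {E : Polynomial ℚ} (hE : (cyc ℚ r : PowerSeries ℚ) * PowerSeries.mk a = E) {R : Type}
    [CommRing R] [Algebra ℚ R] (y : R) :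
    Polynomial.aeval y (cyc ℚ r) * MvPolynomial.aeval ![1, y] A =
      Polynomial.aeval y E * MvPolynomial.aeval ![1, y] B := by
  obtain ⟨A₁, B₁, h1, h2, h3⟩ := ha
  rw [hW, div_eq_div_iff hB (ev_ne h2), ← map_mul, ← map_mul] at h1
  have h4 := congrArg (MvPolynomial.aeval ![algebraMap ℚ (LaurentSeries ℚ) 1,
    ((X : ℚ⟦X⟧) : LaurentSeries ℚ)]) (IsFractionRing.injective _ RatXY h1)
  rw [map_mul, map_mul, ← (eq_div_iff h2).1 h3, mul_right_comm] at h4
  have h5 : cyc ℚ r * MvPolynomial.aeval ![1, Polynomial.X] A =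
      E * MvPolynomial.aeval ![1, Polynomial.X] B := by
    apply Polynomial.algebraMap_hahnSeries_injective ℤ
    have h6 := mul_right_cancel₀ h2 h4
    simp only [map_mul, limit_map, map_one] at h6 ⊢
    simp only [Polynomial.algebraMap_hahnSeries_apply, Polynomial.coe_X, h6, ← hE, map_mul,
      mul_assoc]
  have h7 := congrArg (Polynomial.aeval y : Polynomial ℚ →ₐ[ℚ] R).toRingHom h5
  simp only [map_mul, limit_map] at h7
  simpa using h7

lemma limit_coeff {r k : ℕ} {E : Polynomial ℚ} {y g : ℚ⟦X⟧} (h0 : constantCoeff y = 1)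
    (h1 : coeff 1 y = -1) (h : Polynomial.aeval y (cyc ℚ r) * g = Polynomial.aeval y E * X ^ k) :
    (if r ≤ k then coeff (k - r) g else 0) = E.eval 1 / r.factorial := by
  obtain ⟨C₀, h2, h3⟩ := limit_den (x := (1 : ℚ⟦X⟧)) (map_one _) h0
    ((range r).val.map fun i => (0, 0, i + 1))
  have h4 : constantCoeff C₀ = r.factorial := by
    rw [h3, h1, ← prod_range_add_one_eq_factorial]
    simp [Multiset.map_map, Finset.prod_eq_multiset_prod]
  have h5 : constantCoeff (Polynomial.aeval y E) = E.eval 1 := by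
    rw [Polynomial.map_aeval_eq_aeval_map (φ := RingHom.id ℚ) (RingHom.ext_rat _ _), h0]
    simp
  have h6 : (r.factorial : ℚ) ≠ 0 := by positivity
  rw [limit_cyc r 1, h2, Multiset.card_map, card_val, card_range, mul_assoc, mul_comm _ (X ^ k)] at h
  split_ifs with hr
  · obtain ⟨m, rfl⟩ := Nat.exists_eq_add_of_le hr
    rw [pow_add, mul_assoc] at h
    have h7 : g = X ^ m * (Polynomial.aeval y E * C₀⁻¹) := by
      rw [← mul_assoc, ← X_pow_mul_cancel h, mul_right_comm, PowerSeries.mul_inv_cancel _ (h4 ▸ h6),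
        one_mul]
    rw [h7, Nat.add_sub_cancel_left, coeff_X_pow_mul', if_pos le_rfl]
    simp [h4, h5, div_eq_mul_inv]
  · obtain ⟨m, rfl⟩ := Nat.exists_eq_add_of_lt (not_le.1 hr)
    rw [add_assoc, pow_add, mul_assoc] at h
    rw [← h5, ← X_pow_mul_cancel h]
    simp

theorem limit (r : ℕ) (W : RatXY) (A : MvPolynomial (Fin 2) ℚ) (l : Multiset (ℕ × ℕ × ℕ))
    (hl : ∀ t ∈ l, 1 ≤ t.2.2) (hW : W = algebraMap _ RatXY A / algebraMap _ RatXY (den l))
    (a : ℕ → ℚ) (ha : Ser W 1 a) (E : Polynomial ℚ)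
    (hE : (cyc ℚ r : PowerSeries ℚ) * PowerSeries.mk a = E) :
    BothValues r W (E.eval 1 / r.factorial) := by
  have hX : (RatFunc.X : RatFunc ℚ) ≠ 0 := RatFunc.X_ne_zero
  set x : (RatFunc ℚ)⟦X⟧ := 1 + X with hx
  set y : (RatFunc ℚ)⟦X⟧ := binomialSeries (RatFunc ℚ) (-RatFunc.X : RatFunc ℚ) with hy
  set x' : (Polynomial ℚ)⟦X⟧ := 1 + C Polynomial.X * X with hx'
  set y' : (Polynomial ℚ)⟦X⟧ := PowerSeries.mk fun n => Polynomial.C (n.factorial : ℚ)⁻¹ *
    ∏ i ∈ range n, (-1 - (i : Polynomial ℚ) * Polynomial.X) with hy'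
  set τ : (RatFunc ℚ)⟦X⟧ →+* (RatFunc ℚ)⟦X⟧ :=
    (rescale RatFunc.X).comp (PowerSeries.map (rho ℚ)) with hτ
  set φ := PowerSeries.map (algebraMap (Polynomial ℚ) (RatFunc ℚ)) with hφ
  set ψ := PowerSeries.map (Polynomial.evalRingHom (0 : ℚ)) with hψ
  have τX : τ X = C RatFunc.X * X := by simp [hτ, rescale_X]
  have τx : τ x = φ x' := by simp [hx, hx', hφ, τX]
  have τy : τ y = φ y' := by
    ext n
    simp only [hτ, hφ, hy, hy', RingHom.comp_apply, coeff_rescale, coeff_map, binomialSeries_coeff,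
      smul_eq_mul, mul_one, coeff_mk, limit_choose]
  have ψx : ψ x' = 1 := by simp [hx', hψ]
  have y0 : constantCoeff y' = 1 := by simp [hy']
  have y1 : coeff 1 y' = -1 := by simp [hy']
  obtain ⟨U, hU, -⟩ := limit_den (x := x) (y := y) (by simp [hx]) (by simp [hy]) l
  obtain ⟨V, hV, hV0⟩ := limit_den (x := x') (by simp [hx']) y0 l
  have hD : (constantCoeff V).eval 0 ≠ 0 := by
    rw [hV0, Polynomial.eval_multiset_prod, Multiset.map_map]
    refine Multiset.prod_ne_zero fun h => ?_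
    obtain ⟨t, ht, h⟩ := Multiset.mem_map.1 h
    have := hl t ht
    simp [y1, hx', coeff_one] at h
    omega
  obtain ⟨G, g, hG, hg, hv⟩ := limit_div (MvPolynomial.aeval ![x', y'] A) V hD
  rw [← hφ] at hG
  rw [← hψ] at hg
  have τU : C RatFunc.X ^ l.card * τ U = φ V := by
    have h1 := congrArg τ hU
    have h2 := congrArg φ hV
    rw [limit_map, τx, τy, map_mul, map_pow, τX] at h1
    rw [limit_map, map_mul, map_pow, h1, show φ X = X from map_X _, mul_pow, mul_comm _ (X ^ _),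
      mul_assoc] at h2
    exact X_pow_mul_cancel h2
  have U0 : constantCoeff U ≠ 0 := fun h => val_ne hD (by
    have := congrArg (coeff 0) τU
    simpa [hτ, hφ, h, ← map_pow, coeff_C_mul] using this.symm)
  have ψV : ψ V ≠ 0 := fun h => hD (by simpa [hψ] using congrArg (coeff 0) h)
  have τG : τ (MvPolynomial.aeval ![x, y] A * U⁻¹) = C RatFunc.X ^ l.card * G := by
    have h1 : τ U * τ U⁻¹ = 1 := by rw [← map_mul, PowerSeries.mul_inv_cancel _ U0, map_one]
    rw [map_mul, limit_map, τx, τy, ← limit_map, ← hG, ← τU, mul_right_comm, mul_assoc _ (τ U), h1,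
      mul_one]
  have hXL : ((X : (RatFunc ℚ)⟦X⟧) : LaurentSeries (RatFunc ℚ)) ≠ 0 := fun e =>
    X_ne_zero (HahnSeries.ofPowerSeries_injective (e.trans (map_zero _).symm))
  have hUL : (U : LaurentSeries (RatFunc ℚ)) ≠ 0 := fun e => U0 (by
    rw [HahnSeries.ofPowerSeries_injective (e.trans (map_zero _).symm), map_zero])
  have hd : MvPolynomial.aeval ![(x : LaurentSeries (RatFunc ℚ)), y] (den l) =
      ((X : (RatFunc ℚ)⟦X⟧) : LaurentSeries (RatFunc ℚ)) ^ l.card * U := by
    rw [← limit_map, hU, map_mul, map_pow]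
  have hd' := hd ▸ mul_ne_zero (pow_ne_zero l.card hXL) hUL
  have hp := @limit_poly r W A _ (ev_ne hd') hW a ha E hE
  have hψd : MvPolynomial.aeval ![1, ψ y'] (den l) = X ^ l.card * ψ V := by
    rw [← ψx, ← limit_map, hV, map_mul, map_pow, show ψ X = X from map_X _]
  have hc : (if r ≤ l.card then coeff (l.card - r) g else 0) = E.eval 1 / r.factorial := by
    refine limit_coeff (y := ψ y') (by simp [hψ, hy', ← coeff_zero_eq_constantCoeff_apply])
      (by simp [hψ, y1]) (mul_right_cancel₀ ψV ?_)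
    rw [mul_assoc, mul_comm g, hg, limit_map, ψx, hp, hψd, mul_assoc]
  have hr : MvPolynomial.aeval ![1, (RatFunc.X : RatFunc ℚ)] (den l) ≠ 0 := by
    have h1 := limit_map (algebraMap (Polynomial ℚ) (RatFunc ℚ)) 1 Polynomial.X (den l)
    have h2 := limit_map (Polynomial.aeval (ψ y') : Polynomial ℚ →ₐ[ℚ] ℚ⟦X⟧).toRingHom 1
      Polynomial.X (den l)
    rw [map_one, RatFunc.algebraMap_X] at h1
    rw [← h1]
    refine RatFunc.algebraMap_ne_zero fun h => mul_ne_zero (pow_ne_zero l.card X_ne_zero) ψV ?_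
    rw [← hψd]
    simpa [h] using h2.symm
  refine ⟨_, _, ⟨_, ⟨A, _, hW, hd', rfl⟩, rfl⟩, ⟨A, _, hW, hr, rfl⟩, ?_, ?_⟩
  · change ValueAt (_ * rho ℚ _) _ _
    have h1 : ((X : (RatFunc ℚ)⟦X⟧) : LaurentSeries (RatFunc ℚ)) ^ l.card *
        (MvPolynomial.aeval ![(x : LaurentSeries (RatFunc ℚ)), y] A /
          MvPolynomial.aeval ![(x : LaurentSeries (RatFunc ℚ)), y] (den l)) =
        ((MvPolynomial.aeval ![x, y] A * U⁻¹ : (RatFunc ℚ)⟦X⟧) : LaurentSeries (RatFunc ℚ)) := by
      rw [hd, map_mul, coe_inv' U0, limit_map]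
      field_simp
    have h2 := congrArg (fun T : LaurentSeries (RatFunc ℚ) => T.coeff (-(r : ℤ) + l.card)) h1
    simp only [← map_pow, HahnSeries.ofPowerSeries_X_pow, HahnSeries.coeff_single_mul_add,
      one_mul] at h2
    rw [h2, PowerSeries.coeff_coe, ← hc]
    by_cases h : r ≤ l.card
    · obtain ⟨m, hm⟩ := Nat.exists_eq_add_of_le h
      have h3 := congrArg (coeff m) τG
      rw [← map_pow, coeff_C_mul, hτ, RingHom.comp_apply, coeff_rescale, coeff_map, hm, pow_add,
        mul_right_comm, mul_comm] at h3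
      rw [if_neg (by omega), if_pos h, show (-(r : ℤ) + l.card).natAbs = m by omega,
        show l.card - r = m by omega, mul_right_cancel₀ (pow_ne_zero m hX) h3, ← mul_assoc,
        ← mul_pow, inv_mul_cancel₀ hX, one_pow, one_mul]
      exact hv m
    · rw [if_pos (by omega), if_neg h]
      exact ⟨0, 1, by simp⟩
  · have h1 : (∏ i ∈ range r, ∑ j ∈ range (i + 1), Polynomial.X ^ j : Polynomial ℚ).eval 1 =
        r.factorial := by
      simp [Polynomial.eval_prod, Polynomial.eval_finsetSum, ← prod_range_add_one_eq_factorial]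
    have h2 : (r.factorial : ℚ) ≠ 0 := by positivity
    refine ⟨E, ∏ i ∈ range r, ∑ j ∈ range (i + 1), Polynomial.X ^ j, ?_, h1 ▸ h2, by rw [h1]⟩
    have h3 := hp (RatFunc.X : RatFunc ℚ)
    have h4 : ∀ p : Polynomial ℚ, Polynomial.aeval (RatFunc.X : RatFunc ℚ) p = algebraMap _ _ p :=
      fun p => RingHom.congr_fun (f := (Polynomial.aeval (R := ℚ) RatFunc.X).toRingHom)
        (Polynomial.ringHom_ext' (RingHom.ext_rat _ _) (by simp)) p
    rw [h4, h4] at h3
    rw [← mul_div_assoc, div_eq_div_iff hr (val_ne (h1 ▸ h2)), ← h3, mul_right_comm]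
    congr 1
    simp [cyc, ← geom_sum_mul_neg, prod_mul_distrib, mul_comm]

end Pool.Agent.P.MP_8598be_al.E
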