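import Pool.Agent.P.MP_8598be_al.E.Defs

namespace Pool.Agent.P.MP_8598be_al.E

open Polynomial

section ringConstruction

variable (p l : ℕ) [Fact p.Prime]

/-- The Eisenstein polynomial `X ^ l - p`. -/
noncomputable def ringP : ℤ_[p][X] := X ^ l - C (p : ℤ_[p])

variable {l}

theorem ring_monic (hl : 0 < l) : (ringP p l).Monic := monic_X_pow_sub_C _ hl.ne'

theorem ring_degree (hl : 0 < l) : (ringP p l).degree = l := degree_X_pow_sub_C hl _

theorem ring_irreducible (hl : 0 < l) : Irreducible (ringP p l) := by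
  have hm := ring_monic p hl
  have hmax : IsLocalRing.maximalIdeal ℤ_[p] = Ideal.span {(p : ℤ_[p])} :=
    PadicInt.maximalIdeal_eq_span_p
  refine irreducible_of_eisenstein_criterion (P := IsLocalRing.maximalIdeal ℤ_[p])
    inferInstance ?_ ?_ ?_ ?_ hm.isPrimitive
  · rw [hm.leadingCoeff]
    exact (Ideal.ne_top_iff_one _).1 (IsLocalRing.maximalIdeal.isMaximal _).ne_top
  · intro n hn
    rw [ring_degree p hl] at hn
    have hn' : n < l := by exact_mod_cast hn
    rw [hmax, Ideal.mem_span_singleton]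
    simp only [ringP, coeff_sub, coeff_X_pow, coeff_C, if_neg hn'.ne, zero_sub, dvd_neg]
    split_ifs
    · exact dvd_rfl
    · exact dvd_zero _
  · rw [ring_degree p hl]
    exact_mod_cast hl
  · rw [hmax, Ideal.span_singleton_pow, Ideal.mem_span_singleton]
    simp only [ringP, coeff_sub, coeff_X_pow, coeff_C, if_neg hl.ne, zero_sub, dvd_neg, if_true]
    intro h
    have hp : Irreducible (p : ℤ_[p]) := PadicInt.irreducible_p
    obtain ⟨c, hc⟩ := h
    have h1 : (p : ℤ_[p]) * 1 = p * (p * c) := by rw [mul_one]; linear_combination hc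
    have h2 := mul_left_cancel₀ hp.ne_zero h1
    exact hp.not_isUnit (IsUnit.of_mul_eq_one c h2.symm)

theorem ring_eval₂ {T : Type} [CommRing T] (l : ℕ) (i : ℤ_[p] →+* T) (x : T) :
    eval₂ i x (ringP p l) = x ^ l - i (p : ℤ_[p]) := by
  rw [ringP, eval₂_sub, eval₂_X_pow, eval₂_C]

theorem ring_root_pow (l : ℕ) :
    AdjoinRoot.root (ringP p l) ^ l = AdjoinRoot.of (ringP p l) (p : ℤ_[p]) := by
  have h := AdjoinRoot.eval₂_root (ringP p l)
  rw [ring_eval₂] at h
  exact sub_eq_zero.1 h

theorem ring_dvd_of_toZMod {x : ℤ_[p]} (h : PadicInt.toZMod x = 0) : (p : ℤ_[p]) ∣ x := by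
  have : x ∈ RingHom.ker (PadicInt.toZMod : ℤ_[p] →+* ZMod p) := h
  rwa [PadicInt.ker_toZMod, PadicInt.maximalIdeal_eq_span_p, Ideal.mem_span_singleton] at this

/-- Reduction modulo `p`. -/
noncomputable def ringF (l : ℕ) : AdjoinRoot (ringP p l) →+* AdjoinRoot (X ^ l : (ZMod p)[X]) :=
  AdjoinRoot.lift ((AdjoinRoot.of _).comp PadicInt.toZMod) (AdjoinRoot.root _) (by
    have h := AdjoinRoot.eval₂_root (X ^ l : (ZMod p)[X])
    rw [eval₂_X_pow] at h
    rw [ring_eval₂, h, RingHom.comp_apply, map_natCast PadicInt.toZMod, ZMod.natCast_self,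
      map_zero, sub_zero])

theorem ring_F_mk (l : ℕ) (g : ℤ_[p][X]) :
    ringF p l (AdjoinRoot.mk _ g) = AdjoinRoot.mk _ (g.map PadicInt.toZMod) := by
  rw [ringF, AdjoinRoot.lift_mk, ← eval₂_map, ← AdjoinRoot.aeval_eq, aeval_def,
    AdjoinRoot.algebraMap_eq]

theorem ring_F_surjective (l : ℕ) : Function.Surjective (ringF p l) := by
  intro y
  obtain ⟨g, rfl⟩ := AdjoinRoot.mk_surjective y
  obtain ⟨g', rfl⟩ := map_surjective (PadicInt.toZMod : ℤ_[p] →+* ZMod p)
    (ZMod.ringHom_surjective _) g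
  exact ⟨_, ring_F_mk p l g'⟩

theorem ring_F_ker (l : ℕ) :
    RingHom.ker (ringF p l) = Ideal.span {AdjoinRoot.root (ringP p l) ^ l} := by
  apply le_antisymm
  · intro y hy
    obtain ⟨g, rfl⟩ := AdjoinRoot.mk_surjective y
    rw [RingHom.mem_ker, ring_F_mk, AdjoinRoot.mk_eq_zero] at hy
    obtain ⟨h, hh⟩ := hy
    obtain ⟨h', rfl⟩ := map_surjective (PadicInt.toZMod : ℤ_[p] →+* ZMod p)
      (ZMod.ringHom_surjective _) h
    have h0 : (g - X ^ l * h').map (PadicInt.toZMod : ℤ_[p] →+* ZMod p) = 0 := by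
      rw [Polynomial.map_sub, Polynomial.map_mul, Polynomial.map_pow, map_X, hh, sub_self]
    have h1 : C (p : ℤ_[p]) ∣ g - X ^ l * h' := by
      rw [C_dvd_iff_dvd_coeff]
      intro i
      apply ring_dvd_of_toZMod
      rw [← coeff_map, h0, coeff_zero]
    obtain ⟨k, hk⟩ := h1
    have h2 : g = X ^ l * h' + C (p : ℤ_[p]) * k := by rw [← hk]; ring
    rw [Ideal.mem_span_singleton, h2, map_add, map_mul, map_mul, map_pow, AdjoinRoot.mk_X,
      AdjoinRoot.mk_C, ← ring_root_pow]
    exact dvd_add (dvd_mul_right _ _) (dvd_mul_right _ _)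
  · rw [Ideal.span_singleton_le_iff_mem, RingHom.mem_ker, ← AdjoinRoot.mk_X, ← map_pow, ring_F_mk,
      Polynomial.map_pow, map_X, AdjoinRoot.mk_self]

/-- The residue map. -/
noncomputable def ringG (hl : 0 < l) : AdjoinRoot (ringP p l) →+* ZMod p :=
  AdjoinRoot.lift PadicInt.toZMod 0 (by
    rw [ring_eval₂, map_natCast, ZMod.natCast_self, zero_pow hl.ne', sub_zero])

theorem ring_G_ker (hl : 0 < l) :
    RingHom.ker (ringG p hl) = Ideal.span {AdjoinRoot.root (ringP p l)} := by
  apply le_antisymm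
  · intro y hy
    obtain ⟨g, rfl⟩ := AdjoinRoot.mk_surjective y
    rw [RingHom.mem_ker, ringG, AdjoinRoot.lift_mk, eval₂_at_zero] at hy
    obtain ⟨c, hc⟩ := ring_dvd_of_toZMod p hy
    rw [Ideal.mem_span_singleton, ← X_mul_divX_add g, hc, map_add, map_mul, AdjoinRoot.mk_X,
      AdjoinRoot.mk_C, map_mul, ← ring_root_pow]
    exact dvd_add (dvd_mul_right _ _) ((dvd_pow_self _ hl.ne').mul_right _)
  · rw [Ideal.span_singleton_le_iff_mem, RingHom.mem_ker, ringG, AdjoinRoot.lift_root]

end ringConstruction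

theorem exists_ring (p l : ℕ) [Fact p.Prime] (hl : 0 < l) :
    ∃ (o : Type) (_ : CommRing o) (_ : IsDomain o) (_ : IsDiscreteValuationRing o)
      (_ : CharZero o) (_ : Algebra ℤ_[p] o) (_ : Module.Finite ℤ_[p] o),
      Nat.card (IsLocalRing.ResidueField o) = p ∧
      ∃ (ϖ : o) (f : o →+* AdjoinRoot (X ^ l : (ZMod p)[X])), Irreducible ϖ ∧
        Function.Surjective f ∧ RingHom.ker f = Ideal.span {ϖ ^ l} := by
  have hirr := ring_irreducible p hl
  have hdom : IsDomain (AdjoinRoot (ringP p l)) := AdjoinRoot.isDomain_of_prime hirr.prime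
  have hfin : Module.Finite ℤ_[p] (AdjoinRoot (ringP p l)) := (ring_monic p hl).finite_adjoinRoot
  have hinj : Function.Injective (algebraMap ℤ_[p] (AdjoinRoot (ringP p l))) := by
    rw [AdjoinRoot.algebraMap_eq]
    apply AdjoinRoot.of.injective_of_degree_ne_zero
    rw [ring_degree p hl]
    exact_mod_cast hl.ne'
  have hchar : CharZero (AdjoinRoot (ringP p l)) := charZero_of_injective_algebraMap hinj
  have hGs : Function.Surjective (ringG p hl) := ZMod.ringHom_surjective _
  have hmax : (Ideal.span {AdjoinRoot.root (ringP p l)}).IsMaximal := by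
    rw [← ring_G_ker p hl]
    exact RingHom.ker_isMaximal_of_surjective _ hGs
  have huniq : ∀ M : Ideal (AdjoinRoot (ringP p l)), M.IsMaximal →
      M = Ideal.span {AdjoinRoot.root (ringP p l)} := by
    intro M hM
    have h1 : (M.comap (algebraMap ℤ_[p] (AdjoinRoot (ringP p l)))).IsMaximal :=
      Ideal.isMaximal_comap_of_isIntegral_of_isMaximal M
    have h2 := IsLocalRing.eq_maximalIdeal h1
    have h3 : (p : ℤ_[p]) ∈ M.comap (algebraMap ℤ_[p] (AdjoinRoot (ringP p l))) := by
      rw [h2, PadicInt.maximalIdeal_eq_span_p]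
      exact Ideal.mem_span_singleton_self _
    rw [Ideal.mem_comap, AdjoinRoot.algebraMap_eq, ← ring_root_pow] at h3
    have h4 := hM.isPrime.mem_of_pow_mem l h3
    exact (hmax.eq_of_le hM.ne_top ((Ideal.span_singleton_le_iff_mem _).2 h4)).symm
  have hloc : IsLocalRing (AdjoinRoot (ringP p l)) :=
    IsLocalRing.of_unique_max_ideal ⟨_, hmax, huniq⟩
  have hm : IsLocalRing.maximalIdeal (AdjoinRoot (ringP p l)) =
      Ideal.span {AdjoinRoot.root (ringP p l)} := huniq _ inferInstance
  have hne : AdjoinRoot.root (ringP p l) ≠ 0 := by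
    intro h
    have h1 := ring_root_pow p l
    rw [h, zero_pow hl.ne', map_natCast] at h1
    exact (Fact.out : p.Prime).ne_zero (Nat.cast_eq_zero.1 h1.symm)
  have hnoeth : IsNoetherianRing (AdjoinRoot (ringP p l)) :=
    IsNoetherianRing.of_finite ℤ_[p] _
  have hpid : IsPrincipalIdealRing (AdjoinRoot (ringP p l)) :=
    ((tfae_of_isNoetherianRing_of_isLocalRing_of_isDomain (AdjoinRoot (ringP p l))).out 4 0).1
      (by rw [hm]; exact ⟨⟨_, rfl⟩⟩)
  have hdvr : IsDiscreteValuationRing (AdjoinRoot (ringP p l)) :=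
    { hpid, hloc with
      not_a_field' := by
        rw [hm, Ne, Ideal.span_singleton_eq_bot]
        exact hne }
  refine ⟨AdjoinRoot (ringP p l), inferInstance, hdom, hdvr, hchar, inferInstance, hfin, ?_,
    AdjoinRoot.root _, ringF p l, ?_, ring_F_surjective p l, ring_F_ker p l⟩
  · have e : IsLocalRing.ResidueField (AdjoinRoot (ringP p l)) ≃+* ZMod p :=
      (Ideal.quotEquivOfEq (hm.trans (ring_G_ker p hl).symm)).trans
        (RingHom.quotientKerEquivOfSurjective hGs)
    rw [Nat.card_congr e.toEquiv, Nat.card_zmod]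
  · exact (IsDiscreteValuationRing.irreducible_iff_uniformizer _).2 hm

theorem ring_card_le {o : Type} [CommRing o] [IsDomain o] [IsDiscreteValuationRing o] {ϖ : o}
    (hϖ : Irreducible ϖ) {M : Type} [AddCommGroup M] [Module o M] [Finite M] {y : M}
    (hy : y ≠ 0) (h : ϖ • y = 0) : Nat.card (IsLocalRing.ResidueField o) ≤ Nat.card M := by
  have hk : IsLocalRing.maximalIdeal o = LinearMap.ker (LinearMap.toSpanSingleton o M y) := by
    apply (IsLocalRing.maximalIdeal.isMaximal o).eq_of_le
    · rw [Ne, Ideal.eq_top_iff_one, LinearMap.mem_ker, LinearMap.toSpanSingleton_apply, one_smul]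
      exact hy
    · rw [hϖ.maximalIdeal_eq, Ideal.span_singleton_le_iff_mem, LinearMap.mem_ker,
        LinearMap.toSpanSingleton_apply]
      exact h
  have e : IsLocalRing.ResidueField o ≃ LinearMap.range (LinearMap.toSpanSingleton o M y) :=
    ((Submodule.quotEquivOfEq _ _ hk).trans
      (LinearMap.quotKerEquivRange (LinearMap.toSpanSingleton o M y))).toEquiv
  rw [Nat.card_congr e]
  exact Nat.card_le_card_of_injective _ Subtype.val_injective

theorem ring_pow_smul_eq_zero {o : Type} [CommRing o] [IsDomain o] [IsDiscreteValuationRing o]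
    {ϖ : o} (hϖ : Irreducible ϖ) {q : ℕ} (hq : Nat.card (IsLocalRing.ResidueField o) = q)
    (hq0 : q ≠ 0) (n : ℕ) :
    ∀ (M : Type) [AddCommGroup M] [Module o M] [Finite M], Nat.card M ≤ q ^ n →
      ∀ x : M, ϖ ^ n • x = 0 := by
  induction n with
  | zero =>
    intro M _ _ _ h x
    rw [pow_zero] at h
    have : Subsingleton M := Finite.card_le_one_iff_subsingleton.1 h
    exact Subsingleton.elim _ _
  | succ n ih =>
    intro M _ _ _ h x
    let N : Submodule o M := LinearMap.range (LinearMap.lsmul o M ϖ)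
    by_cases hN : N = ⊤
    · have h1 : (⊤ : Submodule o M) = ⊥ := by
        refine Submodule.eq_bot_of_le_smul_of_le_jacobson_bot (IsLocalRing.maximalIdeal o) ⊤
          Module.Finite.fg_top ?_ (IsLocalRing.maximalIdeal_le_jacobson _)
        intro z _
        have hz : z ∈ N := hN ▸ Submodule.mem_top
        obtain ⟨w, rfl⟩ := hz
        refine Submodule.smul_mem_smul ?_ Submodule.mem_top
        rw [hϖ.maximalIdeal_eq]
        exact Ideal.mem_span_singleton_self _
      have hx : x ∈ (⊥ : Submodule o M) := h1 ▸ Submodule.mem_top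
      rw [(Submodule.mem_bot o).1 hx, smul_zero]
    · obtain ⟨z, hz⟩ : ∃ z, z ∉ N := by
        by_contra hc
        push Not at hc
        exact hN (Submodule.eq_top_iff'.2 hc)
      have hfq : Finite (M ⧸ N) := Finite.of_surjective _ (Submodule.mkQ_surjective N)
      have h1 : q ≤ Nat.card (M ⧸ N) := by
        rw [← hq]
        refine ring_card_le hϖ (y := Submodule.Quotient.mk z) ?_ ?_
        · rwa [Ne, Submodule.Quotient.mk_eq_zero]
        · rw [← Submodule.Quotient.mk_smul, Submodule.Quotient.mk_eq_zero]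
          exact ⟨z, rfl⟩
      have h2 : Nat.card M = Nat.card N * Nat.card (M ⧸ N) :=
        Submodule.card_eq_card_quotient_mul_card N
      have h3 : Nat.card N ≤ q ^ n := by
        have : Nat.card N * q ≤ q ^ n * q := by
          calc Nat.card N * q ≤ Nat.card N * Nat.card (M ⧸ N) := Nat.mul_le_mul_left _ h1
            _ = Nat.card M := h2.symm
            _ ≤ q ^ n * q := by rwa [← pow_succ]
        exact Nat.le_of_mul_le_mul_right this (Nat.pos_of_ne_zero hq0)
      have h4 := ih N h3 ⟨ϖ • x, x, rfl⟩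
      rw [pow_succ, mul_smul]
      exact congrArg Subtype.val h4

/-- The coordinatewise map as a semilinear map. -/
def ringPhi (I : Type) {o S : Type} [CommRing o] [CommRing S] (f : o →+* S) :
    (I → o) →ₛₗ[f] (I → S) where
  toFun v := fun i => f (v i)
  map_add' v w := funext fun i => map_add f (v i) (w i)
  map_smul' c v := funext fun i => map_mul f c (v i)

theorem ring_phi_mulVec {I : Type} [Fintype I] {o S : Type} [CommRing o] [CommRing S]
    (f : o →+* S) (B : Matrix I I ℤ) (v : I → o) :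
    ringPhi I f (Matrix.mulVec (B.map (Int.cast : ℤ → o)) v) =
      Matrix.mulVec (B.map (Int.cast : ℤ → S)) (ringPhi I f v) := by
  funext i
  simp [ringPhi, Matrix.mulVec, dotProduct]

theorem subCount_quot {I ι : Type} [Fintype I] {o S : Type} [CommRing o] [IsDomain o]
    [IsDiscreteValuationRing o] [CommRing S] {ϖ : o} (hϖ : Irreducible ϖ) {q : ℕ}
    (hq : Nat.card (IsLocalRing.ResidueField o) = q) (hq0 : q ≠ 0) (f : o →+* S)
    (hf : Function.Surjective f) {l : ℕ} (hk : RingHom.ker f = Ideal.span {ϖ ^ l})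
    (A : ι → Matrix I I ℤ) {n : ℕ} (hn : n ≤ l) :
    subCount o A (q ^ n) = subCount S A (q ^ n) := by
  have : RingHomSurjective f := ⟨hf⟩
  have hs : Function.Surjective (ringPhi I f) := by
    intro w
    choose v hv using fun i => hf (w i)
    exact ⟨v, funext hv⟩
  have hind : ∀ L : Submodule S (I → S),
      (L.comap (ringPhi I f)).toAddSubgroup.index = L.toAddSubgroup.index := fun L =>
    AddSubgroup.index_comap_of_surjective L.toAddSubgroup (f := (ringPhi I f).toAddMonoidHom) hs
  have hinv : ∀ L : Submodule S (I → S), Inv o A (L.comap (ringPhi I f)) ↔ Inv S A L := by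
    intro L
    constructor
    · intro h k w hw
      obtain ⟨v, rfl⟩ := hs w
      rw [← ring_phi_mulVec]
      exact h k v hw
    · intro h k v hv
      rw [Submodule.mem_comap, ring_phi_mulVec]
      exact h k _ hv
  unfold subCount
  symm
  refine Nat.card_congr (Equiv.ofBijective
    (fun L => ⟨L.1.comap (ringPhi I f), (hinv _).2 L.2.1, (hind _).trans L.2.2⟩) ⟨?_, ?_⟩)
  · intro L L' h
    exact Subtype.ext (Submodule.comap_injective_of_surjective hs (congrArg Subtype.val h))
  · rintro ⟨Λ, h1, h2⟩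
    have hcard : Nat.card ((I → o) ⧸ Λ) = q ^ n := h2
    have hfin : Finite ((I → o) ⧸ Λ) := Nat.finite_of_card_ne_zero (by
      rw [hcard]; exact pow_ne_zero _ hq0)
    have hker : LinearMap.ker (ringPhi I f) ≤ Λ := by
      intro v hv
      have hv' : ∀ i, ϖ ^ l ∣ v i := fun i => by
        rw [← Ideal.mem_span_singleton, ← hk]
        exact congrFun (LinearMap.mem_ker.1 hv) i
      choose c hc using hv'
      have hvc : v = ϖ ^ n • (ϖ ^ (l - n) • c) := by
        funext i
        rw [smul_smul, ← pow_add, Nat.add_sub_cancel' hn, hc i]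
        rfl
      have h3 := ring_pow_smul_eq_zero hϖ hq hq0 n ((I → o) ⧸ Λ) hcard.le
        (Submodule.Quotient.mk (ϖ ^ (l - n) • c))
      rw [← Submodule.Quotient.mk_smul, Submodule.Quotient.mk_eq_zero] at h3
      rwa [hvc]
    have hcm : (Λ.map (ringPhi I f)).comap (ringPhi I f) = Λ := by
      rw [Submodule.comap_map_eq, sup_eq_left.2 hker]
    refine ⟨⟨Λ.map (ringPhi I f), (hinv _).1 (by rwa [hcm]), ?_⟩, Subtype.ext hcm⟩
    rw [← hind, hcm, h2]

end Pool.Agent.P.MP_8598be_al.E
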