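import Pool.Agent.P.MP_8598be_al.E.Defs

namespace Pool.Agent.P.MP_8598be_al.E

open Polynomial

section Aux

open Matrix

variable {I ι F S : Type} [Field F] [CommRing S] [Algebra F S] {l : ℕ}

/-- Components in distinct eigenspaces of a vector of an invariant subspace lie in it. -/
theorem rot_mem_of_sum {V κ : Type} [AddCommGroup V] [Module F V] (f : V →ₗ[F] V)
    (p : Submodule F V) (hp : ∀ v ∈ p, f v ∈ p) (μ : κ → F) (hμ : Function.Injective μ)
    (s : Finset κ) : ∀ v : κ → V, (∀ i, f (v i) = μ i • v i) → ∑ i ∈ s, v i ∈ p →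
      ∀ i ∈ s, v i ∈ p := by
  classical
  induction s using Finset.induction_on with
  | empty => simp
  | insert a s ha ih =>
    intro v hv hs
    have h1 : ∑ i ∈ s, (μ i - μ a) • v i ∈ p := by
      have h := p.sub_mem (hp _ hs) (p.smul_mem (μ a) hs)
      rw [map_sum, Finset.smul_sum, ← Finset.sum_sub_distrib, Finset.sum_insert ha, hv,
        sub_self, zero_add] at h
      simpa only [hv, sub_smul] using h
    have h2 : ∀ i ∈ s, v i ∈ p := fun i hi => by
      have h := ih (fun i => (μ i - μ a) • v i) (fun i => by rw [map_smul, hv, smul_comm]) h1 i hi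
      rwa [p.smul_mem_iff (sub_ne_zero.2 fun e => ha (by rwa [← hμ e]))] at h
    intro i hi
    rcases Finset.mem_insert.1 hi with rfl | hi
    · rw [Finset.sum_insert ha] at hs
      simpa using p.sub_mem hs (p.sum_mem h2)
    · exact h2 i hi

/-- Multiplication by `t ^ j`. -/
def rotEmb (I F : Type) [Field F] [Algebra F S] (t : S) (j : ℕ) : (I → F) →ₗ[F] (I → S) where
  toFun u i := u i • t ^ j
  map_add' _ _ := funext fun _ => add_smul _ _ _
  map_smul' _ _ := funext fun _ => mul_smul _ _ _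

/-- The coefficient of `t ^ j`. -/
noncomputable def rotCf (I : Type) (b : Module.Basis (Fin l) F S) (j : Fin l) :
    (I → S) →ₗ[F] (I → F) where
  toFun v i := b.repr (v i) j
  map_add' u v := funext fun i => by simp
  map_smul' c u := funext fun i => by simp

variable {b : Module.Basis (Fin l) F S} {t : S}

theorem rot_sum (hb : ∀ j, b j = t ^ (j : ℕ)) (v : I → S) :
    ∑ j : Fin l, rotEmb I F t j (rotCf I b j v) = v := by
  funext i
  rw [Finset.sum_apply, ← b.sum_repr (v i)]
  exact Finset.sum_congr rfl fun j _ => by rw [hb]; rfl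

theorem rot_emb_zero (ht : t ^ l = 0) {m : ℕ} (hm : l ≤ m) (u : I → F) : rotEmb I F t m u = 0 := by
  funext i
  change u i • t ^ m = 0
  rw [pow_eq_zero_of_le hm ht, smul_zero]

theorem rot_cf_emb (hb : ∀ j, b j = t ^ (j : ℕ)) (ht : t ^ l = 0) (i : Fin l) (m : ℕ)
    (u : I → F) : rotCf I b i (rotEmb I F t m u) = if (i : ℕ) = m then u else 0 := by
  by_cases hm : m < l
  · funext k
    change b.repr (u k • t ^ ((⟨m, hm⟩ : Fin l) : ℕ)) i = _
    rw [← hb, map_smul, b.repr_self, Finsupp.smul_apply, Finsupp.single_apply]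
    by_cases e : (i : ℕ) = m
    · rw [if_pos e, if_pos (Fin.ext e.symm), smul_eq_mul, mul_one]
    · rw [if_neg e, if_neg fun e' => e (congrArg Fin.val e').symm, smul_zero, Pi.zero_apply]
  · rw [rot_emb_zero ht (not_lt.1 hm), map_zero, if_neg (by omega)]

theorem rot_pow_smul (k j : ℕ) (u : I → F) :
    t ^ k • rotEmb I F t j u = rotEmb I F t (j + k) u := by
  funext i
  change t ^ k * (u i • t ^ j) = u i • t ^ (j + k)
  rw [mul_smul_comm, ← pow_add, add_comm]

theorem rot_mulVec [Fintype I] (B : Matrix I I ℤ) (j : ℕ) (u : I → F) :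
    B.map (Int.cast : ℤ → S) *ᵥ rotEmb I F t j u =
      rotEmb I F t j (B.map (Int.cast : ℤ → F) *ᵥ u) := by
  funext i
  change ∑ k, (B i k : S) * (u k • t ^ j) = (∑ k, (B i k : F) * u k) • t ^ j
  simp only [Algebra.smul_def, map_sum, map_mul, map_intCast, Finset.sum_mul, mul_assoc]

/-- The graded pieces of a submodule. -/
def rotJ (F : Type) [Field F] [Algebra F S] (t : S) (Λ : Submodule S (I → S)) (j : ℕ) :
    Submodule F (I → F) := (Λ.restrictScalars F).comap (rotEmb I F t j)

theorem rot_mem_J {Λ : Submodule S (I → S)} {j : ℕ} {u : I → F} :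
    u ∈ rotJ F t Λ j ↔ rotEmb I F t j u ∈ Λ := Iff.rfl

theorem rotJ_mono (Λ : Submodule S (I → S)) : Monotone (rotJ F t Λ) :=
  monotone_nat_of_le_succ fun j u hu => by
    rw [rot_mem_J, ← rot_pow_smul]
    exact Λ.smul_mem _ hu

theorem rot_cf_mem (hb : ∀ j, b j = t ^ (j : ℕ)) (ht : t ^ l = 0) {J : ℕ → Submodule F (I → F)}
    {m : ℕ} {u : I → F} (hu : u ∈ J m) (i : Fin l) : rotCf I b i (rotEmb I F t m u) ∈ J i := by
  rw [rot_cf_emb hb ht]
  split_ifs with e
  · rwa [e]
  · exact zero_mem _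

/-- The graded submodule of a chain. -/
def rotL (hb : ∀ j, b j = t ^ (j : ℕ)) (ht : t ^ l = 0) (J : ℕ → Submodule F (I → F))
    (hJ : Monotone J) : Submodule S (I → S) where
  carrier := {v | ∀ j : Fin l, rotCf I b j v ∈ J j}
  add_mem' hu hv j := by rw [map_add]; exact add_mem (hu j) (hv j)
  zero_mem' j := by rw [map_zero]; exact zero_mem _
  smul_mem' s v hv i := by
    rw [← rot_sum hb v, ← b.sum_repr s, Finset.sum_smul, map_sum]
    refine sum_mem fun k _ => ?_
    rw [smul_assoc, map_smul, Finset.smul_sum, map_sum]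
    refine Submodule.smul_mem _ _ (sum_mem fun j _ => ?_)
    rw [hb, rot_pow_smul]
    exact rot_cf_mem hb ht (hJ (Nat.le_add_right _ _) (hv j)) i

theorem rot_mem_L {hb : ∀ j, b j = t ^ (j : ℕ)} {ht : t ^ l = 0} {J : ℕ → Submodule F (I → F)}
    {hJ : Monotone J} {v : I → S} :
    v ∈ rotL hb ht J hJ ↔ ∀ j : Fin l, rotCf I b j v ∈ J j := Iff.rfl

theorem rot_index_sub [Fintype I] [Fintype F] (J : Submodule F (I → F)) :
    J.toAddSubgroup.index = Fintype.card F ^ (Fintype.card I - Module.finrank F J) := by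
  change Nat.card ((I → F) ⧸ J) = _
  rw [Module.natCard_eq_pow_finrank (K := F), Nat.card_eq_fintype_card, Submodule.finrank_quotient,
    Module.finrank_fintype_fun_eq_card]

theorem rot_index [Fintype I] [Fintype F] (hb : ∀ j, b j = t ^ (j : ℕ)) (ht : t ^ l = 0)
    (J : ℕ → Submodule F (I → F)) (hJ : Monotone J) : (rotL hb ht J hJ).toAddSubgroup.index =
      Fintype.card F ^ ∑ j ∈ Finset.range l, (Fintype.card I - Module.finrank F (J j)) := by
  have hs : Function.Surjective (LinearMap.pi (rotCf I b)).toAddMonoidHom := fun u =>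
    ⟨∑ j : Fin l, rotEmb I F t j (u j), funext fun i => by
      simp [rot_cf_emb hb ht, Fin.val_inj]⟩
  have e : (rotL hb ht J hJ).toAddSubgroup = (AddSubgroup.pi Set.univ
      fun j : Fin l => (J j).toAddSubgroup).comap (LinearMap.pi (rotCf I b)).toAddMonoidHom := by
    ext v
    simp [rot_mem_L, AddSubgroup.mem_pi]
  rw [e, AddSubgroup.index_comap_of_surjective _ hs, AddSubgroup.index_pi,
    ← Finset.prod_pow_eq_pow_sum, Finset.prod_range]
  simp only [rot_index_sub]

/-- The preimage of a submodule under the coordinatewise action of `σ`. -/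
def rotT (σ : S →ₐ[F] S) (Λ : Submodule S (I → S)) : Submodule S (I → S) where
  carrier := {v | σ.toLinearMap.compLeft I v ∈ Λ}
  add_mem' hu hv := by rw [Set.mem_ofPred_eq, map_add]; exact add_mem hu hv
  zero_mem' := by rw [Set.mem_ofPred_eq, map_zero]; exact zero_mem _
  smul_mem' s v hv := by
    have : σ.toLinearMap.compLeft I (s • v) = σ s • σ.toLinearMap.compLeft I v :=
      funext fun i => map_mul σ s (v i)
    rw [Set.mem_ofPred_eq, this]
    exact Λ.smul_mem _ hv

theorem rot_mem_T {σ : S →ₐ[F] S} {Λ : Submodule S (I → S)} {v : I → S} :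
    v ∈ rotT σ Λ ↔ σ.toLinearMap.compLeft I v ∈ Λ := Iff.rfl

theorem rot_eig {σ : S →ₐ[F] S} {z : F} (hσ : σ t = z • t) (j : ℕ) (u : I → F) :
    σ.toLinearMap.compLeft I (rotEmb I F t j u) = z ^ j • rotEmb I F t j u := by
  funext i
  change σ (u i • t ^ j) = z ^ j • u i • t ^ j
  rw [map_smul, map_pow, hσ, _root_.smul_pow, smul_comm]

theorem rot_pow_eq (hb : ∀ j, b j = t ^ (j : ℕ)) {σ : S →ₐ[F] S} {z : F} (hσ : σ t = z • t)
    (hz : z ^ l = 1) (v : I → S) : (σ.toLinearMap.compLeft I ^ l) v = v := by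
  have h : ∀ k j u, (σ.toLinearMap.compLeft I ^ k) (rotEmb I F t j u) =
      (z ^ k) ^ j • rotEmb I F t j u := fun k j u => by
    induction k with
    | zero => simp
    | succ k ih => rw [pow_succ', Module.End.mul_apply, ih, map_smul, rot_eig hσ, smul_smul,
        pow_succ, mul_pow]
  conv_lhs => rw [← rot_sum hb v, map_sum]
  simp only [h, hz, one_pow, one_smul, rot_sum hb]

theorem rot_gen [Fintype I] [Fintype F] (hl : l.Prime) (hb : ∀ j, b j = t ^ (j : ℕ))
    (ht : t ^ l = 0) {σ : S →ₐ[F] S} {z : F} (hσ : σ t = z • t) (hz : IsPrimitiveRoot z l)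
    (A : ι → Matrix I I ℤ) {n : ℕ} (hn : n < l) :
    subCount S A (Fintype.card F ^ n) ≡ chainCount F A n [MOD l] := by
  classical
  have := Fact.mk hl
  have : Finite S := Finite.of_equiv _ b.equivFun.toEquiv.symm
  have hτ := rot_pow_eq (I := I) hb hσ hz.pow_eq_one
  have hs : Function.Surjective (σ.toLinearMap.compLeft I).toAddMonoidHom := fun v =>
    ⟨(σ.toLinearMap.compLeft I ^ (l - 1)) v, by
      have h := hτ v
      rwa [← Nat.sub_add_cancel hl.one_le, pow_succ', Module.End.mul_apply] at h⟩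
  let T : Function.End {Λ : Submodule S (I → S) // Inv S A Λ ∧
      Λ.toAddSubgroup.index = Fintype.card F ^ n} := fun Λ => ⟨rotT σ Λ.1, fun k v hv => by
      have e : σ.toLinearMap.compLeft I ((A k).map (Int.cast : ℤ → S) *ᵥ v) =
          (A k).map (Int.cast : ℤ → S) *ᵥ σ.toLinearMap.compLeft I v := by
        funext i
        change σ (∑ j, (A k i j : S) * v j) = ∑ j, (A k i j : S) * σ (v j)
        simp only [map_sum, map_mul, map_intCast]
      rw [rot_mem_T, e]
      exact Λ.2.1 k _ hv,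
    (AddSubgroup.index_comap_of_surjective Λ.1.toAddSubgroup hs).trans Λ.2.2⟩
  have hT : ∀ k Λ v, v ∈ ((T ^ k) Λ).1 ↔ (σ.toLinearMap.compLeft I ^ k) v ∈ Λ.1 := fun k => by
    induction k with
    | zero => exact fun _ _ => Iff.rfl
    | succ k ih =>
      intro Λ v
      rw [pow_succ', pow_succ, Module.End.mul_apply, ← ih]
      exact Iff.rfl
  have h1 : T ^ l ^ 1 = 1 := by
    funext Λ
    refine Subtype.ext (Submodule.ext fun v => ?_)
    rw [pow_one, hT, hτ]
    exact Iff.rfl
  let := Fintype.ofFinite {Λ : Submodule S (I → S) // Inv S A Λ ∧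
      Λ.toAddSubgroup.index = Fintype.card F ^ n}
  have h2 := Equiv.Perm.card_fixedPoints_modEq h1
  rw [← Nat.card_eq_fintype_card, ← Nat.card_eq_fintype_card (α := T.fixedPoints)] at h2
  refine h2.trans (Eq.subst (motive := fun m => _ ≡ m [MOD l]) ?_ (Nat.ModEq.refl _))
  have hL : ∀ Λ : T.fixedPoints, rotL hb ht (rotJ F t Λ.1.1) (rotJ_mono _) = Λ.1.1 := fun Λ => by
    have hf : rotT σ Λ.1.1 = Λ.1.1 := congrArg Subtype.val Λ.2
    ext v
    rw [rot_mem_L]
    refine ⟨fun h => rot_sum hb v ▸ sum_mem fun j _ => h j, fun h j => ?_⟩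
    exact rot_mem_of_sum (σ.toLinearMap.compLeft I) (Λ.1.1.restrictScalars F)
      (fun w hw => rot_mem_T.1 (hf.symm ▸ hw : w ∈ rotT σ Λ.1.1)) (fun j : Fin l => z ^ (j : ℕ))
      (fun i j e => Fin.ext (hz.pow_inj i.2 j.2 e)) Finset.univ
      (fun j => rotEmb I F t j (rotCf I b j v)) (fun j => rot_eig hσ _ _)
      (by rwa [rot_sum hb]) j (Finset.mem_univ _)
  have hsum : ∀ J : ℕ → Submodule F (I → F), (∀ j, n ≤ j → J j = ⊤) →
      ∑ j ∈ Finset.range l, (Fintype.card I - Module.finrank F (J j)) =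
        ∑ j ∈ Finset.range n, (Fintype.card I - Module.finrank F (J j)) := fun J hJ =>
    (Finset.sum_subset (Finset.range_subset_range.2 hn.le) fun j _ hj => by
      rw [hJ j (by simpa using hj), finrank_top, Module.finrank_fintype_fun_eq_card,
        Nat.sub_self]).symm
  refine Nat.card_congr
    { toFun := fun Λ => ⟨rotJ F t Λ.1.1, ?_⟩
      invFun := fun J => ⟨⟨rotL hb ht J.1 J.2.1, fun k v hv i => ?_, ?_⟩,
        Subtype.ext (Submodule.ext fun v => ?_)⟩
      left_inv := fun Λ => Subtype.ext (Subtype.ext (hL Λ))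
      right_inv := fun J => Subtype.ext (funext fun j => Submodule.ext fun u => ?_) }
  · have e := rot_index hb ht (rotJ F t Λ.1.1) (rotJ_mono _)
    rw [hL, Λ.1.2.2] at e
    have e' := Nat.pow_right_injective (Fintype.one_lt_card (α := F)) e
    have top : ∀ j, n ≤ j → rotJ F t Λ.1.1 j = ⊤ := fun j hj => by
      by_contra hc
      have h3 : ∀ i ∈ Finset.range (n + 1),
          1 ≤ Fintype.card I - Module.finrank F (rotJ F t Λ.1.1 i) := fun i hi => by
        have h4 := Submodule.finrank_mono (rotJ_mono (F := F) (t := t) Λ.1.1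
          ((Nat.lt_succ_iff.1 (Finset.mem_range.1 hi)).trans hj))
        have h5 := Submodule.finrank_lt hc
        rw [Module.finrank_fintype_fun_eq_card] at h5
        omega
      have h6 := (Finset.card_nsmul_le_sum _ _ _ h3).trans
        (Finset.sum_le_sum_of_subset (Finset.range_subset_range.2 hn))
      rw [← e', Finset.card_range, smul_eq_mul] at h6
      omega
    refine ⟨rotJ_mono _, fun j k u hu => ?_, top, by rw [← hsum _ top, ← e']⟩
    rw [rot_mem_J, ← rot_mulVec]
    exact Λ.1.2.1 k _ hu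
  · rw [← rot_sum hb v, Matrix.mulVec_sum, map_sum]
    refine sum_mem fun j _ => ?_
    rw [rot_mulVec]
    exact rot_cf_mem hb ht (J.2.2.1 j k _ (hv j)) i
  · rw [rot_index, hsum _ J.2.2.2.1, J.2.2.2.2]
  · have e : ∀ j : Fin l, rotCf I b j (σ.toLinearMap.compLeft I v) = z ^ (j : ℕ) • rotCf I b j v :=
      fun j => by
      conv_lhs => rw [← rot_sum hb v, map_sum, map_sum]
      simp only [rot_eig hσ, map_smul, rot_cf_emb hb ht, Fin.val_inj, smul_ite, smul_zero,
        Finset.sum_ite_eq, Finset.mem_univ, if_true]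
    change σ.toLinearMap.compLeft I v ∈ rotL hb ht J.1 J.2.1 ↔ v ∈ rotL hb ht J.1 J.2.1
    simp only [rot_mem_L, e, Submodule.smul_mem_iff _ (pow_ne_zero _ (hz.ne_zero hl.ne_zero))]
  · change rotEmb I F t j u ∈ rotL hb ht J.1 J.2.1 ↔ _
    rw [rot_mem_L]
    refine ⟨fun h => ?_, fun h => rot_cf_mem hb ht h⟩
    by_cases hj : j < l
    · simpa [rot_cf_emb hb ht] using h ⟨j, hj⟩
    · rw [J.2.2.2.1 j (by omega)]
      trivial

end Aux

theorem rot {I ι : Type} [Fintype I] (F : Type) [Field F] [Fintype F] {l : ℕ} (hl : l.Prime)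
    (h : l ∣ Fintype.card F - 1) (A : ι → Matrix I I ℤ) {n : ℕ} (hn : n < l) :
    subCount (AdjoinRoot (X ^ l : F[X])) A (Fintype.card F ^ n) ≡ chainCount F A n [MOD l] := by
  classical
  have := Fact.mk hl
  obtain ⟨z, hz⟩ := exists_prime_orderOf_dvd_card (G := Fˣ) l (by rwa [Fintype.card_units])
  have hz' : IsPrimitiveRoot (z : F) l :=
    IsPrimitiveRoot.coe_units_iff.2 (hz ▸ IsPrimitiveRoot.orderOf z)
  have ht : AdjoinRoot.root (X ^ l : F[X]) ^ l = 0 := by
    rw [← AdjoinRoot.mk_X, ← map_pow, AdjoinRoot.mk_self]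
  exact rot_gen (b := (AdjoinRoot.powerBasis' (monic_X_pow (R := F) l)).basis.reindex
      (finCongr (natDegree_X_pow l))) hl (fun j => by simp) ht
    (σ := AdjoinRoot.liftAlgHom _ (Algebra.ofId F _) ((z : F) • AdjoinRoot.root (X ^ l : F[X]))
      (by rw [eval₂_X_pow, _root_.smul_pow, ht, smul_zero])) (AdjoinRoot.liftAlgHom_root _ _ _ _) hz' A hn

end Pool.Agent.P.MP_8598be_al.E
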