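import Pool.Agent.P.MP_8598be_al.E.LazB
import Pool.Agent.P.MP_8598be_al.E.Model
import Pool.Agent.P.MP_8598be_al.E.Denef
import Pool.Agent.P.MP_8598be_al.E.Ring
import Pool.Agent.P.MP_8598be_al.E.Rot
import Pool.Agent.P.MP_8598be_al.E.Chain
import Pool.Agent.P.MP_8598be_al.E.DenA
import Pool.Agent.P.MP_8598be_al.E.DenB
import Pool.Agent.P.MP_8598be_al.E.Limit

/-!
For uniform pairs both values exist and agree.
-/

namespace Pool.Agent.P.MP_8598be_al.E

open Pool.Agent.Lib.PadicQE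

theorem ser_unique {W : RatXY} {x : ℚ} {a b : ℕ → ℚ} (ha : Ser W x a) (hb : Ser W x b) : a = b := by
  obtain ⟨A, B, rfl, h1, h2⟩ := ha
  obtain ⟨A', B', e, h1', h2'⟩ := hb
  rw [div_eq_div_iff (ev_ne h1) (ev_ne h1'), ← map_mul, ← map_mul] at e
  have h3 := congrArg (MvPolynomial.aeval ![algebraMap ℚ (LaurentSeries ℚ) x,
    ((PowerSeries.X : PowerSeries ℚ) : LaurentSeries ℚ)]) (IsFractionRing.injective _ RatXY e)
  rw [map_mul, map_mul, ← div_eq_div_iff h1 h1', ← h2, ← h2'] at h3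
  have h4 := HahnSeries.ofPowerSeries_injective h3
  exact funext fun n => by simpa using congrArg (PowerSeries.coeff n) h4

theorem main {c d : ℕ} {τ : Fin (rk c d) → FreeMagma (Fin d)} (hτ : IsBasis c d τ)
    {A : Fin c ⊕ Fin d → Matrix (Fin (rk c d)) (Fin (rk c d)) ℤ} (hA : IsModel c d τ A)
    {W : RatXY} (hW : Uniform c d W) : ∃ (e : ℤ) (S : Finset ℕ) (L : ℕ),
      BothValues (rk c d) W (e / (rk c d).factorial) ∧
      ∀ (p l : ℕ) [Fact p.Prime], p ∉ S → l.Prime → l ∣ p - 1 → L ≤ l →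
        e ≡ flagCount (ZMod p) A [ZMOD l] := by
  classical
  obtain ⟨S, hS⟩ := hW
  have h0 : ∀ (p : ℕ) [Fact p.Prime], p ∉ S → ∀ (o : Type) [CommRing o] [IsDomain o]
      [IsDiscreteValuationRing o] [CharZero o] [Algebra ℤ_[p] o] [Module.Finite ℤ_[p] o],
      Nat.card (IsLocalRing.ResidueField o) = p → Ser W p fun n => subCount o A (p ^ n) := by
    intro p _ hp o _ _ _ _ _ _ ho
    have := hS p hp o
    rw [ho, zetaSeries] at this
    simpa only [Ser, map_natCast, idealCount_eq hτ hA] using this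
  let a : ℕ → ℕ → ℕ := fun p n =>
    if h : p.Prime then (haveI := Fact.mk h; subCount ℤ_[p] A (p ^ n)) else 0
  let ch : ℕ → ℕ → ℕ := fun p n =>
    if h : p.Prime then (haveI := Fact.mk h; chainCount (ZMod p) A n) else 0
  have h1 : ∀ p : ℕ, p.Prime → p ∉ S → Ser W p fun n => a p n := fun p hp hp' => by
    haveI := Fact.mk hp
    simp only [a, dif_pos hp]
    exact h0 p hp' ℤ_[p] (by rw [Nat.card_congr PadicInt.residueField.toEquiv, Nat.card_zmod])
  obtain ⟨A0, b, l, hb, hl, hW0⟩ := denom_shape W S (fun p n => a p n) fun p hp hp' =>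
    ⟨h1 p hp hp', by
      haveI := Fact.mk hp
      simp only [a, dif_pos hp]
      exact denef p A⟩
  obtain ⟨A1, α, S', hW1, h2, h3⟩ := denom_clear W S a h1 A0 b l hb hl hW0
  have h4 : ∀ p : ℕ, ∃ P : Polynomial ℤ, ∀ hp : p.Prime, P.natDegree ≤ rk c d * rk c d ∧
      P.eval 1 = (haveI := Fact.mk hp; flagCount (ZMod p) A) ∧
      (cyc ℤ (rk c d) : PowerSeries ℤ) * PowerSeries.mk (fun n => (ch p n : ℤ)) = P := fun p => by
    by_cases hp : p.Prime
    · haveI := Fact.mk hp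
      obtain ⟨P, hP⟩ := chain_series (ZMod p) A
      rw [Fintype.card_fin] at hP
      exact ⟨P, fun _ => by simpa only [ch, dif_pos hp] using hP⟩
    · exact ⟨0, fun h => (hp h).elim⟩
  choose P hP using h4
  obtain ⟨E, L, hE, hL⟩ := reduced (rk c d) (S ∪ S') α a ch P
    (fun p hp hp' => h2 p hp fun h => hp' (Finset.mem_union_right _ h))
    (fun p hp _ => ⟨(hP p hp).1, (hP p hp).2.2⟩) fun p l hp hp' hl hd n hn => by
      haveI := Fact.mk hp
      have hp'' : p ∉ S := fun h => hp' (Finset.mem_union_left _ h)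
      obtain ⟨o, _, _, _, _, _, _, ho, ϖ, f, g1, g2, g3⟩ := exists_ring p l hl.pos
      have g4 := congrFun (ser_unique (h1 p hp hp'') (h0 p hp'' o ho)) n
      rw [Nat.cast_inj.1 g4, subCount_quot g1 ho hp.ne_zero f g2 g3 A hn.le]
      have := rot (ZMod p) hl (by rwa [ZMod.card]) A hn
      rw [ZMod.card] at this
      simpa only [ch, dif_pos hp] using this
  refine ⟨E.eval 1, S ∪ S', L, ?_, fun p l hp h5 h6 h7 h8 => ?_⟩
  · have := limit (rk c d) W A1 l hl hW1 _ h3 _ hE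
    rwa [Polynomial.eval_one_map] at this
  · have := hL p l hp.out h5 h6 h7 h8
    rwa [(hP p hp.out).2.1] at this

end Pool.Agent.P.MP_8598be_al.E
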