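import Pool.Agent.P.MP_8598be_al.E.Defs
import Pool.Agent.Lib.PadicQE.Defs

namespace Pool.Agent.P.MP_8598be_al.E

open Pool.Agent.Lib.PadicQE Matrix

section Sat

variable {M N : Type} [AddCommGroup M] [AddCommGroup N]

theorem mat_card_sat {K K' : AddSubgroup M} (h : K' ≤ K) {S : Set M}
    (hS : ∀ x ∈ S, ∀ k ∈ K, x + k ∈ S) :
    Nat.card ((QuotientAddGroup.mk : M → M ⧸ K') '' S) =
      Nat.card ((QuotientAddGroup.mk : M → M ⧸ K) '' S) * K'.relIndex K := by
  rw [AddSubgroup.relIndex, AddSubgroup.index, ← Nat.card_prod]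
  let e := AddSubgroup.quotientEquivProdOfLE h
  have key : ∀ q : M ⧸ K', q ∈ (QuotientAddGroup.mk : M → M ⧸ K') '' S ↔
      (e q).1 ∈ (QuotientAddGroup.mk : M → M ⧸ K) '' S := by
    intro q
    induction q using QuotientAddGroup.induction_on with
    | H x =>
      have he : (e (x : M ⧸ K')).1 = (x : M ⧸ K) := rfl
      rw [he]
      constructor
      · rintro ⟨y, hy, hxy⟩
        exact ⟨y, hy, QuotientAddGroup.eq.2 (h (QuotientAddGroup.eq.1 hxy))⟩
      · rintro ⟨y, hy, hxy⟩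
        refine ⟨x, ?_, rfl⟩
        have := hS y hy _ (QuotientAddGroup.eq.1 hxy)
        rwa [add_neg_cancel_left] at this
  exact Nat.card_congr ((e.subtypeEquiv
    (q := fun z => z.1 ∈ (QuotientAddGroup.mk : M → M ⧸ K) '' S) key).trans
      Equiv.prodSubtypeFstEquivSubtypeProd)

theorem mat_card_comap (φ : M →+ N) (K : AddSubgroup N) (S : Set M) :
    Nat.card ((QuotientAddGroup.mk : N → N ⧸ K) '' (φ '' S)) =
      Nat.card ((QuotientAddGroup.mk : M → M ⧸ K.comap φ) '' S) := by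
  let ψ := QuotientAddGroup.map (K.comap φ) K φ le_rfl
  have hψ : Function.Injective ψ := by
    refine (injective_iff_map_eq_zero ψ).2 fun q => ?_
    induction q using QuotientAddGroup.induction_on with
    | H x =>
      intro hx
      have hx' : ((φ x : N) : N ⧸ K) = 0 := hx
      exact (QuotientAddGroup.eq_zero_iff x).2 ((QuotientAddGroup.eq_zero_iff (φ x)).1 hx')
  have e : (QuotientAddGroup.mk : N → N ⧸ K) '' (φ '' S) =
      ψ '' ((QuotientAddGroup.mk : M → M ⧸ K.comap φ) '' S) := by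
    rw [Set.image_image, Set.image_image]
    rfl
  rw [e, Nat.card_image_of_injective hψ]

end Sat

variable {I ι : Type} [Fintype I] [DecidableEq I] (p : ℕ) [Fact p.Prime]

/-- Matrices whose columns span an invariant lattice of index `p ^ n`. -/
def matSet (A : ι → Matrix I I ℤ) (n : ℤ) : Set (I × I → ℚ_[p]) :=
  {x | ‖(of fun i j => x (i, j)).det‖ = (p : ℝ) ^ (-n) ∧ ∀ k i j,
    ‖((of fun i j => x (i, j)).adjugate * (A k).map (Int.cast : ℤ → ℚ_[p]) *
      (of fun i j => x (i, j))) i j‖ ≤ ‖(of fun i j => x (i, j)).det‖}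

theorem mat_p_ne : (p : ℤ_[p]) ≠ 0 := Nat.cast_ne_zero.2 (Fact.out : p.Prime).ne_zero

theorem mat_dvd_iff {d x : ℤ_[p]} (hd : d ≠ 0) : d ∣ x ↔ ‖x‖ ≤ ‖d‖ := by
  constructor
  · rintro ⟨y, rfl⟩
    rw [norm_mul]
    exact mul_le_of_le_one_right (norm_nonneg _) (PadicInt.norm_le_one y)
  · intro h
    have hd' : (d : ℚ_[p]) ≠ 0 := fun h0 => hd (PadicInt.coe_eq_zero.1 h0)
    have hn : ‖(x : ℚ_[p]) / d‖ ≤ 1 := by
      rw [norm_div]
      exact div_le_one_of_le₀ h (norm_nonneg _)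
    refine ⟨⟨_, hn⟩, Subtype.ext ?_⟩
    change (x : ℚ_[p]) = d * (x / d)
    field_simp

theorem mat_card_quot {a : ℤ_[p]} (ha : a ≠ 0) :
    (Nat.card (ℤ_[p] ⧸ Ideal.span {a}) : ℝ) * ‖a‖ = 1 := by
  have h1 : Ideal.span {a} = Ideal.span {(p : ℤ_[p]) ^ a.valuation} := by
    conv_lhs => rw [PadicInt.unitCoeff_spec ha]
    exact Ideal.span_singleton_mul_left_unit (Units.isUnit _) _
  have h2 : Nat.card (ℤ_[p] ⧸ Ideal.span {a}) = p ^ a.valuation := by
    rw [h1, ← PadicInt.ker_toZModPow, Nat.card_congr (RingHom.quotientKerEquivOfSurjective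
      (ZMod.ringHom_surjective (PadicInt.toZModPow (p := p) a.valuation))).toEquiv, Nat.card_zmod]
  have hp : (p : ℝ) ≠ 0 := Nat.cast_ne_zero.2 (Fact.out : p.Prime).ne_zero
  rw [h2, PadicInt.norm_eq_zpow_neg_valuation ha, Nat.cast_pow, ← zpow_natCast, ← zpow_add₀ hp,
    add_neg_cancel, zpow_zero]

theorem mat_index_det (N : Submodule ℤ_[p] (I → ℤ_[p])) (e : (I → ℤ_[p]) ≃ₗ[ℤ_[p]] N) :
    (N.toAddSubgroup.index : ℝ) * ‖LinearMap.det (N.subtype ∘ₗ (e : (I → ℤ_[p]) →ₗ[ℤ_[p]] N))‖ =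
      1 := by
  let b := Pi.basisFun ℤ_[p] I
  have h : Module.finrank ℤ_[p] N = Module.finrank ℤ_[p] (I → ℤ_[p]) := e.symm.finrank_eq
  let a := Submodule.smithNormalFormCoeffs b h
  let b' := Submodule.smithNormalFormTopBasis b h
  let ab := Submodule.smithNormalFormBotBasis b h
  have ab_eq := Submodule.smithNormalFormBotBasis_def b h
  let e' : (I → ℤ_[p]) ≃ₗ[ℤ_[p]] N := b'.equiv ab (Equiv.refl _)
  let f := N.subtype ∘ₗ (e' : (I → ℤ_[p]) →ₗ[ℤ_[p]] N)
  have ha : ∀ i, f (b' i) = a i • b' i := fun i => by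
    change ((b'.equiv ab (Equiv.refl _) (b' i) : N) : I → ℤ_[p]) = _
    rw [b'.equiv_apply, Equiv.refl_apply]
    exact ab_eq i
  have h1 : LinearMap.toMatrix b' b' f = Matrix.diagonal a := by
    ext i j
    rw [LinearMap.toMatrix_apply, ha, map_smul, Module.Basis.repr_self, Finsupp.smul_single,
      smul_eq_mul, mul_one]
    by_cases h : i = j
    · rw [h, Matrix.diagonal_apply_eq, Finsupp.single_eq_same]
    · rw [Matrix.diagonal_apply_ne _ h, Finsupp.single_eq_of_ne h]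
  have h2 : LinearMap.det f = ∏ i, a i := by
    rw [← LinearMap.det_toMatrix b', h1, Matrix.det_diagonal]
  obtain ⟨u, hu⟩ := LinearMap.associated_det_comp_equiv N.subtype e e'
  have h3 : ‖LinearMap.det (N.subtype ∘ₗ (e : (I → ℤ_[p]) →ₗ[ℤ_[p]] N))‖ = ∏ i, ‖a i‖ := by
    rw [← norm_prod, ← h2, ← hu, norm_mul, PadicInt.norm_units, mul_one]
  have h4 : N.toAddSubgroup.index = ∏ i, Nat.card (ℤ_[p] ⧸ Ideal.span {a i}) := by
    rw [← Nat.card_pi]
    exact Nat.card_congr (N.quotientEquivPiSpan b h).toEquiv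
  rw [h3, h4, Nat.cast_prod, ← Finset.prod_mul_distrib]
  exact Finset.prod_eq_one fun i _ =>
    mat_card_quot p (Submodule.smithNormalFormCoeffs_ne_zero b h i)

omit [Fintype I] [DecidableEq I] in
theorem mat_smul_mem {Λ : Submodule ℤ_[p] (I → ℤ_[p])} {n : ℕ}
    (h : Λ.toAddSubgroup.index = p ^ n) (v : I → ℤ_[p]) : (p : ℤ_[p]) ^ n • v ∈ Λ := by
  have := AddSubgroup.nsmul_index_mem Λ.toAddSubgroup v
  rw [h, ← Nat.cast_smul_eq_nsmul ℤ_[p], Nat.cast_pow] at this
  exact this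

theorem mat_exists_mul {G B : Matrix I I ℤ_[p]}
    (h : ∀ j, B.col j ∈ LinearMap.range G.mulVecLin) : ∃ Y, G * Y = B := by
  choose y hy using h
  refine ⟨of fun i j => y j i, ?_⟩
  ext i j
  exact congrFun (hy j) i

theorem mat_index_iff (G : Matrix I I ℤ_[p]) (n : ℕ) :
    (LinearMap.range G.mulVecLin).toAddSubgroup.index = p ^ n ↔
      ‖G.det‖ = (p : ℝ) ^ (-(n : ℤ)) := by
  have hp : (p : ℝ) ≠ 0 := Nat.cast_ne_zero.2 (Fact.out : p.Prime).ne_zero
  by_cases hd : G.det = 0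
  · refine ⟨fun h => ?_, fun h => ?_⟩
    · obtain ⟨Y, hY⟩ := mat_exists_mul p (G := G) (B := ((p : ℤ_[p]) ^ n) • (1 : Matrix I I ℤ_[p]))
        fun j => mat_smul_mem p h ((1 : Matrix I I ℤ_[p]).col j)
      have := congrArg det hY
      rw [det_mul, hd, zero_mul, det_smul, det_one, mul_one] at this
      exact absurd this.symm (pow_ne_zero _ (pow_ne_zero _ (mat_p_ne p)))
    · rw [hd, norm_zero] at h
      exact absurd h.symm (zpow_ne_zero _ hp)
  · have hi : Function.Injective G.mulVecLin := by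
      refine (injective_iff_map_eq_zero _).2 fun v hv => ?_
      by_contra h0
      exact hd (exists_mulVec_eq_zero_iff.1 ⟨v, h0, hv⟩)
    have h := mat_index_det p _ (LinearEquiv.ofInjective G.mulVecLin hi)
    have e : (LinearMap.range G.mulVecLin).subtype ∘ₗ
        (LinearEquiv.ofInjective G.mulVecLin hi : (I → ℤ_[p]) →ₗ[ℤ_[p]] _) = toLin' G := rfl
    rw [e, LinearMap.det_toLin'] at h
    rw [_root_.zpow_neg, _root_.zpow_natCast]
    constructor
    · intro h1
      rw [h1, Nat.cast_pow] at h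
      exact eq_inv_of_mul_eq_one_right h
    · intro h1
      rw [h1] at h
      exact_mod_cast (mul_inv_eq_one₀ (pow_ne_zero n hp)).1 h

theorem mat_inv_iff (A : ι → Matrix I I ℤ) {G : Matrix I I ℤ_[p]} (hd : G.det ≠ 0) :
    Inv ℤ_[p] A (LinearMap.range G.mulVecLin) ↔ ∀ k i j,
      ‖(G.adjugate * (A k).map (Int.cast : ℤ → ℤ_[p]) * G) i j‖ ≤ ‖G.det‖ := by
  refine forall_congr' fun k => ?_
  set B := (A k).map (Int.cast : ℤ → ℤ_[p])
  constructor
  · intro h i j
    obtain ⟨Y, hY⟩ := mat_exists_mul p (G := G) (B := B * G) fun j => by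
      have := h _ (LinearMap.mem_range_self G.mulVecLin (Pi.single j 1))
      rw [mulVecLin_apply, mulVec_mulVec, mulVec_single_one] at this
      exact this
    rw [Matrix.mul_assoc, ← hY, ← Matrix.mul_assoc, adjugate_mul, smul_mul, Matrix.one_mul,
      Matrix.smul_apply, smul_eq_mul]
    exact (mat_dvd_iff p hd).1 (dvd_mul_right _ _)
  · rintro h _ ⟨v, rfl⟩
    choose Y hY using fun i j => (mat_dvd_iff p hd).2 (h i j)
    have h1 : G.adjugate * B * G = G.det • of Y := by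
      ext i j
      rw [hY i j]
      rfl
    have h2 : G.det • (B * G) = G.det • (G * of Y) := by
      rw [← Matrix.mul_smul, ← Matrix.mul_smul G, ← h1, ← Matrix.mul_assoc, ← Matrix.mul_assoc,
        mul_adjugate, smul_mul, Matrix.one_mul, smul_mul, Matrix.mul_smul]
    have h3 : B * G = G * of Y := smul_right_injective _ hd h2
    refine ⟨of Y *ᵥ v, ?_⟩
    rw [mulVecLin_apply, mulVecLin_apply, mulVec_mulVec, mulVec_mulVec, h3]

theorem mat_iff (A : ι → Matrix I I ℤ) (n : ℕ) (c : I → I → ℤ_[p]) :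
    (fun ij : I × I => (c ij.2 ij.1 : ℚ_[p])) ∈ matSet p A n ↔
      Inv ℤ_[p] A (Submodule.span ℤ_[p] (Set.range c)) ∧
        (Submodule.span ℤ_[p] (Set.range c)).toAddSubgroup.index = p ^ n := by
  set G : Matrix I I ℤ_[p] := of fun i j => c j i with hG
  have h1 : Submodule.span ℤ_[p] (Set.range c) = LinearMap.range G.mulVecLin := by
    rw [range_mulVecLin]
    rfl
  have h2 : (of fun i j => (c j i : ℚ_[p])) = (PadicInt.Coe.ringHom (p := p)).mapMatrix G := rfl
  have h3 : ∀ k, (A k).map (Int.cast : ℤ → ℚ_[p]) =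
      (PadicInt.Coe.ringHom (p := p)).mapMatrix ((A k).map (Int.cast : ℤ → ℤ_[p])) := fun k => rfl
  have h4 : (fun ij : I × I => (c ij.2 ij.1 : ℚ_[p])) ∈ matSet p A n ↔
      ‖G.det‖ = (p : ℝ) ^ (-(n : ℤ)) ∧ ∀ k i j,
        ‖(G.adjugate * (A k).map (Int.cast : ℤ → ℤ_[p]) * G) i j‖ ≤ ‖G.det‖ := by
    simp only [matSet, Set.mem_ofPred_eq, h2, h3]
    simp only [← RingHom.map_det, ← RingHom.map_adjugate, ← map_mul]
    rfl
  rw [h4, h1, mat_index_iff, and_comm]
  refine and_congr_left fun h => (mat_inv_iff p A fun h0 => ?_).symm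
  rw [h0, norm_zero] at h
  exact zpow_ne_zero _ (Nat.cast_ne_zero.2 (Fact.out : p.Prime).ne_zero) h.symm

/-- Families of columns divisible by `p ^ L`. -/
def matK (I : Type) (L : ℕ) : AddSubgroup (I → I → ℤ_[p]) where
  carrier := {c | ∀ j i, (p : ℤ_[p]) ^ L ∣ c j i}
  add_mem' ha hb j i := dvd_add (ha j i) (hb j i)
  zero_mem' _ _ := dvd_zero _
  neg_mem' ha j i := (ha j i).neg_right

/-- Families of columns spanning `Λ`. -/
def matS (Λ : Submodule ℤ_[p] (I → ℤ_[p])) : Set (I → I → ℤ_[p]) :=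
  {c | Submodule.span ℤ_[p] (Set.range c) = Λ}

omit [DecidableEq I] in
theorem mat_sat {Λ : Submodule ℤ_[p] (I → ℤ_[p])} {n : ℕ} (h : ∀ v, (p : ℤ_[p]) ^ n • v ∈ Λ) :
    ∀ c ∈ matS p Λ, ∀ k ∈ matK p I (n + 1), c + k ∈ matS p Λ := by
  intro c hc k hk
  choose w hw using hk
  have hk' : ∀ j, k j = (p : ℤ_[p]) • ((p : ℤ_[p]) ^ n • w j) := fun j => by
    funext i
    rw [hw j i, Pi.smul_apply, Pi.smul_apply, smul_eq_mul, smul_eq_mul]
    ring
  have hc' : Submodule.span ℤ_[p] (Set.range c) = Λ := hc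
  have hcj : ∀ j, c j ∈ Λ := fun j => hc' ▸ Submodule.subset_span ⟨j, rfl⟩
  refine le_antisymm (Submodule.span_le.2 ?_) ?_
  · rintro _ ⟨j, rfl⟩
    exact Λ.add_mem (hcj j) (hk' j ▸ Λ.smul_mem _ (h _))
  · refine Submodule.le_of_le_smul_of_le_jacobson_bot (I := Ideal.span {(p : ℤ_[p])})
      (IsNoetherian.noetherian _) ?_ ?_
    · rw [← PadicInt.maximalIdeal_eq_span_p]
      exact (IsLocalRing.jacobson_eq_maximalIdeal _ bot_ne_top).ge
    · conv_lhs => rw [← hc']
      refine Submodule.span_le.2 ?_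
      rintro _ ⟨j, rfl⟩
      have e : c j = (c + k) j - k j := (add_sub_cancel_right _ _).symm
      rw [e]
      refine Submodule.sub_mem _ (Submodule.mem_sup_left (Submodule.subset_span ⟨j, rfl⟩))
        (Submodule.mem_sup_right ?_)
      rw [hk' j]
      exact Submodule.smul_mem_smul (Ideal.mem_span_singleton_self _) (h _)

theorem matSet_inv (A : ι → Matrix I I ℤ) (n : ℤ) (x y : I × I → ℚ_[p]) (hx : ∀ i, ‖x i‖ ≤ 1)
    (hy : ∀ i, ‖x i - y i‖ ≤ (p : ℝ) ^ (-(n + 1))) (hn : 0 ≤ n) (h : x ∈ matSet p A n) :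
    y ∈ matSet p A n := by
  lift n to ℕ using hn
  have h1 : ∀ i, ‖y i - x i‖ ≤ 1 := fun i => by
    rw [norm_sub_rev]
    exact (hy i).trans (zpow_lt_one p n).le
  let c : I → I → ℤ_[p] := fun j i => ⟨x (i, j), hx _⟩
  let k : I → I → ℤ_[p] := fun j i => ⟨y (i, j) - x (i, j), h1 _⟩
  have hk : k ∈ matK p I (n + 1) := fun j i => by
    rw [← Ideal.mem_span_singleton, ← PadicInt.norm_le_pow_iff_mem_span_pow]
    change ‖y (i, j) - x (i, j)‖ ≤ _
    rw [norm_sub_rev]
    exact_mod_cast hy (i, j)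
  have hc := (mat_iff p A n c).1 h
  have hs : Submodule.span ℤ_[p] (Set.range (c + k)) = Submodule.span ℤ_[p] (Set.range c) :=
    mat_sat p (mat_smul_mem p hc.2) c rfl k hk
  have := (mat_iff p A n (c + k)).2 (hs ▸ hc)
  convert this using 1
  funext ij
  change y ij = x ij + (y ij - x ij)
  ring

/-- The family of columns with given natural entries. -/
noncomputable def matRep (L : ℕ) (a : I × I → Fin (p ^ L)) : I → I → ℤ_[p] :=
  fun j i => ((a (i, j) : ℕ) : ℤ_[p])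

omit [Fintype I] [DecidableEq I] in
theorem mat_rep_bij (L : ℕ) : Function.Bijective fun a : I × I → Fin (p ^ L) =>
    (QuotientAddGroup.mk (matRep p L a) : (I → I → ℤ_[p]) ⧸ matK p I L) := by
  constructor
  · intro a b hab
    have h := QuotientAddGroup.eq.1 hab
    funext ij
    have h1 : (p : ℤ_[p]) ^ L ∣ (((b ij : ℕ) - (a ij : ℕ) : ℤ) : ℤ_[p]) := by
      have := h ij.2 ij.1
      push_cast
      rw [sub_eq_neg_add]
      exact this
    rw [PadicInt.pow_p_dvd_int_iff] at h1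
    have h2 : (a ij : ℕ) ≡ b ij [MOD p ^ L] := (Nat.modEq_iff_dvd.2 (by exact_mod_cast h1))
    exact Fin.ext (Nat.ModEq.eq_of_lt_of_lt h2 (a ij).2 (b ij).2)
  · intro q
    induction q using QuotientAddGroup.induction_on with
    | H c =>
      refine ⟨fun ij => ⟨(c ij.2 ij.1).appr L, PadicInt.appr_lt _ _⟩,
        QuotientAddGroup.eq.2 fun j i => ?_⟩
      have := Ideal.mem_span_singleton.1 (PadicInt.appr_spec L (c j i))
      rw [sub_eq_neg_add] at this
      exact this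

omit [DecidableEq I] in
theorem mat_index_K (L : ℕ) :
    (matK p I L).index = p ^ (L * Fintype.card I * Fintype.card I) := by
  rw [AddSubgroup.index, ← Nat.card_congr (Equiv.ofBijective _ (mat_rep_bij p L)), Nat.card_fun,
    Nat.card_eq_fintype_card, Nat.card_eq_fintype_card, Fintype.card_fin, Fintype.card_prod,
    ← pow_mul, mul_assoc]

omit [Fintype I] [DecidableEq I] in
theorem mat_count (L : ℕ) {S : Set (I → I → ℤ_[p])}
    (hS : ∀ x ∈ S, ∀ k ∈ matK p I L, x + k ∈ S) :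
    Nat.card {a : I × I → Fin (p ^ L) // matRep p L a ∈ S} =
      Nat.card ((QuotientAddGroup.mk : _ → (I → I → ℤ_[p]) ⧸ matK p I L) '' S) := by
  refine Nat.card_congr ((Equiv.ofBijective _ (mat_rep_bij p L)).subtypeEquiv fun a => ?_)
  refine ⟨fun h => ⟨_, h, rfl⟩, ?_⟩
  rintro ⟨y, hy, hxy⟩
  have := hS y hy _ (QuotientAddGroup.eq.1 hxy)
  rwa [add_neg_cancel_left] at this

theorem mat_fibre {Λ : Submodule ℤ_[p] (I → ℤ_[p])} {n : ℕ}
    (h : Λ.toAddSubgroup.index = p ^ n) :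
    Nat.card {a : I × I → Fin (p ^ (n + 1)) // matRep p (n + 1) a ∈ matS p Λ} *
      p ^ (n * Fintype.card I) =
      Nat.card ((QuotientAddGroup.mk : _ → (I → I → ℤ_[p]) ⧸ matK p I 1) '' matS p ⊤) *
        p ^ (n * Fintype.card I * Fintype.card I) := by
  have hm := mat_smul_mem p h
  have hr : Module.finrank ℤ_[p] Λ = Module.finrank ℤ_[p] (I → ℤ_[p]) :=
    le_antisymm (Submodule.finrank_le Λ)
      (((LinearMap.lsmul ℤ_[p] (I → ℤ_[p]) ((p : ℤ_[p]) ^ n)).codRestrict Λ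
        hm).finrank_le_finrank_of_injective
        ((LinearMap.lsmul_injective (pow_ne_zero n (mat_p_ne p))).codRestrict _))
  let e : (I → ℤ_[p]) ≃ₗ[ℤ_[p]] Λ := (Pi.basisFun ℤ_[p] I).equiv
    (Submodule.smithNormalFormBotBasis (Pi.basisFun ℤ_[p] I) hr) (Equiv.refl _)
  let g : (I → ℤ_[p]) →ₗ[ℤ_[p]] (I → ℤ_[p]) := Λ.subtype ∘ₗ (e : (I → ℤ_[p]) →ₗ[ℤ_[p]] Λ)
  have gi : Function.Injective g := Λ.subtype_injective.comp e.injective
  have gr : ∀ v, v ∈ Λ ↔ ∃ y, g y = v := fun v =>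
    ⟨fun hv => ⟨e.symm ⟨v, hv⟩, congrArg Subtype.val (e.apply_symm_apply _)⟩,
      fun ⟨y, hy⟩ => hy ▸ (e y).2⟩
  have gt : Submodule.map g ⊤ = Λ := by
    ext v
    rw [gr, Submodule.map_top, LinearMap.mem_range]
  let Φ : (I → I → ℤ_[p]) →+ (I → I → ℤ_[p]) :=
    { toFun := fun c j => g (c j)
      map_zero' := funext fun _ => map_zero g
      map_add' := fun a b => funext fun j => map_add g (a j) (b j) }
  have hΦ : ∀ c, Submodule.span ℤ_[p] (Set.range (Φ c)) =
      (Submodule.span ℤ_[p] (Set.range c)).map g := fun c => by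
    rw [Submodule.map_span, ← Set.range_comp]
    rfl
  have hrange : Φ.range = AddSubgroup.pi Set.univ fun _ : I => Λ.toAddSubgroup := by
    ext c
    constructor
    · rintro ⟨y, rfl⟩ j -
      exact (gr _).2 ⟨y j, rfl⟩
    · intro hc
      choose y hy using fun j => (gr _).1 (hc j trivial)
      exact ⟨y, funext hy⟩
  have hS : matS p Λ = Φ '' matS p ⊤ := by
    ext c
    constructor
    · intro hc
      have hc' : Submodule.span ℤ_[p] (Set.range c) = Λ := hc
      choose y hy using fun j => (gr (c j)).1 (hc' ▸ Submodule.subset_span ⟨j, rfl⟩)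
      have hyc : Φ y = c := funext hy
      refine ⟨y, Submodule.map_injective_of_injective gi ?_, hyc⟩
      rw [← hΦ, hyc, hc', gt]
    · rintro ⟨y, hy, rfl⟩
      have hy' : Submodule.span ℤ_[p] (Set.range y) = ⊤ := hy
      change Submodule.span ℤ_[p] (Set.range (Φ y)) = Λ
      rw [hΦ, hy', gt]
  have hvec : ∀ c ∈ matK p I (n + 1), ∀ j, ∃ y, c j = (p : ℤ_[p]) • g y := fun c hc j => by
    choose w hw using hc j
    obtain ⟨y, hy⟩ := (gr _).1 (hm w)
    refine ⟨y, funext fun i => ?_⟩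
    rw [hy, hw i, Pi.smul_apply, Pi.smul_apply, smul_eq_mul, smul_eq_mul]
    ring
  have hle : (matK p I (n + 1)).comap Φ ≤ matK p I 1 := fun c hc j i => by
    obtain ⟨y, hy⟩ := hvec _ hc j
    have : c j = (p : ℤ_[p]) • y := gi (by rw [map_smul]; exact hy)
    rw [this, pow_one]
    exact dvd_mul_right _ _
  have hle' : matK p I (n + 1) ≤ Φ.range := by
    rw [hrange]
    intro c hc j _
    obtain ⟨y, hy⟩ := hvec _ hc j
    rw [hy]
    exact Λ.smul_mem _ ((gr _).2 ⟨y, rfl⟩)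
  have hsat := mat_sat p (Λ := (⊤ : Submodule ℤ_[p] (I → ℤ_[p]))) (n := 0) fun _ => trivial
  have i1 := AddSubgroup.relIndex_mul_index hle
  have i2 := AddSubgroup.relIndex_mul_index hle'
  rw [AddSubgroup.index_comap, mat_index_K] at i1
  rw [mat_index_K, hrange, AddSubgroup.index_pi, Finset.prod_const, h, Finset.card_univ,
    ← hrange, ← i1, ← pow_mul] at i2
  rw [mat_count p _ (mat_sat p hm), hS, mat_card_comap, mat_card_sat hle hsat, mul_assoc]
  congr 1
  refine mul_right_cancel₀ (pow_ne_zero (1 * Fintype.card I * Fintype.card I)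
    (Fact.out : p.Prime).ne_zero) ?_
  rw [mul_right_comm, i2, ← pow_add]
  congr 1
  ring

theorem cnt_matSet (A : ι → Matrix I I ℤ) : ∃ γ : ℕ, 0 < γ ∧ ∀ n : ℕ,
    cnt p (n + 1) (matSet p A n) * p ^ (n * Fintype.card I) =
      γ * p ^ (n * Fintype.card I * Fintype.card I) * subCount ℤ_[p] A (p ^ n) := by
  have hp : p ≠ 0 := (Fact.out : p.Prime).ne_zero
  have hfin : Finite ((I → I → ℤ_[p]) ⧸ matK p I 1) :=
    Nat.finite_of_card_ne_zero (by
      have := mat_index_K p (I := I) 1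
      rw [AddSubgroup.index] at this
      rw [this]
      exact pow_ne_zero _ hp)
  have hγ : 0 < Nat.card
      ((QuotientAddGroup.mk : _ → (I → I → ℤ_[p]) ⧸ matK p I 1) '' matS p ⊤) := by
    have : Nonempty ((QuotientAddGroup.mk : _ → (I → I → ℤ_[p]) ⧸ matK p I 1) '' matS p ⊤) :=
      ⟨⟨_, Pi.basisFun ℤ_[p] I, (Pi.basisFun ℤ_[p] I).span_eq, rfl⟩⟩
    exact Nat.card_pos
  refine ⟨_, hγ, fun n => ?_⟩
  let T := {Λ : Submodule ℤ_[p] (I → ℤ_[p]) // Inv ℤ_[p] A Λ ∧ Λ.toAddSubgroup.index = p ^ n}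
  let e : {a : I × I → Fin (p ^ (n + 1)) // (fun i => ((a i : ℕ) : ℚ_[p])) ∈ matSet p A n} ≃
      Σ t : T, {a : I × I → Fin (p ^ (n + 1)) // matRep p (n + 1) a ∈ matS p t.1} :=
    { toFun := fun a => ⟨⟨_, (mat_iff p A n (matRep p (n + 1) a.1)).1 a.2⟩, a.1, rfl⟩
      invFun := fun z => ⟨z.2.1, (mat_iff p A n (matRep p (n + 1) z.2.1)).2 (by
        rw [show Submodule.span ℤ_[p] (Set.range (matRep p (n + 1) z.2.1)) = z.1.1 from z.2.2]
        exact z.1.2)⟩
      left_inv := fun _ => rfl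
      right_inv := by
        rintro ⟨⟨Λ, hΛ⟩, a, ha⟩
        obtain rfl : Submodule.span ℤ_[p] (Set.range (matRep p (n + 1) a)) = Λ := ha
        rfl }
  have hne : ∀ t : T,
      Nonempty {a : I × I → Fin (p ^ (n + 1)) // matRep p (n + 1) a ∈ matS p t.1} := fun t => by
    have h1 := mat_fibre p t.2.2
    refine (Nat.card_ne_zero.1 fun h0 => ?_).1
    rw [h0, zero_mul] at h1
    exact mul_ne_zero hγ.ne' (pow_ne_zero _ hp) h1.symm
  have hT : Finite T := Finite.of_surjective (fun a => (e a).1) fun t => by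
    obtain ⟨a⟩ := hne t
    exact ⟨e.symm ⟨t, a⟩, by simp only [Equiv.apply_symm_apply]⟩
  have := Fintype.ofFinite T
  rw [cnt, Nat.card_congr e, Nat.card_sigma, Finset.sum_mul,
    Finset.sum_congr rfl fun t _ => mat_fibre p t.2.2, Finset.sum_const, Finset.card_univ,
    smul_eq_mul, mul_comm, subCount, ← Nat.card_eq_fintype_card (α := T)]

end Pool.Agent.P.MP_8598be_al.E
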