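import Pool.Agent.P.MP_8598be_al.E.PosFlag

namespace Pool.Agent.P.MP_8598be_al.E

open Module

variable {F : Type} [Field F] [Fintype F] {l : ℕ} {Γ κ : Type} [Fintype Γ] {V : Γ → Type}
  [∀ α, AddCommGroup (V α)] [∀ α, Module F (V α)] [∀ α, FiniteDimensional F (V α)]

lemma posdec_mem {D : Γ → ℕ} {r : ℕ} {n : Fin (r + 1) → Γ → ℕ} :
    n ∈ schedSet D r ↔ (∀ t α, n t α ≤ D α) ∧ Monotone n ∧ ∀ t, ∑ α, n t α = t := by
  classical
  unfold schedSet
  simp only [Finset.mem_filter, Fintype.mem_piFinset, Finset.mem_range, Nat.lt_succ_iff]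

theorem sched_mono {D : Γ → ℕ} {r : ℕ} {n : Fin (r + 1) → Γ → ℕ} (hn : n ∈ schedSet D r) :
    Monotone n ∧ n 0 = 0 := by
  obtain ⟨-, h1, h2⟩ := posdec_mem.1 hn
  refine ⟨h1, funext fun α => ?_⟩
  have h := h2 0
  rw [Fin.val_zero, Finset.sum_eq_zero_iff] at h
  exact h α (Finset.mem_univ _)

lemma posdec_surj {D : Γ → ℕ} {r : ℕ} {n : Fin (r + 1) → Γ → ℕ} (hn : n ∈ schedSet D r)
    (hr : ∑ α, D α = r) (α : Γ) (j : ℕ) (hj : j ≤ D α) : ∃ t, n t α = j := by
  classical
  have h0 := (sched_mono hn).2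
  obtain ⟨h1, h2, h3⟩ := posdec_mem.1 hn
  have hl : n (Fin.last r) α = D α := by
    have h := h3 (Fin.last r)
    rw [Fin.val_last] at h
    exact (Finset.sum_eq_sum_iff_of_le fun β _ => h1 (Fin.last _) β).1 (h.trans hr.symm) α
      (Finset.mem_univ _)
  have hs : ∀ t : Fin r, n t.succ α ≤ n t.castSucc α + 1 := fun t => by
    have e1 := h3 t.succ
    have e2 := h3 t.castSucc
    rw [← Finset.add_sum_erase _ _ (Finset.mem_univ α)] at e1 e2
    have e3 : ∑ β ∈ Finset.univ.erase α, n t.castSucc β ≤ ∑ β ∈ Finset.univ.erase α, n t.succ β :=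
      Finset.sum_le_sum fun β _ => h2 (Fin.castSucc_le_succ t) β
    rw [Fin.val_succ] at e1
    rw [Fin.val_castSucc] at e2
    omega
  have key : ∀ t : Fin (r + 1), ∀ j ≤ n t α, ∃ t', n t' α = j := by
    intro t
    induction t using Fin.induction with
    | zero =>
      intro j hj
      rw [h0] at hj
      exact ⟨0, by rw [h0]; exact (Nat.le_zero.1 hj).symm⟩
    | succ t ih =>
      intro j hj
      by_cases h : j ≤ n t.castSucc α
      · exact ih j h
      · exact ⟨t.succ, by have := hs t; omega⟩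
  exact key (Fin.last r) j (hl ▸ hj)

omit [Fintype F] in
lemma posdec_top {W : Type} [AddCommGroup W] [Module F W] [FiniteDimensional F W]
    {G : ℕ → Submodule F W} (h : IsFlag F G) {j : ℕ} (hj : finrank F W ≤ j) : G j = ⊤ :=
  Submodule.eq_top_of_finrank_eq (by rw [h.2 j, min_eq_right hj])

theorem repFlags_eq (a : κ → ∀ α β, V α →ₗ[F] V β) {r : ℕ} (hr : ∑ α, finrank F (V α) = r) :
    repFlags F a r = ∑ n ∈ schedSet (fun α => finrank F (V α)) r, Nat.card (Fam F a n) := by
  classical
  haveI : ∀ α, Finite (V α) := fun α => Module.finite_of_finite F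
  unfold repFlags
  set X := {J : Fin (r + 1) → ∀ α, Submodule F (V α) // Monotone J ∧ ∀ t,
    (∀ k α β, (J t α).map (a k α β) ≤ J t β) ∧ ∑ α, finrank F (J t α) = t} with hX
  haveI : Fintype X := Fintype.ofFinite X
  let φ : X → Fin (r + 1) → Γ → ℕ := fun J t α => finrank F (J.1 t α)
  have hφ : ∀ J, φ J ∈ schedSet (fun α => finrank F (V α)) r := fun J =>
    posdec_mem.2 ⟨fun t α => Submodule.finrank_le _,
      fun t t' h α => Submodule.finrank_mono (J.2.1 h α), fun t => (J.2.2 t).2⟩
  rw [Nat.card_eq_fintype_card, ← Finset.card_univ,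
    Finset.card_eq_sum_card_fiberwise (f := φ) fun J _ => Finset.mem_coe.2 (hφ J)]
  refine Finset.sum_congr rfl fun n hn => ?_
  rw [← Nat.subtype_card (p := fun J => φ J = n) _ (fun J => by simp)]
  obtain ⟨h1, h2, h3⟩ := posdec_mem.1 hn
  have hf : ∀ (G : Fam F a n) t α, finrank F (G.1 α (n t α)) = n t α := fun G t α => by
    rw [(G.2.1 α).2, min_eq_left (h1 t α)]
  let f : Fam F a n → {J : X // φ J = n} := fun G =>
    ⟨⟨fun t α => G.1 α (n t α), fun t t' h α => (G.2.1 α).1 (h2 h α), fun t =>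
      ⟨G.2.2 t, by simp only [hf G]; exact h3 t⟩⟩, funext fun t => funext fun α => hf G t α⟩
  refine (Nat.card_congr (Equiv.ofBijective f ⟨fun G G' h => ?_, fun J => ?_⟩)).symm
  · have h4 : ∀ t α, G.1 α (n t α) = G'.1 α (n t α) := fun t α =>
      congrFun (congrFun (congrArg (fun J => J.1.1) h) t) α
    refine Subtype.ext (funext fun α => funext fun j => ?_)
    rcases le_total j (finrank F (V α)) with hj | hj
    · obtain ⟨t, rfl⟩ := posdec_surj hn hr α j hj
      exact h4 t α
    · rw [posdec_top (G.2.1 α) hj, posdec_top (G'.2.1 α) hj]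
  · obtain ⟨⟨J, hJ1, hJ2⟩, hJ3⟩ := J
    have h4 : ∀ t α, finrank F (J t α) = n t α := fun t α => congrFun (congrFun hJ3 t) α
    have key : ∀ t t' α, n t α ≤ n t' α → J t α ≤ J t' α := fun t t' α h => by
      rcases le_total t t' with h5 | h5
      · exact hJ1 h5 α
      · exact (Submodule.eq_of_le_of_finrank_le (hJ1 h5 α) (by rw [h4, h4]; exact h)).ge
    choose τ hτ using fun α j => posdec_surj hn hr α (min j (finrank F (V α))) (min_le_right _ _)
    have h5 : ∀ t α, J (τ α (n t α)) α = J t α := fun t α => by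
      have h6 := hτ α (n t α)
      rw [min_eq_left (h1 t α)] at h6
      exact le_antisymm (key _ _ α h6.le) (key _ _ α h6.ge)
    refine ⟨⟨fun α j => J (τ α j) α, fun α => ⟨fun j j' h => key _ _ α ?_, fun j => ?_⟩,
      fun t k α β => ?_⟩, ?_⟩
    · rw [hτ, hτ]; exact min_le_min_right _ h
    · rw [h4, hτ]
    · beta_reduce
      rw [h5, h5]; exact (hJ2 t).1 k α β
    · exact Subtype.ext (Subtype.ext (funext fun t => funext fun α => h5 t α))

lemma posdec_sorted (D : Γ → ℕ) {r : ℕ} (hr : ∑ α, D α = r) (deg : Γ → ℕ) :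
    ∃ n ∈ schedSet D r, ∀ t α β, deg α < deg β → n t α = 0 ∨ n t β = D β := by
  classical
  have hc : Fintype.card (Σ α, Fin (D α)) = r := by simp [hr]
  let e0 : Fin r ≃ Σ α, Fin (D α) := (Fintype.equivFinOfCardEq hc).symm
  let g : Fin r → ℕᵒᵈ := fun i => OrderDual.toDual (deg (e0 i).1)
  let e : Fin r ≃ Σ α, Fin (D α) := (Tuple.sort g).trans e0
  have he : ∀ i j : Fin r, i ≤ j → deg (e j).1 ≤ deg (e i).1 := fun i j h =>
    Tuple.monotone_sort g h
  have hD : ∀ α, (Finset.univ.filter fun i => (e i).1 = α).card = D α := fun α => by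
    have : (Finset.univ.filter fun i => (e i).1 = α) =
        Finset.univ.image fun j : Fin (D α) => e.symm ⟨α, j⟩ := by
      ext i
      simp only [Finset.mem_filter, Finset.mem_univ, true_and, Finset.mem_image]
      constructor
      · rintro rfl
        exact ⟨(e i).2, e.symm_apply_apply i⟩
      · rintro ⟨j, rfl⟩
        rw [e.apply_symm_apply]
    rw [this, Finset.card_image_of_injective _ fun j j' h => by simpa using h]
    simp
  refine ⟨fun t α => ((Finset.univ.filter fun i : Fin r => (i : ℕ) < t).filter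
    fun i => (e i).1 = α).card, posdec_mem.2 ⟨fun t α => ?_, fun t t' h α => ?_, fun t => ?_⟩,
    fun t α β h => ?_⟩
  · rw [← hD α]
    exact Finset.card_le_card (Finset.filter_subset_filter _ (Finset.subset_univ _))
  · refine Finset.card_le_card (Finset.filter_subset_filter _ fun i hi => ?_)
    rw [Finset.mem_filter] at hi ⊢
    exact ⟨hi.1, hi.2.trans_le h⟩
  · have := Finset.card_eq_sum_card_fiberwise (f := fun i => (e i).1)
      (s := Finset.univ.filter fun i : Fin r => (i : ℕ) < t) (t := Finset.univ)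
      fun i _ => Finset.mem_coe.2 (Finset.mem_univ _)
    rw [Fin.card_filter_val_lt, min_eq_right (Nat.lt_succ_iff.1 t.2)] at this
    exact this.symm
  · rw [or_iff_not_imp_left]
    intro h0
    obtain ⟨i, hi⟩ := Finset.card_ne_zero.1 h0
    simp only [Finset.mem_filter, Finset.mem_univ, true_and] at hi
    refine Eq.trans (congrArg Finset.card ?_) (hD β)
    ext j
    simp only [Finset.mem_filter, Finset.mem_univ, true_and, and_iff_right_iff_imp]
    intro hj
    by_contra h1
    have h2 := he i j (by rw [Fin.le_def]; omega)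
    rw [hi.2, hj] at h2
    omega

theorem sorted_sched (hl : l ∣ Fintype.card F - 1) (a : κ → ∀ α β, V α →ₗ[F] V β) {r : ℕ}
    (hr : ∑ α, finrank F (V α) = r) (deg : Γ → ℕ) (hd : ∀ k α β, a k α β ≠ 0 → deg α < deg β) :
    ∃ n ∈ schedSet (fun α => finrank F (V α)) r,
      Nat.card (Fam F a n) ≡ ∏ α, (finrank F (V α)).factorial [MOD l] := by
  obtain ⟨n, hn, h⟩ := posdec_sorted (fun α => finrank F (V α)) hr deg
  refine ⟨n, hn, ?_⟩
  let E : Fam F a n ≃ ∀ α, {G : ℕ → Submodule F (V α) //
      IsFlag F G ∧ ∀ j, (fun _ => ⊥ : ℕ → Submodule F (V α)) j ≤ G j} :=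
    { toFun := fun G α => ⟨G.1 α, G.2.1 α, fun _ => bot_le⟩
      invFun := fun G => ⟨fun α => (G α).1, fun α => (G α).2.1, fun t k α β => by
        beta_reduce
        by_cases h0 : a k α β = 0
        · rw [h0, Submodule.map_zero]; exact bot_le
        rcases h t α β (hd k α β h0) with h1 | h1
        · have h2 : (G α).1 0 = ⊥ := Submodule.finrank_eq_zero.1 (by rw [(G α).2.1.2]; simp)
          rw [h1, h2, Submodule.map_bot]; exact bot_le
        · rw [posdec_top (G β).2.1 h1.ge]; exact le_top⟩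
      left_inv := fun G => rfl
      right_inv := fun G => rfl }
  rw [Nat.card_congr E, Nat.card_pi]
  refine Nat.ModEq.prod fun α _ => ?_
  have := flags_above hl (fun _ => ⊥ : ℕ → Submodule F (V α)) monotone_const
  simpa only [finrank_bot, Nat.sub_zero, Finset.prod_range_add_one_eq_factorial] using this

end Pool.Agent.P.MP_8598be_al.E
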