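import Pool.Agent.P.MP_8598be_al.E.Defs

/-!
Flags of subrepresentations, schedules and constraint systems.
-/

namespace Pool.Agent.P.MP_8598be_al.E

open Module

section Rep

variable (F : Type) [Field F]

/-- A complete flag of `W`, indexed by the natural numbers. -/
def IsFlag {W : Type} [AddCommGroup W] [Module F W] (G : ℕ → Submodule F W) : Prop :=
  Monotone G ∧ ∀ j, finrank F (G j) = min j (finrank F W)

variable {Γ κ : Type} {V : Γ → Type} [∀ α, AddCommGroup (V α)] [∀ α, Module F (V α)]

/-- The number of complete flags of subrepresentations. -/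
noncomputable def repFlags [Fintype Γ] (a : κ → ∀ α β, V α →ₗ[F] V β) (r : ℕ) : ℕ :=
  Nat.card {J : Fin (r + 1) → ∀ α, Submodule F (V α) // Monotone J ∧ ∀ t,
    (∀ k α β, (J t α).map (a k α β) ≤ J t β) ∧ ∑ α, finrank F (J t α) = t}

/-- Families of complete flags that give subrepresentations along the schedule `n`. -/
def Fam {T : Type} (a : κ → ∀ α β, V α →ₗ[F] V β) (n : T → Γ → ℕ) : Type :=
  {G : ∀ α, ℕ → Submodule F (V α) // (∀ α, IsFlag F (G α)) ∧
    ∀ t k α β, (G α (n t α)).map (a k α β) ≤ G β (n t β)}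

/-- The restriction of a representation to the vertices outside `s`. -/
def res (a : κ → ∀ α β, V α →ₗ[F] V β) (s : Γ → Prop) :
    κ → ∀ α β : {α // ¬ s α}, V α →ₗ[F] V β := fun k α β => a k α β

/-- The sum of the images at `β` of subspaces at the vertices outside `s`. -/
def img (a : κ → ∀ α β, V α →ₗ[F] V β) (s : Γ → Prop)
    (J : ∀ α : {α // ¬ s α}, Submodule F (V α)) (β : Γ) : Submodule F (V β) :=
  ⨆ e : κ × {α // ¬ s α}, (J e.2).map (a e.1 e.2 β)

/-- The flags of spaces of dimension at most two given by lines in the planes. -/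
noncomputable def flagOf (φ : ∀ α : {α // finrank F (V α) = 2}, V α ≃ₗ[F] (Fin 2 → F))
    (x : {α // finrank F (V α) = 2} → Projectivization F (Fin 2 → F)) (α : Γ) (j : ℕ) :
    Submodule F (V α) :=
  if j = 0 then ⊥ else if h : finrank F (V α) = 2 ∧ j = 1 then
    (x ⟨α, h.1⟩).submodule.comap (φ ⟨α, h.1⟩ : V α →ₗ[F] (Fin 2 → F)) else ⊤

variable {ι W : Type} [Fintype ι] {U : ι → Type} [∀ e, AddCommGroup (U e)] [∀ e, Module F (U e)]
  [AddCommGroup W] [Module F W]

/-- A relation among the images, supported on `st`, is zero if one component is zero. -/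
def InjAt (f : ∀ e, U e →ₗ[F] W) (st : ι → Prop) : Prop :=
  ∀ v : ∀ e, U e, (∀ e, ¬ st e → v e = 0) → ∑ e, f e (v e) = 0 → ∀ e, st e → v e = 0 → v = 0

/-- There is no relation among the images supported on `st`. -/
def InjAll (f : ∀ e, U e →ₗ[F] W) (st : ι → Prop) : Prop :=
  ∀ v : ∀ e, U e, (∀ e, ¬ st e → v e = 0) → ∑ e, f e (v e) = 0 → v = 0

/-- The blocks of a matrix with respect to a grading of the coordinates. -/
def blk {I : Type} [Fintype I] [DecidableEq Γ] (w : I → Γ) (B : Matrix I I ℤ) (α β : Γ) :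
    ({u // w u = α} → F) →ₗ[F] ({u // w u = β} → F) :=
  Matrix.mulVecLin (Matrix.of fun u' u => (B u'.1 u.1 : F))

end Rep

/-- The schedules of complete flags of subrepresentations for the dimension vector `D`. -/
noncomputable def schedSet {Γ : Type} [Fintype Γ] (D : Γ → ℕ) (r : ℕ) :
    Finset (Fin (r + 1) → Γ → ℕ) := by
  classical
  exact (Fintype.piFinset fun _ => Fintype.piFinset fun α => Finset.range (D α + 1)).filter
    fun n => Monotone n ∧ ∀ t, ∑ α, n t α = t

/-- The last time at which the schedule at `β` is at most `j`. -/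
noncomputable def lastT {Γ : Type} {r : ℕ} (n : Fin (r + 1) → Γ → ℕ) (β : Γ) (j : ℕ) : Fin (r + 1) :=
  (Finset.univ.filter fun t => n t β ≤ j).sup id

section Sys

variable (G : Type) [Group G] {Γ P : Type} [MulAction G P]

/-- The solution set of a system of constraints `x α = y` and `x β = g • x α`. -/
def Sys (S : Set (Γ → P)) : Prop :=
  ∃ (b : Prop) (L : Set (Γ × P)) (L' : Set (Γ × Γ × G)),
    S = {x | b ∧ (∀ e ∈ L, x e.1 = e.2) ∧ ∀ e ∈ L', x e.2.1 = e.2.2 • x e.1}

/-- A sum of at most `B` indicator functions of solution sets of systems. -/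
def Good (B : ℕ) (f : (Γ → P) → ℕ) : Prop :=
  ∃ L : List (Set (Γ → P)), L.length ≤ B ∧ (∀ S ∈ L, Sys G S) ∧
    ∀ x, f x = (L.map fun S => S.indicator 1 x).sum

end Sys

/-- The multidegree of a basis element, as an element of a finite type. -/
def wF (c : ℕ) {d : ℕ} (t : FreeMagma (Fin d)) : Fin d → Fin (c + 1) :=
  fun k => Fin.ofNat (c + 1) (wtT t k)

/-- The total degree of a multidegree. -/
def degF {c d : ℕ} (α : Fin d → Fin (c + 1)) : ℕ := ∑ k, (α k : ℕ)

/-- The multidegree `β` is `α` plus the `k`-th unit vector. -/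
def stepF {c d : ℕ} (k : Fin d) (α β : Fin d → Fin (c + 1)) : Prop :=
  ∀ j, (β j : ℕ) = α j + (Pi.single k 1 : Fin d → ℕ) j

end Pool.Agent.P.MP_8598be_al.E
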