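import Pool.Agent.P.MP_8598be_al.E.PosFlag

namespace Pool.Agent.P.MP_8598be_al.E

open Module

variable {F : Type} [Field F] [Fintype F] {l : ℕ} {Γ κ : Type} [Fintype Γ] {V : Γ → Type}
  [∀ α, AddCommGroup (V α)] [∀ α, Module F (V α)] [∀ α, FiniteDimensional F (V α)]

omit [Fintype Γ] in
theorem posfib_le_lastT {r : ℕ} {n : Fin (r + 1) → Γ → ℕ} {β : Γ} {j : ℕ} {t : Fin (r + 1)}
    (h : n t β ≤ j) : t ≤ lastT n β j :=
  Finset.le_sup (f := id) (Finset.mem_filter.2 ⟨Finset.mem_univ t, h⟩)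

omit [Fintype Γ] in
theorem posfib_lastT_le {r : ℕ} {n : Fin (r + 1) → Γ → ℕ} (h0 : n 0 = 0) (β : Γ) (j : ℕ) :
    n (lastT n β j) β ≤ j := by
  obtain ⟨t, ht, e⟩ := Finset.exists_mem_eq_sup (Finset.univ.filter fun t => n t β ≤ j)
    ⟨0, Finset.mem_filter.2 ⟨Finset.mem_univ _, by simp [h0]⟩⟩ id
  rw [lastT, e]
  exact (Finset.mem_filter.1 ht).2

theorem fam_sink (hl : l ∣ Fintype.card F - 1) (a : κ → ∀ α β, V α →ₗ[F] V β) (s : Γ → Prop)
    [DecidablePred s] (hs : ∀ k β γ, s β → a k β γ = 0) {r : ℕ} (n : Fin (r + 1) → Γ → ℕ)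
    (hn : Monotone n) (h0 : n 0 = 0) [Fintype (Fam F (res F a s) fun t α => n t α)] :
    Nat.card (Fam F a n) ≡ ∑ G : Fam F (res F a s) fun t α => n t α, ∏ β : {β // s β},
      ∏ j ∈ Finset.range (finrank F (V β)),
        (j + 1 - finrank F (img F a s (fun α => G.1 α (n (lastT n β j) α)) β)) [MOD l] := by
  let ρ : Fam F a n → Fam F (res F a s) fun t α => n t α := fun X =>
    ⟨fun α => X.1 α, fun α => X.2.1 α, fun t k α β => X.2.2 t k α β⟩
  have := finite_fam (F := F) a n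
  rw [Nat.card_congr (Equiv.sigmaFiberEquiv ρ).symm, Nat.card_sigma]
  refine Nat.ModEq.sum fun G _ => ?_
  have e : Nat.card {X // ρ X = G} = Nat.card (∀ β : {β // s β},
      {H : ℕ → Submodule F (V β) // IsFlag F H ∧
        ∀ j, img F a s (fun α => G.1 α (n (lastT n β j) α)) β ≤ H j}) := by
    refine Nat.card_eq_of_bijective (fun X β => ⟨X.1.1 β, X.1.2.1 β, fun j => ?_⟩) ⟨?_, ?_⟩
    · obtain ⟨X, rfl⟩ := X
      exact iSup_le fun e =>
        (X.2.2 (lastT n β j) e.1 e.2 β).trans ((X.2.1 β).1 (posfib_lastT_le h0 _ j))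
    · rintro ⟨X, hX⟩ ⟨Y, hY⟩ h
      refine Subtype.ext (Subtype.ext (funext fun α => ?_))
      by_cases hα : s α
      · exact congrArg Subtype.val (congrFun h ⟨α, hα⟩)
      · exact congrFun (congrArg Subtype.val (hX.trans hY.symm)) ⟨α, hα⟩
    · intro H
      obtain ⟨X, hp, hq⟩ : ∃ X : ∀ α, ℕ → Submodule F (V α),
          (∀ α (h : s α), X α = (H ⟨α, h⟩).1) ∧ ∀ α (h : ¬ s α), X α = G.1 ⟨α, h⟩ :=
        ⟨fun α => if h : s α then (H ⟨α, h⟩).1 else G.1 ⟨α, h⟩, fun _ h => dif_pos h,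
          fun _ h => dif_neg h⟩
      refine ⟨⟨⟨X, fun α => ?_, fun t k α β => ?_⟩, Subtype.ext (funext fun α => hq _ α.2)⟩,
        funext fun β => Subtype.ext (hp _ β.2)⟩
      · by_cases hα : s α
        · rw [hp α hα]; exact (H ⟨α, hα⟩).2.1
        · rw [hq α hα]; exact G.2.1 ⟨α, hα⟩
      · by_cases hα : s α
        · rw [hs k α β hα, Submodule.map_zero]; exact bot_le
        · rw [hq α hα]
          by_cases hβ : s β
          · rw [hp β hβ]
            refine le_trans ?_ ((H ⟨β, hβ⟩).2.2 (n t β))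
            exact le_iSup_of_le (k, ⟨α, hα⟩) (Submodule.map_mono
              ((G.2.1 ⟨α, hα⟩).1 (hn (posfib_le_lastT le_rfl) α)))
          · rw [hq β hβ]; exact G.2.2 t k ⟨α, hα⟩ ⟨β, hβ⟩
  rw [e, Nat.card_pi]
  refine Nat.ModEq.prod fun β _ => flags_above hl _ fun i j hij => ?_
  exact iSup_mono fun e => Submodule.map_mono ((G.2.1 e.2).1
    (hn (posfib_le_lastT ((posfib_lastT_le h0 _ i).trans hij)) _))

variable {ι ι' W : Type} [Fintype ι] [Fintype ι'] {U : ι → Type} [∀ e, AddCommGroup (U e)]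
  [∀ e, Module F (U e)] [AddCommGroup W] [Module F W]

omit [Fintype F] in
theorem posfib_ext (f : ∀ e, U e →ₗ[F] W) (st : ι → Prop) {g : ι' → ι}
    (hg : Function.Injective g) (w : ∀ e, U (g e)) (hw : ∀ e, ¬ st (g e) → w e = 0) :
    ∃ v : ∀ e, U e, (∀ e, v (g e) = w e) ∧ (∀ e, ¬ st e → v e = 0) ∧
      ∑ e, f e (v e) = ∑ e, f (g e) (w e) := by
  classical
  have h1 : ∀ e, (∑ e', Pi.single (g e') (w e') : ∀ e, U e) (g e) = w e := fun e => by
    rw [Finset.sum_apply, Finset.sum_eq_single e (fun e' _ h => Pi.single_eq_of_ne (hg.ne h).symm _)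
      (by simp), Pi.single_eq_same]
  refine ⟨∑ e', Pi.single (g e') (w e'), h1, fun e he => ?_, ?_⟩
  · rw [Finset.sum_apply]
    refine Finset.sum_eq_zero fun e' _ => ?_
    by_cases h : e = g e'
    · subst h; rw [Pi.single_eq_same, hw e' he]
    · exact Pi.single_eq_of_ne h _
  · simp only [Finset.sum_apply, map_sum]
    rw [Finset.sum_comm]
    refine Finset.sum_congr rfl fun e' _ => ?_
    rw [Finset.sum_eq_single (g e') (fun e _ h => by rw [Pi.single_eq_of_ne h, map_zero])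
      (by simp), Pi.single_eq_same]

omit [Fintype F] in
theorem InjAt.comp {f : ∀ e, U e →ₗ[F] W} {st : ι → Prop} (h : InjAt F f st) (g : ι' → ι)
    (hg : Function.Injective g) : InjAt F (fun e => f (g e)) fun e => st (g e) := by
  intro w hw hs e he h0
  obtain ⟨v, h1, h2, h3⟩ := posfib_ext f st hg w hw
  have := h v h2 (h3.trans hs) (g e) he ((h1 e).trans h0)
  exact funext fun e' => (h1 e').symm.trans (congrFun this _)

omit [Fintype F] in
theorem InjAll.comp {f : ∀ e, U e →ₗ[F] W} {st : ι → Prop} (h : InjAll F f st) (g : ι' → ι)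
    (hg : Function.Injective g) : InjAll F (fun e => f (g e)) fun e => st (g e) := by
  intro w hw hs
  obtain ⟨v, h1, h2, h3⟩ := posfib_ext f st hg w hw
  have := h v h2 (h3.trans hs)
  exact funext fun e' => (h1 e').symm.trans (congrFun this _)

omit [Fintype F] in
theorem InjAll.rank [∀ e, FiniteDimensional F (U e)] {f : ∀ e, U e →ₗ[F] W} {st : ι → Prop}
    [DecidablePred st] (h : InjAll F f st) (h0 : ∀ e, ¬ st e → f e = 0)
    (J : ∀ e, Submodule F (U e)) :
    finrank F (⨆ e, (J e).map (f e) :) = ∑ e with st e, finrank F (J e) := by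
  classical
  have h' := h.comp (Subtype.val : {e // st e} → ι) Subtype.val_injective
  let L : (∀ e : {e // st e}, J e) →ₗ[F] W :=
    ∑ e : {e // st e}, (f e ∘ₗ (J e).subtype) ∘ₗ LinearMap.proj e
  have hL : ∀ v, L v = ∑ e : {e // st e}, f e (v e) := fun v => by
    simp only [L, LinearMap.sum_apply]; rfl
  have inj : Function.Injective L := by
    refine (injective_iff_map_eq_zero L).2 fun v hv => funext fun e => Subtype.ext ?_
    exact congrFun (h' (fun e => (v e : U e)) (fun e he => absurd e.2 he) ((hL v).symm.trans hv)) e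
  have rg : LinearMap.range L = ⨆ e, (J e).map (f e) := by
    refine le_antisymm ?_ (iSup_le fun e => ?_)
    · rintro _ ⟨v, rfl⟩
      rw [hL]
      exact Submodule.sum_mem _ fun e _ =>
        Submodule.mem_iSup_of_mem e.1 (Submodule.mem_map_of_mem (v e).2)
    · by_cases he : st e
      · rintro _ ⟨x, hx, rfl⟩
        refine ⟨Pi.single ⟨e, he⟩ ⟨x, hx⟩, ?_⟩
        rw [hL, Finset.sum_eq_single ⟨e, he⟩
          (fun e' _ h => by rw [Pi.single_eq_of_ne h]; exact map_zero _) (by simp),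
          Pi.single_eq_same]
      · rw [h0 e he, Submodule.map_zero]; exact bot_le
  rw [← rg, LinearMap.finrank_range_of_inj inj, Module.finrank_pi_fintype,
    Finset.sum_subtype (p := st) _ (by simp) fun e => finrank F (J e)]

end Pool.Agent.P.MP_8598be_al.E
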