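import Pool.Agent.P.MP_8598be_al.E.PosDefs

namespace Pool.Agent.P.MP_8598be_al.E

open Module

variable {F : Type} [Field F] [Fintype F] {l : ℕ}

theorem posflag_finite_sub (W : Type) [AddCommGroup W] [Module F W] [FiniteDimensional F W] :
    Finite (Submodule F W) := by
  have : Finite W := Module.finite_of_finite F
  exact Finite.of_injective _ (SetLike.coe_injective (A := Submodule F W))

omit [Fintype F] in
theorem posflag_top {W : Type} [AddCommGroup W] [Module F W] [FiniteDimensional F W]
    {G : ℕ → Submodule F W} (hG : IsFlag F G) {j : ℕ} (hj : finrank F W ≤ j) : G j = ⊤ :=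
  Submodule.eq_top_of_finrank_eq (by rw [hG.2 j, min_eq_right hj])

theorem finite_flags (W : Type) [AddCommGroup W] [Module F W] [FiniteDimensional F W] :
    Finite {G : ℕ → Submodule F W // IsFlag F G} := by
  have := posflag_finite_sub (F := F) W
  refine Finite.of_injective (fun G => fun j : Fin (finrank F W) => G.1 j) fun G G' h => ?_
  refine Subtype.ext (funext fun j => ?_)
  by_cases hj : j < finrank F W
  · exact congrFun h ⟨j, hj⟩
  · rw [posflag_top G.2 (not_lt.1 hj), posflag_top G'.2 (not_lt.1 hj)]

theorem finite_fam {Γ κ T : Type} [Finite Γ] {V : Γ → Type} [∀ α, AddCommGroup (V α)]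
    [∀ α, Module F (V α)] [∀ α, FiniteDimensional F (V α)] (a : κ → ∀ α β, V α →ₗ[F] V β)
    (n : T → Γ → ℕ) : Finite (Fam F a n) := by
  have := fun α => finite_flags (F := F) (V α)
  refine Finite.of_injective (β := ∀ α, {G : ℕ → Submodule F (V α) // IsFlag F G})
    (fun G α => ⟨G.1 α, G.2.1 α⟩) fun G G' h => ?_
  exact Subtype.ext (funext fun α => congrArg Subtype.val (congrFun h α))

theorem posflag_hyper {W : Type} [AddCommGroup W] [Module F W] [FiniteDimensional F W]
    (U : Submodule F W) :
    Nat.card {H : Submodule F W // finrank F H + 1 = finrank F W ∧ U ≤ H} =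
      ∑ i ∈ Finset.range (finrank F W - finrank F U), Fintype.card F ^ i := by
  have h1 : finrank F U.dualAnnihilator = finrank F W - finrank F U := by
    have := Subspace.finrank_add_finrank_dualAnnihilator_eq U
    omega
  rw [← Nat.card_eq_fintype_card, ← Projectivization.card_of_finrank F U.dualAnnihilator h1,
    Nat.card_congr (Projectivization.equivSubmodule F U.dualAnnihilator)]
  refine Nat.card_congr
    { toFun := fun H => ⟨H.1.dualAnnihilator.comap U.dualAnnihilator.subtype, ?_⟩
      invFun := fun L => ⟨(L.1.map U.dualAnnihilator.subtype).dualCoannihilator, ?_, ?_⟩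
      left_inv := fun H => Subtype.ext ?_
      right_inv := fun L => Subtype.ext ?_ }
  · rw [(Submodule.comapSubtypeEquivOfLe (Submodule.dualAnnihilator_anti H.2.2)).finrank_eq]
    have h2 := Subspace.finrank_add_finrank_dualAnnihilator_eq H.1
    have h3 := H.2.1
    omega
  · have h2 := Subspace.finrank_add_finrank_dualCoannihilator_eq
      (L.1.map U.dualAnnihilator.subtype)
    rw [Submodule.finrank_map_subtype_eq, L.2] at h2
    omega
  · exact Submodule.le_dualAnnihilator_iff_le_dualCoannihilator.1 (Submodule.map_subtype_le _ _)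
  · show ((H.1.dualAnnihilator.comap U.dualAnnihilator.subtype).map
      U.dualAnnihilator.subtype).dualCoannihilator = H.1
    rw [Submodule.map_comap_subtype, inf_of_le_right (Submodule.dualAnnihilator_anti H.2.2),
      Subspace.dualAnnihilator_dualCoannihilator_eq]
  · show ((L.1.map U.dualAnnihilator.subtype).dualCoannihilator.dualAnnihilator).comap
      U.dualAnnihilator.subtype = L.1
    rw [Subspace.dualCoannihilator_dualAnnihilator_eq,
      Submodule.comap_map_eq_of_injective (Submodule.injective_subtype _)]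

theorem posflag_geom (hl : l ∣ Fintype.card F - 1) (m : ℕ) :
    ∑ i ∈ Finset.range m, Fintype.card F ^ i ≡ m [MOD l] := by
  have h1 : 1 ≡ Fintype.card F [MOD l] := (Nat.modEq_iff_dvd' Fintype.card_pos).2 hl
  induction m with
  | zero => simp [Nat.ModEq]
  | succ m ih =>
    rw [Finset.sum_range_succ]
    refine ih.add ?_
    simpa using (h1.pow m).symm

omit [Fintype F] in
theorem posflag_fibre {W : Type} [AddCommGroup W] [Module F W] [FiniteDimensional F W] {D : ℕ}
    (hD : finrank F W = D + 1) (U : ℕ → Submodule F W) (hU : Monotone U) (H : Submodule F W)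
    (hH : finrank F H = D) (hUH : U D ≤ H) :
    Nat.card {G : ℕ → Submodule F W // (IsFlag F G ∧ ∀ j, U j ≤ G j) ∧ G D = H} =
      Nat.card {G : ℕ → Submodule F H // IsFlag F G ∧ ∀ j, (U j).comap H.subtype ≤ G j} := by
  refine Nat.card_congr
    { toFun := fun G => ⟨fun j => (G.1 j).comap H.subtype,
        ⟨fun i j hij => Submodule.comap_mono (G.2.1.1.1 hij), fun j => ?_⟩,
        fun j => Submodule.comap_mono (G.2.1.2 j)⟩
      invFun := fun G => ⟨fun j => if j ≤ D then (G.1 j).map H.subtype else ⊤,
        ⟨⟨fun i j hij => ?_, fun j => ?_⟩, fun j => ?_⟩, ?_⟩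
      left_inv := fun G => Subtype.ext (funext fun j => ?_)
      right_inv := fun G => Subtype.ext (funext fun j => ?_) }
  · by_cases hj : j ≤ D
    · have h1 : G.1 j ≤ H := (G.2.1.1.1 hj).trans G.2.2.le
      rw [(Submodule.comapSubtypeEquivOfLe h1).finrank_eq, G.2.1.1.2 j, hD, hH]
      omega
    · have h1 : G.1 j = ⊤ := posflag_top G.2.1.1 (by omega)
      show finrank F ((G.1 j).comap H.subtype) = _
      rw [h1, Submodule.comap_top, finrank_top, hH]
      omega
  · show (if i ≤ D then (G.1 i).map H.subtype else ⊤) ≤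
      if j ≤ D then (G.1 j).map H.subtype else ⊤
    by_cases hj : j ≤ D
    · rw [if_pos hj, if_pos (hij.trans hj)]
      exact Submodule.map_mono (G.2.1.1 hij)
    · rw [if_neg hj]
      exact le_top
  · show finrank F (if j ≤ D then (G.1 j).map H.subtype else ⊤ : Submodule F W) = _
    by_cases hj : j ≤ D
    · rw [if_pos hj, Submodule.finrank_map_subtype_eq, G.2.1.2 j, hD, hH]
      omega
    · rw [if_neg hj, finrank_top, hD]
      omega
  · show U j ≤ if j ≤ D then (G.1 j).map H.subtype else ⊤
    by_cases hj : j ≤ D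
    · rw [if_pos hj]
      refine le_trans ?_ (Submodule.map_mono (G.2.2 j))
      rw [Submodule.map_comap_subtype]
      exact le_inf ((hU hj).trans hUH) le_rfl
    · rw [if_neg hj]
      exact le_top
  · show (if D ≤ D then (G.1 D).map H.subtype else ⊤) = H
    rw [if_pos le_rfl, posflag_top G.2.1 hH.le, Submodule.map_subtype_top]
  · show (if j ≤ D then ((G.1 j).comap H.subtype).map H.subtype else ⊤) = G.1 j
    by_cases hj : j ≤ D
    · have h1 : G.1 j ≤ H := (G.2.1.1.1 hj).trans G.2.2.le
      rw [if_pos hj, Submodule.map_comap_subtype, inf_of_le_right h1]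
    · rw [if_neg hj, posflag_top G.2.1.1 (by omega)]
  · show (if j ≤ D then (G.1 j).map H.subtype else ⊤).comap H.subtype = G.1 j
    by_cases hj : j ≤ D
    · rw [if_pos hj, Submodule.comap_map_eq_of_injective (Submodule.injective_subtype _)]
    · rw [if_neg hj, Submodule.comap_top, posflag_top G.2.1 (by omega)]

theorem posflag_aux (hl : l ∣ Fintype.card F - 1) (D : ℕ) :
    ∀ (W : Type) [AddCommGroup W] [Module F W] [FiniteDimensional F W], finrank F W = D →
      ∀ U : ℕ → Submodule F W, Monotone U →
        Nat.card {G : ℕ → Submodule F W // IsFlag F G ∧ ∀ j, U j ≤ G j} ≡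
          ∏ j ∈ Finset.range D, (j + 1 - finrank F (U j)) [MOD l] := by
  induction D with
  | zero =>
    intro W _ _ _ hD U _
    have h1 : Nat.card {G : ℕ → Submodule F W // IsFlag F G ∧ ∀ j, U j ≤ G j} = 1 := by
      rw [Nat.card_eq_one_iff_unique]
      refine ⟨⟨fun G G' => Subtype.ext (funext fun j => ?_)⟩,
        ⟨⟨fun _ => ⊤, ⟨monotone_const, fun j => ?_⟩, fun _ => le_top⟩⟩⟩
      · rw [posflag_top G.2.1 (by omega), posflag_top G'.2.1 (by omega)]
      · rw [finrank_top, hD]
        simp
    rw [h1]
    simp [Nat.ModEq]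
  | succ D ih =>
    intro W _ _ _ hD U hU
    classical
    have f1 := posflag_finite_sub (F := F) W
    have f2 := finite_flags (F := F) W
    have f3 : Finite {G : ℕ → Submodule F W // IsFlag F G ∧ ∀ j, U j ≤ G j} :=
      Finite.of_injective (β := {G : ℕ → Submodule F W // IsFlag F G}) (fun G => ⟨G.1, G.2.1⟩)
        fun G G' h => Subtype.ext (Subtype.mk.inj h)
    let p : {G : ℕ → Submodule F W // IsFlag F G ∧ ∀ j, U j ≤ G j} →
        {H : Submodule F W // finrank F H + 1 = finrank F W ∧ U D ≤ H} :=
      fun G => ⟨G.1 D, by rw [G.2.1.2 D, hD]; omega, G.2.2 D⟩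
    have := Fintype.ofFinite {H : Submodule F W // finrank F H + 1 = finrank F W ∧ U D ≤ H}
    rw [← Nat.card_congr (Equiv.sigmaFiberEquiv p), Nat.card_sigma]
    have h1 : ∀ H : {H : Submodule F W // finrank F H + 1 = finrank F W ∧ U D ≤ H},
        Nat.card {G // p G = H} ≡ ∏ j ∈ Finset.range D, (j + 1 - finrank F (U j)) [MOD l] := by
      intro H
      have hH : finrank F H.1 = D := by have := H.2.1; omega
      have e : {G // p G = H} ≃
          {G : ℕ → Submodule F W // (IsFlag F G ∧ ∀ j, U j ≤ G j) ∧ G D = H.1} :=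
        { toFun := fun G => ⟨G.1.1, G.1.2, congrArg Subtype.val G.2⟩
          invFun := fun G => ⟨⟨G.1, G.2.1⟩, Subtype.ext G.2.2⟩
          left_inv := fun _ => rfl
          right_inv := fun _ => rfl }
      rw [Nat.card_congr e, posflag_fibre hD U hU H.1 hH H.2.2]
      have h2 := ih H.1 hH (fun j => (U j).comap H.1.subtype)
        fun i j hij => Submodule.comap_mono (hU hij)
      have h3 : ∏ j ∈ Finset.range D, (j + 1 - finrank F ((U j).comap H.1.subtype)) =
          ∏ j ∈ Finset.range D, (j + 1 - finrank F (U j)) := by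
        refine Finset.prod_congr rfl fun j hj => ?_
        rw [(Submodule.comapSubtypeEquivOfLe
          ((hU (Finset.mem_range.1 hj).le).trans H.2.2)).finrank_eq]
      rw [← h3]
      exact h2
    refine (Nat.ModEq.sum fun H _ => h1 H).trans ?_
    rw [Finset.sum_const, Finset.card_univ, smul_eq_mul, ← Nat.card_eq_fintype_card,
      posflag_hyper, Finset.prod_range_succ, mul_comm, hD]
    exact (posflag_geom hl _).mul_left _

theorem flags_above (hl : l ∣ Fintype.card F - 1) {W : Type} [AddCommGroup W] [Module F W]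
    [FiniteDimensional F W] (U : ℕ → Submodule F W) (hU : Monotone U) :
    Nat.card {G : ℕ → Submodule F W // IsFlag F G ∧ ∀ j, U j ≤ G j} ≡
      ∏ j ∈ Finset.range (finrank F W), (j + 1 - finrank F (U j)) [MOD l] :=
  posflag_aux hl _ W rfl U hU

end Pool.Agent.P.MP_8598be_al.E
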