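import Pool.Agent.P.MP_8598be_al.E.LazB
import Pool.Agent.P.MP_8598be_al.E.Model
import Pool.Agent.P.MP_8598be_al.E.PosDefs

namespace Pool.Agent.P.MP_8598be_al.E

open Module

variable {I : Type} [Fintype I] [DecidableEq I] {c d : ℕ} {τ : I → FreeMagma (Fin d)}
  {A : Fin c ⊕ Fin d → Matrix I I ℤ}

omit [Fintype I] [DecidableEq I] in
theorem wF_val (h : IsBasis c d τ) (u : I) (k : Fin d) : (wF c (τ u) k : ℕ) = wtT (τ u) k := by
  have h1 : wtT (τ u) k ≤ ∑ j, wtT (τ u) j :=
    Finset.single_le_sum (fun _ _ => Nat.zero_le _) (Finset.mem_univ k)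
  rw [sum_wtT] at h1
  have h2 := h.1 u
  exact Nat.mod_eq_of_lt (by omega)

omit [Fintype I] [DecidableEq I] in
theorem poslie_deg (h : IsBasis c d τ) (u : I) : degF (wF c (τ u)) = (τ u).length := by
  rw [← sum_wtT, degF]
  exact Finset.sum_congr rfl fun k _ => wF_val h u k

theorem poslie_step {k : Fin d} {α β : Fin d → Fin (c + 1)} (hs : stepF k α β) :
    degF β = degF α + 1 := by
  rw [degF, degF, Finset.sum_congr rfl fun j _ => hs j]
  simp [Finset.sum_add_distrib]

theorem blk_step (h : IsBasis c d τ) (hA : IsModel c d τ A) (F : Type) [Field F] (k : Fin d)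
    (α β : Fin d → Fin (c + 1)) (hs : ¬ stepF k α β) :
    blk F (fun u => wF c (τ u)) (A (.inr k)) α β = 0 := by
  have h1 : (Matrix.of fun (u' : {u // wF c (τ u) = β}) (u : {u // wF c (τ u) = α}) =>
      (A (.inr k) u'.1 u.1 : F)) = 0 := by
    ext ⟨w, hw⟩ ⟨u, hu⟩
    by_contra h2
    have h3 : A (.inr k) w u ≠ 0 := fun h4 => h2 (by simp [h4])
    refine hs fun j => ?_
    rw [← hw, ← hu, wF_val h, wF_val h, hA.2.1 k w u h3, Pi.add_apply]
  rw [blk, h1, Matrix.mulVecLin_zero]

theorem blk_top (h : IsBasis c d τ) (hA : IsModel c d τ A) (F : Type) [Field F] (k : Fin d)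
    (α β : Fin d → Fin (c + 1)) (hs : c ≤ degF α) :
    blk F (fun u => wF c (τ u)) (A (.inr k)) α β = 0 := by
  have h1 : (Matrix.of fun (u' : {u // wF c (τ u) = β}) (u : {u // wF c (τ u) = α}) =>
      (A (.inr k) u'.1 u.1 : F)) = 0 := by
    ext ⟨w, hw⟩ ⟨u, hu⟩
    by_contra h2
    have h3 : A (.inr k) w u ≠ 0 := fun h4 => h2 (by simp [h4])
    have h4 := model_len hA h3
    have h5 := h.1 w
    rw [← hu, poslie_deg h] at hs
    omega
  rw [blk, h1, Matrix.mulVecLin_zero]

theorem poslie_rel (h : IsBasis c d τ) (hA : IsModel c d τ A) (F : Type) [Field F]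
    (β : Fin d → Fin (c + 1)) (hβ : degF β ≤ c)
    (v : ∀ e : Fin d × (Fin d → Fin (c + 1)), {u // wF c (τ u) = e.2} → F)
    (h1 : ∀ e, ¬ stepF e.1 e.2 β → v e = 0)
    (h2 : ∑ e, blk F (fun u => wF c (τ u)) (A (.inr e.1)) e.2 β (v e) = 0) :
    ∑ k, ∑ u, v (k, wF c (τ u)) ⟨u, rfl⟩ • ⁅lieT F (τ u), FreeLieAlgebra.of F k⁆ = 0 := by
  have hV : ∀ k u, v (k, wF c (τ u)) ⟨u, rfl⟩ ≠ 0 → stepF k (wF c (τ u)) β := by
    intro k u hu
    by_contra h3
    exact hu (congrFun (h1 (k, wF c (τ u)) h3) _)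
  have h3 : ∀ w, ∑ k, ∑ u, v (k, wF c (τ u)) ⟨u, rfl⟩ * (A (.inr k) w u : F) = 0 := by
    intro w
    by_cases hw : wF c (τ w) = β
    · have h4 := congrFun h2 ⟨w, hw⟩
      rw [Finset.sum_apply, Fintype.sum_prod_type] at h4
      refine Eq.trans (Finset.sum_congr rfl fun k _ => ?_) h4
      rw [← Fintype.sum_fiberwise fun u => wF c (τ u)]
      refine Finset.sum_congr rfl fun α _ => ?_
      simp only [blk, Matrix.mulVecLin_apply, Matrix.mulVec, dotProduct, Matrix.of_apply]
      refine Finset.sum_congr rfl ?_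
      rintro ⟨u, rfl⟩ -
      exact mul_comm _ _
    · refine Finset.sum_eq_zero fun k _ => Finset.sum_eq_zero fun u _ => ?_
      by_contra h4
      have h5 := hV k u (left_ne_zero_of_mul h4)
      have h6 : A (.inr k) w u ≠ 0 := fun h7 => h4 (by simp [h7])
      refine hw (funext fun j => Fin.ext ?_)
      rw [h5 j, wF_val h, wF_val h, hA.2.1 k w u h6, Pi.add_apply]
  have h4 : ∀ k u, v (k, wF c (τ u)) ⟨u, rfl⟩ • ⁅lieT F (τ u), FreeLieAlgebra.of F k⁆ =
      ∑ w, (v (k, wF c (τ u)) ⟨u, rfl⟩ * (A (.inr k) w u : F)) • lieT F (τ w) := by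
    intro k u
    by_cases hu : v (k, wF c (τ u)) ⟨u, rfl⟩ = 0
    · simp [hu]
    · have h5 := poslie_step (hV k u hu)
      rw [poslie_deg h] at h5
      rw [hA.2.2 F k u (by omega), Finset.smul_sum]
      exact Finset.sum_congr rfl fun w _ => smul_smul _ _ _
  simp only [h4]
  rw [Finset.sum_congr rfl fun k _ => Finset.sum_comm, Finset.sum_comm]
  refine Finset.sum_eq_zero fun w _ => ?_
  simp only [← Finset.sum_smul, h3 w, zero_smul]

section Words

variable (F : Type) [Field F]

/-- The coefficient of a word. -/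
noncomputable def poslieCo (w : List (Fin d)) : FreeAlgebra F (Fin d) →ₗ[F] F :=
  (FreeAlgebra.basisFreeMonoid F (Fin d)).coord (FreeMonoid.ofList w)

variable {F}

theorem poslie_co_word (w w' : List (Fin d)) :
    poslieCo F w (w'.map (FreeAlgebra.ι F)).prod = if w' = w then 1 else 0 := by
  classical
  rw [← lazb_word, poslieCo, Basis.coord_apply, Basis.repr_self, Finsupp.single_apply]
  simp

theorem poslie_ext {f g : FreeAlgebra F (Fin d) →ₗ[F] F}
    (h : ∀ w : List (Fin d), f (w.map (FreeAlgebra.ι F)).prod = g (w.map (FreeAlgebra.ι F)).prod) :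
    f = g := by
  refine (FreeAlgebra.basisFreeMonoid F (Fin d)).ext fun w => ?_
  have := h w.toList
  rwa [← lazb_word] at this

theorem poslie_right (a : FreeAlgebra F (Fin d)) (k k' : Fin d) (w : List (Fin d)) :
    poslieCo F (w ++ [k']) (a * FreeAlgebra.ι F k) = if k = k' then poslieCo F w a else 0 := by
  have h : poslieCo F (w ++ [k']) ∘ₗ LinearMap.mulRight F (FreeAlgebra.ι F k) =
      if k = k' then poslieCo F w else 0 := by
    refine poslie_ext fun w' => ?_
    have e : (w'.map (FreeAlgebra.ι F)).prod * FreeAlgebra.ι F k =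
        ((w' ++ [k]).map (FreeAlgebra.ι F)).prod := by simp
    rw [LinearMap.comp_apply, LinearMap.mulRight_apply, e, poslie_co_word]
    by_cases hk : k = k'
    · rw [if_pos hk, poslie_co_word, hk]
      simp
    · rw [if_neg hk, if_neg fun h => hk (by simpa using (List.append_inj' h rfl).2)]
      rfl
  have h2 := LinearMap.congr_fun h a
  rw [LinearMap.comp_apply, LinearMap.mulRight_apply] at h2
  rw [h2]
  split_ifs <;> rfl

theorem poslie_left (a : FreeAlgebra F (Fin d)) (k k' : Fin d) (w : List (Fin d)) :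
    poslieCo F (k' :: w) (FreeAlgebra.ι F k * a) = if k = k' then poslieCo F w a else 0 := by
  have h : poslieCo F (k' :: w) ∘ₗ LinearMap.mulLeft F (FreeAlgebra.ι F k) =
      if k = k' then poslieCo F w else 0 := by
    refine poslie_ext fun w' => ?_
    have e : FreeAlgebra.ι F k * (w'.map (FreeAlgebra.ι F)).prod =
        ((k :: w').map (FreeAlgebra.ι F)).prod := by simp
    rw [LinearMap.comp_apply, LinearMap.mulLeft_apply, e, poslie_co_word]
    by_cases hk : k = k'
    · rw [if_pos hk, poslie_co_word, hk]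
      simp
    · rw [if_neg hk, if_neg fun h => hk (List.cons.inj h).1]
      rfl
  have h2 := LinearMap.congr_fun h a
  rw [LinearMap.comp_apply, LinearMap.mulLeft_apply] at h2
  rw [h2]
  split_ifs <;> rfl

/-- The substitution which kills one generator. -/
noncomputable def poslieKill (F : Type) [Field F] (l : Fin d) :
    FreeAlgebra F (Fin d) →ₐ[F] FreeAlgebra F (Fin d) :=
  FreeAlgebra.lift F fun j => if j = l then 0 else FreeAlgebra.ι F j

theorem poslie_kill_asc (l : Fin d) (t : FreeMagma (Fin d)) (ht : wtT t l ≠ 0) :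
    poslieKill F l (ascT F t) = 0 := by
  induction t using FreeMagma.rec with
  | of k =>
    have hk : k = l := by
      by_contra h
      exact ht (Pi.single_eq_of_ne (Ne.symm h) _)
    rw [ascT, poslieKill, FreeAlgebra.lift_ι_apply, if_pos hk]
  | mul a b ha hb =>
    rw [ascT, map_sub, map_mul, map_mul]
    by_cases h : wtT a l = 0
    · have h2 : wtT b l ≠ 0 := fun h3 => ht (by rw [wtT, Pi.add_apply, h, h3])
      rw [hb h2]
      simp
    · rw [ha h]
      simp

theorem poslie_kill_word (l : Fin d) (w : List (Fin d)) :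
    poslieKill F l (w.map (FreeAlgebra.ι F)).prod =
      if l ∈ w then 0 else (w.map (FreeAlgebra.ι F)).prod := by
  induction w with
  | nil => simp
  | cons k w ih =>
    rw [List.map_cons, List.prod_cons, map_mul, ih, poslieKill, FreeAlgebra.lift_ι_apply]
    by_cases hk : k = l
    · simp [hk]
    · by_cases hw : l ∈ w
      · simp [hw]
      · simp [hk, hw, Ne.symm hk]

theorem poslie_kill_co (l : Fin d) (w : List (Fin d)) (hw : l ∉ w) (a : FreeAlgebra F (Fin d)) :
    poslieCo F w (poslieKill F l a) = poslieCo F w a := by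
  have h : poslieCo F w ∘ₗ (poslieKill F l).toLinearMap = poslieCo F w := by
    refine poslie_ext fun w' => ?_
    rw [LinearMap.comp_apply, AlgHom.toLinearMap_apply, poslie_kill_word]
    split_ifs with h
    · rw [map_zero, poslie_co_word, if_neg fun h' : w' = w => hw (h' ▸ h)]
    · rfl
  exact LinearMap.congr_fun h a

theorem poslie_cyc (M : Fin d → FreeAlgebra F (Fin d)) (l : Fin d) (hl : M l = 0)
    (h1 : ∀ k, poslieKill F l (M k) = 0)
    (h2 : ∑ k, (M k * FreeAlgebra.ι F k - FreeAlgebra.ι F k * M k) = 0) (k : Fin d) :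
    M k = 0 := by
  rw [Finset.sum_sub_distrib, sub_eq_zero] at h2
  obtain ⟨P, hP⟩ : ∃ P, P = ∑ k, M k * FreeAlgebra.ι F k := ⟨_, rfl⟩
  have e1 : ∀ k w, poslieCo F (w ++ [k]) P = poslieCo F w (M k) := by
    intro k w
    rw [hP, map_sum]
    simp [poslie_right]
  have e2 : ∀ k w, poslieCo F (k :: w) P = poslieCo F w (M k) := by
    intro k w
    rw [hP, h2, map_sum]
    simp [poslie_left]
  have e3 : ∀ u w, poslieCo F (u ++ l :: w) P = 0 := by
    intro u
    induction u with
    | nil => intro w; rw [List.nil_append, e2, hl, map_zero]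
    | cons j u ih =>
      intro w
      rw [List.cons_append, e2, ← e1, List.append_assoc, List.cons_append, ih]
  refine (FreeAlgebra.basisFreeMonoid F (Fin d)).forall_coord_eq_zero_iff.1 fun w => ?_
  change poslieCo F w.toList (M k) = 0
  by_cases hw : l ∈ w.toList
  · obtain ⟨u, w', e⟩ := List.append_of_mem hw
    rw [← e2, e, ← List.cons_append, e3]
  · rw [← poslie_kill_co l _ hw, h1, map_zero]

end Words

attribute [local instance 100] LieRing.ofAssociativeRing in
theorem poslie_psi (R : Type) [CommRing R] :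
    ∃ ψ : FreeLieAlgebra R (Fin d) →ₗ[R] FreeAlgebra R (Fin d), ∀ t k,
      ψ ⁅lieT R t, FreeLieAlgebra.of R k⁆ =
        ascT R t * FreeAlgebra.ι R k - FreeAlgebra.ι R k * ascT R t := by
  obtain ⟨ψ, hψ⟩ := model_psi (d := d) R
  exact ⟨ψ, fun t k => hψ (.mul t (.of k))⟩

theorem blk_injAt (h : IsBasis c d τ) (hA : IsModel c d τ A) (F : Type) [Field F]
    (β : Fin d → Fin (c + 1)) (hβ : degF β ≤ c) :
    InjAt F (fun e : Fin d × (Fin d → Fin (c + 1)) =>
      blk F (fun u => wF c (τ u)) (A (.inr e.1)) e.2 β) fun e => stepF e.1 e.2 β := by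
  rintro v h1 h2 ⟨l, α⟩ hs h0
  have h3 := poslie_rel h hA F β hβ v h1 h2
  have hV : ∀ k u, v (k, wF c (τ u)) ⟨u, rfl⟩ ≠ 0 → stepF k (wF c (τ u)) β := by
    intro k u hu
    by_contra h3
    exact hu (congrFun (h1 (k, wF c (τ u)) h3) _)
  have hl : ∀ u, v (l, wF c (τ u)) ⟨u, rfl⟩ = 0 := by
    intro u
    by_contra hu
    have h4 : wF c (τ u) = α := funext fun j => Fin.ext (by
      have a1 := hV l u hu j
      have a2 := hs j
      simp only at a2
      omega)
    subst h4
    exact hu (congrFun h0 _)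
  obtain ⟨ψ, hψ⟩ := poslie_psi (d := d) F
  have h4 := congrArg ψ h3
  simp only [map_sum, map_smul, hψ, map_zero] at h4
  have h5 := poslie_cyc (fun k => ∑ u, v (k, wF c (τ u)) ⟨u, rfl⟩ • ascT F (τ u)) l
    (by simp [hl]) (fun k => ?_) (by
      rw [← h4]
      refine Finset.sum_congr rfl fun k _ => ?_
      simp only [Finset.sum_mul, Finset.mul_sum, smul_mul_assoc, mul_smul_comm, smul_sub,
        Finset.sum_sub_distrib])
  · funext ⟨k, γ⟩ ⟨u, hu⟩
    simp only at hu
    subst hu
    exact Fintype.linearIndependent_iff.1 (h.2 F).2 _ (h5 k) u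
  · rw [map_sum]
    refine Finset.sum_eq_zero fun u _ => ?_
    by_cases hu : v (k, wF c (τ u)) ⟨u, rfl⟩ = 0
    · rw [hu, zero_smul, map_zero]
    · have hk : k ≠ l := fun e => hu (e ▸ hl u)
      have a1 := hV k u hu l
      have a2 := hs l
      rw [Pi.single_eq_of_ne hk.symm, wF_val h] at a1
      simp only [Pi.single_eq_same] at a2
      rw [map_smul, poslie_kill_asc l _ (by omega), smul_zero]

omit [DecidableEq I] in
theorem poslie_rank (h : IsBasis c d τ) (F : Type) [Field F] {i : ℕ} (hi : i < c) :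
    finrank F (piece F d i) = Fintype.card {u // (τ u).length = i + 1} := by
  have h1 : LinearIndependent F fun u : {u // (τ u).length = i + 1} => lieT F (τ u.1) :=
    (model_indep h F).comp _ Subtype.val_injective
  rw [(h.2 F).1 i hi, ← finrank_span_eq_card h1, Set.image_eq_range]
  rfl

theorem poslie_rk (F : Type) [Field F] (c d : ℕ) :
    ∑ i ∈ Finset.range c, finrank F (piece F d i) = rk c d := by
  obtain ⟨τ, h⟩ := exists_basis c d
  have h1 := Finset.card_eq_sum_card_fiberwise (s := Finset.univ) (t := Finset.range c)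
    (f := fun u => (τ u).length - 1) (fun u _ => by
      have a1 := h.1 u
      have a2 := FreeMagma.length_pos (τ u)
      exact Finset.mem_coe.2 (Finset.mem_range.2 (by simp only; omega)))
  rw [Finset.card_univ, Fintype.card_fin] at h1
  rw [h1]
  refine Finset.sum_congr rfl fun i hi => ?_
  rw [poslie_rank h F (Finset.mem_range.1 hi), Fintype.card_subtype]
  congr 1
  refine Finset.filter_congr fun u _ => ?_
  have a2 := FreeMagma.length_pos (τ u)
  omega

theorem poslie_vals : rk 6 2 = rk 5 2 + 9 ∧ rk 7 2 = rk 6 2 + 18 := by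
  have e6 : Nat.divisors 6 = {1, 2, 3, 6} := rfl
  have e7 : Nat.divisors 7 = {1, 7} := rfl
  have m6 : ArithmeticFunction.moebius 6 = 1 := by
    rw [show 6 = 2 * 3 from rfl,
      ArithmeticFunction.isMultiplicative_moebius.map_mul_of_coprime (by norm_num),
      ArithmeticFunction.moebius_apply_prime Nat.prime_two,
      ArithmeticFunction.moebius_apply_prime Nat.prime_three]
    rfl
  constructor
  · rw [rk, rk, Finset.sum_Icc_succ_top (by norm_num)]
    simp [e6, m6, ArithmeticFunction.moebius_apply_prime Nat.prime_two,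
      ArithmeticFunction.moebius_apply_prime Nat.prime_three]
  · rw [rk, rk, Finset.sum_Icc_succ_top (by norm_num)]
    simp [e7, ArithmeticFunction.moebius_apply_prime Nat.prime_seven]

theorem blk_injAll {τ : I → FreeMagma (Fin 2)} {A : Fin 7 ⊕ Fin 2 → Matrix I I ℤ}
    (h : IsBasis 7 2 τ) (hA : IsModel 7 2 τ A) (F : Type) [Field F]
    (β : Fin 2 → Fin (7 + 1)) (hβ : degF β = 7) :
    InjAll F (fun e : Fin 2 × (Fin 2 → Fin (7 + 1)) =>
      blk F (fun u => wF 7 (τ u)) (A (.inr e.1)) e.2 β) fun e => stepF e.1 e.2 β := by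
  intro v h1 h2
  have h3 := poslie_rel h hA F β hβ.le v h1 h2
  have hV : ∀ k u, v (k, wF 7 (τ u)) ⟨u, rfl⟩ ≠ 0 → (τ u).length = 5 + 1 := by
    intro k u hu
    have h4 : stepF k (wF 7 (τ u)) β := by
      by_contra h3
      exact hu (congrFun (h1 (k, wF 7 (τ u)) h3) _)
    have h5 := poslie_step h4
    rw [poslie_deg h] at h5
    omega
  have r5 := poslie_rk F 5 2
  have r6 := poslie_rk F 6 2
  have r7 := poslie_rk F 7 2
  rw [Finset.sum_range_succ] at r6 r7
  rw [Finset.sum_range_succ] at r7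
  obtain ⟨a1, a2⟩ := poslie_vals
  have c5 := poslie_rank h F (i := 5) (by norm_num)
  have hli : LinearIndependent F fun p : Fin 2 × {u // (τ u).length = 5 + 1} =>
      ⁅lieT F (τ p.2.1), FreeLieAlgebra.of F p.1⁆ := by
    rw [linearIndependent_iff_card_le_finrank_span, Fintype.card_prod, Fintype.card_fin, ← c5]
    have hle : piece F 2 6 ≤ Submodule.span F (Set.range
        fun p : Fin 2 × {u // (τ u).length = 5 + 1} =>
          ⁅lieT F (τ p.2.1), FreeLieAlgebra.of F p.1⁆) := by
      refine Submodule.span_le.2 ?_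
      rintro _ ⟨x, hx, y, hy, rfl⟩
      rw [(h.2 F).1 5 (by norm_num)] at hx
      refine laza_lie_right ?_ hy
      rintro _ ⟨k, rfl⟩
      refine laza_lie_left ?_ hx
      rintro _ ⟨u, hu, rfl⟩
      exact Submodule.subset_span ⟨(k, ⟨u, hu⟩), rfl⟩
    have := FiniteDimensional.span_of_finite F (Set.finite_range
      fun p : Fin 2 × {u // (τ u).length = 5 + 1} => ⁅lieT F (τ p.2.1), FreeLieAlgebra.of F p.1⁆)
    have h4 := Submodule.finrank_mono hle
    rw [Set.finrank]
    omega
  have h4 := Fintype.linearIndependent_iff.1 hli (fun p => v (p.1, wF 7 (τ p.2.1)) ⟨p.2.1, rfl⟩) (by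
    rw [← h3, Fintype.sum_prod_type]
    refine Finset.sum_congr rfl fun k _ => ?_
    rw [← Finset.sum_filter_of_ne (p := fun u => (τ u).length = 5 + 1)
      fun u _ hu => hV k u (left_ne_zero_of_smul hu)]
    exact (Finset.sum_subtype _ (by simp) fun u =>
      v (k, wF 7 (τ u)) ⟨u, rfl⟩ • ⁅lieT F (τ u), FreeLieAlgebra.of F k⁆).symm)
  funext ⟨k, γ⟩ ⟨u, hu⟩
  simp only at hu
  subst hu
  by_contra h5
  exact h5 (h4 (k, ⟨u, hV k u h5⟩))

end Pool.Agent.P.MP_8598be_al.E
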