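import Pool.Agent.P.MP_8598be_al.E.PosSys

namespace Pool.Agent.P.MP_8598be_al.E

open Module

variable {F : Type} [Field F] {Γ κ T : Type} {V : Γ → Type}
  [∀ α, AddCommGroup (V α)] [∀ α, Module F (V α)] [∀ α, FiniteDimensional F (V α)]

omit [∀ α, FiniteDimensional F (V α)] in
theorem poslow_line (φ : ∀ α : {α // finrank F (V α) = 2}, V α ≃ₗ[F] (Fin 2 → F))
    (x : {α // finrank F (V α) = 2} → Projectivization F (Fin 2 → F)) {α : Γ} {j : ℕ}
    (h : finrank F (V α) = 2 ∧ j = 1) : flagOf F φ x α j =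
      (x ⟨α, h.1⟩).submodule.comap (φ ⟨α, h.1⟩ : V α →ₗ[F] (Fin 2 → F)) := by
  rw [flagOf, if_neg (by omega), dif_pos h]

omit [∀ α, FiniteDimensional F (V α)] in
theorem poslow_const (φ : ∀ α : {α // finrank F (V α) = 2}, V α ≃ₗ[F] (Fin 2 → F))
    (x : {α // finrank F (V α) = 2} → Projectivization F (Fin 2 → F)) {α : Γ} {j : ℕ}
    (h : ¬ (finrank F (V α) = 2 ∧ j = 1)) : flagOf F φ x α j = if j = 0 then ⊥ else ⊤ := by
  rw [flagOf, dif_neg h]

omit [∀ α, FiniteDimensional F (V α)] in
theorem poslow_flag (h2 : ∀ α, finrank F (V α) ≤ 2)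
    (φ : ∀ α : {α // finrank F (V α) = 2}, V α ≃ₗ[F] (Fin 2 → F))
    (x : {α // finrank F (V α) = 2} → Projectivization F (Fin 2 → F)) (α : Γ) :
    IsFlag F (flagOf F φ x α) := by
  refine ⟨fun i j hij => ?_, fun j => ?_⟩
  · rcases hij.eq_or_lt with rfl | hlt
    · exact le_rfl
    · by_cases hi : i = 0
      · rw [poslow_const φ x (j := i) (by omega), if_pos hi]
        exact bot_le
      · rw [poslow_const φ x (j := j) (by omega), if_neg (by omega)]
        exact le_top
  · by_cases h : finrank F (V α) = 2 ∧ j = 1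
    · rw [poslow_line φ x h, Submodule.comap_equiv_eq_map_symm, LinearEquiv.finrank_map_eq,
        Projectivization.finrank_submodule]
      omega
    · rw [poslow_const φ x h]
      have := h2 α
      by_cases hj : j = 0
      · rw [if_pos hj, finrank_bot]
        omega
      · rw [if_neg hj, finrank_top]
        omega

omit [∀ α, FiniteDimensional F (V α)] in
theorem poslow_inj (φ : ∀ α : {α // finrank F (V α) = 2}, V α ≃ₗ[F] (Fin 2 → F)) :
    Function.Injective (flagOf F φ) := fun x y h => funext fun α => by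
  have h1 := congrFun (congrFun h α) 1
  rw [poslow_line φ x ⟨α.2, rfl⟩, poslow_line φ y ⟨α.2, rfl⟩] at h1
  exact Projectivization.submodule_injective
    (Submodule.comap_injective_of_surjective (φ α).surjective h1)

theorem poslow_surj (h2 : ∀ α, finrank F (V α) ≤ 2)
    (φ : ∀ α : {α // finrank F (V α) = 2}, V α ≃ₗ[F] (Fin 2 → F))
    {G : ∀ α, ℕ → Submodule F (V α)} (hG : ∀ α, IsFlag F (G α)) : ∃ x, flagOf F φ x = G := by
  refine ⟨fun α => Projectivization.mk'' ((G α 1).map (φ α : V α →ₗ[F] (Fin 2 → F))) ?_,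
    funext fun α => funext fun j => ?_⟩
  · rw [LinearEquiv.finrank_map_eq, (hG α).2, α.2]
    rfl
  · by_cases h : finrank F (V α) = 2 ∧ j = 1
    · rw [poslow_line φ _ h, Projectivization.submodule_mk'',
        Submodule.comap_map_eq_of_injective (φ ⟨α, h.1⟩).injective]
      exact congrArg (G α) h.2.symm
    · rw [poslow_const φ _ h]
      have h3 := h2 α
      have h4 := (hG α).2 j
      split_ifs with hj
      · exact (Submodule.finrank_eq_zero.1 (by omega)).symm
      · exact (Submodule.eq_top_of_finrank_eq (by omega)).symm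

theorem poslow_sys (φ : ∀ α : {α // finrank F (V α) = 2}, V α ≃ₗ[F] (Fin 2 → F)) {β : Γ}
    {C : Submodule F (V β)} (hC : finrank F C ≤ 1) (j : ℕ) :
    Sys ((Fin 2 → F) ≃ₗ[F] (Fin 2 → F)) {x | C ≤ flagOf F φ x β j} := by
  by_cases h : finrank F (V β) = 2 ∧ j = 1
  · simp only [poslow_line φ _ h]
    by_cases hb : C = ⊥
    · simp only [hb, bot_le]
      exact Sys.const True
    · obtain ⟨c, hc, hc0⟩ := (Submodule.ne_bot_iff C).1 hb
      have hc1 : φ ⟨β, h.1⟩ c ≠ 0 := by simpa using hc0
      have hC' : Submodule.span F {c} = C :=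
        Submodule.eq_of_le_of_finrank_le ((Submodule.span_singleton_le_iff_mem _ _).2 hc)
          (by rwa [finrank_span_singleton hc0])
      convert Sys.pin (G := (Fin 2 → F) ≃ₗ[F] (Fin 2 → F)) (⟨β, h.1⟩ : {α // finrank F (V α) = 2})
        (Projectivization.mk F _ hc1) using 3 with x
      rw [← hC', Submodule.span_singleton_le_iff_mem, Submodule.mem_comap]
      constructor
      · intro hx
        refine Projectivization.submodule_injective (Submodule.eq_of_le_of_finrank_eq ?_ ?_).symm
        · rw [Projectivization.submodule_mk, Submodule.span_singleton_le_iff_mem]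
          exact hx
        · rw [Projectivization.finrank_submodule, Projectivization.finrank_submodule]
      · intro hx
        rw [hx, Projectivization.submodule_mk]
        exact Submodule.mem_span_singleton_self _
  · simp only [poslow_const φ _ h]
    exact Sys.const _

theorem low_sum (h2 : ∀ α, finrank F (V α) ≤ 2)
    (φ : ∀ α : {α // finrank F (V α) = 2}, V α ≃ₗ[F] (Fin 2 → F))
    (a : κ → ∀ α β, V α →ₗ[F] V β) (h1 : ∀ k α β, a k α β ≠ 0 → finrank F (V α) ≤ 1)
    (n : T → Γ → ℕ) [Fintype (Fam F a n)]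
    [Fintype ({α // finrank F (V α) = 2} → Projectivization F (Fin 2 → F))] :
    ∃ S, Sys ((Fin 2 → F) ≃ₗ[F] (Fin 2 → F)) S ∧ ∀ f : (∀ α, ℕ → Submodule F (V α)) → ℕ,
      ∑ G : Fam F a n, f G.1 = ∑ x, S.indicator 1 x * f (flagOf F φ x) := by
  classical
  refine ⟨{x | ∀ t k α β, (flagOf F φ x α (n t α)).map (a k α β) ≤ flagOf F φ x β (n t β)},
    Sys.all fun t => Sys.all fun k => Sys.all fun α => Sys.all fun β => ?_, fun f => ?_⟩
  · by_cases ha : a k α β = 0
    · simp only [ha, Submodule.map_zero, bot_le]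
      exact Sys.const True
    · have h3 := h1 k α β ha
      have h4 : ¬ (finrank F (V α) = 2 ∧ n t α = 1) := by omega
      simp only [poslow_const φ _ h4]
      exact poslow_sys φ ((Submodule.finrank_map_le _ _).trans
        ((Submodule.finrank_le _).trans h3)) _
  · simp only [Set.indicator_apply, Pi.one_apply, ite_mul, one_mul, zero_mul]
    rw [← Finset.sum_filter]
    symm
    refine Finset.sum_bij (fun x hx => (⟨flagOf F φ x, poslow_flag h2 φ x,
      (Finset.mem_filter.1 hx).2⟩ : Fam F a n)) (fun _ _ => Finset.mem_univ _)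
      (fun x _ y _ h => poslow_inj φ (congrArg Subtype.val h)) (fun G _ => ?_) fun _ _ => rfl
    obtain ⟨x, hx⟩ := poslow_surj h2 φ G.2.1
    refine ⟨x, Finset.mem_filter.2 ⟨Finset.mem_univ _, ?_⟩, Subtype.ext hx⟩
    change ∀ t k α β, _ ≤ _
    rw [hx]
    exact G.2.2

end Pool.Agent.P.MP_8598be_al.E
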