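import Pool.Agent.P.MP_8598be_al.E.Model

namespace Pool.Agent.P.MP_8598be_al.E

open Module

variable {I : Type} [Fintype I] {c d : ℕ} {τ : I → FreeMagma (Fin d)}

/-- Left-normed Lie monomials, the outermost letter first. -/
noncomputable def posmultW : List (Fin d) → FreeLieAlgebra ℚ (Fin d)
  | [] => 0
  | [k] => FreeLieAlgebra.of ℚ k
  | j :: k :: w => ⁅posmultW (k :: w), FreeLieAlgebra.of ℚ j⁆

/-- The span of the left-normed monomials of a given multidegree. -/
noncomputable def posmultS (α : Fin d → ℕ) : Submodule ℚ (FreeLieAlgebra ℚ (Fin d)) :=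
  Submodule.span ℚ (posmultW '' {w | ∀ k, w.count k = α k})

theorem posmult_gen {α : Fin d → ℕ} {y : FreeLieAlgebra ℚ (Fin d)} (hy : y ∈ posmultS α)
    (j : Fin d) : ⁅y, FreeLieAlgebra.of ℚ j⁆ ∈ posmultS (α + Pi.single j 1) := by
  induction hy using Submodule.span_induction with
  | mem y hy =>
    obtain ⟨w, hw, rfl⟩ := hy
    rcases w with _ | ⟨k, w⟩
    · simp [posmultW]
    · refine Submodule.subset_span ⟨j :: k :: w, fun l => ?_, rfl⟩
      rw [List.count_cons, hw l, Pi.add_apply, Pi.single_apply]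
      by_cases h : l = j
      · simp [h]
      · have h' : ¬ j = l := fun e => h e.symm
        simp [h, h']
  | zero => simp
  | add y z _ _ hy hz => rw [add_lie]; exact add_mem hy hz
  | smul a y _ hy => rw [smul_lie]; exact Submodule.smul_mem _ _ hy

theorem posmult_lie (t : FreeMagma (Fin d)) : ∀ (α : Fin d → ℕ) (y : FreeLieAlgebra ℚ (Fin d)),
    y ∈ posmultS α → ⁅y, lieT ℚ t⁆ ∈ posmultS (α + wtT t) := by
  induction t using FreeMagma.rec with
  | of k => exact fun α y hy => posmult_gen hy k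
  | mul a b ha hb =>
    intro α y hy
    have h1 := hb _ _ (ha _ _ hy)
    have h2 := ha _ _ (hb _ _ hy)
    have e : ⁅y, lieT ℚ (FreeMagma.mul a b)⁆ =
        ⁅⁅y, lieT ℚ a⁆, lieT ℚ b⁆ - ⁅⁅y, lieT ℚ b⁆, lieT ℚ a⁆ := by
      show ⁅y, ⁅lieT ℚ a, lieT ℚ b⁆⁆ = _
      rw [leibniz_lie, sub_eq_add_neg, lie_skew]
    have e1 : α + wtT (FreeMagma.mul a b) = α + wtT a + wtT b := by
      show α + (wtT a + wtT b) = _
      rw [add_assoc]
    have e2 : α + wtT b + wtT a = α + wtT a + wtT b := add_right_comm _ _ _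
    rw [e, e1]
    rw [e2] at h2
    exact sub_mem h1 h2

theorem posmult_mem (t : FreeMagma (Fin d)) : lieT ℚ t ∈ posmultS (wtT t) := by
  induction t using FreeMagma.rec with
  | of k =>
    refine Submodule.subset_span ⟨[k], fun l => ?_, rfl⟩
    show _ = (Pi.single k 1 : Fin d → ℕ) l
    rw [Pi.single_apply, List.count_singleton]
    by_cases h : l = k
    · simp [h]
    · have h' : ¬ k = l := fun e => h e.symm
      simp [h, h']
  | mul a b ha _ => exact posmult_lie b _ _ ha

theorem posmult_le (h : IsBasis c d τ) (α : Fin d → ℕ) (T : Finset (FreeLieAlgebra ℚ (Fin d)))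
    (hT : ∀ w : List (Fin d), (∀ k, w.count k = α k) →
      posmultW w ∈ Submodule.span ℚ (T : Set (FreeLieAlgebra ℚ (Fin d)))) :
    Nat.card {u // wtT (τ u) = α} ≤ T.card := by
  classical
  have h1 : LinearIndependent ℚ fun u : {u // wtT (τ u) = α} => lieT ℚ (τ u) :=
    (model_indep h ℚ).comp _ Subtype.val_injective
  have h2 : posmultS α ≤ Submodule.span ℚ (T : Set (FreeLieAlgebra ℚ (Fin d))) := by
    refine Submodule.span_le.2 ?_
    rintro _ ⟨w, hw, rfl⟩
    exact hT w hw
  have h3 := linearIndependent_le_span_aux' _ h1 (T : Set (FreeLieAlgebra ℚ (Fin d))) (by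
    rintro _ ⟨u, rfl⟩
    refine h2 ?_
    have h4 := posmult_mem (τ u)
    rw [u.2] at h4
    exact h4)
  simpa [Nat.card_eq_fintype_card] using h3

theorem posmult_one (h : IsBasis c d τ) (α : Fin d → ℕ) (a : FreeLieAlgebra ℚ (Fin d))
    (hT : ∀ w : List (Fin d), (∀ k, w.count k = α k) → posmultW w ∈ Submodule.span ℚ {a}) :
    Nat.card {u // wtT (τ u) = α} ≤ 1 := by
  have h1 := posmult_le h α {a} (by simpa using hT)
  simpa using h1

theorem posmult_two (h : IsBasis c d τ) (α : Fin d → ℕ) (a b : FreeLieAlgebra ℚ (Fin d))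
    (hT : ∀ w : List (Fin d), (∀ k, w.count k = α k) → posmultW w ∈ Submodule.span ℚ {a, b}) :
    Nat.card {u // wtT (τ u) = α} ≤ 2 := by
  classical
  exact (posmult_le h α {a, b} (by simpa using hT)).trans Finset.card_le_two

theorem posmult_len {α : Fin d → ℕ} {w : List (Fin d)} (hw : ∀ k, w.count k = α k) :
    w.length = ∑ k, α k := by
  rw [← Finset.sum_congr rfl fun k _ => hw k]
  have h1 := Multiset.sum_count_eq_card (s := Finset.univ) (m := (w : Multiset (Fin d)))
    fun a _ => Finset.mem_univ a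
  simpa using h1.symm

theorem posmult_perm {α : Fin d → ℕ} {w v : List (Fin d)} (hw : ∀ k, w.count k = α k)
    (hv : ∀ k, v.count k = α k) : w ∈ v.permutations' :=
  List.mem_permutations'.2 (List.perm_iff_count.2 fun k => by rw [hw, hv])

theorem mult_two (h : IsBasis c d τ) (α : Fin d → ℕ) (hα : ∑ k, α k ≤ 2) :
    Nat.card {u // wtT (τ u) = α} ≤ 1 := by
  by_cases hv : ∃ v : List (Fin d), ∀ k, v.count k = α k
  swap
  · exact posmult_one h α 0 fun w hw => absurd ⟨w, hw⟩ hv
  obtain ⟨v, hv⟩ := hv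
  refine posmult_one h α (posmultW v) fun w hw => ?_
  have h1 := posmult_perm hw hv
  have h2 := posmult_len hv
  have h3 := Submodule.mem_span_singleton_self (R := ℚ) (posmultW v)
  rcases v with _ | ⟨i, _ | ⟨j, _ | ⟨k, v⟩⟩⟩
  · simp at h1
    rw [h1]
    exact h3
  · simp at h1
    rw [h1]
    exact h3
  · simp at h1
    rcases h1 with rfl | rfl
    · exact h3
    · have e : posmultW [j, i] = -posmultW [i, j] := by
        simp only [posmultW]
        rw [lie_skew]
      rw [e]
      exact neg_mem h3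
  · simp at h2
    omega

theorem posmult_swap (i j k : Fin d) : posmultW [i, k, j] = -posmultW [i, j, k] := by
  simp only [posmultW]
  rw [← neg_lie, lie_skew]

theorem posmult_jac (i j k : Fin d) :
    posmultW [k, i, j] = -posmultW [i, j, k] - posmultW [j, k, i] := by
  simp only [posmultW]
  have h1 := lie_jacobi (FreeLieAlgebra.of ℚ i) (FreeLieAlgebra.of ℚ k) (FreeLieAlgebra.of ℚ j)
  rw [← lie_skew (FreeLieAlgebra.of ℚ i) ⁅_, _⁆, ← lie_skew (FreeLieAlgebra.of ℚ k) ⁅_, _⁆,
    ← lie_skew (FreeLieAlgebra.of ℚ j) ⁅_, _⁆] at h1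
  linear_combination (norm := abel) -h1

theorem mult_three (h : IsBasis c d τ) (α : Fin d → ℕ) (hα : ∑ k, α k ≤ 3) :
    Nat.card {u // wtT (τ u) = α} ≤ 2 := by
  by_cases h0 : ∑ k, α k ≤ 2
  · exact (mult_two h α h0).trans one_le_two
  by_cases hv : ∃ v : List (Fin d), ∀ k, v.count k = α k
  swap
  · exact posmult_two h α 0 0 fun w hw => absurd ⟨w, hw⟩ hv
  obtain ⟨v, hv⟩ := hv
  obtain ⟨i, j, k, rfl⟩ := List.length_eq_three.1 (show v.length = 3 by
    rw [posmult_len hv]; omega)
  refine posmult_two h α (posmultW [i, j, k]) (posmultW [j, k, i]) fun w hw => ?_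
  have h1 := posmult_perm hw hv
  have ha : posmultW [i, j, k] ∈ Submodule.span ℚ {posmultW [i, j, k], posmultW [j, k, i]} :=
    Submodule.subset_span (by simp)
  have hb : posmultW [j, k, i] ∈ Submodule.span ℚ {posmultW [i, j, k], posmultW [j, k, i]} :=
    Submodule.subset_span (by simp)
  have hc : posmultW [k, i, j] ∈ Submodule.span ℚ {posmultW [i, j, k], posmultW [j, k, i]} := by
    rw [posmult_jac i j k]
    exact sub_mem (neg_mem ha) hb
  simp [List.permutations', List.permutations'Aux] at h1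
  rcases h1 with rfl | rfl | rfl | rfl | rfl | rfl
  · exact ha
  · rw [posmult_swap j k i]; exact neg_mem hb
  · exact hb
  · rw [posmult_swap i j k]; exact neg_mem ha
  · exact hc
  · rw [posmult_swap k i j]; exact neg_mem hc

/-- The standard monomial in two letters. -/
noncomputable def posmultG (α : Fin 2 → ℕ) : FreeLieAlgebra ℚ (Fin 2) :=
  posmultW (List.replicate (α 0 - 1) 0 ++ List.replicate (α 1 - 1) 1 ++ [1, 0])

theorem posmult_mid : posmultW ([1, 0, 1, 0] : List (Fin 2)) = posmultW [0, 1, 1, 0] := by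
  simp only [posmultW]
  have h1 := leibniz_lie ⁅FreeLieAlgebra.of ℚ (0 : Fin 2), FreeLieAlgebra.of ℚ (1 : Fin 2)⁆
    (FreeLieAlgebra.of ℚ (0 : Fin 2)) (FreeLieAlgebra.of ℚ (1 : Fin 2))
  rw [lie_self, ← lie_skew (FreeLieAlgebra.of ℚ (0 : Fin 2)) ⁅⁅_, _⁆, _⁆] at h1
  linear_combination (norm := abel) -h1

theorem posmult_self (v : List (Fin d)) (k : Fin d) : posmultW (v ++ [k, k]) = 0 := by
  induction v with
  | nil => simp [posmultW]
  | cons j v ih =>
    rcases v with _ | ⟨l, v⟩
    · simp [posmultW]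
    · show ⁅posmultW (l :: v ++ [k, k]), _⁆ = 0
      rw [ih, zero_lie]

theorem posmult_skew (v : List (Fin d)) (j k : Fin d) :
    posmultW (v ++ [j, k]) = -posmultW (v ++ [k, j]) := by
  induction v with
  | nil => simp [posmultW]
  | cons i v ih =>
    rcases v with _ | ⟨l, v⟩
    · exact posmult_swap i k j
    · show ⁅posmultW (l :: v ++ [j, k]), _⁆ = -⁅posmultW (l :: v ++ [k, j]), _⁆
      rw [ih, neg_lie]

theorem posmult_std (v : List (Fin 2)) (hv : v.length ≤ 2) :
    posmultW (v ++ [1, 0]) = posmultG fun k => v.count k + 1 := by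
  rcases v with _ | ⟨i, _ | ⟨j, _ | ⟨k, v⟩⟩⟩
  · rfl
  · fin_cases i <;> rfl
  · fin_cases i <;> fin_cases j
    · rfl
    · rfl
    · exact posmult_mid
    · rfl
  · simp at hv

theorem posmult_small (α : Fin 2 → ℕ) (w : List (Fin 2)) (hw : ∀ k, w.count k = α k)
    (h2 : 2 ≤ w.length) (h4 : w.length ≤ 4) : posmultW w ∈ Submodule.span ℚ {posmultG α} := by
  obtain ⟨v, j, k, rfl⟩ : ∃ v j k, w = v ++ [j, k] := by
    rcases w with _ | ⟨a, _ | ⟨b, _ | ⟨e, _ | ⟨f, _ | ⟨g, w⟩⟩⟩⟩⟩
    · simp at h2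
    · simp at h2
    · exact ⟨[], a, b, rfl⟩
    · exact ⟨[a], b, e, rfl⟩
    · exact ⟨[a, b], e, f, rfl⟩
    · simp only [List.length_cons] at h4
      omega
  have hv : v.length ≤ 2 := by simpa using h4
  have h1 := posmult_std v hv
  have h3 := Submodule.mem_span_singleton_self (R := ℚ) (posmultG α)
  fin_cases j <;> fin_cases k
  · rw [posmult_self]; exact zero_mem _
  · have e : (fun k => v.count k + 1) = α := by
      funext l
      rw [← hw l]
      fin_cases l <;> simp
    rw [posmult_skew]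
    refine neg_mem ?_
    rw [e] at h1
    exact h1 ▸ h3
  · have e : (fun k => v.count k + 1) = α := by
      funext l
      rw [← hw l]
      fin_cases l <;> simp
    rw [e] at h1
    exact h1 ▸ h3
  · rw [posmult_self]; exact zero_mem _

theorem mult_four {τ : I → FreeMagma (Fin 2)} (h : IsBasis c 2 τ) (α : Fin 2 → ℕ)
    (hα : ∑ k, α k ≤ 4) : Nat.card {u // wtT (τ u) = α} ≤ 1 := by
  by_cases h0 : ∑ k, α k ≤ 2
  · exact mult_two h α h0
  refine posmult_one h α (posmultG α) fun w hw => ?_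
  have h1 := posmult_len hw
  exact posmult_small α w hw (by omega) (by omega)

theorem mult_five {τ : I → FreeMagma (Fin 2)} (h : IsBasis c 2 τ) (α : Fin 2 → ℕ)
    (hα : ∑ k, α k ≤ 5) : Nat.card {u // wtT (τ u) = α} ≤ 2 := by
  by_cases h0 : ∑ k, α k ≤ 4
  · exact (mult_four h α h0).trans one_le_two
  refine posmult_two h α ⁅posmultG (α - Pi.single 0 1), FreeLieAlgebra.of ℚ 0⁆
    ⁅posmultG (α - Pi.single 1 1), FreeLieAlgebra.of ℚ 1⁆ fun w hw => ?_
  have h1 : w.length = 5 := by
    rw [posmult_len hw]; omega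
  rcases w with _ | ⟨j, _ | ⟨k, w⟩⟩
  · simp at h1
  · simp at h1
  have h2 : posmultW (k :: w) ∈ Submodule.span ℚ {posmultG (α - Pi.single j 1)} := by
    refine posmult_small _ _ (fun l => ?_) (by simp at h1 ⊢; omega) (by simp at h1 ⊢; omega)
    rw [Pi.sub_apply, ← hw l, List.count_cons (b := j), Pi.single_apply]
    by_cases e : l = j
    · simp [e]
    · have e' : ¬ j = l := fun e'' => e e''.symm
      simp [e, e']
  obtain ⟨a, ha⟩ := Submodule.mem_span_singleton.1 h2
  show ⁅posmultW (k :: w), _⁆ ∈ _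
  rw [← ha, smul_lie]
  refine Submodule.smul_mem _ _ (Submodule.subset_span ?_)
  fin_cases j <;> simp

end Pool.Agent.P.MP_8598be_al.E
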