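import Pool.Agent.P.MP_8598be_al.E.PosSys

namespace Pool.Agent.P.MP_8598be_al.E

open Module

section Aux

variable {F : Type} [Field F] {ι W : Type} [Fintype ι] {U : ι → Type} [∀ e, AddCommGroup (U e)]
  [∀ e, Module F (U e)] [AddCommGroup W] [Module F W]

/-- The sum of the maps `f e`. -/
def posrankSum (f : ∀ e, U e →ₗ[F] W) : (∀ e, U e) →ₗ[F] W := ∑ e, (f e).comp (LinearMap.proj e)

lemma posrank_sum_apply (f : ∀ e, U e →ₗ[F] W) (v : ∀ e, U e) :
    posrankSum f v = ∑ e, f e (v e) := by
  simp [posrankSum]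

lemma posrank_nullity [∀ e, FiniteDimensional F (U e)] (f : ∀ e, U e →ₗ[F] W)
    (J : ∀ e, Submodule F (U e)) :
    finrank F (⨆ e, (J e).map (f e) :) +
      finrank F (Submodule.pi Set.univ J ⊓ LinearMap.ker (posrankSum f) :) =
      ∑ e, finrank F (J e) := by
  classical
  set A := Submodule.pi Set.univ J with hA
  have h1 := LinearMap.finrank_range_add_finrank_ker ((posrankSum f).domRestrict A)
  have h2 : LinearMap.range ((posrankSum f).domRestrict A) = ⨆ e, (J e).map (f e) := by
    rw [LinearMap.range_domRestrict, hA, ← Submodule.iSup_map_single, Submodule.map_iSup]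
    refine iSup_congr fun e => ?_
    rw [← Submodule.map_comp]
    congr 1
    ext v
    rw [LinearMap.comp_apply, posrank_sum_apply, Finset.sum_eq_single e]
    · simp
    · intro e' _ he
      simp [Pi.single_eq_of_ne he]
    · simp
  have h3 : finrank F (LinearMap.ker ((posrankSum f).domRestrict A)) =
      finrank F (A ⊓ LinearMap.ker (posrankSum f) :) := by
    rw [LinearMap.ker_domRestrict, ← Submodule.map_comap_subtype,
      Submodule.finrank_map_subtype_eq]
  let e : A ≃ₗ[F] ∀ e, J e :=
    { toFun := fun v e => ⟨v.1 e, v.2 e trivial⟩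
      invFun := fun v => ⟨fun e => v e, fun e _ => (v e).2⟩
      map_add' := fun _ _ => rfl
      map_smul' := fun _ _ => rfl
      left_inv := fun _ => rfl
      right_inv := fun _ => rfl }
  rw [h2, h3, e.finrank_eq, finrank_pi_fintype] at h1
  exact h1

lemma posrank_mem {M : Type} [AddCommGroup M] [Module F M] (y : Projectivization F M) {w : M}
    (hw : w ≠ 0) : w ∈ y.submodule ↔ y = Projectivization.mk F w hw := by
  induction y using Projectivization.ind with | h u hu =>
  rw [Projectivization.submodule_mk, Submodule.mem_span_singleton, eq_comm,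
    Projectivization.mk_eq_mk_iff']

lemma posrank_sys {K A Γ' : Type} [AddCommGroup K] [Module F K] [FiniteDimensional F K]
    (s : A → Γ') (π : A → K →ₗ[F] (Fin 2 → F)) (hπ : ∀ a, Function.Injective (π a)) (a0 : A) :
    Sys ((Fin 2 → F) ≃ₗ[F] (Fin 2 → F)) {x : Γ' → Projectivization F (Fin 2 → F) |
      ∃ v : K, v ≠ 0 ∧ ∀ a, π a v ∈ (x (s a)).submodule} := by
  have hne : ∀ a (v : K), v ≠ 0 → π a v ≠ 0 := fun a v hv h =>
    hv (hπ a (h.trans (map_zero _).symm))
  have hle : finrank F K ≤ 2 := by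
    simpa using LinearMap.finrank_le_finrank_of_injective (hπ a0)
  obtain h | h | h : finrank F K = 0 ∨ finrank F K = 1 ∨ finrank F K = 2 := by omega
  · have : Subsingleton K := Module.finrank_zero_iff.1 h
    convert Sys.const (G := (Fin 2 → F) ≃ₗ[F] (Fin 2 → F)) (Γ := Γ')
      (P := Projectivization F (Fin 2 → F)) False using 3
    simp only [iff_false, not_exists, not_and]
    exact fun v hv => absurd (Subsingleton.elim v 0) hv
  · obtain ⟨v0, h0, hv0⟩ := finrank_eq_one_iff'.1 h
    convert Sys.all (G := (Fin 2 → F) ≃ₗ[F] (Fin 2 → F)) fun a =>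
      Sys.pin (s a) (Projectivization.mk F (π a v0) (hne a v0 h0)) using 3 with x
    constructor
    · rintro ⟨v, hv, h1⟩ a
      obtain ⟨c, rfl⟩ := hv0 v
      have hc : c ≠ 0 := fun h2 => hv (by rw [h2, zero_smul])
      rw [← posrank_mem, ← Submodule.smul_mem_iff _ hc, ← map_smul]
      exact h1 a
    · exact fun h1 => ⟨v0, h0, fun a => (posrank_mem _ (hne a v0 h0)).2 (h1 a)⟩
  · have hd : finrank F K = finrank F (Fin 2 → F) := by simpa using h
    let p : A → K ≃ₗ[F] (Fin 2 → F) := fun a => (π a).linearEquivOfInjective (hπ a) hd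
    have hp : ∀ a v, p a v = π a v := fun a v => rfl
    have key : ∀ a (v : K) (hv : v ≠ 0), ((p a0).symm.trans (p a)) •
        Projectivization.mk F (π a0 v) (hne a0 v hv) =
        Projectivization.mk F (π a v) (hne a v hv) := by
      intro a v hv
      rw [Projectivization.smul_mk]
      congr 1
      rw [LinearEquiv.smul_def, LinearEquiv.trans_apply, ← hp, LinearEquiv.symm_apply_apply, hp]
    convert Sys.all (G := (Fin 2 → F) ≃ₗ[F] (Fin 2 → F)) (P := Projectivization F (Fin 2 → F))
      fun a => Sys.edge (s a0) (s a) ((p a0).symm.trans (p a)) using 3 with x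
    constructor
    · rintro ⟨v, hv, h1⟩ a
      rw [(posrank_mem _ (hne a v hv)).1 (h1 a), (posrank_mem _ (hne a0 v hv)).1 (h1 a0), key a v hv]
    · intro h1
      obtain ⟨v, hv⟩ := (p a0).surjective (x (s a0)).rep
      have hv0 : v ≠ 0 := fun h2 => (x (s a0)).rep_nonzero (by rw [← hv, h2, map_zero])
      have h2 : x (s a0) = Projectivization.mk F (π a0 v) (hne a0 v hv0) := by
        rw [← posrank_mem, ← hp, hv, Projectivization.submodule_eq]
        exact Submodule.mem_span_singleton_self _
      refine ⟨v, hv0, fun a => (posrank_mem _ (hne a v hv0)).2 ?_⟩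
      rw [h1 a, h2, key a v hv0]

end Aux

variable {F : Type} [Field F] {Γ : Type} {V : Γ → Type}
  [∀ α, AddCommGroup (V α)] [∀ α, Module F (V α)] [∀ α, FiniteDimensional F (V α)]

theorem rank_good (h2 : ∀ α, finrank F (V α) ≤ 2)
    (φ : ∀ α : {α // finrank F (V α) = 2}, V α ≃ₗ[F] (Fin 2 → F)) {ι W : Type} [Fintype ι]
    [AddCommGroup W] [Module F W] (src : ι → Γ) (f : ∀ e, V (src e) →ₗ[F] W) (st : ι → Prop)
    (h0 : ∀ e, ¬ st e → f e = 0) (hf : InjAt F f st) (m : ι → ℕ) (j : ℕ) :
    Good ((Fin 2 → F) ≃ₗ[F] (Fin 2 → F)) (j + 2) fun x =>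
      j + 1 - finrank F (⨆ e, (flagOf F φ x (src e) (m e)).map (f e) :) := by
  classical
  let Act : ι → Prop := fun e => st e ∧ finrank F (V (src e)) = 2 ∧ m e = 1
  let J : ({α // finrank F (V α) = 2} → Projectivization F (Fin 2 → F)) →
      ∀ e, Submodule F (V (src e)) := fun x e =>
    if st e then flagOf F φ x (src e) (m e) else ⊥
  let B : ∀ e, Submodule F (V (src e)) := fun e =>
    if st e then (if m e = 0 then ⊥ else ⊤) else ⊥
  have hJ : ∀ x, (⨆ e, (flagOf F φ x (src e) (m e)).map (f e)) = ⨆ e, (J x e).map (f e) := by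
    intro x
    refine iSup_congr fun e => ?_
    by_cases he : st e
    · simp only [J, if_pos he]
    · simp [h0 e he]
  have hJn : ∀ x e, ¬ Act e → J x e = B e := by
    intro x e he
    by_cases hs : st e
    · simp only [J, B, if_pos hs, flagOf]
      rw [dif_neg fun h => he ⟨hs, h⟩]
    · simp only [J, B, if_neg hs]
  have hJa : ∀ x e (he : Act e), J x e = (x ⟨src e, he.2.1⟩).submodule.comap
      (φ ⟨src e, he.2.1⟩ : V (src e) →ₗ[F] (Fin 2 → F)) := by
    intro x e he
    simp only [J, if_pos he.1, flagOf]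
    rw [if_neg (by rw [he.2.2]; exact one_ne_zero), dif_pos he.2]
  have hBa : ∀ e, Act e → B e = ⊤ := by
    intro e he
    simp only [B, if_pos he.1]
    rw [if_neg (by rw [he.2.2]; exact one_ne_zero)]
  have hJ1 : ∀ x e, Act e → finrank F (J x e) = 1 := by
    intro x e he
    rw [hJa x e he, Submodule.comap_equiv_eq_map_symm, LinearEquiv.finrank_map_eq,
      Projectivization.finrank_submodule]
  by_cases hA : ∃ e, Act e
  swap
  · have h1 : ∀ x, (⨆ e, (flagOf F φ x (src e) (m e)).map (f e)) = ⨆ e, (B e).map (f e) := by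
      intro x
      rw [hJ]
      exact iSup_congr fun e => by rw [hJn x e fun he => hA ⟨e, he⟩]
    have h3 := (Good.const (G := (Fin 2 → F) ≃ₗ[F] (Fin 2 → F))
      (Γ := {α // finrank F (V α) = 2}) (P := Projectivization F (Fin 2 → F))
      (j + 1 - finrank F (⨆ e, (B e).map (f e) :))).mono (B' := j + 2) (by omega)
    convert h3 using 2 with x
    rw [h1]
  obtain ⟨e0, he0⟩ := hA
  set M : ℕ := ∑ e, if Act e then 1 else finrank F (B e) with hM
  have hsum : ∀ x, ∑ e, finrank F (J x e) = M := by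
    intro x
    refine Finset.sum_congr rfl fun e _ => ?_
    by_cases he : Act e
    · rw [if_pos he, hJ1 x e he]
    · rw [if_neg he, hJn x e he]
  let K : Submodule F (∀ e, V (src e)) := Submodule.pi Set.univ B ⊓ LinearMap.ker (posrankSum f)
  have hK : ∀ v ∈ K, ∀ e, st e → v e = 0 → v = 0 := by
    intro v hv
    refine hf v (fun e he => ?_) ?_
    · have h1 : v e ∈ B e := hv.1 e trivial
      simpa only [B, if_neg he, Submodule.mem_bot] using h1
    · rw [← posrank_sum_apply]
      exact hv.2
  have hJB : ∀ x e, J x e ≤ B e := by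
    intro x e
    by_cases he : Act e
    · rw [hBa e he]
      exact le_top
    · rw [hJn x e he]
  let π : (a : {e // Act e}) → K →ₗ[F] (Fin 2 → F) := fun a =>
    (φ ⟨src a.1, a.2.2.1⟩ : V (src a.1) →ₗ[F] (Fin 2 → F)) ∘ₗ LinearMap.proj a.1 ∘ₗ K.subtype
  have hπ : ∀ a, Function.Injective (π a) := by
    intro a
    rw [injective_iff_map_eq_zero]
    intro v hv
    exact Subtype.ext (hK v.1 v.2 a.1 a.2.1 ((φ ⟨src a.1, a.2.2.1⟩).map_eq_zero_iff.1 hv))
  have hS := posrank_sys (Γ' := {α // finrank F (V α) = 2})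
    (fun a : {e // Act e} => ⟨src a.1, a.2.2.1⟩) π hπ ⟨e0, he0⟩
  set E := {x : {α // finrank F (V α) = 2} → Projectivization F (Fin 2 → F) |
    ∃ v : K, v ≠ 0 ∧ ∀ a : {e // Act e}, π a v ∈ (x ⟨src a.1, a.2.2.1⟩).submodule} with hE
  have hker : ∀ x, finrank F (Submodule.pi Set.univ (J x) ⊓ LinearMap.ker (posrankSum f) :) =
      E.indicator 1 x := by
    intro x
    set N := Submodule.pi Set.univ (J x) ⊓ LinearMap.ker (posrankSum f) with hN
    have hNK : N ≤ K := inf_le_inf_right _ (Submodule.pi_mono fun e _ => hJB x e)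
    by_cases hx : x ∈ E
    · rw [Set.indicator_of_mem hx]
      obtain ⟨v, hv, h1⟩ := hx
      have hvN : v.1 ∈ N := by
        refine ⟨fun e _ => (?_ : v.1 e ∈ J x e), v.2.2⟩
        by_cases he : Act e
        · rw [hJa x e he]
          exact h1 ⟨e, he⟩
        · rw [hJn x e he]
          exact v.2.1 e trivial
      have h3 : N ≠ ⊥ := fun h => hv (Subtype.ext (by rwa [h] at hvN))
      have h4 : finrank F N ≠ 0 := fun h => h3 (Submodule.finrank_eq_zero.1 h)
      let q : N →ₗ[F] J x e0 :=
        LinearMap.codRestrict _ (LinearMap.proj e0 ∘ₗ N.subtype) fun v => v.2.1 e0 trivial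
      have hq : Function.Injective q := by
        rw [injective_iff_map_eq_zero]
        intro v hv
        exact Subtype.ext (hK v.1 (hNK v.2) e0 he0.1 (congrArg Subtype.val hv))
      have h5 := LinearMap.finrank_le_finrank_of_injective hq
      rw [hJ1 x e0 he0] at h5
      change _ = 1
      omega
    · rw [Set.indicator_of_notMem hx, Submodule.finrank_eq_zero, Submodule.eq_bot_iff]
      intro v hv
      by_contra hv0
      refine hx ⟨⟨v, hNK hv⟩, fun h => hv0 (congrArg Subtype.val h), fun a => ?_⟩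
      have h1 : v a.1 ∈ J x a.1 := hv.1 a.1 trivial
      rwa [hJa x a.1 a.2] at h1
  have hG := ((Good.const (G := (Fin 2 → F) ≃ₗ[F] (Fin 2 → F)) (j + 1 - M)).add
    ((Good.const (j + 1 - (M - 1) - (j + 1 - M))).mul (Good.ind hS))).mono
    (B' := j + 2) (by omega)
  convert hG using 2 with x
  have h1 := posrank_nullity f (J x)
  rw [hsum, hker, ← hJ] at h1
  by_cases hx : x ∈ E
  · rw [Set.indicator_of_mem hx] at h1 ⊢
    rw [Pi.one_apply] at h1 ⊢
    omega
  · rw [Set.indicator_of_notMem hx] at h1 ⊢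
    omega

end Pool.Agent.P.MP_8598be_al.E
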