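import Pool.Agent.P.MP_8598be_al.E.Rot
import Pool.Agent.P.MP_8598be_al.E.PosDefs

namespace Pool.Agent.P.MP_8598be_al.E

open Module

section Aux

open Matrix

variable {F : Type} [Field F] {I Γ : Type} [DecidableEq Γ] (w : I → Γ)

/-- Restriction to the coordinates of weight `α`. -/
def postRes (F : Type) [Field F] (w : I → Γ) (α : Γ) : (I → F) →ₗ[F] ({u // w u = α} → F) where
  toFun v u := v u.1
  map_add' _ _ := rfl
  map_smul' _ _ := rfl

/-- Extension by zero from the coordinates of weight `α`. -/
def postExt (F : Type) [Field F] (w : I → Γ) (α : Γ) : ({u // w u = α} → F) →ₗ[F] (I → F) where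
  toFun x u := if h : w u = α then x ⟨u, h⟩ else 0
  map_add' x y := funext fun u => by
    by_cases h : w u = α <;> simp [h]
  map_smul' c x := funext fun u => by
    by_cases h : w u = α <;> simp [h]

theorem post_res_ext (α : Γ) (x : {u // w u = α} → F) : postRes F w α (postExt F w α x) = x :=
  funext fun u => dif_pos u.2

theorem post_res_ext_ne {α β : Γ} (h : α ≠ β) (x : {u // w u = α} → F) :
    postRes F w β (postExt F w α x) = 0 :=
  funext fun u => dif_neg fun e => h (e.symm.trans u.2)

theorem post_ext_res (α : Γ) (v : I → F) (u : I) :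
    postExt F w α (postRes F w α v) u = if w u = α then v u else 0 := by
  by_cases h : w u = α
  · rw [if_pos h]
    exact dif_pos h
  · rw [if_neg h]
    exact dif_neg h

theorem post_sum [Fintype Γ] (v : I → F) : ∑ α, postExt F w α (postRes F w α v) = v := by
  funext u
  rw [Finset.sum_apply]
  simp only [post_ext_res, Finset.sum_ite_eq, Finset.mem_univ, if_true]

theorem post_blk [Fintype I] (B : Matrix I I ℤ) (α β : Γ) (x : {u // w u = α} → F) :
    blk F w B α β x = postRes F w β (B.map (Int.cast : ℤ → F) *ᵥ postExt F w α x) := by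
  funext u'
  change ∑ u : {u // w u = α}, (B u'.1 u.1 : F) * x u =
    ∑ u, (B u'.1 u : F) * postExt F w α x u
  rw [← Fintype.sum_subtype_add_sum_subtype (fun u => w u = α)]
  have h1 : ∑ u : {u // ¬ w u = α}, (B u'.1 u.1 : F) * postExt F w α x u.1 = 0 :=
    Finset.sum_eq_zero fun u _ => by
      have h : postExt F w α x u.1 = 0 := dif_neg u.2
      rw [h, mul_zero]
  rw [h1, add_zero]
  refine Finset.sum_congr rfl fun u _ => ?_
  have h : postExt F w α x u.1 = x u := dif_pos u.2
  rw [h]

/-- The subspace contains the homogeneous components of its elements. -/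
def PostGr (J : Submodule F (I → F)) : Prop := ∀ v ∈ J, ∀ α, postExt F w α (postRes F w α v) ∈ J

theorem post_gr_inf (G : ∀ α, Submodule F ({u // w u = α} → F)) :
    PostGr w (⨅ α, (G α).comap (postRes F w α)) := fun v hv α => by
  rw [Submodule.mem_iInf] at hv ⊢
  intro β
  rw [Submodule.mem_comap]
  by_cases h : α = β
  · subst h
    rw [post_res_ext]
    exact hv α
  · rw [post_res_ext_ne w h]
    exact zero_mem _

theorem post_right (G : ∀ α, Submodule F ({u // w u = α} → F)) (α : Γ) :
    (⨅ β, (G β).comap (postRes F w β)).map (postRes F w α) = G α := by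
  refine le_antisymm ?_ fun x hx => ?_
  · rintro _ ⟨v, hv, rfl⟩
    exact (Submodule.mem_iInf _).1 hv α
  · refine ⟨postExt F w α x, (Submodule.mem_iInf _).2 fun β => ?_, post_res_ext w α x⟩
    rw [Submodule.mem_comap]
    by_cases h : α = β
    · subst h
      rwa [post_res_ext]
    · rw [post_res_ext_ne w h]
      exact zero_mem _

theorem post_left [Fintype Γ] {J : Submodule F (I → F)} (hJ : PostGr w J) :
    ⨅ α, (J.map (postRes F w α)).comap (postRes F w α) = J := by
  refine le_antisymm (fun v hv => ?_) (le_iInf fun α => Submodule.le_comap_map _ _)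
  rw [← post_sum w v]
  refine Submodule.sum_mem _ fun α _ => ?_
  obtain ⟨v', hv', e⟩ := (Submodule.mem_iInf _).1 hv α
  rw [← e]
  exact hJ v' hv' α

theorem post_rank [Fintype I] [Fintype Γ] {J : Submodule F (I → F)} (hJ : PostGr w J) :
    ∑ α, finrank F (J.map (postRes F w α)) = finrank F J := by
  let e : J →ₗ[F] ∀ α, J.map (postRes F w α) :=
    LinearMap.pi fun α => (postRes F w α).submoduleMap J
  have he : Function.Bijective e := by
    refine ⟨(injective_iff_map_eq_zero e).2 fun v hv => Subtype.ext ?_, fun x => ?_⟩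
    · rw [← post_sum w v.1]
      refine Finset.sum_eq_zero fun α _ => ?_
      have h : postRes F w α v.1 = 0 := congrArg Subtype.val (congrFun hv α)
      rw [h, map_zero]
    · choose v hv hv' using fun α => (x α).2
      refine ⟨⟨∑ α, postExt F w α (postRes F w α (v α)),
        Submodule.sum_mem _ fun α _ => hJ _ (hv α) α⟩, funext fun β => Subtype.ext ?_⟩
      show postRes F w β (∑ α, postExt F w α (postRes F w α (v α))) = x β
      rw [map_sum, Finset.sum_eq_single β, post_res_ext, hv']
      · intro α _ hα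
        exact post_res_ext_ne w hα _
      · simp
  rw [(LinearEquiv.ofBijective e he).finrank_eq, Module.finrank_pi_fintype]

/-- Scaling of the coordinates. -/
def postD (c : I → F) (hc : ∀ u, c u ≠ 0) : (I → F) ≃ₗ[F] (I → F) where
  toFun v u := c u * v u
  invFun v u := (c u)⁻¹ * v u
  map_add' _ _ := funext fun _ => mul_add _ _ _
  map_smul' _ _ := funext fun _ => mul_left_comm _ _ _
  left_inv v := funext fun u => inv_mul_cancel_left₀ (hc u) (v u)
  right_inv v := funext fun u => mul_inv_cancel_left₀ (hc u) (v u)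

end Aux

theorem blk_rank (F : Type) [Field F] {I Γ : Type} [Fintype I] [Fintype Γ] [DecidableEq Γ]
    (w : I → Γ) : ∑ α, finrank F ({u // w u = α} → F) = Fintype.card I := by
  simp only [finrank_fintype_fun_eq_card]
  rw [← Fintype.card_sigma]
  exact Fintype.card_congr (Equiv.sigmaFiberEquiv w)

open Matrix in
theorem flag_torus (F : Type) [Field F] [Fintype F] {l : ℕ} (hl : l.Prime)
    (hd : l ∣ Fintype.card F - 1) {I Γ ι κ : Type} [Fintype I] [DecidableEq I] [Fintype Γ]
    [DecidableEq Γ] (w : I → Γ) (lam : Γ → ℕ) (hlam : Function.Injective lam)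
    (hlt : ∀ α, lam α < l) (A : ι ⊕ κ → Matrix I I ℤ)
    (h1 : ∀ i, ∃ δ : Γ → ℤ, A (.inl i) = Matrix.diagonal fun u => δ (w u))
    (h2 : ∀ k, ∃ μ : ℕ, ∀ u' u, A (.inr k) u' u ≠ 0 → lam (w u') = lam (w u) + μ) :
    flagCount F A ≡ repFlags F (fun k => blk F w (A (.inr k))) (Fintype.card I) [MOD l] := by
  classical
  have := Fact.mk hl
  obtain ⟨z', hz'⟩ := exists_prime_orderOf_dvd_card (G := Fˣ) l (by rwa [Fintype.card_units])
  have hz : IsPrimitiveRoot (z' : F) l :=
    IsPrimitiveRoot.coe_units_iff.2 (hz' ▸ IsPrimitiveRoot.orderOf z')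
  generalize (z' : F) = z at hz
  have hz0 : ∀ m : ℕ, z ^ m ≠ 0 := fun m => pow_ne_zero _ (hz.ne_zero hl.ne_zero)
  let D : (I → F) ≃ₗ[F] (I → F) := postD (fun u => z ^ lam (w u)) fun u => hz0 _
  have hD : ∀ v u, D v u = z ^ lam (w u) * v u := fun _ _ => rfl
  have h3 : ∀ k, ∃ μ : ℕ, ∀ u' u, A k u' u ≠ 0 → lam (w u') = lam (w u) + μ := by
    rintro (i | k)
    · obtain ⟨δ, hδ⟩ := h1 i
      refine ⟨0, fun u' u h => ?_⟩
      by_cases e : u' = u
      · rw [e, add_zero]
      · rw [hδ, diagonal_apply_ne _ e] at h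
        exact absurd rfl h
    · exact h2 k
  have h4 : ∀ k, ∃ s : F, ∀ v, D ((A k).map (Int.cast : ℤ → F) *ᵥ v) =
      s • ((A k).map (Int.cast : ℤ → F) *ᵥ D v) := fun k => by
    obtain ⟨μ, hμ⟩ := h3 k
    refine ⟨z ^ μ, fun v => funext fun u' => ?_⟩
    change z ^ lam (w u') * ∑ u, (A k u' u : F) * v u =
      z ^ μ * ∑ u, (A k u' u : F) * (z ^ lam (w u) * v u)
    rw [Finset.mul_sum, Finset.mul_sum]
    refine Finset.sum_congr rfl fun u _ => ?_
    by_cases e : A k u' u = 0
    · simp [e]
    · rw [hμ u' u e, pow_add]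
      ring
  let T : Function.End {J : Fin (Fintype.card I + 1) → Submodule F (I → F) // Monotone J ∧
      ∀ j, Inv F A (J j) ∧ finrank F (J j) = j} := fun J =>
    ⟨fun t => (J.1 t).comap (D : (I → F) →ₗ[F] (I → F)),
      fun t t' h => Submodule.comap_mono (J.2.1 h), fun t => ⟨fun k v hv => by
        obtain ⟨s, hs⟩ := h4 k
        change D _ ∈ J.1 t
        rw [hs]
        exact Submodule.smul_mem _ _ ((J.2.2 t).1 k _ hv), by
        beta_reduce
        rw [Submodule.comap_equiv_eq_map_symm, LinearEquiv.finrank_map_eq]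
        exact (J.2.2 t).2⟩⟩
  have hT : ∀ k J t v, v ∈ ((T ^ k) J).1 t ↔ (fun u => (z ^ lam (w u)) ^ k * v u) ∈ J.1 t :=
    fun k => by
    induction k with
    | zero =>
      intro J t v
      simp only [pow_zero, one_mul]
      exact Iff.rfl
    | succ k ih =>
      intro J t v
      have e : (fun u => (z ^ lam (w u)) ^ (k + 1) * v u) =
          fun u => (z ^ lam (w u)) ^ k * D v u := funext fun u => by rw [hD, pow_succ, mul_assoc]
      rw [pow_succ', e, ← ih]
      exact Iff.rfl
  have h5 : T ^ l ^ 1 = 1 := by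
    funext J
    refine Subtype.ext (funext fun t => Submodule.ext fun v => ?_)
    have e : (fun u => (z ^ lam (w u)) ^ l * v u) = v := funext fun u => by
      rw [← pow_mul, mul_comm (lam _), pow_mul, hz.pow_eq_one, one_pow, one_mul]
    rw [pow_one, hT, e]
    exact Iff.rfl
  let := Fintype.ofFinite {J : Fin (Fintype.card I + 1) → Submodule F (I → F) // Monotone J ∧
      ∀ j, Inv F A (J j) ∧ finrank F (J j) = j}
  have h6 := Equiv.Perm.card_fixedPoints_modEq h5
  rw [← Nat.card_eq_fintype_card, ← Nat.card_eq_fintype_card (α := T.fixedPoints)] at h6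
  refine h6.trans (Eq.subst (motive := fun m => _ ≡ m [MOD l]) ?_ (Nat.ModEq.refl _))
  have hgr : ∀ (J : T.fixedPoints) t, PostGr w (J.1.1 t) := fun J t v hv α => by
    have hf : (J.1.1 t).comap (D : (I → F) →ₗ[F] (I → F)) = J.1.1 t :=
      congrFun (congrArg Subtype.val J.2) t
    refine rot_mem_of_sum (D : (I → F) →ₗ[F] (I → F)) (J.1.1 t)
      (fun x hx => (hf.symm ▸ hx : x ∈ (J.1.1 t).comap (D : (I → F) →ₗ[F] (I → F))))
      (fun β => z ^ lam β) (fun β γ e => hlam (hz.pow_inj (hlt β) (hlt γ) e)) Finset.univ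
      (fun β => postExt F w β (postRes F w β v)) (fun β => funext fun u => ?_)
      (by rwa [post_sum]) α (Finset.mem_univ _)
    change z ^ lam (w u) * postExt F w β (postRes F w β v) u =
      z ^ lam β * postExt F w β (postRes F w β v) u
    rw [post_ext_res]
    split_ifs with e
    · rw [e]
    · rw [mul_zero, mul_zero]
  have hres : ∀ α v, postRes F w α (D v) = z ^ lam α • postRes F w α v := fun α v =>
    funext fun u => by
      change z ^ lam (w u.1) * v u.1 = z ^ lam α * v u.1
      rw [u.2]
  refine Nat.card_congr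
    { toFun := fun J => ⟨fun t α => (J.1.1 t).map (postRes F w α),
        fun t t' h α => Submodule.map_mono (J.1.2.1 h), fun t => ⟨fun k α β => ?_,
          (post_rank w (hgr J t)).trans (J.1.2.2 t).2⟩⟩
      invFun := fun G => ⟨⟨fun t => ⨅ α, (G.1 t α).comap (postRes F w α),
        fun t t' h => iInf_mono fun α => Submodule.comap_mono (G.2.1 h α),
        fun t => ⟨fun k v hv => ?_, ?_⟩⟩, Subtype.ext (funext fun t => Submodule.ext fun v => ?_)⟩
      left_inv := fun J => Subtype.ext (Subtype.ext (funext fun t => post_left w (hgr J t)))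
      right_inv := fun G => Subtype.ext (funext fun t => funext (post_right w (G.1 t))) }
  · rintro _ ⟨_, ⟨v, hv, rfl⟩, rfl⟩
    rw [post_blk]
    exact ⟨_, (J.1.2.2 t).1 (.inr k) _ (hgr J t v hv α), rfl⟩
  · rw [Submodule.mem_iInf] at hv ⊢
    intro β
    rw [Submodule.mem_comap]
    rcases k with i | k
    · obtain ⟨δ, hδ⟩ := h1 i
      have e : postRes F w β ((A (.inl i)).map (Int.cast : ℤ → F) *ᵥ v) =
          (δ β : F) • postRes F w β v := funext fun u => by
        rw [hδ, diagonal_map Int.cast_zero]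
        change (diagonal (fun u => (δ (w u) : F)) *ᵥ v) u.1 = (δ β : F) * v u.1
        rw [mulVec_diagonal, u.2]
      rw [e]
      exact Submodule.smul_mem _ _ (hv β)
    · rw [← post_sum w v, mulVec_sum, map_sum]
      refine Submodule.sum_mem _ fun α _ => ?_
      rw [← post_blk]
      exact (G.2.2 t).1 k α β ⟨_, hv α, rfl⟩
  · rw [← post_rank w (post_gr_inf w (G.1 t)), ← (G.2.2 t).2]
    exact Finset.sum_congr rfl fun α _ => by rw [post_right]
  · change D v ∈ (⨅ α, (G.1 t α).comap (postRes F w α)) ↔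
      v ∈ (⨅ α, (G.1 t α).comap (postRes F w α))
    simp only [Submodule.mem_iInf, Submodule.mem_comap, hres,
      Submodule.smul_mem_iff _ (hz0 _)]

end Pool.Agent.P.MP_8598be_al.E
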