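import Pool.Agent.P.MP_8598be_al.E.Main
import Pool.Agent.P.MP_8598be_al.E.PosDec
import Pool.Agent.P.MP_8598be_al.E.PosFib
import Pool.Agent.P.MP_8598be_al.E.PosRank
import Pool.Agent.P.MP_8598be_al.E.PosLow
import Pool.Agent.P.MP_8598be_al.E.PosT
import Pool.Agent.P.MP_8598be_al.E.PosMult
import Pool.Agent.P.MP_8598be_al.E.PosLie

/-!
Positivity of the common value in low class.
-/

namespace Pool.Agent.P.MP_8598be_al.E

open Module

section Rep

variable {F : Type} [Field F] [Fintype F] {l : ℕ} {Γ κ : Type} [Fintype Γ] [Fintype κ]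
  {V : Γ → Type} [∀ α, AddCommGroup (V α)] [∀ α, Module F (V α)] [∀ α, FiniteDimensional F (V α)]

theorem pm_prod_le {ι : Type} [Fintype ι] {D : ι → ℕ} {R m : ℕ} (hD : ∀ β, D β ≤ R)
    (hm : Fintype.card ι ≤ m) : ∏ β, ∏ j ∈ Finset.range (D β), (j + 2) ≤ (R + 2) ^ (R * m) := by
  calc ∏ β, ∏ j ∈ Finset.range (D β), (j + 2) ≤ ∏ _β : ι, (R + 2) ^ R := by
        refine Finset.prod_le_prod' fun β _ => ?_
        refine (Finset.prod_le_pow_card _ _ (R + 2) fun j hj => ?_).trans ?_
        · have := Finset.mem_range.1 hj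
          have := hD β
          omega
        · rw [Finset.card_range]
          exact Nat.pow_le_pow_right (by omega) (hD β)
    _ ≤ _ := by
        rw [Finset.prod_const, Finset.card_univ, ← pow_mul]
        exact Nat.pow_le_pow_right (by omega) (Nat.mul_le_mul_left _ hm)

theorem sched_two (hl : l ∣ Fintype.card F - 1) (a : κ → ∀ α β, V α →ₗ[F] V β) (top : Γ → Prop)
    (st : κ → Γ → Γ → Prop) (h0 : ∀ k α β, ¬ st k α β → a k α β = 0)
    (hs : ∀ k β γ, top β → a k β γ = 0) (h2 : ∀ α, ¬ top α → finrank F (V α) ≤ 2)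
    (h1 : ∀ k α β, ¬ top α → ¬ top β → a k α β ≠ 0 → finrank F (V α) ≤ 1)
    (hK : ∀ β, top β → InjAt F (fun e : κ × Γ => a e.1 e.2 β) fun e => st e.1 e.2 β)
    {R m : ℕ} (hD : ∀ α, finrank F (V α) ≤ R) (hm : Fintype.card Γ ≤ m) {r : ℕ}
    (n : Fin (r + 1) → Γ → ℕ) (hn : Monotone n) (hn0 : n 0 = 0) :
    ∃ N ≤ (R + 2) ^ (R * m) * 2 ^ m, Nat.card (Fam F a n) ≡ N [MOD l] := by
  classical
  haveI := finite_fam (res F a top) fun t α => n t α
  letI := Fintype.ofFinite (Fam F (res F a top) fun t α => n t α)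
  haveI : Finite (Projectivization F (Fin 2 → F)) := Projectivization.finite_of_finite _ _
  letI := Fintype.ofFinite ({α : {α // ¬ top α} // finrank F (V α) = 2} →
    Projectivization F (Fin 2 → F))
  let φ : ∀ α : {α : {α // ¬ top α} // finrank F (V α) = 2}, V α ≃ₗ[F] (Fin 2 → F) := fun α =>
    LinearEquiv.ofFinrankEq _ _ (by rw [α.2, finrank_fin_fun])
  obtain ⟨S, hS, hf⟩ := low_sum (V := fun α : {α // ¬ top α} => V α) (fun α => h2 α α.2) φ
    (res F a top) (fun k α β => h1 k α β α.2 β.2) fun t α => n t α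
  have h3 := fam_sink hl a top hs n hn hn0
  rw [hf fun G => ∏ β : {β // top β}, ∏ j ∈ Finset.range (finrank F (V β)),
    (j + 1 - finrank F (img F a top (fun α => G α (n (lastT n β j) α)) β))] at h3
  have h4 := (Good.ind hS).mul (Good.prod (Finset.univ : Finset {β // top β}) fun β _ =>
    Good.prod (Finset.range (finrank F (V β))) fun j _ =>
      rank_good (V := fun α : {α // ¬ top α} => V α) (fun α => h2 α α.2) φ
        (fun e : κ × {α // ¬ top α} => e.2) (fun e => a e.1 e.2 β) (fun e => st e.1 e.2 β)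
        (fun e => h0 _ _ _) ((hK β β.2).comp (fun e : κ × {α // ¬ top α} => (e.1, e.2.1))
          fun e e' h => Prod.ext (congrArg (·.1) h) (Subtype.ext (congrArg (·.2) h)))
        (fun e => n (lastT n β j) e.2) j)
  obtain ⟨N, hN, h5⟩ := h4.count (line_card F hl) (line_fixed F)
  refine ⟨N, hN.trans ?_, h3.trans h5⟩
  rw [one_mul]
  exact Nat.mul_le_mul (pm_prod_le (fun β => hD _) ((Fintype.card_subtype_le _).trans hm))
    (Nat.pow_le_pow_right two_pos (((Fintype.card_subtype_le _).trans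
      (Fintype.card_subtype_le _)).trans hm))

theorem sched_three (hl : l ∣ Fintype.card F - 1) (a : κ → ∀ α β, V α →ₗ[F] V β)
    (high top : Γ → Prop) (st : κ → Γ → Γ → Prop) (h0 : ∀ k α β, ¬ st k α β → a k α β = 0)
    (hh : ∀ k β γ, high β → a k β γ = 0)
    (hH : ∀ β, high β → InjAll F (fun e : κ × Γ => a e.1 e.2 β) fun e => st e.1 e.2 β)
    (hs : ∀ k β γ, top β → ¬ high γ → a k β γ = 0)
    (h2 : ∀ α, ¬ high α → ¬ top α → finrank F (V α) ≤ 2)
    (h1 : ∀ k α β, ¬ high α → ¬ high β → ¬ top α → ¬ top β → a k α β ≠ 0 → finrank F (V α) ≤ 1)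
    (hK : ∀ β, top β → InjAt F (fun e : κ × Γ => a e.1 e.2 β) fun e => st e.1 e.2 β)
    {R m : ℕ} (hD : ∀ α, finrank F (V α) ≤ R) (hm : Fintype.card Γ ≤ m) {r : ℕ}
    (n : Fin (r + 1) → Γ → ℕ) (hn : Monotone n) (hn0 : n 0 = 0) :
    ∃ N ≤ (R + 2) ^ (R * m) * ((R + 2) ^ (R * m) * 2 ^ m), Nat.card (Fam F a n) ≡ N [MOD l] := by
  classical
  haveI := finite_fam (res F a high) fun t α => n t α
  letI := Fintype.ofFinite (Fam F (res F a high) fun t α => n t α)
  have hg : Function.Injective fun e : κ × {α // ¬ high α} => (e.1, e.2.1) :=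
    fun e e' h => Prod.ext (congrArg (·.1) h) (Subtype.ext (congrArg (·.2) h))
  obtain ⟨N, hN, h3⟩ := sched_two (V := fun α : {α // ¬ high α} => V α) hl (res F a high)
    (fun α => top α) (fun k α β => st k α β) (fun k α β => h0 k α β)
    (fun k β γ h => hs k β γ h γ.2) (fun α => h2 α α.2) (fun k α β => h1 k α β α.2 β.2)
    (fun β h => (hK β h).comp _ hg) (fun α => hD α) ((Fintype.card_subtype_le _).trans hm)
    (fun t α => n t α) (fun t t' h α => hn h α) (funext fun α => congrFun hn0 α)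
  have h4 := fam_sink hl a high hh n hn hn0
  rw [Finset.sum_congr rfl (g := fun _ => ∏ β : {β // high β},
    ∏ j ∈ Finset.range (finrank F (V β)), (j + 1 - ∑ e : κ × {α // ¬ high α} with st e.1 e.2 β,
      min (n (lastT n β j) e.2) (finrank F (V e.2)))) fun G _ => ?_, Finset.sum_const,
    Finset.card_univ, smul_eq_mul, mul_comm, ← Nat.card_eq_fintype_card] at h4
  · refine ⟨_, Nat.mul_le_mul (le_trans ?_ (pm_prod_le (fun β : {β // high β} => hD β)
      ((Fintype.card_subtype_le _).trans hm))) hN, h4.trans (h3.mul_left _)⟩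
    exact Finset.prod_le_prod' fun β _ => Finset.prod_le_prod' fun j _ => by omega
  · refine Finset.prod_congr rfl fun β _ => Finset.prod_congr rfl fun j _ => ?_
    rw [img, ((hH β β.2).comp _ hg).rank fun e => h0 _ _ _]
    exact congrArg _ (Finset.sum_congr rfl fun e _ => (G.2.1 e.2).2 _)

theorem rep_pos (hl : l ∣ Fintype.card F - 1) (a : κ → ∀ α β, V α →ₗ[F] V β)
    (high top : Γ → Prop) (st : κ → Γ → Γ → Prop) (h0 : ∀ k α β, ¬ st k α β → a k α β = 0)
    (hh : ∀ k β γ, high β → a k β γ = 0)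
    (hH : ∀ β, high β → InjAll F (fun e : κ × Γ => a e.1 e.2 β) fun e => st e.1 e.2 β)
    (hs : ∀ k β γ, top β → ¬ high γ → a k β γ = 0)
    (h2 : ∀ α, ¬ high α → ¬ top α → finrank F (V α) ≤ 2)
    (h1 : ∀ k α β, ¬ high α → ¬ high β → ¬ top α → ¬ top β → a k α β ≠ 0 → finrank F (V α) ≤ 1)
    (hK : ∀ β, top β → InjAt F (fun e : κ × Γ => a e.1 e.2 β) fun e => st e.1 e.2 β)
    (deg : Γ → ℕ) (hd : ∀ k α β, st k α β → deg α < deg β) {r : ℕ}
    (hr : ∑ α, finrank F (V α) = r) : ∃ N, 0 < N ∧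
      N ≤ (r + 1) ^ (Fintype.card Γ * (r + 1)) * (r.factorial ^ Fintype.card Γ +
        (r + 2) ^ (r * Fintype.card Γ) * ((r + 2) ^ (r * Fintype.card Γ) * 2 ^ Fintype.card Γ)) ∧
      repFlags F a r ≡ N [MOD l] := by
  classical
  have hD : ∀ α, finrank F (V α) ≤ r := fun α =>
    hr ▸ Finset.single_le_sum (f := fun α => finrank F (V α)) (fun _ _ => Nat.zero_le _)
      (Finset.mem_univ α)
  obtain ⟨n0, hn0, h3⟩ := sorted_sched hl a hr deg fun k α β h => hd k α β (by_contra fun h' =>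
    h (h0 k α β h'))
  have h4 : ∀ n : Fin (r + 1) → Γ → ℕ, ∃ N, (n = n0 → 0 < N) ∧
      (n ∈ schedSet (fun α => finrank F (V α)) r → N ≤ r.factorial ^ Fintype.card Γ +
        (r + 2) ^ (r * Fintype.card Γ) * ((r + 2) ^ (r * Fintype.card Γ) * 2 ^ Fintype.card Γ) ∧
      Nat.card (Fam F a n) ≡ N [MOD l]) := fun n => by
    by_cases h : n = n0
    · refine ⟨_, fun _ => Finset.prod_pos fun α _ => Nat.factorial_pos _, fun _ =>
        ⟨le_add_right ?_, h ▸ h3⟩⟩
      exact Finset.prod_le_pow_card _ _ _ fun α _ => Nat.factorial_le (hD α)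
    by_cases h' : n ∈ schedSet (fun α => finrank F (V α)) r
    · obtain ⟨N, h5, h6⟩ := sched_three hl a high top st h0 hh hH hs h2 h1 hK hD le_rfl n
        (sched_mono h').1 (sched_mono h').2
      exact ⟨N, fun e => (h e).elim, fun _ => ⟨le_add_left h5, h6⟩⟩
    · exact ⟨0, fun e => (h e).elim, fun e => (h' e).elim⟩
  choose N hN hN' using h4
  refine ⟨∑ n ∈ schedSet (fun α => finrank F (V α)) r, N n, ?_, ?_, ?_⟩
  · exact (hN n0 rfl).trans_le (Finset.single_le_sum (fun _ _ => Nat.zero_le _) hn0)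
  · refine (Finset.sum_le_card_nsmul _ _ _ fun n h => (hN' n h).1).trans ?_
    refine Nat.mul_le_mul_right _ ((Finset.card_filter_le _ _).trans ?_)
    rw [Fintype.card_piFinset, Finset.prod_const, Finset.card_univ, Fintype.card_fin, pow_mul,
      Fintype.card_piFinset]
    refine Nat.pow_le_pow_left (Finset.prod_le_pow_card _ _ _ fun α _ => ?_) _
    rw [Finset.card_range]
    exact Nat.succ_le_succ (hD α)
  · rw [repFlags_eq a hr]
    exact Nat.ModEq.sum fun n h => (hN' n h).2

end Rep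

variable {I : Type} [Fintype I] [DecidableEq I] {c d : ℕ} {τ : I → FreeMagma (Fin d)}
  {A : Fin c ⊕ Fin d → Matrix I I ℤ}

theorem pm_step {k : Fin d} {α β : Fin d → Fin (c + 1)} (h : stepF k α β) :
    degF β = degF α + 1 := by
  simp [degF, Finset.sum_congr rfl fun j _ => h j, Finset.sum_add_distrib]

theorem pm_rank (h : IsBasis c d τ) (F : Type) [Field F] (α : Fin d → Fin (c + 1)) :
    finrank F ({u // wF c (τ u) = α} → F) = Nat.card {u // wtT (τ u) = fun k => (α k : ℕ)} := by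
  rw [finrank_fintype_fun_eq_card, ← Nat.card_eq_fintype_card]
  refine Nat.card_congr (Equiv.subtypeEquivRight fun u => ⟨fun e => funext fun k => ?_,
    fun e => funext fun k => Fin.ext ?_⟩)
  · rw [← wF_val h, e]
  · rw [wF_val h, e]

theorem pm_zero (h : IsBasis c d τ) (F : Type) [Field F] {α : Fin d → Fin (c + 1)}
    (hα : c < degF α) : finrank F ({u // wF c (τ u) = α} → F) = 0 := by
  rw [pm_rank h, Nat.card_eq_zero]
  refine .inl ⟨fun u => ?_⟩
  have h1 := h.1 u
  rw [← sum_wtT, u.2] at h1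
  exact hα.not_ge h1

theorem flag_pos (h : IsBasis c d τ) (hA : IsModel c d τ A) (hc : c ≤ 4 ∨ d = 2 ∧ c ≤ 7) :
    ∃ B L : ℕ, ∀ (F : Type) [Field F] [Fintype F] (l : ℕ), l.Prime → l ∣ Fintype.card F - 1 →
      L ≤ l → ∃ N, 0 < N ∧ N ≤ B ∧ flagCount F A ≡ N [MOD l] := by
  refine ⟨(Fintype.card I + 1) ^ (Fintype.card (Fin d → Fin (c + 1)) * (Fintype.card I + 1)) *
    ((Fintype.card I).factorial ^ Fintype.card (Fin d → Fin (c + 1)) +
      (Fintype.card I + 2) ^ (Fintype.card I * Fintype.card (Fin d → Fin (c + 1))) *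
      ((Fintype.card I + 2) ^ (Fintype.card I * Fintype.card (Fin d → Fin (c + 1))) *
        2 ^ Fintype.card (Fin d → Fin (c + 1)))), (c + 1) ^ d, fun F _ _ l hl hd hL => ?_⟩
  · have h1 := flag_torus F hl hd (fun u => wF c (τ u)) (fun α => finFunctionFinEquiv α)
      (Fin.val_injective.comp finFunctionFinEquiv.injective)
      (fun α => (finFunctionFinEquiv α).2.trans_le hL) A
      (fun i => ⟨fun α => if degF α = i + 1 then 1 else 0, by
        rw [hA.1 i]
        simp only [degF, wF_val h, sum_wtT]⟩)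
      fun k => ⟨(c + 1) ^ (k : ℕ), fun u' u hu => by
        simp only [finFunctionFinEquiv_apply, wF_val h, hA.2.1 k u' u hu, Pi.add_apply, add_mul,
          Finset.sum_add_distrib]
        congr 1
        rw [Finset.sum_eq_single k (fun j _ hj => by simp [hj]) (by simp)]
        simp⟩
    have h2 : ∃ high top : (Fin d → Fin (c + 1)) → Prop, (∀ β, high β → c ≤ degF β) ∧
        (∀ β, high β → InjAll F (fun e : Fin d × (Fin d → Fin (c + 1)) =>
          blk F (fun u => wF c (τ u)) (A (.inr e.1)) e.2 β) fun e => stepF e.1 e.2 β) ∧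
        (∀ β γ, top β → ¬ high γ → degF γ = degF β + 1 → c ≤ degF β) ∧
        (∀ α, ¬ high α → ¬ top α → degF α ≤ c →
          Nat.card {u // wtT (τ u) = fun k => (α k : ℕ)} ≤ 2) ∧
        (∀ α β : Fin d → Fin (c + 1), ¬ high β → ¬ top β → degF β ≤ c → degF β = degF α + 1 →
          Nat.card {u // wtT (τ u) = fun k => (α k : ℕ)} ≤ 1) ∧ ∀ β, top β → degF β ≤ c := by
      by_cases h3 : c ≤ 4
      · exact ⟨fun _ => False, fun α => degF α = c, fun _ => False.elim, fun _ => False.elim,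
          fun β γ e _ _ => e.ge, fun α _ e e' => mult_three h _ (by change degF α ≤ 3; omega),
          fun α β _ e e' e'' => mult_two h _ (by change degF α ≤ 2; omega), fun β e => e.le⟩
      obtain ⟨rfl, h4⟩ := hc.resolve_left h3
      by_cases h5 : c = 7
      · subst h5
        exact ⟨fun α => degF α = 7, fun α => degF α = 6, fun _ e => e.ge, blk_injAll h hA F,
          fun β γ e _ _ => by omega, fun α _ e e' => mult_five h _ (by change degF α ≤ 5; omega),
          fun α β _ e e' e'' => mult_four h _ (by change degF α ≤ 4; omega), fun β e => by omega⟩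
      · exact ⟨fun _ => False, fun α => degF α = c, fun _ => False.elim, fun _ => False.elim,
          fun β γ e _ _ => e.ge, fun α _ e e' => mult_five h _ (by change degF α ≤ 5; omega),
          fun α β _ e e' e'' => mult_four h _ (by change degF α ≤ 4; omega), fun β e => e.le⟩
    obtain ⟨high, top, g1, g2, g3, g4, g5, g6⟩ := h2
    obtain ⟨N, hN, hB, h3⟩ := rep_pos hd (fun k => blk F (fun u => wF c (τ u)) (A (.inr k))) high
      top stepF (blk_step h hA F) (fun k β γ e => blk_top h hA F k β γ (g1 β e)) g2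
      (fun k β γ e e' => by_contra fun e'' => e'' (blk_top h hA F k β γ (g3 β γ e e'
        (pm_step (by_contra fun e3 => e'' (blk_step h hA F k β γ e3))))))
      (fun α e e' => (le_or_gt (degF α) c).elim (fun e'' => (pm_rank h F α).trans_le (g4 α e e' e''))
        fun e'' => (pm_zero h F e'').trans_le (Nat.zero_le _))
      (fun k α β _ e _ e' e'' => by
        have e3 := pm_step (by_contra fun e3 => e'' (blk_step h hA F k α β e3))
        have e4 : degF α < c := not_le.1 fun e4 => e'' (blk_top h hA F k α β e4)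
        exact (pm_rank h F α).trans_le (g5 α β e e' (by omega) e3))
      (fun β e => blk_injAt h hA F β (g6 β e)) degF (fun k α β e => by rw [pm_step e]; omega)
      (blk_rank F _)
    exact ⟨N, hN, hB, h1.trans h3⟩

theorem low_class {c d : ℕ} (hc : c ≤ 4 ∨ d = 2 ∧ c ≤ 7) {W : RatXY} (hW : Uniform c d W) :
    ∃ v : ℚ, 0 < v ∧ BothValues (rk c d) W v := by
  obtain ⟨τ, hτ⟩ := exists_basis c d
  obtain ⟨A, hA⟩ := exists_model hτ
  obtain ⟨e, S, L, h1, h2⟩ := main hτ hA hW
  obtain ⟨B, L', h3⟩ := flag_pos hτ hA hc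
  obtain ⟨l, hl, hl'⟩ := Nat.exists_infinite_primes (L + L' + e.natAbs + B + 1)
  obtain ⟨p, hp, hp', hp''⟩ := Nat.exists_prime_gt_modEq_one (S.sup id) hl'.ne_zero
  haveI := Fact.mk hp
  have hd : l ∣ p - 1 := (Nat.modEq_iff_dvd' hp.one_le).1 hp''.symm
  obtain ⟨N, hN, hB, h4⟩ := h3 (ZMod p) l hl' (by rwa [ZMod.card]) (by omega)
  have h5 := (h2 p l (fun h => hp'.not_ge (Finset.le_sup (f := id) h)) hl' hd (by omega)).trans
    (Int.natCast_modEq_iff.2 h4)
  have h6 : (N : ℤ) - e = 0 := Int.eq_zero_of_abs_lt_dvd h5.dvd (by rw [abs_lt]; omega)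
  exact ⟨_, div_pos (Int.cast_pos.2 (by omega)) (Nat.cast_pos.2 (Nat.factorial_pos _)), h1⟩

end Pool.Agent.P.MP_8598be_al.E
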