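import Pool.Agent.P.MP_8598be_al.E.PosDefs

namespace Pool.Agent.P.MP_8598be_al.E

open Module

variable {G : Type} [Group G] {Γ P : Type} [MulAction G P]

theorem Sys.const (b : Prop) : Sys G {_x : Γ → P | b} :=
  ⟨b, ∅, ∅, by simp⟩

theorem Sys.pin (α : Γ) (y : P) : Sys G {x : Γ → P | x α = y} :=
  ⟨True, {(α, y)}, ∅, by simp⟩

theorem Sys.edge (α β : Γ) (g : G) : Sys G {x : Γ → P | x β = g • x α} :=
  ⟨True, ∅, {(α, β, g)}, by simp⟩

theorem Sys.all {ι : Sort*} {S : ι → (Γ → P) → Prop} (h : ∀ i, Sys G {x | S i x}) :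
    Sys G {x | ∀ i, S i x} := by
  choose b L L' h using h
  refine ⟨∀ i, b i, ⋃ i, L i, ⋃ i, L' i, Set.ext fun x => ?_⟩
  have h1 : ∀ i, S i x ↔ _ := fun i => Set.ext_iff.1 (h i) x
  simp only [Set.mem_setOf_eq, Set.mem_iUnion, forall_exists_index] at h1 ⊢
  simp only [h1]
  exact ⟨fun h => ⟨fun i => (h i).1, fun e i => (h i).2.1 e, fun e i => (h i).2.2 e⟩,
    fun h i => ⟨h.1 i, fun e => h.2.1 e i, fun e => h.2.2 e i⟩⟩

theorem Sys.inter {S T : Set (Γ → P)} (h : Sys G S) (h' : Sys G T) : Sys G (S ∩ T) := by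
  have := Sys.all (G := G) (S := fun (b : Bool) x => x ∈ cond b S T) fun b => by
    cases b
    · exact h'
    · exact h
  convert this using 1
  ext x
  simp [and_comm]

theorem Good.const (m : ℕ) : Good G m fun _ : Γ → P => m :=
  ⟨List.replicate m Set.univ, by simp, fun S h => by
    rw [List.eq_of_mem_replicate h]
    exact Sys.const True, fun x => by simp⟩

theorem Good.ind {S : Set (Γ → P)} (h : Sys G S) : Good G 1 (S.indicator 1) :=
  ⟨[S], le_rfl, by simpa using h, fun x => by simp⟩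

theorem Good.mono {B B' : ℕ} {f : (Γ → P) → ℕ} (h : Good G B f) (hB : B ≤ B') : Good G B' f :=
  h.imp fun _ h => ⟨h.1.trans hB, h.2⟩

theorem Good.add {B B' : ℕ} {f g : (Γ → P) → ℕ} (h : Good G B f) (h' : Good G B' g) :
    Good G (B + B') fun x => f x + g x := by
  obtain ⟨L, h1, h2, h3⟩ := h
  obtain ⟨L', h1', h2', h3'⟩ := h'
  exact ⟨L ++ L', by rw [List.length_append]; omega,
    fun S h => (List.mem_append.1 h).elim (h2 S) (h2' S), fun x => by simp [h3, h3']⟩

theorem Good.mul {B B' : ℕ} {f g : (Γ → P) → ℕ} (h : Good G B f) (h' : Good G B' g) :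
    Good G (B * B') fun x => f x * g x := by
  obtain ⟨L, h1, h2, h3⟩ := h
  obtain rfl : f = _ := funext h3
  refine Good.mono ?_ (Nat.mul_le_mul_right _ h1)
  clear h1 h3
  induction L with
  | nil => simpa using Good.const 0
  | cons S L ih =>
    obtain ⟨L', h1', h2', h3'⟩ := h'
    have h4 : Good G B' fun x => S.indicator 1 x * g x :=
      ⟨L'.map (S ∩ ·), by simpa using h1', fun T hT => by
        obtain ⟨T', hT', rfl⟩ := List.mem_map.1 hT
        exact (h2 S (by simp)).inter (h2' T' hT'), fun x => by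
        beta_reduce
        rw [h3', List.map_map, ← List.sum_map_mul_left]
        exact congrArg List.sum (List.map_congr_left fun T _ => by
          simp [Set.inter_indicator_one])⟩
    simpa [add_mul, add_comm] using h4.add (ih fun T hT => h2 T (by simp [hT]))

theorem Good.prod {ι : Type} (s : Finset ι) {B : ι → ℕ} {f : ι → (Γ → P) → ℕ}
    (h : ∀ i ∈ s, Good G (B i) (f i)) : Good G (∏ i ∈ s, B i) fun x => ∏ i ∈ s, f i x := by
  classical
  induction s using Finset.induction_on with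
  | empty => simpa using Good.const 1
  | insert a s ha ih =>
    simpa only [Finset.prod_insert ha] using
      (h a (by simp)).mul (ih fun i hi => h i (by simp [hi]))

/-- Substitutions: every new coordinate is a constant or a translate of an old coordinate. -/
theorem Sys.comap {Δ : Type} {S : Set (Γ → P)} (h : Sys G S) (p : (Δ → P) → Γ → P)
    (hp : ∀ α, (∃ y, ∀ x, p x α = y) ∨ ∃ (β : Δ) (g : G), ∀ x, p x α = g • x β) :
    Sys G {x | p x ∈ S} := by
  obtain ⟨b, L, L', rfl⟩ := h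
  refine (Sys.const b).inter ((Sys.all fun e => Sys.all fun _ => ?_).inter
    (Sys.all fun e => Sys.all fun _ => ?_))
  · rcases hp e.1 with ⟨y, h⟩ | ⟨β, g, h⟩
    · simpa only [h] using Sys.const _
    · simpa only [h, smul_eq_iff_eq_inv_smul] using Sys.pin β _
  · rcases hp e.1 with ⟨y, h⟩ | ⟨β, g, h⟩ <;> rcases hp e.2.1 with ⟨y', h'⟩ | ⟨β', g', h'⟩
    · simpa only [h, h'] using Sys.const _
    · simpa only [h, h', smul_eq_iff_eq_inv_smul] using Sys.pin β' _
    · simpa only [h, h', smul_smul, eq_comm (a := y'), smul_eq_iff_eq_inv_smul] using Sys.pin β _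
    · simpa only [h, h', smul_eq_iff_eq_inv_smul, smul_smul] using Sys.edge β β' _

theorem possys_forced {S : Set (Option Γ → P)} (φ : (Γ → P) → P)
    (hφ : ∀ x ∈ S, x none = φ fun α => x (some α)) :
    Nat.card S = Nat.card {x : Γ → P | (fun α => Option.elim α (φ x) x) ∈ S} := by
  have h1 : ∀ x ∈ S, (fun α => Option.elim α (φ fun α => x (some α)) fun α => x (some α)) = x :=
    fun x hx => funext fun α => by
      cases α
      · exact (hφ x hx).symm
      · rfl
  exact Nat.card_congr ⟨fun x => ⟨fun α => x.1 (some α), (h1 x x.2).symm ▸ x.2⟩,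
    fun x => ⟨_, x.2⟩, fun x => Subtype.ext (h1 x x.2), fun x => rfl⟩

theorem Sys.count [Fintype Γ] [Finite P] {l : ℕ} (hP : Nat.card P ≡ 2 [MOD l])
    (hG : ∀ g : G, (∀ y : P, g • y = y) ∨ Nat.card {y : P // g • y = y} ≤ 2) {S : Set (Γ → P)}
    (h : Sys G S) : ∃ N ≤ 2 ^ Fintype.card Γ, Nat.card S ≡ N [MOD l] := by
  revert S
  refine Fintype.induction_empty_option (P := fun Γ _ => ∀ {S : Set (Γ → P)}, Sys G S →
    ∃ N ≤ 2 ^ Fintype.card Γ, Nat.card S ≡ N [MOD l]) ?_ ?_ ?_ Γ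
  · intro Γ Δ _ e ih S h
    obtain ⟨N, h1, h2⟩ := ih (h.comap (fun x α => x (e.symm α)) fun α =>
      .inr ⟨_, 1, fun x => (one_smul _ _).symm⟩)
    refine ⟨N, h1.trans_eq (congrArg _ (@Fintype.card_congr _ _ (_) _ e)), ?_⟩
    rwa [← Nat.card_congr ((e.arrowCongr (Equiv.refl P)).subtypeEquiv (p := fun x => _)
      (q := fun x => x ∈ S) fun x => Iff.rfl)]
  · intro S _
    exact ⟨_, by simpa using (Finite.card_le_one_iff_subsingleton (α := S)).2 inferInstance, rfl⟩
  · intro Γ _ ih S h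
    have h0 : ∀ φ : (Γ → P) → P, ((∃ y, ∀ x, φ x = y) ∨ ∃ (β : Γ) (g : G), ∀ x, φ x = g • x β) →
        (∀ x ∈ S, x none = φ fun α => x (some α)) →
        ∃ N ≤ 2 ^ Fintype.card (Option Γ), Nat.card S ≡ N [MOD l] := fun φ h1 h2 => by
      obtain ⟨N, h3, h4⟩ := ih (h.comap (fun x α => Option.elim α (φ x) x) fun α => by
        cases α
        · exact h1
        · exact .inr ⟨_, 1, fun x => (one_smul _ _).symm⟩)
      exact ⟨N, h3.trans (Nat.pow_le_pow_right two_pos (by simp)), possys_forced φ h2 ▸ h4⟩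
    obtain ⟨b, L, L', rfl⟩ := h
    by_cases h1 : ∃ y, (none, y) ∈ L
    · obtain ⟨y, hy⟩ := h1
      exact h0 (fun _ => y) (.inl ⟨y, fun _ => rfl⟩) fun x hx => hx.2.1 _ hy
    by_cases h2 : ∃ β g, (some β, none, g) ∈ L'
    · obtain ⟨β, g, hy⟩ := h2
      exact h0 (fun x => g • x β) (.inr ⟨β, g, fun _ => rfl⟩) fun x hx => hx.2.2 _ hy
    by_cases h3 : ∃ β g, (none, some β, g) ∈ L'
    · obtain ⟨β, g, hy⟩ := h3
      exact h0 (fun x => g⁻¹ • x β) (.inr ⟨β, _, fun _ => rfl⟩) fun x hx =>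
        eq_inv_smul_iff.2 (hx.2.2 _ hy).symm
    obtain ⟨N, h4, h5⟩ := ih (S := {x | b ∧ (∀ e ∈ {e : Γ × P | (some e.1, e.2) ∈ L}, x e.1 = e.2) ∧
      ∀ e ∈ {e : Γ × Γ × G | (some e.1, some e.2.1, e.2.2) ∈ L'}, x e.2.1 = e.2.2 • x e.1})
      ⟨b, _, _, rfl⟩
    have h6 : ∃ M ≤ 2, Nat.card {y : P // ∀ g, (none, none, g) ∈ L' → g • y = y} ≡ M [MOD l] := by
      by_cases h7 : ∀ g, (none, none, g) ∈ L' → ∀ y : P, g • y = y
      · exact ⟨2, le_rfl, by rwa [Nat.card_congr (Equiv.subtypeUnivEquiv fun y g hg => h7 g hg y)]⟩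
      · push Not at h7
        obtain ⟨g, hg, y, hy⟩ := h7
        refine ⟨_, le_trans (Nat.card_le_card_of_injective _ (Subtype.map_injective
          (q := fun y => g • y = y) (fun y h => h g hg) Function.injective_id))
          ((hG g).resolve_left fun h => hy (h y)), rfl⟩
    obtain ⟨M, h7, h8⟩ := h6
    refine ⟨M * N, by rw [Fintype.card_option, pow_succ']; exact Nat.mul_le_mul h7 h4, ?_⟩
    refine Eq.trans (congrArg (· % l) ?_) (h8.mul h5)
    rw [← Nat.card_prod]
    refine Nat.card_congr ⟨fun x => ⟨⟨x.1 none, fun g hg => (x.2.2.2 _ hg).symm⟩,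
      ⟨fun α => x.1 (some α), x.2.1, fun e he => x.2.2.1 _ he, fun e he => x.2.2.2 _ he⟩⟩,
      fun x => ⟨fun α => Option.elim α x.1.1 x.2.1, x.2.2.1, ?_, ?_⟩,
      fun x => Subtype.ext (funext fun α => by cases α <;> rfl), fun x => rfl⟩
    · rintro ⟨_ | α, y⟩ he
      · exact (h1 ⟨y, he⟩).elim
      · exact x.2.2.2.1 (α, y) he
    · rintro ⟨_ | α, _ | β, g⟩ he
      · exact (x.1.2 g he).symm
      · exact (h3 ⟨β, g, he⟩).elim
      · exact (h2 ⟨α, g, he⟩).elim
      · exact x.2.2.2.2 (α, β, g) he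

theorem Good.count [Fintype Γ] [Finite P] [Fintype (Γ → P)] {l : ℕ} (hP : Nat.card P ≡ 2 [MOD l])
    (hG : ∀ g : G, (∀ y : P, g • y = y) ∨ Nat.card {y : P // g • y = y} ≤ 2) {B : ℕ}
    {f : (Γ → P) → ℕ} (h : Good G B f) : ∃ N ≤ B * 2 ^ Fintype.card Γ, ∑ x, f x ≡ N [MOD l] := by
  classical
  obtain ⟨L, h1, h2, h3⟩ := h
  obtain rfl : f = _ := funext h3
  suffices ∃ N ≤ L.length * 2 ^ Fintype.card Γ,
      ∑ x, (L.map fun S => S.indicator 1 x).sum ≡ N [MOD l] from
    this.imp fun N h => ⟨h.1.trans (Nat.mul_le_mul_right _ h1), h.2⟩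
  clear h1 h3
  induction L with
  | nil => exact ⟨0, by simp, by simp [Nat.ModEq]⟩
  | cons S L ih =>
    obtain ⟨N, h3, h4⟩ := ih fun T hT => h2 T (by simp [hT])
    obtain ⟨M, h5, h6⟩ := (h2 S (by simp)).count hP hG
    refine ⟨M + N, by rw [List.length_cons, add_mul]; omega, ?_⟩
    simp only [List.map_cons, List.sum_cons, Finset.sum_add_distrib]
    refine Nat.ModEq.add (Eq.trans (congrArg (· % l) ?_) h6) h4
    simp [Set.indicator_apply, Nat.card_eq_fintype_card, Fintype.card_subtype]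

theorem line_card (F : Type) [Field F] [Fintype F] {l : ℕ} (hl : l ∣ Fintype.card F - 1) :
    Nat.card (Projectivization F (Fin 2 → F)) ≡ 2 [MOD l] := by
  rw [Projectivization.card_of_finrank_two F _ (finrank_fin_fun F), Nat.card_eq_fintype_card]
  exact (((Nat.modEq_iff_dvd' Fintype.card_pos).2 hl).symm.add_right 1)

theorem line_fixed (F : Type) [Field F] (g : (Fin 2 → F) ≃ₗ[F] (Fin 2 → F)) :
    (∀ y : Projectivization F (Fin 2 → F), g • y = y) ∨
      Nat.card {y : Projectivization F (Fin 2 → F) // g • y = y} ≤ 2 := by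
  refine or_iff_not_imp_right.2 fun h => ?_
  have h0 : ∀ y : Projectivization F (Fin 2 → F), g • y = y ↔ ∃ a : F, a • y.rep = g y.rep :=
    fun y => by
      conv_lhs => rw [← y.mk_rep, Projectivization.smul_mk, Projectivization.mk_eq_mk_iff']
      rfl
  haveI := Nat.finite_of_card_ne_zero (α := {y : Projectivization F (Fin 2 → F) // g • y = y})
    (by omega)
  letI := Fintype.ofFinite {y : Projectivization F (Fin 2 → F) // g • y = y}
  rw [Nat.card_eq_fintype_card, not_le, Fintype.two_lt_card_iff] at h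
  obtain ⟨⟨x, hx⟩, ⟨y, hy⟩, ⟨z, hz⟩, h1, h2, h3⟩ := h
  obtain ⟨a, ha⟩ := (h0 x).1 hx
  obtain ⟨b, hb⟩ := (h0 y).1 hy
  obtain ⟨c, hc⟩ := (h0 z).1 hz
  have h4 := Projectivization.linearIndependent_pair_iff_ne.2 fun e => h1 (Subtype.ext e)
  have h5 : ∀ v : Fin 2 → F, ∃ s t : F, s • x.rep + t • y.rep = v := fun v => by
    have := (h4.span_eq_top_of_card_eq_finrank' (by simp)).ge (Submodule.mem_top (x := v))
    rwa [Matrix.range_cons_cons_empty, Submodule.mem_span_pair] at this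
  obtain ⟨s, t, e⟩ := h5 z.rep
  have h6 : (c * s - s * a) • x.rep + (c * t - t * b) • y.rep = 0 := by
    rw [← e, map_add, map_smul, map_smul, ← ha, ← hb] at hc
    linear_combination (norm := module) hc
  obtain ⟨h7, h8⟩ := LinearIndependent.pair_iff.1 h4 _ _ h6
  have hs : s ≠ 0 := fun h => h3 (Subtype.ext (by
    rw [h, zero_smul, zero_add] at e
    change y = z
    rw [← y.mk_rep, ← z.mk_rep, eq_comm, Projectivization.mk_eq_mk_iff']
    exact ⟨t, e⟩))
  have ht : t ≠ 0 := fun h => h2 (Subtype.ext (by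
    rw [h, zero_smul, add_zero] at e
    change x = z
    rw [← x.mk_rep, ← z.mk_rep, eq_comm, Projectivization.mk_eq_mk_iff']
    exact ⟨s, e⟩))
  obtain rfl : c = a := mul_left_cancel₀ hs (by linear_combination h7)
  obtain rfl : c = b := mul_left_cancel₀ ht (by linear_combination h8)
  intro w
  obtain ⟨s', t', e'⟩ := h5 w.rep
  exact (h0 w).2 ⟨c, by rw [← e', map_add, map_smul, map_smul, ← ha, ← hb, smul_add,
    smul_comm c, smul_comm c]⟩

end Pool.Agent.P.MP_8598be_al.E
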